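import Mathlib

/-!
# Leading terms, and Hensel's lemma for polynomials which are not monic
-/

set_option autoImplicit false
set_option linter.unusedSectionVars false

namespace Pool.Agent.H662.A

open Polynomial

section rv

variable {L : Type*} [Field L] {Γ : Type*} [LinearOrderedCommGroupWithZero Γ] {v : Valuation L Γ}

/-- `x` and `y` have the same leading term. -/
def Rv (v : Valuation L Γ) (x y : L) : Prop := (x = 0 ∧ y = 0) ∨ v (x - y) < v y

theorem Rv.refl (x : L) : Rv v x x := by
  by_cases h : x = 0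
  · exact Or.inl ⟨h, h⟩
  · right
    rw [sub_self, map_zero]
    exact (Valuation.pos_iff v).2 h

theorem Rv.v_eq {x y : L} (h : Rv v x y) : v x = v y := by
  rcases h with ⟨rfl, rfl⟩ | h
  · rfl
  · have e : x = (x - y) + y := by ring
    rw [e]
    exact Valuation.map_add_eq_of_lt_right v h

theorem Rv.symm {x y : L} (h : Rv v x y) : Rv v y x := by
  have h1 := h.v_eq
  rcases h with ⟨rfl, rfl⟩ | h
  · exact Or.inl ⟨rfl, rfl⟩
  · right
    rw [Valuation.map_sub_swap, h1]
    exact h

theorem Rv.zero_iff {x y : L} (h : Rv v x y) : x = 0 ↔ y = 0 := by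
  rw [← Valuation.zero_iff v, ← Valuation.zero_iff v (x := y), h.v_eq]

theorem Rv.trans {x y z : L} (h : Rv v x y) (h' : Rv v y z) : Rv v x z := by
  have h1 := h.v_eq
  have h2 := h'.v_eq
  rcases h with ⟨rfl, rfl⟩ | h
  · exact h'
  · rcases h' with ⟨rfl, rfl⟩ | h'
    · rw [map_zero] at h
      exact absurd h not_lt_zero
    · right
      have e : x - z = (x - y) + (y - z) := by ring
      rw [e]
      refine lt_of_le_of_lt (Valuation.map_add v _ _) (max_lt ?_ h')
      rwa [← h2]

theorem Rv.of_lt {y z : L} (h : v z < v y) : Rv v (y + z) y := by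
  right
  rwa [add_sub_cancel_left]

theorem Rv.mul {x y x' y' : L} (h : Rv v x y) (h' : Rv v x' y') : Rv v (x * x') (y * y') := by
  have h1 := h.v_eq
  have h2 := h'.v_eq
  rcases h with ⟨rfl, rfl⟩ | h
  · left; simp
  · rcases h' with ⟨rfl, rfl⟩ | h'
    · left; simp
    · right
      have hy : 0 < v y := zero_le.trans_lt h
      have hy' : 0 < v y' := zero_le.trans_lt h'
      have e : x * x' - y * y' = x * (x' - y') + (x - y) * y' := by ring
      rw [e, map_mul]
      refine lt_of_le_of_lt (Valuation.map_add v _ _) (max_lt ?_ ?_)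
      · rw [map_mul, h1]
        exact mul_lt_mul_of_pos_left h' hy
      · rw [map_mul]
        exact mul_lt_mul_of_pos_right h hy'

theorem Rv.pow {x y : L} (h : Rv v x y) (n : ℕ) : Rv v (x ^ n) (y ^ n) := by
  induction n with
  | zero => rw [pow_zero, pow_zero]; exact Rv.refl _
  | succ n ih => rw [pow_succ, pow_succ]; exact ih.mul h

theorem Rv.cancel {x y z : L} (hz : z ≠ 0) (h : Rv v (x * z) (y * z)) : Rv v x y := by
  have hz' : 0 < v z := (Valuation.pos_iff v).2 hz
  rcases h with ⟨h1, h2⟩ | h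
  · exact Or.inl ⟨(mul_eq_zero.1 h1).resolve_right hz, (mul_eq_zero.1 h2).resolve_right hz⟩
  · right
    rw [← sub_mul, map_mul, map_mul] at h
    exact lt_of_mul_lt_mul_right h hz'.le

theorem Rv.inv {x y : L} (h : Rv v x y) : Rv v x⁻¹ y⁻¹ := by
  by_cases hx : x = 0
  · have hy := h.zero_iff.1 hx
    rw [hx, hy]
    exact Rv.refl _
  · have hy : y ≠ 0 := fun h' => hx (h.zero_iff.2 h')
    refine Rv.cancel hx (Rv.cancel hy ?_)
    have e1 : x⁻¹ * x * y = y := by rw [inv_mul_cancel₀ hx, one_mul]
    have e2 : y⁻¹ * x * y = x := by rw [mul_comm y⁻¹, mul_assoc, inv_mul_cancel₀ hy, mul_one]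
    rw [e1, e2]
    exact h.symm

theorem Rv.neg {x y : L} (h : Rv v x y) : Rv v (-x) (-y) := by
  have := h.mul (Rv.refl (v := v) (-1))
  rwa [mul_neg_one, mul_neg_one] at this

theorem Rv.of_lt_sub {x y : L} (h : v (x - y) < v x) : Rv v x y := by
  refine Rv.symm (Or.inr ?_)
  rwa [Valuation.map_sub_swap]

theorem v_natCast_le (v : Valuation L Γ) (n : ℕ) : v (n : L) ≤ 1 := by
  induction n with
  | zero => simp
  | succ n ih =>
    rw [Nat.cast_succ]
    exact (Valuation.map_add v _ _).trans (max_le ih (by rw [map_one]))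

theorem v_eval_le {f : L[X]} {y : L} {m : Γ} (h : ∀ j, v (f.coeff j) * v y ^ j ≤ m) :
    v (f.eval y) ≤ m := by
  rw [eval_eq_sum_range]
  refine Valuation.map_sum_le v fun i _ => ?_
  rw [map_mul, map_pow]
  exact h i

theorem v_eval_lt {f : L[X]} {y : L} {m : Γ} (hm : m ≠ 0)
    (h : ∀ j, v (f.coeff j) * v y ^ j < m) : v (f.eval y) < m := by
  rw [eval_eq_sum_range]
  refine Valuation.map_sum_lt v hm fun i _ => ?_
  rw [map_mul, map_pow]
  exact h i

/-- Bound for the Taylor coefficients. -/
theorem v_taylor_le {f : L[X]} {d : L} {ρ m : Γ} (hd : v d ≤ ρ)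
    (h : ∀ j, v (f.coeff j) * ρ ^ j ≤ m) (j : ℕ) : v ((taylor d f).coeff j) * ρ ^ j ≤ m := by
  by_cases hρ : ρ = 0
  · subst hρ
    have hd0 : d = 0 := by
      rw [← Valuation.zero_iff v]
      exact le_zero_iff.1 hd
    subst hd0
    rw [taylor_zero]
    exact h j
  rw [taylor_coeff, hasseDeriv_apply, sum_def, eval_finsetSum]
  have hρ' : 0 < ρ := zero_lt_iff.2 hρ
  have key : ∀ i ∈ f.support, v (eval d ((monomial (i - j)) (↑(i.choose j) * f.coeff i))) * ρ ^ j ≤
      m := by
    intro i _
    by_cases hij : i < j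
    · rw [Nat.choose_eq_zero_of_lt hij]
      simp
    · rw [not_lt] at hij
      rw [eval_monomial, map_mul, map_mul, map_pow]
      refine le_trans ?_ (h i)
      calc v (↑(i.choose j) : L) * v (f.coeff i) * v d ^ (i - j) * ρ ^ j
          ≤ 1 * v (f.coeff i) * ρ ^ (i - j) * ρ ^ j := by
            gcongr
            exact v_natCast_le v _
        _ = v (f.coeff i) * ρ ^ i := by
            rw [one_mul, mul_assoc, ← pow_add, Nat.sub_add_cancel hij]
  have h2 : v (∑ i ∈ f.support, eval d ((monomial (i - j)) (↑(i.choose j) * f.coeff i))) ≤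
      m * (ρ ^ j)⁻¹ := by
    refine Valuation.map_sum_le v fun i hi => ?_
    rw [← div_eq_mul_inv, le_div_iff₀ (pow_pos hρ' j)]
    exact key i hi
  rwa [← div_eq_mul_inv, le_div_iff₀ (pow_pos hρ' j)] at h2

theorem v_taylor_lt {f : L[X]} {d : L} {ρ m : Γ} (hm : m ≠ 0) (hd : v d ≤ ρ) {j : ℕ}
    (h : ∀ i, j ≤ i → v (f.coeff i) * ρ ^ i < m) : v ((taylor d f).coeff j) * ρ ^ j < m := by
  by_cases hρ : ρ = 0
  · subst hρ
    have hd0 : d = 0 := by
      rw [← Valuation.zero_iff v]
      exact le_zero_iff.1 hd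
    subst hd0
    rw [taylor_zero]
    exact h j le_rfl
  rw [taylor_coeff, hasseDeriv_apply, sum_def, eval_finsetSum]
  have hρ' : 0 < ρ := zero_lt_iff.2 hρ
  have key : ∀ i ∈ f.support, v (eval d ((monomial (i - j)) (↑(i.choose j) * f.coeff i))) * ρ ^ j <
      m := by
    intro i _
    by_cases hij : i < j
    · rw [Nat.choose_eq_zero_of_lt hij]
      simpa using zero_lt_iff.2 hm
    · rw [not_lt] at hij
      rw [eval_monomial, map_mul, map_mul, map_pow]
      refine lt_of_le_of_lt ?_ (h i hij)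
      calc v (↑(i.choose j) : L) * v (f.coeff i) * v d ^ (i - j) * ρ ^ j
          ≤ 1 * v (f.coeff i) * ρ ^ (i - j) * ρ ^ j := by
            gcongr
            exact v_natCast_le v _
        _ = v (f.coeff i) * ρ ^ i := by
            rw [one_mul, mul_assoc, ← pow_add, Nat.sub_add_cancel hij]
  have h2 : v (∑ i ∈ f.support, eval d ((monomial (i - j)) (↑(i.choose j) * f.coeff i))) <
      m * (ρ ^ j)⁻¹ := by
    refine Valuation.map_sum_lt v (mul_ne_zero hm (inv_ne_zero (pow_ne_zero j hρ))) fun i hi => ?_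
    rw [← div_eq_mul_inv, lt_div_iff₀ (pow_pos hρ' j)]
    exact key i hi
  rwa [← div_eq_mul_inv, lt_div_iff₀ (pow_pos hρ' j)] at h2

/-- Henselian valued fields, by monic polynomials. -/
def Hens (v : Valuation L Γ) : Prop :=
  ∀ f : L[X], f.Monic → (∀ i, v (f.coeff i) ≤ 1) → ∀ a : L, v a ≤ 1 → v (f.eval a) < 1 →
    v (f.derivative.eval a) = 1 → ∃ b : L, f.eval b = 0 ∧ v (b - a) < 1

/-- Hensel's lemma at zero, for polynomials which are not monic. -/
theorem Hens.nonmonic (hv : Hens v) {g : L[X]} (hg : ∀ i, v (g.coeff i) ≤ 1)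
    (h0 : v (g.coeff 0) < 1) (h1 : v (g.coeff 1) = 1) : ∃ y, g.eval y = 0 ∧ v y < 1 := by
  by_cases hc0 : g.coeff 0 = 0
  · exact ⟨0, by rw [← coeff_zero_eq_eval_zero, hc0], by simp⟩
  set c0 := g.coeff 0 with hc0d
  set n := g.natDegree with hn
  have hn1 : 1 ≤ n := by
    refine le_natDegree_of_ne_zero fun h => ?_
    rw [h, map_zero] at h1
    exact zero_ne_one h1
  let d : ℕ → L := fun i => g.coeff i * c0 ^ i / c0
  have hd0 : d 0 = 1 := by simp [d, ← hc0d, hc0]
  have hd1 : d 1 = g.coeff 1 := by simp [d, hc0]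
  have hdi : ∀ i, v (d (i + 2)) < 1 := by
    intro i
    have e : d (i + 2) = g.coeff (i + 2) * c0 ^ i * c0 := by
      simp only [d]
      field_simp
      ring
    rw [e, map_mul, map_mul, map_pow]
    refine lt_of_le_of_lt ?_ h0
    refine mul_le_of_le_one_left' (mul_le_one' (hg _) (pow_le_one' h0.le _))
  have hdle : ∀ i, v (d i) ≤ 1 := by
    intro i
    rcases i with _ | _ | i
    · rw [hd0, map_one]
    · rw [zero_add, hd1, h1]
    · exact (hdi i).le
  let q : L[X] := ∑ i ∈ Finset.range n, C (d (i + 1)) * X ^ (n - (i + 1))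
  let h : L[X] := X ^ n + q
  have hq : q.degree < n := by
    refine lt_of_le_of_lt (degree_sum_le _ _) ((Finset.sup_lt_iff (WithBot.bot_lt_coe n)).2 ?_)
    intro i hi
    rw [Finset.mem_range] at hi
    refine lt_of_le_of_lt (degree_C_mul_X_pow_le _ _) ?_
    have h3 : n - (i + 1) < n := by omega
    exact Nat.cast_lt.2 h3
  have hmon : h.Monic := monic_X_pow_add hq
  have hqc : ∀ j, v (q.coeff j) ≤ 1 := by
    intro j
    simp only [q, finsetSum_coeff]
    refine Valuation.map_sum_le v fun i _ => ?_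
    rw [coeff_C_mul, coeff_X_pow]
    split_ifs
    · rw [mul_one]; exact hdle _
    · simp
  have hcoef : ∀ i, v (h.coeff i) ≤ 1 := by
    intro i
    simp only [h, coeff_add, coeff_X_pow]
    refine (Valuation.map_add v _ _).trans (max_le ?_ (hqc i))
    split_ifs <;> simp
  set a : L := - g.coeff 1 with ha
  have hva : v a = 1 := by rw [ha, Valuation.map_neg, h1]
  have ha0 : a ≠ 0 := by
    rintro h
    rw [h, map_zero] at hva
    exact zero_ne_one hva
  -- value at `a`
  have heval : ∀ t : L, h.eval t = t ^ n + ∑ i ∈ Finset.range n, d (i + 1) * t ^ (n - (i + 1)) := by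
    intro t
    simp only [h, q, eval_add, eval_pow, eval_X, eval_finsetSum, eval_mul, eval_C]
  obtain ⟨k, hk⟩ : ∃ k, n = k + 1 := ⟨n - 1, by omega⟩
  have hpoly : h = X ^ k * (X + C (g.coeff 1)) +
      ∑ i ∈ Finset.range k, C (d (i + 2)) * X ^ (k - (i + 1)) := by
    simp only [h, q]
    rw [hk, Finset.sum_range_succ', zero_add, hd1]
    have e : ∀ i ∈ Finset.range k, C (d (i + 1 + 1)) * X ^ (k + 1 - (i + 1 + 1)) =
        C (d (i + 2)) * X ^ (k - (i + 1)) := by
      intro i _
      have : k + 1 - (i + 1 + 1) = k - (i + 1) := by omega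
      rw [this]
    rw [Finset.sum_congr rfl e]
    have : k + 1 - 1 = k := by omega
    rw [this]
    ring
  have hsum : ∀ t : L, h.eval t = t ^ k * (t + g.coeff 1) +
      ∑ i ∈ Finset.range k, d (i + 2) * t ^ (k - (i + 1)) := by
    intro t
    rw [hpoly]
    simp only [eval_add, eval_mul, eval_pow, eval_X, eval_C, eval_finsetSum]
  have hev : v (h.eval a) < 1 := by
    rw [hsum, ha, neg_add_cancel, mul_zero, zero_add]
    refine Valuation.map_sum_lt v one_ne_zero fun i _ => ?_
    rw [map_mul, map_pow, ← ha, hva, one_pow, mul_one]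
    exact hdi i
  -- derivative at `a`
  have hder : h.derivative = C (k : L) * X ^ (k - 1) * (X + C (g.coeff 1)) + X ^ k +
      ∑ i ∈ Finset.range k, C (d (i + 2)) * derivative (X ^ (k - (i + 1))) := by
    rw [hpoly]
    simp only [derivative_add, derivative_mul, derivative_X_pow, derivative_X, derivative_C,
      derivative_sum, zero_mul, zero_add, add_zero, mul_one]
  have hdev : v (h.derivative.eval a) = 1 := by
    rw [hder]
    simp only [eval_add, eval_mul, eval_pow, eval_X, eval_C, eval_finsetSum]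
    have e1 : a + g.coeff 1 = 0 := by rw [ha]; ring
    rw [e1, mul_zero, zero_add]
    have h2 : v (∑ i ∈ Finset.range k, d (i + 2) * eval a (derivative (X ^ (k - (i + 1)) : L[X]))) <
        v (a ^ k) := by
      rw [map_pow, hva, one_pow]
      refine Valuation.map_sum_lt v one_ne_zero fun i _ => ?_
      rw [map_mul, derivative_X_pow]
      simp only [eval_mul, eval_C, eval_pow, eval_X, map_mul, map_pow]
      rw [hva, one_pow, mul_one]
      exact (mul_le_of_le_one_right' (v_natCast_le v _)).trans_lt (hdi i)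
    rw [Valuation.map_add_eq_of_lt_left v h2, map_pow, hva, one_pow]
  obtain ⟨t, ht, hta⟩ := hv h hmon hcoef a hva.le hev hdev
  have hvt : v t = 1 := by
    have e : t = a + (t - a) := by ring
    rw [e, Valuation.map_add_eq_of_lt_left v (by rw [hva]; exact hta), hva]
  have ht0 : t ≠ 0 := by
    rintro rfl
    rw [map_zero] at hvt
    exact zero_ne_one hvt
  refine ⟨c0 / t, ?_, by rw [map_div₀, hvt, div_one]; exact h0⟩
  have e : g.eval (c0 / t) * t ^ n = c0 * h.eval t := by
    rw [eval_eq_sum_range, heval, Finset.sum_mul, Finset.sum_range_succ']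
    rw [mul_add, Finset.mul_sum, add_comm]
    congr 1
    · simp [← hc0d]
    · refine Finset.sum_congr rfl fun i hi => ?_
      rw [Finset.mem_range] at hi
      have e2 : t ^ n = t ^ (i + 1) * t ^ (n - (i + 1)) := by
        rw [← pow_add]
        congr 1
        omega
      simp only [d]
      rw [div_pow, e2]
      field_simp
  rw [ht, mul_zero] at e
  exact (mul_eq_zero.1 e).resolve_right (pow_ne_zero _ ht0)

end rv

end Pool.Agent.H662.A
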