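import Pool.Agent.H662.A1

/-!
# Hensel's lemma in balls
-/

set_option autoImplicit false
set_option linter.unusedSectionVars false

namespace Pool.Agent.H662.A

open Polynomial

section

variable {L : Type*} [Field L] {Γ : Type*} [LinearOrderedCommGroupWithZero Γ] {v : Valuation L Γ}

theorem coeff_taylor_monomial (d c : L) (j : ℕ) : (taylor d (monomial j c)).coeff j = c := by
  rw [taylor_monomial, coeff_C_mul, coeff_X_add_C_pow, Nat.sub_self, pow_zero, Nat.choose_self]
  simp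

theorem v_taylor_sub_lt {f : L[X]} {d : L} {ρ m : Γ} (hm : m ≠ 0) (hd : v d ≤ ρ) {j : ℕ}
    (h : ∀ i, j < i → v (f.coeff i) * ρ ^ i < m) :
    v ((taylor d f).coeff j - f.coeff j) * ρ ^ j < m := by
  have h1 := v_taylor_lt (f := f - monomial j (f.coeff j)) (j := j) hm hd (fun i hi => by
    rcases hi.lt_or_eq with hi | rfl
    · rw [coeff_sub, coeff_monomial, if_neg (by omega), sub_zero]
      exact h i hi
    · rw [coeff_sub, coeff_monomial, if_pos rfl, sub_self, map_zero, zero_mul]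
      exact zero_lt_iff.2 hm)
  rwa [map_sub, coeff_sub, coeff_taylor_monomial] at h1

/-- the constant coefficient dominates -/
def Dom (v : Valuation L Γ) (T : L[X]) (ρ : Γ) : Prop :=
  ∀ j, 1 ≤ j → v (T.coeff j) * ρ ^ j < v (T.coeff 0)

theorem Dom.mono {T : L[X]} {ρ ρ' : Γ} (h : Dom v T ρ) (hρ : ρ' ≤ ρ) : Dom v T ρ' := fun j hj =>
  lt_of_le_of_lt (by gcongr) (h j hj)

theorem Dom.ne_zero {T : L[X]} {ρ : Γ} (h : Dom v T ρ) : v (T.coeff 0) ≠ 0 :=
  (zero_le.trans_lt (h 1 le_rfl)).ne'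

theorem Dom.v_taylor_zero {T : L[X]} {ρ : Γ} (h : Dom v T ρ) {d : L} (hd : v d ≤ ρ) :
    v ((taylor d T).coeff 0) = v (T.coeff 0) := by
  have h1 := v_taylor_sub_lt (j := 0) h.ne_zero hd (fun i hi => h i hi)
  rw [pow_zero, mul_one] at h1
  have e : (taylor d T).coeff 0 = ((taylor d T).coeff 0 - T.coeff 0) + T.coeff 0 := by ring
  rw [e, Valuation.map_add_eq_of_lt_right v h1]

theorem Dom.taylor {T : L[X]} {ρ : Γ} (h : Dom v T ρ) {d : L} (hd : v d ≤ ρ) :
    Dom v (taylor d T) ρ := by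
  intro j hj
  rw [h.v_taylor_zero hd]
  exact v_taylor_lt h.ne_zero hd fun i hi => h i (hj.trans hi)

theorem Dom.eval {T : L[X]} {ρ : Γ} (h : Dom v T ρ) {y : L} (hy : v y ≤ ρ) :
    Rv v (T.eval y) (T.coeff 0) := by
  have h1 := v_taylor_sub_lt (j := 0) h.ne_zero hy (fun i hi => h i hi)
  rw [pow_zero, mul_one, taylor_coeff_zero] at h1
  exact Or.inr h1

/-- Hensel's lemma close to a point. -/
theorem Hens.near (hv : Hens v) {f : L[X]} {a ρ : L} (hρ : ρ ≠ 0)
    (h0 : v ((taylor a f).coeff 0) < v ((taylor a f).coeff 1) * v ρ)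
    (h1 : ∀ j, v ((taylor a f).coeff j) * v ρ ^ j ≤ v ((taylor a f).coeff 1) * v ρ) :
    ∃ y, f.eval y = 0 ∧ v (y - a) < v ρ := by
  set T := taylor a f with hT
  have hρ' : 0 < v ρ := (Valuation.pos_iff v).2 hρ
  have hm : v (T.coeff 1) * v ρ ≠ 0 := (zero_le.trans_lt h0).ne'
  have hT1 : T.coeff 1 ≠ 0 := fun h => hm (by rw [h, map_zero, zero_mul])
  set c : L := T.coeff 1 * ρ with hc
  have hc0 : c ≠ 0 := mul_ne_zero hT1 hρ
  have hvc : v c = v (T.coeff 1) * v ρ := map_mul _ _ _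
  have hvc0 : 0 < v c := (Valuation.pos_iff v).2 hc0
  let g : L[X] := C c⁻¹ * T.comp (C ρ * X)
  have hg : ∀ j, g.coeff j = c⁻¹ * (T.coeff j * ρ ^ j) := fun j => by
    simp only [g]
    rw [coeff_C_mul, comp_C_mul_X_coeff]
  obtain ⟨t, ht, hvt⟩ := hv.nonmonic (g := g) (fun i => by
      rw [hg, map_mul, map_mul, map_pow, map_inv₀, inv_mul_le_iff₀ hvc0, mul_one, hvc]
      exact h1 i) (by
      rw [hg, map_mul, map_mul, map_pow, map_inv₀, inv_mul_lt_iff₀ hvc0, mul_one, hvc, pow_zero,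
        mul_one]
      exact h0) (by
      rw [hg, pow_one, ← hc, inv_mul_cancel₀ hc0, map_one])
  refine ⟨ρ * t + a, ?_, ?_⟩
  · have e : g.eval t = c⁻¹ * T.eval (ρ * t) := by simp [g]
    rw [e, hT, taylor_eval] at ht
    exact (mul_eq_zero.1 ht).resolve_left (inv_ne_zero hc0)
  · rw [add_sub_cancel_right, map_mul]
    exact mul_lt_of_lt_one_right hρ' hvt

/-- the linear coefficient dominates the higher ones -/
def Lin (v : Valuation L Γ) (T : L[X]) (ρ : Γ) : Prop :=
  ∀ j, 2 ≤ j → v (T.coeff j) * ρ ^ j < v (T.coeff 1) * ρ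

theorem Lin.ne_zero {T : L[X]} {ρ : Γ} (h : Lin v T ρ) : v (T.coeff 1) * ρ ≠ 0 :=
  (zero_le.trans_lt (h 2 le_rfl)).ne'

theorem Lin.v_taylor_one {T : L[X]} {ρ : Γ} (h : Lin v T ρ) {d : L} (hd : v d ≤ ρ) :
    v ((Polynomial.taylor d T).coeff 1) = v (T.coeff 1) := by
  have h1 := v_taylor_sub_lt (j := 1) h.ne_zero hd (fun i hi => h i hi)
  rw [pow_one] at h1
  have hρ : 0 ≤ ρ := zero_le
  have h2 := lt_of_mul_lt_mul_right h1 hρ
  have e : (taylor d T).coeff 1 = ((taylor d T).coeff 1 - T.coeff 1) + T.coeff 1 := by ring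
  rw [e, Valuation.map_add_eq_of_lt_right v h2]

theorem Lin.taylor {T : L[X]} {ρ : Γ} (h : Lin v T ρ) {d : L} (hd : v d ≤ ρ) :
    Lin v (Polynomial.taylor d T) ρ := by
  intro j hj
  rw [h.v_taylor_one hd]
  exact v_taylor_lt h.ne_zero hd fun i hi => h i (hj.trans hi)

/-- Hensel's lemma in a closed ball. -/
theorem Hens.ball (hv : Hens v) {f : L[X]} {a ρ : L}
    (h0 : v ((taylor a f).coeff 0) ≤ v ((taylor a f).coeff 1) * v ρ)
    (h1 : Lin v (taylor a f) (v ρ)) : ∃ y, f.eval y = 0 ∧ v (y - a) ≤ v ρ := by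
  set T := taylor a f with hT
  have hm := h1.ne_zero
  have hT1 : T.coeff 1 ≠ 0 := fun h => hm (by rw [h, map_zero, zero_mul])
  have hρ : ρ ≠ 0 := fun h => hm (by rw [h, map_zero, mul_zero])
  have hvT : 0 < v (T.coeff 1) := (Valuation.pos_iff v).2 hT1
  set t0 : L := - T.coeff 0 / T.coeff 1 with ht0
  have hvt0 : v t0 ≤ v ρ := by
    rw [ht0, map_div₀, Valuation.map_neg, div_le_iff₀ hvT, mul_comm]
    exact h0
  have e1 : taylor (a + t0) f = taylor t0 T := by
    rw [hT, taylor_taylor, add_comm]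
  have h2 := h1.v_taylor_one hvt0
  -- the value at `t0`
  have h3 : v ((taylor t0 T).coeff 0) < v (T.coeff 1) * v ρ := by
    let R : L[X] := T - C (T.coeff 0) - monomial 1 (T.coeff 1)
    have hR : ∀ j, v (R.coeff j) * v ρ ^ j < v (T.coeff 1) * v ρ := by
      intro j
      simp only [R, coeff_sub, coeff_C, coeff_monomial]
      rcases j with _ | _ | j
      · simpa using zero_lt_iff.2 hm
      · simpa using zero_lt_iff.2 hm
      · simp only [Nat.add_eq_zero_iff, one_ne_zero, and_false, and_self, ↓reduceIte, sub_zero]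
        rw [if_neg (by omega), sub_zero]
        exact h1 _ (by omega)
    have h4 : v (R.eval t0) < v (T.coeff 1) * v ρ := by
      refine v_eval_lt hm fun j => lt_of_le_of_lt ?_ (hR j)
      gcongr
    have e2 : R.eval t0 = T.eval t0 := by
      simp only [R, eval_sub, eval_C, eval_monomial, pow_one]
      rw [ht0, mul_div_cancel₀ _ hT1]
      ring
    rwa [taylor_coeff_zero, ← e2]
  obtain ⟨y, hy, hya⟩ := hv.near (f := f) (a := a + t0) hρ (by rw [e1, h2]; exact h3) (fun j => by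
    rw [e1, h2]
    rcases j with _ | _ | j
    · rw [pow_zero, mul_one]; exact h3.le
    · rw [zero_add, pow_one, h2]
    · have := h1.taylor hvt0 (j + 2) (by omega)
      rw [h2] at this
      exact this.le)
  refine ⟨y, hy, ?_⟩
  have e : y - a = (y - (a + t0)) + t0 := by ring
  rw [e]
  exact (Valuation.map_add v _ _).trans (max_le hya.le hvt0)

/-- Uniqueness of the root in the ball. -/
theorem Lin.unique {f : L[X]} {a : L} {ρ : Γ} (h1 : Lin v (Polynomial.taylor a f) ρ) {y y' : L}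
    (hy : f.eval y = 0) (hy' : f.eval y' = 0) (hya : v (y - a) ≤ ρ) (hya' : v (y' - a) ≤ ρ) :
    y = y' := by
  by_contra hne
  set T := Polynomial.taylor a f with hT
  set T' := Polynomial.taylor (y - a) T with hT'
  have hm := h1.ne_zero
  have e1 : Polynomial.taylor y f = T' := by
    rw [hT', hT, taylor_taylor, sub_add_cancel]
  have h2 := h1.v_taylor_one hya
  have h3 := h1.taylor hya
  set δ := y' - y with hδ
  have hδ0 : δ ≠ 0 := sub_ne_zero.2 (Ne.symm hne)
  have hvδ : 0 < v δ := (Valuation.pos_iff v).2 hδ0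
  have hδρ : v δ ≤ ρ := by
    have e : δ = (y' - a) - (y - a) := by rw [hδ]; ring
    rw [e]
    exact (Valuation.map_sub v _ _).trans (max_le hya' hya)
  have hρ : 0 < ρ := hvδ.trans_le hδρ
  have hT1 : 0 < v (T.coeff 1) := by
    refine zero_lt_iff.2 fun h => hm ?_
    rw [h, zero_mul]
  have e2 : T'.eval δ = 0 := by
    rw [← e1, taylor_eval, hδ, sub_add_cancel, hy']
  have e3 : T'.coeff 0 = 0 := by
    rw [← e1, taylor_coeff_zero, hy]
  -- lower bound
  let R : L[X] := T' - monomial 1 (T'.coeff 1)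
  have hR : ∀ j, v (R.coeff j) * v δ ^ j < v (T.coeff 1) * v δ := by
    intro j
    simp only [R, coeff_sub, coeff_monomial]
    rcases j with _ | _ | j
    · rw [e3]
      simpa using mul_pos hT1 hvδ
    · simpa using mul_pos hT1 hvδ
    · rw [if_neg (by omega), sub_zero]
      have h4 := h3 (j + 2) (by omega)
      rw [h2] at h4
      have h5 : v (T'.coeff (j + 2)) * ρ ^ (j + 1) < v (T.coeff 1) := by
        rw [pow_succ, ← mul_assoc] at h4
        exact lt_of_mul_lt_mul_right h4 hρ.le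
      calc v (T'.coeff (j + 2)) * v δ ^ (j + 2)
          = v (T'.coeff (j + 2)) * v δ ^ (j + 1) * v δ := by rw [pow_succ, mul_assoc]
        _ ≤ v (T'.coeff (j + 2)) * ρ ^ (j + 1) * v δ := by gcongr
        _ < v (T.coeff 1) * v δ := mul_lt_mul_of_pos_right h5 hvδ
  have h4 := v_eval_lt (y := δ) (mul_pos hT1 hvδ).ne' hR
  have e4 : R.eval δ = - (T'.coeff 1 * δ) := by
    simp only [R, eval_sub, eval_monomial, pow_one, e2, zero_sub]
  rw [e4, Valuation.map_neg, map_mul, h2] at h4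
  exact lt_irrefl _ h4

end

end Pool.Agent.H662.A
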