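import Pool.Agent.H662.A2

/-!
# Graphs of partial embeddings over a map of leading terms
-/

set_option autoImplicit false
set_option linter.unusedSectionVars false

namespace Pool.Agent.H662.A

open Polynomial

variable {L M : Type*} [Field L] [Field M] {Γ Δ : Type*} [LinearOrderedCommGroupWithZero Γ]
  [LinearOrderedCommGroupWithZero Δ]

/-- A map which induces a homomorphism of the leading term structures. -/
structure RVmap (v : Valuation L Γ) (w : Valuation M Δ) (g : Γ →*₀ Δ) (η : L → M) : Prop where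
  mono : StrictMono g
  val : ∀ x, w (η x) = g (v x)
  mul : ∀ x y, Rv w (η (x * y)) (η x * η y)
  add : ∀ m x y, m ≠ 0 → v x ≤ v m → v y ≤ v m → w (η (x + y) - (η x + η y)) < w (η m)

namespace RVmap

variable {v : Valuation L Γ} {w : Valuation M Δ} {g : Γ →*₀ Δ} {η : L → M}
  (h : RVmap v w g η)

include h

theorem zero_iff (x : L) : η x = 0 ↔ x = 0 := by
  rw [← Valuation.zero_iff w, h.val, ← Valuation.zero_iff v]
  constructor
  · intro h1
    by_contra h2
    have := h.mono (zero_lt_iff.2 h2)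
    rw [h1, map_zero] at this
    exact lt_irrefl _ this
  · intro h1
    rw [h1, map_zero]

theorem zero : η 0 = 0 := (h.zero_iff 0).2 rfl

theorem lt_iff (x y : L) : w (η x) < w (η y) ↔ v x < v y := by
  rw [h.val, h.val, h.mono.lt_iff_lt]

theorem le_iff (x y : L) : w (η x) ≤ w (η y) ↔ v x ≤ v y := by
  rw [h.val, h.val, h.mono.le_iff_le]

theorem pos {m : L} (hm : m ≠ 0) : 0 < w (η m) :=
  (Valuation.pos_iff w).2 fun h' => hm ((h.zero_iff m).1 h')

theorem rv {x y : L} (hxy : Rv v x y) : Rv w (η x) (η y) := by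
  rcases hxy with ⟨rfl, rfl⟩ | hxy
  · exact Rv.refl _
  · have hy : y ≠ 0 := by
      rintro rfl
      rw [map_zero] at hxy
      exact not_lt_zero hxy
    right
    have h1 := h.add y y (x - y) hy le_rfl hxy.le
    rw [add_sub_cancel] at h1
    have h2 := (h.lt_iff _ _).2 hxy
    have e : η x - η y = (η x - (η y + η (x - y))) + η (x - y) := by ring
    rw [e]
    exact lt_of_le_of_lt (Valuation.map_add w _ _) (max_lt h1 h2)

theorem one : Rv w (η 1) 1 := by
  have h1 := h.mul 1 1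
  rw [mul_one] at h1
  have h2 : η 1 ≠ 0 := fun h' => one_ne_zero ((h.zero_iff 1).1 h')
  refine (Rv.cancel h2 ?_).symm
  rw [one_mul]
  exact h1

theorem neg (x : L) : Rv w (η (-x)) (-η x) := by
  by_cases hx : x = 0
  · rw [hx, neg_zero, h.zero, neg_zero]
    exact Rv.refl _
  · right
    have h1 := h.add x x (-x) hx le_rfl (by rw [Valuation.map_neg])
    rw [add_neg_cancel, h.zero, zero_sub, Valuation.map_neg] at h1
    rw [Valuation.map_neg, sub_neg_eq_add, add_comm]
    exact h1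

theorem pow (x : L) (n : ℕ) : Rv w (η (x ^ n)) (η x ^ n) := by
  induction n with
  | zero => rw [pow_zero, pow_zero]; exact h.one
  | succ n ih =>
    rw [pow_succ, pow_succ]
    exact (h.mul _ _).trans (ih.mul (Rv.refl _))

theorem inv (x : L) : Rv w (η x⁻¹) (η x)⁻¹ := by
  by_cases hx : x = 0
  · rw [hx, inv_zero, h.zero, inv_zero]
    exact Rv.refl _
  · have h1 : η x ≠ 0 := fun h' => hx ((h.zero_iff x).1 h')
    refine Rv.cancel h1 ?_
    rw [inv_mul_cancel₀ h1]
    refine ((h.mul _ _).symm).trans ?_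
    rw [inv_mul_cancel₀ hx]
    exact h.one

theorem sum {ι : Type*} (s : Finset ι) (X : ι → L) (Y : ι → M) (m : L) (hm : m ≠ 0)
    (hX : ∀ i ∈ s, v (X i) ≤ v m) (hY : ∀ i ∈ s, Rv w (Y i) (η (X i))) :
    w (∑ i ∈ s, Y i - η (∑ i ∈ s, X i)) < w (η m) := by
  classical
  induction s using Finset.induction_on with
  | empty =>
    rw [Finset.sum_empty, Finset.sum_empty, h.zero, sub_zero, map_zero]
    exact h.pos hm
  | insert a s ha ih =>
    rw [Finset.sum_insert ha, Finset.sum_insert ha]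
    have h1 := ih (fun i hi => hX i (Finset.mem_insert_of_mem hi))
      (fun i hi => hY i (Finset.mem_insert_of_mem hi))
    have h2 : v (∑ i ∈ s, X i) ≤ v m := Valuation.map_sum_le v fun i hi =>
      hX i (Finset.mem_insert_of_mem hi)
    have h3 := h.add m (X a) (∑ i ∈ s, X i) hm (hX a (Finset.mem_insert_self _ _)) h2
    have h4 : w (Y a - η (X a)) < w (η m) := by
      rcases hY a (Finset.mem_insert_self _ _) with ⟨h5, h6⟩ | h5
      · rw [h5, h6, sub_zero, map_zero]
        exact h.pos hm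
      · exact h5.trans_le ((h.le_iff _ _).2 (hX a (Finset.mem_insert_self _ _)))
    have e : Y a + ∑ i ∈ s, Y i - η (X a + ∑ i ∈ s, X i) =
        (Y a - η (X a)) + (∑ i ∈ s, Y i - η (∑ i ∈ s, X i)) -
          (η (X a + ∑ i ∈ s, X i) - (η (X a) + η (∑ i ∈ s, X i))) := by ring
    rw [e]
    refine lt_of_le_of_lt (Valuation.map_sub w _ _) (max_lt ?_ h3)
    exact lt_of_le_of_lt (Valuation.map_add w _ _) (max_lt h4 h1)

end RVmap

/-- Graphs of partial embeddings which induce the given map on the leading terms. -/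
structure Good (w : Valuation M Δ) (η : L → M) (G : Subring (L × M)) : Prop where
  inv : ∀ p ∈ G, (p.1⁻¹, p.2⁻¹) ∈ G
  rv : ∀ p ∈ G, Rv w p.2 (η p.1)

/-- the first projection -/
def E1 (G : Subring (L × M)) : G →+* L := (RingHom.fst L M).comp G.subtype

/-- the second projection -/
def E2 (G : Subring (L × M)) : G →+* M := (RingHom.snd L M).comp G.subtype

section

variable {v : Valuation L Γ} {w : Valuation M Δ} {g : Γ →*₀ Δ} {η : L → M}

theorem ext_good (h : RVmap v w g η) {G : Subring (L × M)} (hG : Good w η G) {x : L} {z : M}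
    (hc : ∀ P : G[X], Rv w (P.eval₂ (E2 G) z) (η (P.eval₂ (E1 G) x))) :
    ∃ G' : Subring (L × M), G ≤ G' ∧ Good w η G' ∧ (x, z) ∈ G' := by
  have hne : ∀ Q : G[X], Q.eval₂ (E1 G) x ≠ 0 → Q.eval₂ (E2 G) z ≠ 0 := fun Q hQ h' =>
    hQ ((h.zero_iff _).1 ((hc Q).zero_iff.1 h'))
  let G' : Subring (L × M) :=
    { carrier := {p | ∃ P Q : G[X], Q.eval₂ (E1 G) x ≠ 0 ∧
        p.1 * Q.eval₂ (E1 G) x = P.eval₂ (E1 G) x ∧ p.2 * Q.eval₂ (E2 G) z = P.eval₂ (E2 G) z}
      mul_mem' := by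
        rintro p p' ⟨P, Q, h1, h2, h3⟩ ⟨P', Q', h1', h2', h3'⟩
        refine ⟨P * P', Q * Q', ?_, ?_, ?_⟩
        · rw [eval₂_mul]; exact mul_ne_zero h1 h1'
        · rw [eval₂_mul, eval₂_mul, ← h2, ← h2', Prod.fst_mul]; ring
        · rw [eval₂_mul, eval₂_mul, ← h3, ← h3', Prod.snd_mul]; ring
      one_mem' := ⟨1, 1, by simp, by simp, by simp⟩
      add_mem' := by
        rintro p p' ⟨P, Q, h1, h2, h3⟩ ⟨P', Q', h1', h2', h3'⟩
        refine ⟨P * Q' + P' * Q, Q * Q', ?_, ?_, ?_⟩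
        · rw [eval₂_mul]; exact mul_ne_zero h1 h1'
        · rw [eval₂_mul, eval₂_add, eval₂_mul, eval₂_mul, ← h2, ← h2', Prod.fst_add]; ring
        · rw [eval₂_mul, eval₂_add, eval₂_mul, eval₂_mul, ← h3, ← h3', Prod.snd_add]; ring
      zero_mem' := ⟨0, 1, by simp, by simp, by simp⟩
      neg_mem' := by
        rintro p ⟨P, Q, h1, h2, h3⟩
        refine ⟨-P, Q, h1, ?_, ?_⟩
        · rw [eval₂_neg, ← h2, Prod.fst_neg]; ring
        · rw [eval₂_neg, ← h3, Prod.snd_neg]; ring }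
  refine ⟨G', ?_, ⟨?_, ?_⟩, ?_⟩
  · intro p hp
    refine ⟨C ⟨p, hp⟩, 1, by simp, ?_, ?_⟩
    · rw [eval₂_C, eval₂_one, mul_one]; rfl
    · rw [eval₂_C, eval₂_one, mul_one]; rfl
  · rintro ⟨a, b⟩ ⟨P, Q, h1, h2, h3⟩
    simp only at h2 h3
    by_cases ha : a = 0
    · have h4 : P.eval₂ (E1 G) x = 0 := by rw [← h2, ha, zero_mul]
      have h5 : P.eval₂ (E2 G) z = 0 := by
        have := (hc P).zero_iff.2 (by rw [h4, h.zero])
        exact this
      have hb : b = 0 := by
        rw [h5] at h3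
        exact (mul_eq_zero.1 h3).resolve_right (hne Q h1)
      rw [ha, hb, inv_zero, inv_zero]
      exact ⟨0, 1, by simp, by simp, by simp⟩
    · have h4 : P.eval₂ (E1 G) x ≠ 0 := by rw [← h2]; exact mul_ne_zero ha h1
      have h5 := hne P h4
      have hb : b ≠ 0 := by
        rintro rfl
        rw [zero_mul] at h3
        exact h5 h3.symm
      refine ⟨Q, P, h4, ?_, ?_⟩
      · change a⁻¹ * _ = _
        rw [← h2, inv_mul_cancel_left₀ ha]
      · change b⁻¹ * _ = _
        rw [← h3, inv_mul_cancel_left₀ hb]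
  · rintro ⟨a, b⟩ ⟨P, Q, h1, h2, h3⟩
    simp only at h2 h3
    refine Rv.cancel (hne Q h1) ?_
    change Rv w (b * _) (η a * _)
    rw [h3]
    refine (hc P).trans ?_
    rw [← h2]
    exact (h.mul _ _).trans ((Rv.refl _).mul (hc Q).symm)
  · exact ⟨X, 1, by simp, by simp, by simp⟩

theorem Good.sSup {c : Set (Subring (L × M))} (hc : ∀ G ∈ c, Good w η G) (hch : IsChain (· ≤ ·) c)
    (hne : c.Nonempty) : Good w η (sSup c) := by
  have hd : DirectedOn (· ≤ ·) c := hch.directedOn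
  constructor
  · intro p hp
    rw [Subring.mem_sSup_of_directedOn hne hd] at hp ⊢
    obtain ⟨G, hG, hpG⟩ := hp
    exact ⟨G, hG, (hc G hG).inv p hpG⟩
  · intro p hp
    rw [Subring.mem_sSup_of_directedOn hne hd] at hp
    obtain ⟨G, hG, hpG⟩ := hp
    exact (hc G hG).rv p hpG

theorem exists_maximal_good {G₀ : Subring (L × M)} (hG₀ : Good w η G₀) :
    ∃ G, G₀ ≤ G ∧ Good w η G ∧ ∀ G', G ≤ G' → Good w η G' → G' ≤ G := by
  obtain ⟨G, h1, h2⟩ := zorn_le_nonempty₀ {G : Subring (L × M) | Good w η G} (by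
    intro c hc hch y hy
    exact ⟨sSup c, Good.sSup hc hch ⟨y, hy⟩, fun z hz => le_sSup hz⟩) G₀ hG₀
  exact ⟨G, h1, h2.1, fun G' h3 h4 => h2.2 h4 h3⟩

end

section

variable {v : Valuation L Γ} {w : Valuation M Δ} {g : Γ →*₀ Δ} {η : L → M}
  (h : RVmap v w g η) {G : Subring (L × M)} (hG : Good w η G)

include h hG

theorem Good.val {p : L × M} (hp : p ∈ G) : w p.2 = g (v p.1) := by
  rw [(hG.rv p hp).v_eq, h.val]

theorem Good.zero_iff {p : L × M} (hp : p ∈ G) : p.1 = 0 ↔ p.2 = 0 := by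
  rw [(hG.rv p hp).zero_iff, h.zero_iff]

theorem Good.fst_inj (p : G) (hp : E1 G p = 0) : p = 0 := by
  have h1 : (p : L × M).1 = 0 := hp
  have h2 := (hG.zero_iff h p.2).1 h1
  exact Subtype.ext (Prod.ext h1 h2)

theorem Good.snd_inj (p : G) (hp : E2 G p = 0) : p = 0 := by
  have h1 : (p : L × M).2 = 0 := hp
  have h2 := (hG.zero_iff h p.2).2 h1
  exact Subtype.ext (Prod.ext h2 h1)

theorem Good.E1_injective : Function.Injective (E1 G) :=
  (injective_iff_map_eq_zero _).2 (hG.fst_inj h)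

theorem Good.E2_injective : Function.Injective (E2 G) :=
  (injective_iff_map_eq_zero _).2 (hG.snd_inj h)

theorem Good.isDomain : IsDomain G := (hG.E1_injective h).isDomain (E1 G)

theorem Good.unit {p : G} (hp : p ≠ 0) : ∃ q : G, q * p = 1 := by
  refine ⟨⟨_, hG.inv p p.2⟩, Subtype.ext (Prod.ext ?_ ?_)⟩
  · exact inv_mul_cancel₀ fun h' => hp (hG.fst_inj h p h')
  · exact inv_mul_cancel₀ fun h' => hp (hG.snd_inj h p h')

/-- division with remainder in `G[X]` -/
theorem Good.division {P : G[X]} (hP : P ≠ 0) (Q : G[X]) :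
    ∃ A R : G[X], Q = P * A + R ∧ (R = 0 ∨ R.natDegree < P.natDegree) := by
  have := hG.isDomain h
  obtain ⟨c, hc⟩ := hG.unit h (leadingCoeff_ne_zero.2 hP)
  have hcu : IsUnit c := IsUnit.of_mul_eq_one _ hc
  have hmon : (C c * P).Monic := by
    rw [Monic, leadingCoeff_C_mul_of_isUnit hcu]
    exact hc
  refine ⟨C c * (Q /ₘ (C c * P)), Q %ₘ (C c * P), ?_, ?_⟩
  · have := modByMonic_add_div Q (C c * P)
    conv_lhs => rw [← this]
    ring
  · by_cases hR : Q %ₘ (C c * P) = 0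
    · exact Or.inl hR
    · right
      have h1 := degree_modByMonic_lt Q hmon
      have h2 := natDegree_lt_natDegree hR h1
      rwa [natDegree_C_mul_of_isUnit hcu] at h2

end

end Pool.Agent.H662.A
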