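import Pool.Agent.H662.A3

/-!
# Extension of partial embeddings: leading terms
-/

set_option autoImplicit false
set_option linter.unusedSectionVars false

namespace Pool.Agent.H662.A

open Polynomial

variable {L M : Type*} [Field L] [Field M] {Γ Δ : Type*} [LinearOrderedCommGroupWithZero Γ]
  [LinearOrderedCommGroupWithZero Δ]
  {v : Valuation L Γ} {w : Valuation M Δ} {g : Γ →*₀ Δ} {η : L → M}

theorem exists_min_natDegree {R : Type*} [CommRing R] {S : R[X] → Prop} (h : ∃ P, S P) :
    ∃ P, S P ∧ ∀ Q, Q.natDegree < P.natDegree → ¬ S Q := by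
  classical
  have h1 : ∃ n, ∃ P, S P ∧ P.natDegree = n := by
    obtain ⟨P, hP⟩ := h
    exact ⟨_, P, hP, rfl⟩
  obtain ⟨P, hP, hn⟩ := Nat.find_spec h1
  refine ⟨P, hP, fun Q hQ hS => ?_⟩
  rw [hn] at hQ
  exact Nat.find_min h1 hQ ⟨Q, hS, rfl⟩

/-- no cancellation in `P x` -/
def NC (v : Valuation L Γ) (P : L[X]) (x : L) : Prop := ∀ i, v (P.coeff i) * v x ^ i ≤ v (P.eval x)

section

variable (h : RVmap v w g η) {G : Subring (L × M)} (hG : Good w η G)

include h hG

theorem coeff_mem (P : G[X]) (i : ℕ) :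
    ((P.map (E1 G)).coeff i, (P.map (E2 G)).coeff i) ∈ G := by
  rw [coeff_map, coeff_map]
  exact (P.coeff i).2

theorem term_rv (P : G[X]) {x : L} {z : M} (hz : Rv w z (η x)) (i : ℕ) :
    Rv w ((P.map (E2 G)).coeff i * z ^ i) (η ((P.map (E1 G)).coeff i * x ^ i)) := by
  refine Rv.trans ?_ (h.mul _ _).symm
  exact (hG.rv _ (coeff_mem h hG P i)).mul ((hz.pow i).trans (h.pow x i).symm)

theorem map_ne_zero {P : G[X]} (hP : P ≠ 0) : P.map (E1 G) ≠ 0 := by
  rwa [Ne, Polynomial.map_eq_zero_iff (hG.E1_injective h)]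

theorem sum_bound (P : G[X]) {x : L} {z : M} (hz : Rv w z (η x)) {m : L} (hm : m ≠ 0)
    (hb : ∀ i, v ((P.map (E1 G)).coeff i) * v x ^ i ≤ v m) :
    w ((P.map (E2 G)).eval z - η ((P.map (E1 G)).eval x)) < w (η m) := by
  have h1 := h.sum (Finset.range (P.natDegree + 1)) (fun i => (P.map (E1 G)).coeff i * x ^ i)
    (fun i => (P.map (E2 G)).coeff i * z ^ i) m hm (fun i _ => by
      rw [map_mul, map_pow]
      exact hb i) (fun i _ => term_rv h hG P hz i)
  rw [eval_eq_sum_range' (lt_of_le_of_lt (natDegree_map_le (f := E2 G) (p := P))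
    (Nat.lt_succ_self _)), eval_eq_sum_range' (lt_of_le_of_lt (natDegree_map_le (f := E1 G)
    (p := P)) (Nat.lt_succ_self _))]
  exact h1

theorem nc_pos {P : G[X]} (hP : P ≠ 0) {x : L} (hx : x ≠ 0) (hnc : NC v (P.map (E1 G)) x) :
    (P.map (E1 G)).eval x ≠ 0 := by
  intro h0
  have h1 := map_ne_zero h hG hP
  have h2 := hnc (P.map (E1 G)).natDegree
  rw [h0, map_zero, le_zero_iff, mul_eq_zero] at h2
  rcases h2 with h2 | h2
  · rw [Valuation.zero_iff] at h2
    exact h1 (leadingCoeff_eq_zero.1 h2)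
  · have := pow_ne_zero (P.map (E1 G)).natDegree ((Valuation.ne_zero_iff v).2 hx)
    exact this h2

theorem nc_rv {P : G[X]} (hP : P ≠ 0) {x : L} {z : M} (hx : x ≠ 0) (hz : Rv w z (η x))
    (hnc : NC v (P.map (E1 G)) x) :
    Rv w ((P.map (E2 G)).eval z) (η ((P.map (E1 G)).eval x)) :=
  Or.inr (sum_bound h hG P hz (nc_pos h hG hP hx hnc) hnc)

/-- A maximal partial embedding has all leading terms in its domain. -/
theorem stepA (hv : Hens v) (hw : Hens w) (hres : ∀ n : ℕ, n ≠ 0 → v (n : L) = 1)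
    (hmax : ∀ G', G ≤ G' → Good w η G' → G' ≤ G) (x : L) (hx : x ≠ 0) :
    ∃ p ∈ G, Rv v p.1 x := by
  by_contra hno
  push Not at hno
  have hvx : 0 < v x := (Valuation.pos_iff v).2 hx
  have compat : ∀ x' z', x' ≠ 0 → Rv v x' x → (∀ P : G[X], Rv w (P.eval₂ (E2 G) z')
      (η (P.eval₂ (E1 G) x'))) → False := by
    intro x' z' _ hx' hc
    obtain ⟨G', h1, h2, h3⟩ := ext_good h hG hc
    exact hno _ (hmax G' h1 h2 h3) hx'
  by_cases hall : ∀ P : G[X], P ≠ 0 → NC v (P.map (E1 G)) x
  · refine compat x (η x) hx (Rv.refl _) fun P => ?_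
    by_cases hP : P = 0
    · rw [hP, eval₂_zero, eval₂_zero, h.zero]
      exact Rv.refl _
    · rw [eval₂_eq_eval_map, eval₂_eq_eval_map]
      exact nc_rv h hG hP hx (Rv.refl _) (hall P hP)
  push Not at hall
  obtain ⟨P, ⟨hP, hPc⟩, hmin⟩ := exists_min_natDegree (S := fun P : G[X] => P ≠ 0 ∧
    ¬ NC v (P.map (E1 G)) x) hall
  have hmin : ∀ Q : G[X], Q ≠ 0 → Q.natDegree < P.natDegree → NC v (Q.map (E1 G)) x := by
    intro Q hQ hd
    by_contra hcon
    exact hmin Q hd ⟨hQ, hcon⟩
  set P1 := P.map (E1 G) with hP1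
  set P2 := P.map (E2 G) with hP2
  have hP10 : P1 ≠ 0 := map_ne_zero h hG hP
  have hdeg : P1.natDegree = P.natDegree := natDegree_map_eq_of_injective (hG.E1_injective h) P
  have hd1 : P.natDegree ≠ 0 := by
    intro hd
    refine hPc fun i => ?_
    rw [hd] at hdeg
    rw [eq_C_of_natDegree_eq_zero hdeg, eval_C]
    rcases i with _ | i
    · rw [coeff_C_zero, pow_zero, mul_one]
    · rw [coeff_C_succ, map_zero, zero_mul]
      exact zero_le
  -- the derivative
  have hder1 : (derivative P).map (E1 G) = derivative P1 := (derivative_map P (E1 G)).symm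
  have hder2 : (derivative P).map (E2 G) = derivative P2 := (derivative_map P (E2 G)).symm
  have hder0 : derivative P1 ≠ 0 := by
    intro h0
    have h1 := congrArg (fun q => coeff q (P1.natDegree - 1)) h0
    simp only [coeff_derivative, coeff_zero] at h1
    have h2 : P1.natDegree - 1 + 1 = P1.natDegree := by omega
    rw [h2, mul_eq_zero] at h1
    rcases h1 with h1 | h1
    · exact hP10 (leadingCoeff_eq_zero.1 h1)
    · have h3 : ((P1.natDegree : ℕ) : L) = 0 := by
        rw [← h2, Nat.cast_add, Nat.cast_one]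
        exact h1
      have h4 := hres P1.natDegree (by rw [hdeg]; exact hd1)
      rw [h3, map_zero] at h4
      exact zero_ne_one h4
  have hderP : derivative P ≠ 0 := by
    intro h0
    rw [← hder1, h0, Polynomial.map_zero] at hder0
    exact hder0 rfl
  have hncd : NC v (derivative P1) x := by
    rw [← hder1]
    exact hmin _ hderP (natDegree_derivative_lt hd1)
  have hdx : (derivative P1).eval x ≠ 0 := by
    have := nc_pos h hG hderP hx (by rw [hder1]; exact hncd)
    rwa [hder1] at this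
  set m : L := (derivative P1).eval x * x with hm
  have hm0 : m ≠ 0 := mul_ne_zero hdx hx
  have hvm : v m = v ((derivative P1).eval x) * v x := map_mul _ _ _
  have hpos : ∀ i, v (P1.coeff (i + 1)) * v x ^ (i + 1) ≤ v m := by
    intro i
    have h1 := hncd i
    rw [coeff_derivative, map_mul] at h1
    have h2 : v ((i : L) + 1) = 1 := by
      have := hres (i + 1) (by omega)
      rwa [Nat.cast_add, Nat.cast_one] at this
    rw [h2, mul_one] at h1
    rw [hvm, pow_succ, ← mul_assoc]
    exact mul_le_mul_left h1 _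
  have hdiff : v (P1.eval x - P1.coeff 0) ≤ v m := by
    have e : P1.eval x - P1.coeff 0 = (P1 - C (P1.coeff 0)).eval x := by simp
    rw [e]
    refine v_eval_le fun j => ?_
    rcases j with _ | j
    · rw [coeff_sub, coeff_C_zero, sub_self, map_zero, zero_mul]
      exact zero_le
    · rw [coeff_sub, coeff_C_succ, sub_zero]
      exact hpos j
  have hlt : v (P1.eval x) < v m := by
    unfold NC at hPc
    push Not at hPc
    obtain ⟨i, hi⟩ := hPc
    rcases i with _ | i
    · rw [pow_zero, mul_one] at hi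
      rw [Valuation.map_sub_swap, Valuation.map_sub_eq_of_lt_left v hi] at hdiff
      exact hi.trans_le hdiff
    · exact hi.trans_le (hpos i)
  have hallb : ∀ i, v (P1.coeff i) * v x ^ i ≤ v m := by
    intro i
    rcases i with _ | i
    · rw [pow_zero, mul_one]
      have e : P1.coeff 0 = P1.eval x - (P1.eval x - P1.coeff 0) := by ring
      rw [e]
      exact (Valuation.map_sub v _ _).trans (max_le hlt.le hdiff)
    · exact hpos i
  -- the root in `L`
  obtain ⟨x', hx'0, hx'x⟩ := hv.near (f := P1) (a := x) (ρ := x) hx (by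
      rw [taylor_coeff_zero, taylor_coeff_one, ← hvm]
      exact hlt) (fun j => by
      rw [taylor_coeff_one, ← hvm]
      exact v_taylor_le le_rfl hallb j)
  have hrx : Rv v x' x := Or.inr hx'x
  have hx'ne : x' ≠ 0 := fun h' => hx (hrx.zero_iff.1 h')
  -- the root in `M`
  set z0 := η x with hz0
  have hz00 : z0 ≠ 0 := fun h' => hx ((h.zero_iff x).1 h')
  have hdz : Rv w ((derivative P2).eval z0) (η ((derivative P1).eval x)) := by
    have := nc_rv h hG hderP hx (Rv.refl z0) (by rw [hder1]; exact hncd)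
    rwa [hder1, hder2] at this
  have hwm : w ((derivative P2).eval z0) * w z0 = g (v m) := by
    rw [hdz.v_eq, hz0, h.val, h.val, hvm, map_mul]
  have hcoef2 : ∀ i, w (P2.coeff i) * w z0 ^ i ≤ g (v m) := by
    intro i
    rw [hG.val h (coeff_mem h hG P i), hz0, h.val, ← map_pow, ← map_mul]
    exact h.mono.monotone (hallb i)
  have hP2z : w (P2.eval z0) < g (v m) := by
    have h1 := sum_bound h hG P (Rv.refl z0) hm0 hallb
    rw [h.val] at h1
    have h2 : w (η (P1.eval x)) < g (v m) := by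
      rw [h.val]
      exact h.mono hlt
    have e : P2.eval z0 = (P2.eval z0 - η (P1.eval x)) + η (P1.eval x) := by ring
    rw [e]
    exact lt_of_le_of_lt (Valuation.map_add w _ _) (max_lt h1 h2)
  obtain ⟨z', hz'0, hz'z⟩ := hw.near (f := P2) (a := z0) (ρ := z0) hz00 (by
      rw [taylor_coeff_zero, taylor_coeff_one, hwm]
      exact hP2z) (fun j => by
      rw [taylor_coeff_one, hwm]
      exact v_taylor_le le_rfl hcoef2 j)
  have hz'x' : Rv w z' (η x') := Rv.trans (Or.inr hz'z) (h.rv hrx.symm)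
  -- compatibility
  refine compat x' z' hx'ne hrx fun Q => ?_
  obtain ⟨A, R, hQ, hR⟩ := hG.division h hP Q
  have e1 : Q.eval₂ (E1 G) x' = (R.map (E1 G)).eval x' := by
    rw [hQ, eval₂_add, eval₂_mul, eval₂_eq_eval_map, eval₂_eq_eval_map (E1 G) (p := R), ← hP1,
      hx'0, zero_mul, zero_add]
  have e2 : Q.eval₂ (E2 G) z' = (R.map (E2 G)).eval z' := by
    rw [hQ, eval₂_add, eval₂_mul, eval₂_eq_eval_map, eval₂_eq_eval_map (E2 G) (p := R), ← hP2,
      hz'0, zero_mul, zero_add]
  rw [e1, e2]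
  by_cases hR0 : R = 0
  · rw [hR0]
    simp only [Polynomial.map_zero, eval_zero, h.zero]
    exact Rv.refl _
  have hncR := hmin R hR0 (hR.resolve_left hR0)
  refine nc_rv h hG hR0 hx'ne hz'x' fun i => ?_
  set R1 := R.map (E1 G) with hR1
  have hR1x : R1.eval x ≠ 0 := nc_pos h hG hR0 hx hncR
  have hDom : Dom v (taylor x R1) (v (x' - x)) := by
    intro j hj
    rw [taylor_coeff_zero]
    have h1 := v_taylor_le (f := R1) (d := x) (ρ := v x) (m := v (R1.eval x)) le_rfl hncR j
    by_cases h2 : (taylor x R1).coeff j = 0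
    · rw [h2, map_zero, zero_mul]
      exact (Valuation.pos_iff v).2 hR1x
    · refine lt_of_lt_of_le ?_ h1
      exact mul_lt_mul_of_pos_left (pow_lt_pow_left₀ hx'x zero_le (by omega))
        ((Valuation.pos_iff v).2 h2)
  have h3 := hDom.eval (y := x' - x) le_rfl
  rw [taylor_eval, sub_add_cancel, taylor_coeff_zero] at h3
  rw [h3.v_eq, hrx.v_eq]
  exact hncR i

end

end Pool.Agent.H662.A
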