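import Pool.Agent.H662.A4

/-!
# Extension of partial embeddings: immediate extensions
-/

set_option autoImplicit false
set_option linter.unusedSectionVars false

namespace Pool.Agent.H662.A

open Polynomial

variable {L M : Type*} [Field L] [Field M] {Γ Δ : Type*} [LinearOrderedCommGroupWithZero Γ]
  [LinearOrderedCommGroupWithZero Δ]
  {v : Valuation L Γ} {w : Valuation M Δ} {g : Γ →*₀ Δ} {η : L → M}

/-- Countable families of closed balls which are pairwise not disjoint have a common point. -/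
def BallComplete (w : Valuation M Δ) : Prop :=
  ∀ b ρ : ℕ → M, (∀ i j, w (b i - b j) ≤ max (w (ρ i)) (w (ρ j))) →
    ∃ z, ∀ i, w (z - b i) ≤ w (ρ i)

theorem taylor_map {R S : Type*} [CommRing R] [CommRing S] (f : R →+* S) (r : R) (p : R[X]) :
    (taylor r p).map f = taylor (f r) (p.map f) := by
  simp [taylor_apply, Polynomial.map_comp]

theorem taylor_derivative {R : Type*} [CommRing R] (r : R) (p : R[X]) :
    taylor r (derivative p) = derivative (taylor r p) := by
  simp [taylor_apply, derivative_comp]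

section

variable (h : RVmap v w g η) {G : Subring (L × M)} (hG : Good w η G)

include h hG

theorem taylor_mem (P : G[X]) {p : L × M} (hp : p ∈ G) (j : ℕ) :
    ((taylor p.1 (P.map (E1 G))).coeff j, (taylor p.2 (P.map (E2 G))).coeff j) ∈ G := by
  have h1 := coeff_mem h hG (taylor (⟨p, hp⟩ : G) P) j
  rw [taylor_map, taylor_map] at h1
  exact h1

theorem eval_mem (P : G[X]) {p : L × M} (hp : p ∈ G) :
    ((P.map (E1 G)).eval p.1, (P.map (E2 G)).eval p.2) ∈ G := by
  have := taylor_mem h hG P hp 0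
  rwa [taylor_coeff_zero, taylor_coeff_zero] at this

/-- A maximal partial embedding is total. -/
theorem stepB [Countable L] (hv : Hens v) (hw : Hens w) (hbc : BallComplete w)
    (hres : ∀ n : ℕ, n ≠ 0 → v (n : L) = 1)
    (hmax : ∀ G', G ≤ G' → Good w η G' → G' ≤ G) (x : L) : ∃ p ∈ G, p.1 = x := by
  by_contra hno
  push Not at hno
  have hxp : ∀ p ∈ G, x - p.1 ≠ 0 := fun p hp h' => hno p hp (sub_eq_zero.1 h').symm
  have hxv : ∀ p ∈ G, 0 < v (x - p.1) := fun p hp => (Valuation.pos_iff v).2 (hxp p hp)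
  have closer : ∀ p ∈ G, ∃ q ∈ G, v (x - q.1) < v (x - p.1) := by
    intro p hp
    obtain ⟨r, hr, hrx⟩ := stepA h hG hv hw hres hmax _ (hxp p hp)
    refine ⟨p + r, G.add_mem hp hr, ?_⟩
    rcases hrx with ⟨_, h2⟩ | h2
    · exact absurd h2 (hxp p hp)
    · rw [Valuation.map_sub_swap] at h2
      rwa [Prod.fst_add, ← sub_sub]
  let Stab : G[X] → L × M → Prop := fun P p => Dom v (taylor p.1 (P.map (E1 G))) (v (x - p.1))
  have hle : ∀ p q : L × M, v (x - q.1) ≤ v (x - p.1) → v (q.1 - p.1) ≤ v (x - p.1) := by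
    intro p q hpq
    have e : q.1 - p.1 = (x - p.1) - (x - q.1) := by ring
    rw [e]
    exact (Valuation.map_sub v _ _).trans (max_le le_rfl hpq)
  have mono : ∀ P p q, Stab P p → v (x - q.1) ≤ v (x - p.1) → Stab P q := by
    intro P p q hP hpq
    have h1 := (hP.taylor (hle p q hpq)).mono hpq
    rwa [taylor_taylor, sub_add_cancel] at h1
  have hL : ∀ P p y, Stab P p → v (y - p.1) ≤ v (x - p.1) →
      Rv v ((P.map (E1 G)).eval y) ((P.map (E1 G)).eval p.1) := by
    intro P p y hP hy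
    have h1 := hP.eval hy
    rwa [taylor_eval, sub_add_cancel, taylor_coeff_zero] at h1
  have hDM : ∀ P, ∀ p ∈ G, Stab P p → Dom w (taylor p.2 (P.map (E2 G))) (g (v (x - p.1))) := by
    intro P p hp hP j hj
    rw [hG.val h (taylor_mem h hG P hp j), hG.val h (taylor_mem h hG P hp 0), ← map_pow, ← map_mul]
    exact h.mono (hP j hj)
  have hM : ∀ P, ∀ p ∈ G, ∀ z, Stab P p → w (z - p.2) ≤ g (v (x - p.1)) →
      Rv w ((P.map (E2 G)).eval z) ((P.map (E2 G)).eval p.2) := by
    intro P p hp z hP hz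
    have h1 := (hDM P p hp hP).eval hz
    rwa [taylor_eval, sub_add_cancel, taylor_coeff_zero] at h1
  have key : ∀ P, ∀ p ∈ G, ∀ y z, Stab P p → v (y - p.1) ≤ v (x - p.1) →
      w (z - p.2) ≤ g (v (x - p.1)) →
      Rv w ((P.map (E2 G)).eval z) (η ((P.map (E1 G)).eval y)) := by
    intro P p hp y z hP hy hz
    exact (hM P p hp z hP hz).trans ((hG.rv _ (eval_mem h hG P hp)).trans
      (h.rv (hL P p y hP hy).symm))
  have compat : ∀ y z, (∀ P : G[X], P ≠ 0 → Rv w ((P.map (E2 G)).eval z)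
      (η ((P.map (E1 G)).eval y))) → (y, z) ∈ G := by
    intro y z hc
    obtain ⟨G', h1, h2, h3⟩ := ext_good h hG (x := y) (z := z) fun P => by
      by_cases hP : P = 0
      · rw [hP, eval₂_zero, eval₂_zero, h.zero]
        exact Rv.refl _
      · rw [eval₂_eq_eval_map, eval₂_eq_eval_map]
        exact hc P hP
    exact hmax G' h1 h2 h3
  by_cases hall : ∀ P : G[X], P ≠ 0 → ∃ p ∈ G, Stab P p
  · -- the transcendental case
    have : Countable G := (hG.E1_injective h).countable
    have : Nonempty G := ⟨0⟩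
    obtain ⟨f, hf⟩ := exists_surjective_nat G
    obtain ⟨z, hz⟩ := hbc (fun i => (f i : L × M).2) (fun i => η (x - (f i : L × M).1)) (by
      intro i j
      have h1 : w ((f i : L × M).2 - (f j : L × M).2) = g (v ((f i : L × M).1 - (f j : L × M).1)) :=
        hG.val h (G.sub_mem (f i).2 (f j).2)
      rw [h1, h.val, h.val, ← h.mono.monotone.map_max]
      refine h.mono.monotone ?_
      have e : (f i : L × M).1 - (f j : L × M).1 = (x - (f j : L × M).1) - (x - (f i : L × M).1) := by
        ring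
      rw [e, max_comm]
      exact Valuation.map_sub v _ _)
    have hz' : ∀ p ∈ G, w (z - p.2) ≤ g (v (x - p.1)) := by
      intro p hp
      obtain ⟨i, hi⟩ := hf ⟨p, hp⟩
      have h1 := hz i
      rw [hi, h.val] at h1
      exact h1
    refine hno _ (compat x z fun P hP => ?_) rfl
    obtain ⟨p, hp, hs⟩ := hall P hP
    exact key P p hp x z hs le_rfl (hz' p hp)
  -- the algebraic case
  push Not at hall
  obtain ⟨P, ⟨hP, hPs⟩, hmin⟩ := exists_min_natDegree (S := fun P : G[X] => P ≠ 0 ∧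
    ∀ p ∈ G, ¬ Stab P p) hall
  have hmin : ∀ Q : G[X], Q ≠ 0 → Q.natDegree < P.natDegree → ∃ p ∈ G, Stab Q p := by
    intro Q hQ hd
    by_contra hcon
    push Not at hcon
    exact hmin Q hd ⟨hQ, hcon⟩
  set P1 := P.map (E1 G) with hP1
  set P2 := P.map (E2 G) with hP2
  have hP10 : P1 ≠ 0 := map_ne_zero h hG hP
  have hdeg : P1.natDegree = P.natDegree := natDegree_map_eq_of_injective (hG.E1_injective h) P
  have hd1 : P.natDegree ≠ 0 := by
    intro hd
    refine hPs 0 G.zero_mem fun j hj => ?_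
    rw [hd] at hdeg
    change v ((taylor _ P1).coeff j) * _ < v ((taylor _ P1).coeff 0)
    have h0 : P1.coeff 0 ≠ 0 := by
      intro h0
      rw [eq_C_of_natDegree_eq_zero hdeg, h0, C_0] at hP10
      exact hP10 rfl
    rw [eq_C_of_natDegree_eq_zero hdeg, taylor_C, coeff_C_zero, coeff_C_of_ne_zero (by omega),
      map_zero, zero_mul]
    exact (Valuation.pos_iff v).2 h0
  -- the derivative
  have hder1 : (derivative P).map (E1 G) = derivative P1 := (derivative_map P (E1 G)).symm
  have hder0 : derivative P1 ≠ 0 := by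
    intro h0
    have h1 := congrArg (fun q => coeff q (P1.natDegree - 1)) h0
    simp only [coeff_derivative, coeff_zero] at h1
    have h2 : P1.natDegree - 1 + 1 = P1.natDegree := by omega
    rw [h2, mul_eq_zero] at h1
    rcases h1 with h1 | h1
    · exact hP10 (leadingCoeff_eq_zero.1 h1)
    · have h3 : ((P1.natDegree : ℕ) : L) = 0 := by
        rw [← h2, Nat.cast_add, Nat.cast_one]
        exact h1
      have h4 := hres P1.natDegree (by rw [hdeg]; exact hd1)
      rw [h3, map_zero] at h4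
      exact zero_ne_one h4
  have hderP : derivative P ≠ 0 := by
    intro h0
    rw [← hder1, h0, Polynomial.map_zero] at hder0
    exact hder0 rfl
  obtain ⟨p0, hp0, hs0⟩ := hmin _ hderP (natDegree_derivative_lt hd1)
  -- the shape of the Taylor polynomials close to `x`
  have hLin : ∀ p ∈ G, v (x - p.1) ≤ v (x - p0.1) → Lin v (taylor p.1 P1) (v (x - p.1)) := by
    intro p hp hpp j hj
    have h1 := mono _ _ _ hs0 hpp
    have h2 := h1 (j - 1) (by omega)
    rw [hder1, taylor_derivative, coeff_derivative, coeff_derivative, zero_add] at h2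
    have h3 : j - 1 + 1 = j := by omega
    have h4 : v (((j - 1 : ℕ) : L) + 1) = 1 := by
      have := hres (j - 1 + 1) (by omega)
      rwa [Nat.cast_add, Nat.cast_one] at this
    rw [h3, map_mul, h4, mul_one, Nat.cast_zero, zero_add, mul_one] at h2
    have h5 := mul_lt_mul_of_pos_right h2 (hxv p hp)
    rwa [mul_assoc, ← pow_succ, h3] at h5
  have hT0 : ∀ p ∈ G, v (x - p.1) ≤ v (x - p0.1) →
      v ((taylor p.1 P1).coeff 0) ≤ v ((taylor p.1 P1).coeff 1) * v (x - p.1) := by
    intro p hp hpp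
    have h1 := hPs p hp
    change ¬ Dom v (taylor p.1 P1) _ at h1
    unfold Dom at h1
    push Not at h1
    obtain ⟨j, hj, h2⟩ := h1
    rcases hj.lt_or_eq with hj | rfl
    · exact h2.trans (hLin p hp hpp j hj).le
    · rwa [pow_one] at h2
  have hLin2 : ∀ p ∈ G, v (x - p.1) ≤ v (x - p0.1) →
      Lin w (taylor p.2 P2) (w (η (x - p.1))) := by
    intro p hp hpp j hj
    rw [hG.val h (taylor_mem h hG P hp j), hG.val h (taylor_mem h hG P hp 1), h.val, ← map_pow,
      ← map_mul, ← map_mul]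
    exact h.mono (hLin p hp hpp j hj)
  have hT2 : ∀ p ∈ G, v (x - p.1) ≤ v (x - p0.1) →
      w ((taylor p.2 P2).coeff 0) ≤ w ((taylor p.2 P2).coeff 1) * w (η (x - p.1)) := by
    intro p hp hpp
    rw [hG.val h (taylor_mem h hG P hp 0), hG.val h (taylor_mem h hG P hp 1), h.val, ← map_mul]
    exact h.mono.monotone (hT0 p hp hpp)
  obtain ⟨x', hx'0, hx'p⟩ := hv.ball (hT0 p0 hp0 le_rfl) (hLin p0 hp0 le_rfl)
  obtain ⟨z', hz'0, hz'p⟩ := hw.ball (hT2 p0 hp0 le_rfl) (hLin2 p0 hp0 le_rfl)
  have hnx : ∀ p ∈ G, v (x - p.1) ≤ v (x - p0.1) → v (x' - p.1) ≤ v (x - p.1) := by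
    intro p hp hpp
    obtain ⟨y, hy0, hyp⟩ := hv.ball (hT0 p hp hpp) (hLin p hp hpp)
    have h1 : v (y - p0.1) ≤ v (x - p0.1) := by
      have e : y - p0.1 = (y - p.1) + (p.1 - p0.1) := by ring
      rw [e]
      exact (Valuation.map_add v _ _).trans (max_le (hyp.trans hpp) (hle p0 p hpp))
    rw [(hLin p0 hp0 le_rfl).unique hx'0 hy0 hx'p h1]
    exact hyp
  have hnz : ∀ p ∈ G, v (x - p.1) ≤ v (x - p0.1) → w (z' - p.2) ≤ g (v (x - p.1)) := by
    intro p hp hpp
    obtain ⟨y, hy0, hyp⟩ := hw.ball (hT2 p hp hpp) (hLin2 p hp hpp)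
    have h1 : w (y - p0.2) ≤ w (η (x - p0.1)) := by
      have e : y - p0.2 = (y - p.2) + (p.2 - p0.2) := by ring
      rw [e]
      refine (Valuation.map_add w _ _).trans (max_le (hyp.trans ((h.le_iff _ _).2 hpp)) ?_)
      have h2 : w (p.2 - p0.2) = g (v (p.1 - p0.1)) := hG.val h (G.sub_mem hp hp0)
      rw [h2, h.val]
      exact h.mono.monotone (hle p0 p hpp)
    rw [(hLin2 p0 hp0 le_rfl).unique hz'0 hy0 hz'p h1, ← h.val]
    exact hyp
  have hmem : (x', z') ∈ G := by
    refine compat x' z' fun Q hQ => ?_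
    obtain ⟨A, R, hQA, hR⟩ := hG.division h hP Q
    have e1 : (Q.map (E1 G)).eval x' = (R.map (E1 G)).eval x' := by
      rw [hQA, Polynomial.map_add, Polynomial.map_mul, eval_add, eval_mul, ← hP1, hx'0, zero_mul,
        zero_add]
    have e2 : (Q.map (E2 G)).eval z' = (R.map (E2 G)).eval z' := by
      rw [hQA, Polynomial.map_add, Polynomial.map_mul, eval_add, eval_mul, ← hP2, hz'0, zero_mul,
        zero_add]
    rw [e1, e2]
    by_cases hR0 : R = 0
    · rw [hR0]
      simp only [Polynomial.map_zero, eval_zero, h.zero]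
      exact Rv.refl _
    obtain ⟨p, hp, hps⟩ := hmin R hR0 (hR.resolve_left hR0)
    rcases le_total (v (x - p.1)) (v (x - p0.1)) with hpp | hpp
    · exact key R p hp x' z' hps (hnx p hp hpp) (hnz p hp hpp)
    · exact key R p0 hp0 x' z' (mono R p p0 hps hpp) (hnx p0 hp0 le_rfl) (hnz p0 hp0 le_rfl)
  obtain ⟨q, hq, hqx⟩ := closer _ hmem
  change v (x - q.1) < v (x - x') at hqx
  have h1 : v (x - x') ≤ v (x - p0.1) := by
    have e : x - x' = (x - p0.1) - (x' - p0.1) := by ring
    rw [e]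
    exact (Valuation.map_sub v _ _).trans (max_le le_rfl hx'p)
  have h2 := hnx q hq (hqx.le.trans h1)
  have h3 : v (x - x') ≤ v (x - q.1) := by
    have e : x - x' = (x - q.1) - (x' - q.1) := by ring
    rw [e]
    exact (Valuation.map_sub v _ _).trans (max_le le_rfl h2)
  exact absurd hqx (not_lt.2 h3)

end

/-- The embedding theorem. -/
theorem embed [Countable L] (h : RVmap v w g η) (hv : Hens v) (hw : Hens w)
    (hbc : BallComplete w) (hres : ∀ n : ℕ, n ≠ 0 → v (n : L) = 1) {G₀ : Subring (L × M)}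
    (hG₀ : Good w η G₀) : ∃ f : L →+* M, (∀ p ∈ G₀, f p.1 = p.2) ∧ ∀ x, Rv w (f x) (η x) := by
  obtain ⟨G, hG₀G, hG, hmax⟩ := exists_maximal_good hG₀
  have hsurj : Function.Surjective (E1 G) := by
    intro x
    obtain ⟨p, hp, hpx⟩ := stepB h hG hv hw hbc hres hmax x
    exact ⟨⟨p, hp⟩, hpx⟩
  let e : G ≃+* L := RingEquiv.ofBijective (E1 G) ⟨hG.E1_injective h, hsurj⟩
  refine ⟨(E2 G).comp e.symm.toRingHom, fun p hp => ?_, fun x => ?_⟩
  · have h1 : e.symm p.1 = ⟨p, hG₀G hp⟩ := by
      rw [RingEquiv.symm_apply_eq]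
      rfl
    change E2 G (e.symm p.1) = p.2
    rw [h1]
    rfl
  · obtain ⟨p, rfl⟩ := e.surjective x
    change Rv w (E2 G (e.symm (e p))) (η (e p))
    rw [RingEquiv.symm_apply_apply]
    exact hG.rv p p.2

end Pool.Agent.H662.A
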