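import Pool.Agent.H662.A5

/-!
# Valued fields with their three sorts, and their ultrapowers
-/

set_option autoImplicit false
set_option linter.unusedSectionVars false

namespace Pool.Agent.H662.A

open Polynomial Filter

/-- The ultrafilter. -/
noncomputable abbrev UU : Ultrafilter ℕ := hyperfilter ℕ

/-- The ultrapower of a set. -/
abbrev GG (X : Type) : Type := Germ (UU : Filter ℕ) X

noncomputable instance {X : Type} [LinearOrderedCommGroupWithZero X] :
    LinearOrderedCommGroupWithZero (GG X) :=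
  { (inferInstance : LinearOrder (GG X)), (inferInstance : GroupWithZero (GG X)) with
    mul_comm := fun a b => mul_comm a b
    mul_lt_mul_of_pos_left := by
      intro a ha b c hbc
      revert ha hbc
      refine Germ.inductionOn₃ a b c fun a b c ha hbc => ?_
      have h1 : ∀ᶠ n in (UU : Filter ℕ), 0 < a n := Germ.coe_pos.1 ha
      have h2 : ∀ᶠ n in (UU : Filter ℕ), b n < c n := Germ.coe_lt.1 hbc
      refine Germ.coe_lt.2 ?_
      filter_upwards [h1, h2] with n h1 h2
      exact mul_lt_mul_of_pos_left h2 h1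
    bot := 0
    bot_le := by
      intro a
      refine Germ.inductionOn a fun a => ?_
      refine Germ.coe_le.2 (Eventually.of_forall fun n => zero_le)
    isBot_zero := by
      intro a
      refine Germ.inductionOn a fun a => ?_
      refine Germ.coe_le.2 (Eventually.of_forall fun n => zero_le) }

/-- A valued field, presented by its three sorts: the field, the residue field, and the value group
in multiplicative notation, together with a zero. The residue map is extended by zero outside the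
valuation ring. -/
structure VF where
  K : Type
  k : Type
  Γ : Type
  [fK : Field K]
  [fk : Field k]
  [oΓ : LinearOrderedCommGroupWithZero Γ]
  v : Valuation K Γ
  res : K → k
  v_surj : Function.Surjective v
  res_one : res 1 = 1
  res_add : ∀ x y, v x ≤ 1 → v y ≤ 1 → res (x + y) = res x + res y
  res_mul : ∀ x y, v x ≤ 1 → v y ≤ 1 → res (x * y) = res x * res y
  res_surj : ∀ a, ∃ x, v x ≤ 1 ∧ res x = a
  res_ker : ∀ x, v x ≤ 1 → (res x = 0 ↔ v x < 1)
  res_out : ∀ x, 1 < v x → res x = 0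

attribute [instance] VF.fK VF.fk VF.oΓ

/-- A function on germs -/
noncomputable def gmap {X Y : Type} (f : X → Y) : GG X → GG Y := Germ.map f

theorem gmap_coe {X Y : Type} (f : X → Y) (a : ℕ → X) :
    gmap f (a : GG X) = ((fun n => f (a n) : ℕ → Y) : GG Y) := rfl

/-- The valuation of an ultrapower. -/
noncomputable def ultraV {K Γ : Type} [Field K] [LinearOrderedCommGroupWithZero Γ]
    (v : Valuation K Γ) : Valuation (GG K) (GG Γ) where
  toFun := gmap v
  map_zero' := by
    change gmap v ((fun _ => 0 : ℕ → K) : GG K) = _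
    rw [gmap_coe]
    simp only [map_zero]
    rfl
  map_one' := by
    change gmap v ((fun _ => 1 : ℕ → K) : GG K) = _
    rw [gmap_coe]
    simp only [map_one]
    rfl
  map_mul' := by
    intro x y
    refine Germ.inductionOn₂ x y fun x y => ?_
    rw [← Germ.coe_mul, gmap_coe, gmap_coe, gmap_coe, ← Germ.coe_mul]
    congr 1
    funext n
    exact map_mul _ _ _
  map_add_le_max' := by
    intro x y
    refine Germ.inductionOn₂ x y fun x y => ?_
    rw [← Germ.coe_add, gmap_coe, gmap_coe, gmap_coe]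
    by_cases h : ∀ᶠ n in (UU : Filter ℕ), v (x n) ≤ v (y n)
    · refine le_max_of_le_right (Germ.coe_le.2 ?_)
      filter_upwards [h] with n hn
      exact (Valuation.map_add _ _ _).trans (max_le hn le_rfl)
    · refine le_max_of_le_left (Germ.coe_le.2 ?_)
      have h' := Ultrafilter.eventually_not.2 h
      filter_upwards [h'] with n hn
      exact (Valuation.map_add _ _ _).trans (max_le le_rfl (not_le.1 hn).le)

theorem ultraV_coe {K Γ : Type} [Field K] [LinearOrderedCommGroupWithZero Γ]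
    (v : Valuation K Γ) (x : ℕ → K) :
    ultraV v (x : GG K) = ((fun n => v (x n) : ℕ → Γ) : GG Γ) := rfl

namespace VF

variable (M : VF)

theorem res_zero : M.res 0 = 0 := (M.res_ker 0 (by rw [map_zero]; exact zero_le)).2
  (by rw [map_zero]; exact zero_lt_one)

theorem res_neg (x : M.K) (hx : M.v x ≤ 1) : M.res (-x) = - M.res x := by
  have h := M.res_add x (-x) hx (by rwa [Valuation.map_neg])
  rw [add_neg_cancel, M.res_zero] at h
  exact (neg_eq_of_add_eq_zero_right h.symm).symm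

theorem res_sub (x y : M.K) (hx : M.v x ≤ 1) (hy : M.v y ≤ 1) :
    M.res (x - y) = M.res x - M.res y := by
  rw [sub_eq_add_neg, M.res_add x (-y) hx (by rwa [Valuation.map_neg]), M.res_neg y hy,
    sub_eq_add_neg]

/-- the ultrapower -/
noncomputable def ultra : VF where
  K := GG M.K
  k := GG M.k
  Γ := GG M.Γ
  v := ultraV M.v
  res := gmap M.res
  v_surj := by
    intro x
    refine Germ.inductionOn x fun x => ?_
    choose y hy using fun n => M.v_surj (x n)
    refine ⟨(y : GG M.K), ?_⟩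
    rw [ultraV_coe]
    congr 1
    funext n
    exact hy n
  res_one := by
    change gmap M.res ((fun _ => 1 : ℕ → M.K) : GG M.K) = _
    rw [gmap_coe]
    simp only [M.res_one]
    rfl
  res_add := by
    intro x y
    refine Germ.inductionOn₂ x y fun x y hx hy => ?_
    have h1 : ∀ᶠ n in (UU : Filter ℕ), M.v (x n) ≤ 1 := Germ.coe_le.1 hx
    have h2 : ∀ᶠ n in (UU : Filter ℕ), M.v (y n) ≤ 1 := Germ.coe_le.1 hy
    rw [← Germ.coe_add, gmap_coe, gmap_coe, gmap_coe, ← Germ.coe_add]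
    refine Germ.coe_eq.2 ?_
    filter_upwards [h1, h2] with n h1 h2
    exact M.res_add _ _ h1 h2
  res_mul := by
    intro x y
    refine Germ.inductionOn₂ x y fun x y hx hy => ?_
    have h1 : ∀ᶠ n in (UU : Filter ℕ), M.v (x n) ≤ 1 := Germ.coe_le.1 hx
    have h2 : ∀ᶠ n in (UU : Filter ℕ), M.v (y n) ≤ 1 := Germ.coe_le.1 hy
    rw [← Germ.coe_mul, gmap_coe, gmap_coe, gmap_coe, ← Germ.coe_mul]
    refine Germ.coe_eq.2 ?_
    filter_upwards [h1, h2] with n h1 h2
    exact M.res_mul _ _ h1 h2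
  res_surj := by
    intro a
    refine Germ.inductionOn a fun a => ?_
    choose y hy hy' using fun n => M.res_surj (a n)
    refine ⟨(y : GG M.K), Germ.coe_le.2 (Eventually.of_forall hy), ?_⟩
    rw [gmap_coe]
    congr 1
    funext n
    exact hy' n
  res_ker := by
    intro x
    refine Germ.inductionOn x fun x hx => ?_
    have h1 : ∀ᶠ n in (UU : Filter ℕ), M.v (x n) ≤ 1 := Germ.coe_le.1 hx
    have e1 : (gmap M.res (x : GG M.K) = 0) ↔ ∀ᶠ n in (UU : Filter ℕ), M.res (x n) = 0 :=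
      Germ.coe_eq
    have e2 : (ultraV M.v (x : GG M.K) < 1) ↔ ∀ᶠ n in (UU : Filter ℕ), M.v (x n) < 1 :=
      Germ.coe_lt
    rw [e1]
    refine Iff.trans ?_ e2.symm
    refine eventually_congr ?_
    filter_upwards [h1] with n h1
    exact M.res_ker _ h1
  res_out := by
    intro x
    refine Germ.inductionOn x fun x hx => ?_
    have h1 : ∀ᶠ n in (UU : Filter ℕ), 1 < M.v (x n) := Germ.coe_lt.1 hx
    refine Germ.coe_eq.2 ?_
    filter_upwards [h1] with n h1
    exact M.res_out _ h1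

theorem ultra_v (x : ℕ → M.K) : M.ultra.v (x : GG M.K) = ((fun n => M.v (x n) : ℕ → M.Γ) : GG M.Γ) :=
  rfl

theorem ultra_res (x : ℕ → M.K) :
    M.ultra.res (x : GG M.K) = ((fun n => M.res (x n) : ℕ → M.k) : GG M.k) := rfl

end VF

/-- Countable saturation of ultrapowers. -/
theorem diag {X : Type} [Nonempty X] (P : ℕ → ℕ → X → Prop)
    (h : ∀ m, ∀ᶠ n in (UU : Filter ℕ), ∃ x, ∀ i < m, P i n x) :
    ∃ x : ℕ → X, ∀ i, ∀ᶠ n in (UU : Filter ℕ), P i n (x n) := by
  classical
  have h0 : ∀ n, ∃ x : X, ∀ i < Nat.findGreatest (fun m => ∃ x, ∀ i < m, P i n x) n, P i n x := by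
    intro n
    exact Nat.findGreatest_spec (P := fun m => ∃ x, ∀ i < m, P i n x) (Nat.zero_le n)
      ⟨Classical.arbitrary X, fun i hi => absurd hi (Nat.not_lt_zero i)⟩
  choose x hx using h0
  refine ⟨x, fun i => ?_⟩
  have h2 : ∀ᶠ n in (UU : Filter ℕ), i + 1 ≤ n := by
    refine (hyperfilter_le_cofinite (α := ℕ)) ?_
    rw [Nat.cofinite_eq_atTop]
    exact eventually_ge_atTop (i + 1)
  filter_upwards [h (i + 1), h2] with n h1 h2
  exact hx n i (lt_of_lt_of_le (Nat.lt_succ_self i) (Nat.le_findGreatest h2 h1))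

theorem ballComplete_ultraV {K Γ : Type} [Field K] [LinearOrderedCommGroupWithZero Γ]
    (v : Valuation K Γ) : BallComplete (ultraV v) := by
  intro b ρ hbρ
  choose b' hb' using fun i => Quotient.exists_rep (b i)
  choose ρ' hρ' using fun i => Quotient.exists_rep (ρ i)
  have hb : ∀ i, b i = ((b' i : ℕ → K) : GG K) := fun i => (hb' i).symm
  have hρ : ∀ i, ρ i = ((ρ' i : ℕ → K) : GG K) := fun i => (hρ' i).symm
  have hc : ∀ i j, ∀ᶠ n in (UU : Filter ℕ), v (b' i n - b' j n) ≤
      max (v (ρ' i n)) (v (ρ' j n)) := by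
    intro i j
    have h1 := hbρ i j
    rw [hb, hb, hρ, hρ] at h1
    rcases le_max_iff.1 h1 with h2 | h2
    · have h3 : ∀ᶠ n in (UU : Filter ℕ), v (b' i n - b' j n) ≤ v (ρ' i n) := Germ.coe_le.1 h2
      filter_upwards [h3] with n h3
      exact le_max_of_le_left h3
    · have h3 : ∀ᶠ n in (UU : Filter ℕ), v (b' i n - b' j n) ≤ v (ρ' j n) := Germ.coe_le.1 h2
      filter_upwards [h3] with n h3
      exact le_max_of_le_right h3
  obtain ⟨z, hz⟩ := diag (X := K) (fun i n z => v (z - b' i n) ≤ v (ρ' i n)) (by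
    intro m
    have h1 : ∀ᶠ n in (UU : Filter ℕ), ∀ i ∈ Finset.range m, ∀ j ∈ Finset.range m,
        v (b' i n - b' j n) ≤ max (v (ρ' i n)) (v (ρ' j n)) := by
      rw [eventually_all_finset]
      intro i _
      rw [eventually_all_finset]
      intro j _
      exact hc i j
    filter_upwards [h1] with n h1
    rcases Nat.eq_zero_or_pos m with rfl | hm
    · exact ⟨0, fun i hi => absurd hi (Nat.not_lt_zero i)⟩
    · obtain ⟨i0, hi0, hmin⟩ := Finset.exists_min_image (Finset.range m) (fun i => v (ρ' i n))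
        ⟨0, Finset.mem_range.2 hm⟩
      refine ⟨b' i0 n, fun i hi => ?_⟩
      exact (h1 i0 hi0 i (Finset.mem_range.2 hi)).trans (max_le (hmin i (Finset.mem_range.2 hi))
        le_rfl))
  refine ⟨(z : GG K), fun i => ?_⟩
  rw [hb, hρ]
  exact Germ.coe_le.2 (hz i)

/-- Henselian valued fields, in first order terms. -/
def Hens' {K Γ : Type} [Field K] [LinearOrderedCommGroupWithZero Γ] (v : Valuation K Γ) : Prop :=
  ∀ (d : ℕ) (c : Fin d → K) (a : K), (∀ i, v (c i) ≤ 1) → v a ≤ 1 →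
    v (a ^ d + ∑ i, c i * a ^ (i : ℕ)) < 1 →
    v (d * a ^ (d - 1) + ∑ i, c i * ((i : ℕ) * a ^ ((i : ℕ) - 1))) = 1 →
    ∃ b, b ^ d + ∑ i, c i * b ^ (i : ℕ) = 0 ∧ v (b - a) < 1

theorem monic_eval {K : Type} [Field K] {d : ℕ} (c : Fin d → K) (a : K) :
    (X ^ d + ∑ i, C (c i) * X ^ (i : ℕ) : K[X]).eval a = a ^ d + ∑ i, c i * a ^ (i : ℕ) := by
  simp [eval_finsetSum]

theorem monic_deriv {K : Type} [Field K] {d : ℕ} (c : Fin d → K) (a : K) :
    (derivative (X ^ d + ∑ i, C (c i) * X ^ (i : ℕ) : K[X])).eval a =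
      d * a ^ (d - 1) + ∑ i, c i * ((i : ℕ) * a ^ ((i : ℕ) - 1)) := by
  simp [eval_finsetSum, derivative_X_pow]

theorem monic_form {K : Type} [Field K] {f : K[X]} (hf : f.Monic) :
    f = X ^ f.natDegree + ∑ i : Fin f.natDegree, C (f.coeff i) * X ^ (i : ℕ) := by
  conv_lhs => rw [hf.as_sum]
  rw [Finset.sum_range]

theorem hens_iff {K Γ : Type} [Field K] [LinearOrderedCommGroupWithZero Γ] {v : Valuation K Γ} :
    Hens v ↔ Hens' v := by
  constructor
  · intro h d c a hc ha h1 h2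
    have hq : (∑ i, C (c i) * X ^ (i : ℕ) : K[X]).degree < d := by
      refine lt_of_le_of_lt (degree_sum_le _ _) ((Finset.sup_lt_iff (WithBot.bot_lt_coe d)).2 ?_)
      intro i _
      refine lt_of_le_of_lt (degree_C_mul_X_pow_le _ _) ?_
      exact Nat.cast_lt.2 i.2
    obtain ⟨b, hb, hba⟩ := h (X ^ d + ∑ i, C (c i) * X ^ (i : ℕ)) (monic_X_pow_add hq) (by
      intro j
      rw [coeff_add, coeff_X_pow, finsetSum_coeff]
      refine (Valuation.map_add _ _ _).trans (max_le ?_ ?_)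
      · split_ifs <;> simp
      · refine Valuation.map_sum_le v fun i _ => ?_
        rw [coeff_C_mul, coeff_X_pow]
        split_ifs
        · rw [mul_one]; exact hc i
        · simp) a ha (by rwa [monic_eval]) (by rwa [monic_deriv])
    exact ⟨b, by rwa [monic_eval] at hb, hba⟩
  · intro h f hf hc a ha h1 h2
    obtain ⟨b, hb, hba⟩ := h f.natDegree (fun i => f.coeff i) a (fun i => hc i) ha
      (by rwa [← monic_eval, ← monic_form hf]) (by rwa [← monic_deriv, ← monic_form hf])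
    exact ⟨b, by rwa [← monic_eval, ← monic_form hf] at hb, hba⟩

theorem germ_poly {K : Type} [Field K] {d : ℕ} (c : Fin d → ℕ → K) (a : ℕ → K) :
    (a : GG K) ^ d + ∑ i, (c i : GG K) * (a : GG K) ^ (i : ℕ) =
      ((fun n => a n ^ d + ∑ i, c i n * a n ^ (i : ℕ) : ℕ → K) : GG K) := by
  have e : (fun n => a n ^ d + ∑ i, c i n * a n ^ (i : ℕ) : ℕ → K) =
      a ^ d + ∑ i, c i * a ^ (i : ℕ) := by
    funext n
    simp [Finset.sum_apply]
  rw [e]
  change _ = Germ.coeRingHom (UU : Filter ℕ) (a ^ d + ∑ i, c i * a ^ (i : ℕ))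
  rw [map_add, map_sum, map_pow]
  simp only [map_mul, map_pow]
  rfl

theorem germ_deriv {K : Type} [Field K] {d : ℕ} (c : Fin d → ℕ → K) (a : ℕ → K) :
    d * (a : GG K) ^ (d - 1) + ∑ i, (c i : GG K) * ((i : ℕ) * (a : GG K) ^ ((i : ℕ) - 1)) =
      ((fun n => d * a n ^ (d - 1) + ∑ i, c i n * ((i : ℕ) * a n ^ ((i : ℕ) - 1)) : ℕ → K) :
        GG K) := by
  have e : (fun n => d * a n ^ (d - 1) + ∑ i, c i n * ((i : ℕ) * a n ^ ((i : ℕ) - 1)) : ℕ → K) =
      (Nat.cast d : ℕ → K) * a ^ (d - 1) +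
        ∑ i, c i * ((Nat.cast (i : ℕ) : ℕ → K) * a ^ ((i : ℕ) - 1)) := by
    funext n
    simp [Finset.sum_apply]
  rw [e]
  change _ = Germ.coeRingHom (UU : Filter ℕ)
    ((Nat.cast d : ℕ → K) * a ^ (d - 1) +
        ∑ i, c i * ((Nat.cast (i : ℕ) : ℕ → K) * a ^ ((i : ℕ) - 1)))
  rw [map_add, map_sum, map_mul, map_pow]
  simp only [map_mul, map_pow, map_natCast]
  rfl

theorem hens_ultraV {K Γ : Type} [Field K] [LinearOrderedCommGroupWithZero Γ]
    {v : Valuation K Γ} (h : Hens v) : Hens (ultraV v) := by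
  rw [hens_iff] at h ⊢
  intro d c a hc ha h1 h2
  choose c' hc' using fun i => Quotient.exists_rep (c i)
  obtain ⟨a', ha'⟩ := Quotient.exists_rep a
  have ec : ∀ i, c i = ((c' i : ℕ → K) : GG K) := fun i => (hc' i).symm
  have ea : a = ((a' : ℕ → K) : GG K) := ha'.symm
  have h1' : ∀ᶠ n in (UU : Filter ℕ), v (a' n ^ d + ∑ i, c' i n * a' n ^ (i : ℕ)) < 1 := by
    have h3 : ultraV v ((a' : GG K) ^ d + ∑ i, (c' i : GG K) * (a' : GG K) ^ (i : ℕ)) < 1 := by
      rw [← ea]
      simp only [← ec]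
      exact h1
    rw [germ_poly] at h3
    exact Germ.coe_lt.1 h3
  have h2' : ∀ᶠ n in (UU : Filter ℕ),
      v (d * a' n ^ (d - 1) + ∑ i, c' i n * ((i : ℕ) * a' n ^ ((i : ℕ) - 1))) = 1 := by
    have h3 : ultraV v (d * (a' : GG K) ^ (d - 1) +
        ∑ i, (c' i : GG K) * ((i : ℕ) * (a' : GG K) ^ ((i : ℕ) - 1))) = 1 := by
      rw [← ea]
      simp only [← ec]
      exact h2
    rw [germ_deriv] at h3
    exact Germ.coe_eq.1 h3
  have hc'' : ∀ᶠ n in (UU : Filter ℕ), ∀ i, v (c' i n) ≤ 1 := by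
    rw [eventually_all]
    intro i
    have := hc i
    rw [ec] at this
    exact Germ.coe_le.1 this
  have ha'' : ∀ᶠ n in (UU : Filter ℕ), v (a' n) ≤ 1 := by
    rw [ea] at ha
    exact Germ.coe_le.1 ha
  have key : ∀ n, ∃ b : K, (∀ i, v (c' i n) ≤ 1) → v (a' n) ≤ 1 →
      v (a' n ^ d + ∑ i, c' i n * a' n ^ (i : ℕ)) < 1 →
      v (d * a' n ^ (d - 1) + ∑ i, c' i n * ((i : ℕ) * a' n ^ ((i : ℕ) - 1))) = 1 →
      b ^ d + ∑ i, c' i n * b ^ (i : ℕ) = 0 ∧ v (b - a' n) < 1 := by
    intro n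
    by_cases hn : (∀ i, v (c' i n) ≤ 1) ∧ v (a' n) ≤ 1 ∧
        v (a' n ^ d + ∑ i, c' i n * a' n ^ (i : ℕ)) < 1 ∧
        v (d * a' n ^ (d - 1) + ∑ i, c' i n * ((i : ℕ) * a' n ^ ((i : ℕ) - 1))) = 1
    · obtain ⟨b, hb⟩ := h d (fun i => c' i n) (a' n) hn.1 hn.2.1 hn.2.2.1 hn.2.2.2
      exact ⟨b, fun _ _ _ _ => hb⟩
    · exact ⟨0, fun h3 h4 h5 h6 => absurd ⟨h3, h4, h5, h6⟩ hn⟩
  choose b hb using key
  refine ⟨(b : GG K), ?_, ?_⟩
  · simp only [ec]
    rw [germ_poly]
    refine Germ.coe_eq.2 ?_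
    filter_upwards [h1', h2', hc'', ha''] with n h3 h4 h5 h6
    exact (hb n h5 h6 h3 h4).1
  · rw [ea, ← Germ.coe_sub]
    refine Germ.coe_lt.2 ?_
    filter_upwards [h1', h2', hc'', ha''] with n h3 h4 h5 h6
    exact (hb n h5 h6 h3 h4).2

end Pool.Agent.H662.A
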