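import Pool.Agent.H662.B1

/-!
# Construction of maps of leading terms
-/

set_option autoImplicit false
set_option linter.unusedSectionVars false

namespace Pool.Agent.H662.A

open Polynomial Filter

/-- Extension of a graph of a homomorphism to finitely many more elements. -/
theorem extend_graph {B C D : Type} [AddCommGroup B] [AddCommGroup C] [AddCommGroup D]
    (A : AddSubgroup B) (htf : ∀ b : B, ∀ n : ℕ, n ≠ 0 → n • b ∈ A → b ∈ A) (ψ : B →+ D)
    (π : C →+ D) (hπ : Function.Surjective π) (H₀ : AddSubgroup (B × C))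
    (hdom : ∀ a ∈ A, ∃ c, (a, c) ∈ H₀) (hA : ∀ p ∈ H₀, p.1 ∈ A) (hψ : ∀ p ∈ H₀, π p.2 = ψ p.1)
    (s : Finset B) : ∃ H : AddSubgroup (B × C), H₀ ≤ H ∧ (∀ p ∈ H, π p.2 = ψ p.1) ∧
      (∀ p ∈ H, p.1 ∈ A → p ∈ H₀) ∧ ∀ b ∈ s, ∃ c, (b, c) ∈ H := by
  classical
  let mk : B →ₗ[ℤ] (B ⧸ A) := (QuotientAddGroup.mk' A).toIntLinearMap
  have hmk : Function.Surjective mk := QuotientAddGroup.mk'_surjective A
  have hmk0 : ∀ b, mk b = 0 ↔ b ∈ A := fun b => QuotientAddGroup.eq_zero_iff b
  let Qs : Submodule ℤ (B ⧸ A) := Submodule.span ℤ (mk '' (s : Set B))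
  have hfin : Module.Finite ℤ Qs := Module.Finite.span_of_finite ℤ ((s.finite_toSet).image mk)
  have htor : Module.IsTorsionFree ℤ (B ⧸ A) := by
    refine ⟨fun n hn x y hxy => ?_⟩
    have hn0 : n ≠ 0 := by
      rintro rfl
      exact absurd hn.left (by
        intro h
        have := h (show (0 : ℤ) * 0 = 0 * 1 by simp)
        exact zero_ne_one this)
    obtain ⟨b, hb⟩ := hmk (x - y)
    have h1 : n • (x - y) = 0 := by
      rw [smul_sub]
      exact sub_eq_zero.2 hxy
    have h2 : (n.natAbs : ℕ) • b ∈ A := by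
      rw [← hmk0, map_nsmul, hb]
      have h3 : (n.natAbs : ℤ) • (x - y) = 0 := by
        rcases Int.natAbs_eq n with h | h
        · rw [← h]; exact h1
        · have : (n.natAbs : ℤ) = -n := by omega
          rw [this, neg_smul, h1, neg_zero]
      rwa [natCast_zsmul] at h3
    have h3 := htf b n.natAbs (Int.natAbs_ne_zero.2 hn0) h2
    rw [← hmk0, hb] at h3
    exact sub_eq_zero.1 h3
  have hproj : Module.Projective ℤ Qs := inferInstance
  obtain ⟨σ, hσ⟩ := Module.projective_lifting_property mk Qs.subtype hmk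
  obtain ⟨τ, hτ⟩ := Module.projective_lifting_property π.toIntLinearMap
    (ψ.toIntLinearMap ∘ₗ σ) hπ
  have hσ' : ∀ q : Qs, mk (σ q) = q := fun q => LinearMap.congr_fun hσ q
  have hτ' : ∀ q : Qs, π (τ q) = ψ (σ q) := fun q => LinearMap.congr_fun hτ q
  let H : AddSubgroup (B × C) :=
    { carrier := {p | ∃ q : Qs, (p.1 - σ q, p.2 - τ q) ∈ H₀}
      zero_mem' := ⟨0, by
        rw [map_zero, map_zero, sub_zero, sub_zero]
        exact H₀.zero_mem⟩
      add_mem' := by
        rintro p p' ⟨q, hq⟩ ⟨q', hq'⟩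
        refine ⟨q + q', ?_⟩
        have h1 := H₀.add_mem hq hq'
        rw [map_add, map_add]
        convert h1 using 1
        ext
        · simp only [Prod.fst_add, Prod.mk_add_mk]
          abel
        · simp only [Prod.snd_add, Prod.mk_add_mk]
          abel
      neg_mem' := by
        rintro p ⟨q, hq⟩
        refine ⟨-q, ?_⟩
        have h1 := H₀.neg_mem hq
        rw [map_neg, map_neg]
        convert h1 using 1
        ext
        · simp only [Prod.fst_neg, Prod.neg_mk]
          abel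
        · simp only [Prod.snd_neg, Prod.neg_mk]
          abel }
  refine ⟨H, ?_, ?_, ?_, ?_⟩
  · intro p hp
    exact ⟨0, by simpa using hp⟩
  · rintro p ⟨q, hq⟩
    have h1 := hψ _ hq
    simp only [map_sub] at h1
    rw [hτ'] at h1
    exact sub_left_injective h1
  · rintro p ⟨q, hq⟩ hp
    have h1 := hA _ hq
    have h2 : σ q ∈ A := by
      have := A.sub_mem hp h1
      simpa using this
    have h3 : q = 0 := by
      rw [← hmk0, hσ'] at h2
      exact Subtype.ext h2
    rw [h3] at hq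
    simpa using hq
  · intro b hb
    let q : Qs := ⟨mk b, Submodule.subset_span ⟨b, hb, rfl⟩⟩
    have h1 : b - σ q ∈ A := by
      rw [← hmk0, map_sub, hσ']
      exact sub_self _
    obtain ⟨c, hc⟩ := hdom _ h1
    refine ⟨c + τ q, q, ?_⟩
    simpa using hc

/-- the diagonal map -/
noncomputable def dg {X : Type} (x : X) : GG X := ((fun _ => x : ℕ → X) : GG X)

theorem dg_inj {X : Type} {x y : X} (h : dg x = dg y) : x = y := by
  have h1 : ∀ᶠ _ in (UU : Filter ℕ), x = y := Germ.coe_eq.1 h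
  exact eventually_const.1 h1

/-- the diagonal map for value groups -/
noncomputable def dgΓ {X : Type} [LinearOrderedCommGroupWithZero X] : X →*₀ GG X where
  toFun := dg
  map_zero' := rfl
  map_one' := rfl
  map_mul' _ _ := rfl

theorem dgΓ_mono {X : Type} [LinearOrderedCommGroupWithZero X] :
    StrictMono (dgΓ : X →*₀ GG X) := by
  intro x y h
  exact Germ.coe_lt.2 (Eventually.of_forall fun _ => h)

/-- the diagonal map for fields -/
noncomputable def dgK {X : Type} [Field X] : X →+* GG X where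
  toFun := dg
  map_zero' := rfl
  map_one' := rfl
  map_mul' _ _ := rfl
  map_add' _ _ := rfl

namespace VF

variable (M : VF)

theorem res_inv {x : M.K} (hx : M.v x = 1) : M.res x⁻¹ = (M.res x)⁻¹ := by
  have hx0 : x ≠ 0 := by
    rintro rfl
    rw [map_zero] at hx
    exact zero_ne_one hx
  have h1 := M.res_mul x x⁻¹ hx.le (by rw [map_inv₀, hx, inv_one])
  rw [mul_inv_cancel₀ hx0, M.res_one] at h1
  exact (inv_eq_of_mul_eq_one_right h1.symm).symm

theorem res_div {x y : M.K} (hx : M.v x ≤ 1) (hy : M.v y = 1) :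
    M.res (x / y) = M.res x / M.res y := by
  rw [div_eq_mul_inv, M.res_mul x y⁻¹ hx (by rw [map_inv₀, hy, inv_one]), M.res_inv hy,
    div_eq_mul_inv]

theorem res_ne_zero {x : M.K} (hx : M.v x = 1) : M.res x ≠ 0 := by
  rw [Ne, M.res_ker x hx.le, hx]
  exact lt_irrefl _

theorem res_surj' {a : M.k} (ha : a ≠ 0) : ∃ x, M.v x = 1 ∧ M.res x = a := by
  obtain ⟨x, hx, hxa⟩ := M.res_surj a
  refine ⟨x, le_antisymm hx ?_, hxa⟩
  by_contra h
  exact ha (hxa ▸ (M.res_ker x hx).2 (not_le.1 h))

end VF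

theorem exists_eta (L M : VF) [Countable L.K] (g : L.Γ →*₀ M.Γ) (hg : StrictMono g)
    (r : L.k →+* M.k) (G₀ : Subring (L.K × M.K)) (hinv : ∀ p ∈ G₀, (p.1⁻¹, p.2⁻¹) ∈ G₀)
    (hval : ∀ p ∈ G₀, M.v p.2 = g (L.v p.1))
    (hres : ∀ p ∈ G₀, L.v p.1 ≤ 1 → M.res p.2 = r (L.res p.1))
    (htf : ∀ x : L.K, x ≠ 0 → ∀ n : ℕ, n ≠ 0 → ∀ p ∈ G₀, L.v x ^ n = L.v p.1 →
      ∃ q ∈ G₀, L.v x = L.v q.1) :
    ∃ η : L.K → GG M.K, RVmap L.v (ultraV M.v) (dgΓ.comp g) η ∧
      (∀ x, L.v x ≤ 1 → gmap M.res (η x) = dg (r (L.res x))) ∧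
      ∀ p ∈ G₀, Rv (ultraV M.v) (dg p.2) (η p.1) := by
  classical
  have hg0 : ∀ γ : L.Γ, g γ = 0 ↔ γ = 0 := fun γ => by
    constructor
    · intro h
      by_contra h1
      have := hg (zero_lt_iff.2 h1)
      rw [map_zero, h] at this
      exact lt_irrefl _ this
    · rintro rfl
      exact map_zero g
  have hG0 : ∀ p ∈ G₀, p.1 = 0 ↔ p.2 = 0 := fun p hp => by
    rw [← Valuation.zero_iff L.v, ← Valuation.zero_iff M.v, hval p hp, hg0]
  -- the subgroup of the elements with value in the base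
  let A : AddSubgroup (Additive L.Kˣ) :=
    { carrier := {x | ∃ q ∈ G₀, L.v (x.toMul : L.K) = L.v q.1}
      zero_mem' := ⟨1, G₀.one_mem, by simp⟩
      add_mem' := by
        rintro x y ⟨q, hq, h1⟩ ⟨q', hq', h2⟩
        exact ⟨q * q', G₀.mul_mem hq hq', by simp [h1, h2]⟩
      neg_mem' := by
        rintro x ⟨q, hq, h1⟩
        exact ⟨_, hinv q hq, by simp [h1]⟩ }
  let ψ : Additive L.Kˣ →+ Additive (M.Γ)ˣ :=
    (Units.map ((g : L.Γ →* M.Γ).comp (L.v : L.K →* L.Γ))).toAdditive
  let π : Additive M.Kˣ →+ Additive (M.Γ)ˣ := (Units.map (M.v : M.K →* M.Γ)).toAdditive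
  have hπs : Function.Surjective π := by
    intro γ
    obtain ⟨z, hz⟩ := M.v_surj (γ.toMul : M.Γ)
    have hz0 : z ≠ 0 := by
      rintro rfl
      rw [map_zero] at hz
      exact γ.toMul.ne_zero hz.symm
    refine ⟨Additive.ofMul (Units.mk0 z hz0), ?_⟩
    refine Additive.toMul.injective (Units.ext ?_)
    exact hz
  have hπψ : ∀ (x : L.Kˣ) (z : M.Kˣ), π (Additive.ofMul z) = ψ (Additive.ofMul x) ↔
      M.v (z : M.K) = g (L.v (x : L.K)) := by
    intro x z
    constructor
    · intro h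
      exact congrArg (fun u : Additive (M.Γ)ˣ => (u.toMul : M.Γ)) h
    · intro h
      exact Additive.toMul.injective (Units.ext h)
  let R0 : L.K → M.K → Prop := fun x z => ∃ p ∈ G₀, L.v x = L.v p.1 ∧ M.v z = M.v p.2 ∧
    M.res (z / p.2) = r (L.res (x / p.1))
  have hunit : ∀ (x : L.K) (y : L.K), x ≠ 0 → L.v x = L.v y → L.v (x / y) = 1 := by
    intro x y hx h
    rw [map_div₀, h, div_self]
    rw [← h]
    exact (Valuation.ne_zero_iff _).2 hx
  have hunit' : ∀ (x : M.K) (y : M.K), x ≠ 0 → M.v x = M.v y → M.v (x / y) = 1 := by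
    intro x y hx h
    rw [map_div₀, h, div_self]
    rw [← h]
    exact (Valuation.ne_zero_iff _).2 hx
  let H₀ : AddSubgroup (Additive L.Kˣ × Additive M.Kˣ) :=
    { carrier := {p | R0 (p.1.toMul : L.K) (p.2.toMul : M.K)}
      zero_mem' := by
        refine ⟨1, G₀.one_mem, by simp, by simp, ?_⟩
        simp [M.res_one, L.res_one]
      add_mem' := by
        rintro ⟨x, z⟩ ⟨x', z'⟩ ⟨p, hp, h1, h2, h3⟩ ⟨p', hp', h1', h2', h3'⟩
        refine ⟨p * p', G₀.mul_mem hp hp', ?_, ?_, ?_⟩
        · simp only at h1 h1' ⊢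
          simp [h1, h1']
        · simp only at h2 h2' ⊢
          simp [h2, h2']
        · simp only at h3 h3' h1 h1' h2 h2' ⊢
          have e1 : (((x, z) + (x', z')).2.toMul : M.K) / (p * p').2 =
              (z.toMul : M.K) / p.2 * ((z'.toMul : M.K) / p'.2) := by
            simp only [Prod.mk_add_mk, toMul_add, Units.val_mul, Prod.snd_mul]
            rw [div_mul_div_comm]
          have e2 : (((x, z) + (x', z')).1.toMul : L.K) / (p * p').1 =
              (x.toMul : L.K) / p.1 * ((x'.toMul : L.K) / p'.1) := by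
            simp only [Prod.mk_add_mk, toMul_add, Units.val_mul, Prod.fst_mul]
            rw [div_mul_div_comm]
          rw [e1, e2, M.res_mul _ _ (hunit' _ _ z.toMul.ne_zero h2).le
            (hunit' _ _ z'.toMul.ne_zero h2').le, L.res_mul _ _ (hunit _ _ x.toMul.ne_zero h1).le
            (hunit _ _ x'.toMul.ne_zero h1').le, h3, h3', map_mul]
      neg_mem' := by
        rintro ⟨x, z⟩ ⟨p, hp, h1, h2, h3⟩
        refine ⟨_, hinv p hp, ?_, ?_, ?_⟩
        · simp only at h1 ⊢
          simp [h1]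
        · simp only at h2 ⊢
          simp [h2]
        · simp only at h3 h1 h2 ⊢
          have e1 : ((-(x, z)).2.toMul : M.K) / p.2⁻¹ = ((z.toMul : M.K) / p.2)⁻¹ := by
            simp only [Prod.neg_mk, toMul_neg, Units.val_inv_eq_inv_val]
            rw [div_eq_mul_inv, inv_inv, inv_div, mul_comm, div_eq_mul_inv]
          have e2 : ((-(x, z)).1.toMul : L.K) / p.1⁻¹ = ((x.toMul : L.K) / p.1)⁻¹ := by
            simp only [Prod.neg_mk, toMul_neg, Units.val_inv_eq_inv_val]
            rw [div_eq_mul_inv, inv_inv, inv_div, mul_comm, div_eq_mul_inv]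
          rw [e1, e2, M.res_inv (hunit' _ _ z.toMul.ne_zero h2),
            L.res_inv (hunit _ _ x.toMul.ne_zero h1), h3, map_inv₀] }
  obtain ⟨e, he⟩ : ∃ e : ℕ → L.Kˣ, Function.Surjective e := by
    have : Countable L.Kˣ := Units.val_injective.countable
    exact exists_surjective_nat _
  have hH : ∀ i : ℕ, ∃ H : AddSubgroup (Additive L.Kˣ × Additive M.Kˣ), H₀ ≤ H ∧
      (∀ p ∈ H, π p.2 = ψ p.1) ∧ (∀ p ∈ H, p.1 ∈ A → p ∈ H₀) ∧
      ∀ b ∈ (Finset.range i).image (fun j => Additive.ofMul (e j)), ∃ c, (b, c) ∈ H := by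
    intro i
    refine extend_graph A ?_ ψ π hπs H₀ ?_ ?_ ?_ _
    · rintro b n hn ⟨q, hq, h1⟩
      refine htf _ b.toMul.ne_zero n hn q hq ?_
      rw [← h1, ← map_pow]
      rfl
    · rintro a ⟨q, hq, h1⟩
      have hq0 : q.1 ≠ 0 := fun h => by
        rw [h, map_zero, Valuation.zero_iff] at h1
        exact a.toMul.ne_zero h1
      have hq0' : q.2 ≠ 0 := fun h => hq0 ((hG0 q hq).2 h)
      have h2 := hunit _ _ a.toMul.ne_zero h1
      obtain ⟨m, hm, hm'⟩ := M.res_surj' (a := r (L.res ((a.toMul : L.K) / q.1))) (by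
        rw [Ne, map_eq_zero]
        exact L.res_ne_zero h2)
      have hm0 : m ≠ 0 := by
        rintro rfl
        rw [map_zero] at hm
        exact zero_ne_one hm
      refine ⟨Additive.ofMul (Units.mk0 (q.2 * m) (mul_ne_zero hq0' hm0)), q, hq, h1, ?_, ?_⟩
      · change M.v (q.2 * m) = M.v q.2
        rw [map_mul, hm, mul_one]
      · change M.res (q.2 * m / q.2) = _
        rw [mul_div_cancel_left₀ _ hq0', hm']
    · rintro p ⟨q, hq, h1, -, -⟩
      exact ⟨q, hq, h1⟩
    · rintro ⟨x, z⟩ ⟨q, hq, h1, h2, -⟩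
      simp only at h1 h2
      refine (hπψ x.toMul z.toMul).2 ?_
      rw [h1, h2, hval q hq]
  choose H hH0 hH1 hH2 hH3 using hH
  -- the approximations
  let η' : ℕ → L.K → M.K := fun i x => if hx : x = 0 then 0 else
    if h : ∃ c, (Additive.ofMul (Units.mk0 x hx), c) ∈ H i then
      ((Classical.choose h).toMul : M.K) else 1
  have hη0 : ∀ i, η' i 0 = 0 := fun i => by simp [η']
  have hη : ∀ x : L.K, ∀ hx : x ≠ 0, ∀ᶠ i in (UU : Filter ℕ), ∃ z : M.Kˣ, η' i x = z ∧
      (Additive.ofMul (Units.mk0 x hx), Additive.ofMul z) ∈ H i := by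
    intro x hx
    obtain ⟨j, hj⟩ := he (Units.mk0 x hx)
    have h2 : ∀ᶠ n in (UU : Filter ℕ), j + 1 ≤ n := by
      refine (hyperfilter_le_cofinite (α := ℕ)) ?_
      rw [Nat.cofinite_eq_atTop]
      exact eventually_ge_atTop (j + 1)
    filter_upwards [h2] with i hi
    have h3 : ∃ c, (Additive.ofMul (Units.mk0 x hx), c) ∈ H i := hH3 i _ (by
      rw [Finset.mem_image]
      exact ⟨j, Finset.mem_range.2 (by omega), by rw [hj]⟩)
    refine ⟨(Classical.choose h3).toMul, ?_, Classical.choose_spec h3⟩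
    simp only [η']
    rw [dif_neg hx, dif_pos h3]
  have hηval : ∀ x : L.K, ∀ᶠ i in (UU : Filter ℕ), M.v (η' i x) = g (L.v x) := by
    intro x
    by_cases hx : x = 0
    · subst hx
      refine Eventually.of_forall fun i => ?_
      rw [hη0, map_zero, map_zero, map_zero]
    · filter_upwards [hη x hx] with i hi
      obtain ⟨z, hz, hzH⟩ := hi
      rw [hz]
      exact (hπψ _ _).1 (hH1 i _ hzH)
  -- quotients of two elements of the same value
  have hquot : ∀ x y : L.K, y ≠ 0 → L.v x ≤ L.v y → ∀ᶠ i in (UU : Filter ℕ),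
      M.v (η' i x / η' i y) ≤ 1 ∧ M.res (η' i x / η' i y) = r (L.res (x / y)) := by
    intro x y hy hxy
    have hvy : 0 < L.v y := (Valuation.pos_iff _).2 hy
    rcases hxy.lt_or_eq with hlt | heq
    · filter_upwards [hηval x, hηval y] with i h1 h2
      have h3 : M.v (η' i x / η' i y) < 1 := by
        rw [map_div₀, h1, h2, div_lt_one₀ (zero_lt_iff.2 fun h => hvy.ne' ((hg0 _).1 h))]
        exact hg hlt
      have h4 : L.v (x / y) < 1 := by
        rw [map_div₀, div_lt_one₀ hvy]
        exact hlt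
      refine ⟨h3.le, ?_⟩
      rw [(M.res_ker _ h3.le).2 h3, (L.res_ker _ h4.le).2 h4, map_zero]
    · have hx : x ≠ 0 := by
        rintro rfl
        rw [map_zero] at heq
        exact hvy.ne heq
      filter_upwards [hη x hx, hη y hy] with i h1 h2
      obtain ⟨z, hz, hzH⟩ := h1
      obtain ⟨z', hz', hzH'⟩ := h2
      have h3 := (H i).sub_mem hzH hzH'
      have hxy1 : L.v (x / y) = 1 := hunit x y hx heq
      have h4 := hH2 i _ h3 ⟨1, G₀.one_mem, by
        change L.v (((Units.mk0 x hx) / (Units.mk0 y hy) : L.Kˣ) : L.K) = L.v 1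
        rw [Units.val_div_eq_div_val, map_one]
        exact hxy1⟩
      obtain ⟨p, hp, h5, h6, h7⟩ := h4
      have e1 : (((Additive.ofMul (Units.mk0 x hx), Additive.ofMul z) -
          (Additive.ofMul (Units.mk0 y hy), Additive.ofMul z')).1.toMul : L.K) = x / y := by
        simp
      have e2 : (((Additive.ofMul (Units.mk0 x hx), Additive.ofMul z) -
          (Additive.ofMul (Units.mk0 y hy), Additive.ofMul z')).2.toMul : M.K) =
            (z : M.K) / z' := by
        simp
      rw [e1] at h5 h7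
      rw [e2] at h6 h7
      rw [hxy1] at h5
      have hp1 : M.v p.2 = 1 := by rw [hval p hp, ← h5, map_one]
      have h8 : M.v ((z : M.K) / z') = 1 := by rw [h6, hp1]
      have h9 := hres p hp h5.symm.le
      rw [M.res_div h8.le hp1, L.res_div hxy1.le h5.symm, h9, map_div₀] at h7
      have h10 : r (L.res p.1) ≠ 0 := by
        rw [Ne, map_eq_zero]
        exact L.res_ne_zero h5.symm
      rw [hz, hz']
      refine ⟨h8.le, ?_⟩
      exact (div_left_inj' h10).1 h7
  let η : L.K → GG M.K := fun x => ((fun i => η' i x : ℕ → M.K) : GG M.K)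
  refine ⟨η, ⟨dgΓ_mono.comp hg, ?_, ?_, ?_⟩, ?_, ?_⟩
  · intro x
    change ultraV M.v ((fun i => η' i x : ℕ → M.K) : GG M.K) = dg (g (L.v x))
    rw [ultraV_coe]
    exact Germ.coe_eq.2 (hηval x)
  · intro x y
    by_cases hx : x = 0
    · rw [hx, zero_mul]
      have : η 0 = 0 := by
        change ((fun i => η' i 0 : ℕ → M.K) : GG M.K) = _
        simp only [hη0]
        rfl
      rw [this, zero_mul]
      exact Rv.refl _
    by_cases hy : y = 0
    · rw [hy, mul_zero]
      have : η 0 = 0 := by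
        change ((fun i => η' i 0 : ℕ → M.K) : GG M.K) = _
        simp only [hη0]
        rfl
      rw [this, mul_zero]
      exact Rv.refl _
    · right
      have hxy : x * y ≠ 0 := mul_ne_zero hx hy
      change ultraV M.v ((fun i => η' i (x * y) : ℕ → M.K) - (fun i => η' i x * η' i y : ℕ → M.K) :
        ℕ → M.K) < ultraV M.v ((fun i => η' i x * η' i y : ℕ → M.K) : GG M.K)
      rw [ultraV_coe, ultraV_coe]
      refine Germ.coe_lt.2 ?_
      filter_upwards [hη x hx, hη y hy, hη (x * y) hxy] with i h1 h2 h3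
      obtain ⟨z, hz, hzH⟩ := h1
      obtain ⟨z', hz', hzH'⟩ := h2
      obtain ⟨z'', hz'', hzH''⟩ := h3
      have h4 := (H i).sub_mem hzH'' ((H i).add_mem hzH hzH')
      have e0 : ((Additive.ofMul (Units.mk0 (x * y) hxy), Additive.ofMul z'') -
          ((Additive.ofMul (Units.mk0 x hx), Additive.ofMul z) +
          (Additive.ofMul (Units.mk0 y hy), Additive.ofMul z'))) =
          ((0 : Additive L.Kˣ), Additive.ofMul (z'' / (z * z'))) := by
        refine Prod.ext ?_ rfl
        change Additive.ofMul (Units.mk0 (x * y) hxy / (Units.mk0 x hx * Units.mk0 y hy)) = 0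
        rw [← Units.mk0_mul x y (by exact hxy), div_self']
        rfl
      rw [e0] at h4
      obtain ⟨p, hp, h5, h6, h7⟩ := hH2 i _ h4 A.zero_mem
      have e1 : ((((0 : Additive L.Kˣ), Additive.ofMul (z'' / (z * z'))) :
          Additive L.Kˣ × Additive M.Kˣ).1.toMul : L.K) = 1 := rfl
      have e2 : ((((0 : Additive L.Kˣ), Additive.ofMul (z'' / (z * z'))) :
          Additive L.Kˣ × Additive M.Kˣ).2.toMul : M.K) = z'' / (z * z') := by
        simp
      rw [e1] at h5 h7
      rw [e2] at h6 h7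
      rw [map_one] at h5
      have hp1 : M.v p.2 = 1 := by rw [hval p hp, ← h5, map_one]
      have h8 : M.v ((z'' : M.K) / (z * z')) = 1 := by rw [h6, hp1]
      have h9 := hres p hp h5.symm.le
      rw [M.res_div h8.le hp1, L.res_div (by rw [map_one]) h5.symm, h9, map_div₀, L.res_one,
        map_one] at h7
      have h10 : r (L.res p.1) ≠ 0 := by
        rw [Ne, map_eq_zero]
        exact L.res_ne_zero h5.symm
      have h11 := (div_left_inj' h10).1 h7
      have h12 : M.v ((z'' : M.K) / (z * z') - 1) < 1 := by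
        have h13 : M.v ((z'' : M.K) / (z * z') - 1) ≤ 1 :=
          (Valuation.map_sub _ _ _).trans (max_le h8.le (by rw [map_one]))
        rw [← M.res_ker _ h13, M.res_sub _ _ h8.le (by rw [map_one]), h11, M.res_one, sub_self]
      have hzz : (z : M.K) * z' ≠ 0 := mul_ne_zero z.ne_zero z'.ne_zero
      change M.v (η' i (x * y) - η' i x * η' i y) < M.v (η' i x * η' i y)
      rw [hz, hz', hz'']
      have e3 : (z'' : M.K) - z * z' = ((z'' : M.K) / (z * z') - 1) * (z * z') := by
        rw [sub_mul, div_mul_cancel₀ _ hzz, one_mul]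
      rw [e3, map_mul]
      exact mul_lt_of_lt_one_left ((Valuation.pos_iff _).2 hzz) h12
  · intro m x y hm hx hy
    change ultraV M.v ((fun i => η' i (x + y) : ℕ → M.K) -
      ((fun i => η' i x : ℕ → M.K) + (fun i => η' i y : ℕ → M.K)) : ℕ → M.K) <
        ultraV M.v ((fun i => η' i m : ℕ → M.K) : GG M.K)
    rw [ultraV_coe, ultraV_coe]
    refine Germ.coe_lt.2 ?_
    have hxy : L.v (x + y) ≤ L.v m := (Valuation.map_add _ _ _).trans (max_le hx hy)
    have hvm : 0 < L.v m := (Valuation.pos_iff _).2 hm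
    filter_upwards [hquot x m hm hx, hquot y m hm hy, hquot (x + y) m hm hxy, hηval m] with i
      h1 h2 h3 h4
    have h5 : 0 < M.v (η' i m) := by
      rw [h4]
      exact zero_lt_iff.2 fun h => hvm.ne' ((hg0 _).1 h)
    have h6 : η' i m ≠ 0 := (Valuation.pos_iff _).1 h5
    change M.v (η' i (x + y) - (η' i x + η' i y)) < M.v (η' i m)
    have e : η' i (x + y) - (η' i x + η' i y) =
        (η' i (x + y) / η' i m - (η' i x / η' i m + η' i y / η' i m)) * η' i m := by
      rw [sub_mul, add_mul, div_mul_cancel₀ _ h6, div_mul_cancel₀ _ h6, div_mul_cancel₀ _ h6]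
    rw [e, map_mul]
    refine mul_lt_of_lt_one_left h5 ?_
    have h7 : M.v (η' i x / η' i m + η' i y / η' i m) ≤ 1 :=
      (Valuation.map_add _ _ _).trans (max_le h1.1 h2.1)
    have h8 : M.v (η' i (x + y) / η' i m - (η' i x / η' i m + η' i y / η' i m)) ≤ 1 :=
      (Valuation.map_sub _ _ _).trans (max_le h3.1 h7)
    have hxm : L.v (x / m) ≤ 1 := by rw [map_div₀, div_le_one₀ hvm]; exact hx
    have hym : L.v (y / m) ≤ 1 := by rw [map_div₀, div_le_one₀ hvm]; exact hy
    rw [← M.res_ker _ h8, M.res_sub _ _ h3.1 h7, M.res_add _ _ h1.1 h2.1, h1.2, h2.2, h3.2,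
      add_div, L.res_add _ _ hxm hym, map_add, sub_self]
  · intro x hx
    change ((fun i => M.res (η' i x) : ℕ → M.k) : GG M.k) = dg (r (L.res x))
    refine Germ.coe_eq.2 ?_
    have h1 : ∀ᶠ i in (UU : Filter ℕ), M.v (η' i 1) = 1 ∧ M.res (η' i 1) = 1 := by
      -- the element `1` is in the base
      filter_upwards [hη 1 one_ne_zero] with i hi
      obtain ⟨z, hz, hzH⟩ := hi
      obtain ⟨p, hp, h5, h6, h7⟩ := hH2 i _ hzH ⟨1, G₀.one_mem, rfl⟩
      have e1 : (((Additive.ofMul (Units.mk0 (1 : L.K) one_ne_zero), Additive.ofMul z) :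
          Additive L.Kˣ × Additive M.Kˣ).1.toMul : L.K) = 1 := rfl
      have e2 : (((Additive.ofMul (Units.mk0 (1 : L.K) one_ne_zero), Additive.ofMul z) :
          Additive L.Kˣ × Additive M.Kˣ).2.toMul : M.K) = z := rfl
      rw [e1] at h5 h7
      rw [e2] at h6 h7
      rw [map_one] at h5
      have hp1 : M.v p.2 = 1 := by rw [hval p hp, ← h5, map_one]
      have h8 : M.v (z : M.K) = 1 := by rw [h6, hp1]
      have h9 := hres p hp h5.symm.le
      rw [M.res_div h8.le hp1, L.res_div (by rw [map_one]) h5.symm, h9, map_div₀, L.res_one,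
        map_one] at h7
      have h10 : r (L.res p.1) ≠ 0 := by
        rw [Ne, map_eq_zero]
        exact L.res_ne_zero h5.symm
      rw [hz]
      exact ⟨h8, (div_left_inj' h10).1 h7⟩
    have hx1 : L.v x ≤ L.v 1 := by rwa [map_one]
    filter_upwards [h1, hquot x 1 one_ne_zero hx1] with i h2 h3
    have h4 : η' i x = η' i x / η' i 1 * η' i 1 := by
      rw [div_mul_cancel₀]
      intro h
      have := h2.1
      rw [h, map_zero] at this
      exact zero_ne_one this
    rw [h4, M.res_mul _ _ h3.1 h2.1.le, h3.2, h2.2, mul_one, div_one]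
  · intro p hp
    by_cases hp0 : p.1 = 0
    · have hp0' := (hG0 p hp).1 hp0
      left
      refine ⟨?_, ?_⟩
      · rw [hp0']; rfl
      · rw [hp0]
        change ((fun i => η' i 0 : ℕ → M.K) : GG M.K) = _
        simp only [hη0]
        rfl
    · have hp0' : p.2 ≠ 0 := fun h => hp0 ((hG0 p hp).2 h)
      right
      change ultraV M.v ((fun _ => p.2 : ℕ → M.K) - (fun i => η' i p.1 : ℕ → M.K) : ℕ → M.K) <
        ultraV M.v ((fun i => η' i p.1 : ℕ → M.K) : GG M.K)
      rw [ultraV_coe, ultraV_coe]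
      refine Germ.coe_lt.2 ?_
      filter_upwards [hη p.1 hp0, hηval p.1] with i hi hv
      obtain ⟨z, hz, hzH⟩ := hi
      obtain ⟨q, hq, h5, h6, h7⟩ := hH2 i _ hzH ⟨p, hp, rfl⟩
      have e1 : (((Additive.ofMul (Units.mk0 p.1 hp0), Additive.ofMul z) :
          Additive L.Kˣ × Additive M.Kˣ).1.toMul : L.K) = p.1 := rfl
      have e2 : (((Additive.ofMul (Units.mk0 p.1 hp0), Additive.ofMul z) :
          Additive L.Kˣ × Additive M.Kˣ).2.toMul : M.K) = z := rfl
      rw [e1] at h5 h7
      rw [e2] at h6 h7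
      have hpq : (p.1 / q.1, p.2 / q.2) ∈ G₀ := by
        have := G₀.mul_mem hp (hinv q hq)
        rw [div_eq_mul_inv, div_eq_mul_inv]
        exact this
      have h8 : L.v (p.1 / q.1) = 1 := hunit _ _ hp0 h5
      have h9 := hres _ hpq h8.le
      simp only at h9
      rw [← h9] at h7
      have h10 : M.v (p.2 / q.2) = 1 := by
        have := hval _ hpq
        simp only at this
        rw [this, h8, map_one]
      have hq2 : q.2 ≠ 0 := by
        intro h
        rw [h, div_zero, map_zero] at h10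
        exact zero_ne_one h10
      have h11 : M.v ((z : M.K) / q.2) = 1 := hunit' _ _ z.ne_zero h6
      have h12 : M.v (p.2 / q.2 - z / q.2) < 1 := by
        have h13 : M.v (p.2 / q.2 - z / q.2) ≤ 1 :=
          (Valuation.map_sub _ _ _).trans (max_le h10.le h11.le)
        rw [← M.res_ker _ h13, M.res_sub _ _ h10.le h11.le, h7, sub_self]
      change M.v (p.2 - η' i p.1) < M.v (η' i p.1)
      rw [hz]
      have e3 : p.2 - z = (p.2 / q.2 - z / q.2) * q.2 := by
        rw [sub_mul, div_mul_cancel₀ _ hq2, div_mul_cancel₀ _ hq2]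
      rw [e3, map_mul, h6]
      exact mul_lt_of_lt_one_left ((Valuation.pos_iff _).2 hq2) h12

end Pool.Agent.H662.A
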