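import Pool.Agent.H662.B2

/-!
# Embeddings of valued fields with prescribed residue and value maps
-/

set_option autoImplicit false
set_option linter.unusedSectionVars false

namespace Pool.Agent.H662.A

open Polynomial Filter

/-- Embeddings of valued fields -/
structure Emb (L M : VF) where
  f : L.K →+* M.K
  r : L.k →+* M.k
  g : L.Γ →*₀ M.Γ
  mono : StrictMono g
  val : ∀ x, M.v (f x) = g (L.v x)
  res : ∀ x, M.res (f x) = r (L.res x)

theorem VF.res_rv (M : VF) {x y : M.K} (h : Rv M.v x y) (hy : M.v y ≤ 1) : M.res x = M.res y := by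
  have hx : M.v x ≤ 1 := by rw [h.v_eq]; exact hy
  rcases h with ⟨rfl, rfl⟩ | h
  · rfl
  · have h1 : M.v (x - y) < 1 := h.trans_le hy
    have h2 := (M.res_ker _ h1.le).2 h1
    rw [M.res_sub _ _ hx hy] at h2
    exact sub_eq_zero.1 h2

theorem exists_emb (L M : VF) [Countable L.K] (hL : Hens L.v) (hM : Hens M.v)
    (hchar : ∀ n : ℕ, n ≠ 0 → L.v (n : L.K) = 1) (g : L.Γ →*₀ M.Γ) (hg : StrictMono g)
    (r : L.k →+* M.k) (G₀ : Subring (L.K × M.K)) (hinv : ∀ p ∈ G₀, (p.1⁻¹, p.2⁻¹) ∈ G₀)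
    (hval : ∀ p ∈ G₀, M.v p.2 = g (L.v p.1))
    (hres : ∀ p ∈ G₀, L.v p.1 ≤ 1 → M.res p.2 = r (L.res p.1))
    (htf : ∀ x : L.K, x ≠ 0 → ∀ n : ℕ, n ≠ 0 → ∀ p ∈ G₀, L.v x ^ n = L.v p.1 →
      ∃ q ∈ G₀, L.v x = L.v q.1) :
    ∃ E : Emb L M.ultra, (∀ a, E.r a = dg (r a)) ∧ (∀ γ, E.g γ = dg (g γ)) ∧
      ∀ p ∈ G₀, E.f p.1 = dg p.2 := by
  obtain ⟨η, h1, h2, h3⟩ := exists_eta L M g hg r G₀ hinv hval hres htf
  let G₁ : Subring (L.K × GG M.K) := G₀.map ((RingHom.id L.K).prodMap dgK)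
  have hG₁ : Good (ultraV M.v) η G₁ := by
    constructor
    · rintro _ ⟨p, hp, rfl⟩
      refine ⟨_, hinv p hp, ?_⟩
      refine Prod.ext rfl ?_
      exact map_inv₀ (dgK : M.K →+* GG M.K) p.2
    · rintro _ ⟨p, hp, rfl⟩
      exact h3 p hp
  obtain ⟨f, hf1, hf2⟩ := embed h1 hL (hens_ultraV hM) (ballComplete_ultraV M.v) hchar hG₁
  refine ⟨⟨f, dgK.comp r, dgΓ.comp g, dgΓ_mono.comp hg, ?_, ?_⟩, fun _ => rfl, fun _ => rfl, ?_⟩
  · intro x
    have h4 := (hf2 x).v_eq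
    rw [h1.val] at h4
    exact h4
  · intro x
    by_cases hx : L.v x ≤ 1
    · have h4 := h2 x hx
      have h5 : ultraV M.v (η x) ≤ 1 := by
        rw [h1.val, ← map_one (dgΓ.comp g)]
        exact h1.mono.monotone hx
      have h6 := M.ultra.res_rv (x := f x) (y := η x) (hf2 x) h5
      exact h6.trans h4
    · rw [not_le] at hx
      have h5 : 1 < ultraV M.v (f x) := by
        rw [(hf2 x).v_eq, h1.val, ← map_one (dgΓ.comp g)]
        exact h1.mono hx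
      have h6 := M.ultra.res_out (f x) h5
      refine h6.trans ?_
      rw [L.res_out x hx]
      exact (map_zero _).symm
  · intro p hp
    exact hf1 _ ⟨p, hp, rfl⟩

end Pool.Agent.H662.A
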