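import Mathlib

/-!
# Many-sorted structures and formulas with blocks of quantifiers
-/

set_option autoImplicit false
set_option linter.unusedSectionVars false

namespace Pool.Agent.H662.A

/-- A many-sorted language, given by its sorts and, for every family `X` of sets of variables
(`X s` is the set of the variables of sort `s`), its quantifier-free formulas. -/
structure Lg where
  S : Type
  QF : (S → Type) → Type

/-- A structure: its carriers, and truth of the quantifier-free formulas under an assignment of the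
variables. -/
structure Str (𝓛 : Lg) where
  C : 𝓛.S → Type
  sat : {X : 𝓛.S → Type} → 𝓛.QF X → (∀ s, X s → C s) → Prop

/-- The formulas with `n` blocks of quantifiers in front of a quantifier-free formula. Each block
binds finitely many variables of every sort. -/
def Blk (𝓛 : Lg) : ℕ → (𝓛.S → Type) → Type
  | 0, X => 𝓛.QF X
  | n + 1, X => Σ a : 𝓛.S → ℕ, Blk 𝓛 n (fun s => X s ⊕ Fin (a s))

/-- Truth of a formula with `n` alternating blocks, where the outermost block is existential if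
`b` is true and universal if `b` is false. -/
def Tr {𝓛 : Lg} (M : Str 𝓛) : Bool → (n : ℕ) → {X : 𝓛.S → Type} → Blk 𝓛 n X →
    (∀ s, X s → M.C s) → Prop
  | _, 0, _, φ, x => M.sat φ x
  | true, n + 1, _, ⟨a, φ⟩, x => ∃ y : ∀ s, Fin (a s) → M.C s,
      Tr M false n φ (fun s => Sum.elim (x s) (y s))
  | false, n + 1, _, ⟨a, φ⟩, x => ∀ y : ∀ s, Fin (a s) → M.C s,
      Tr M true n φ (fun s => Sum.elim (x s) (y s))

/-- Renaming, conjunction, negation of quantifier-free formulas. -/
structure Ops (𝓛 : Lg) where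
  ren : {X Y : 𝓛.S → Type} → (∀ s, X s → Y s) → 𝓛.QF X → 𝓛.QF Y
  and : {X : 𝓛.S → Type} → 𝓛.QF X → 𝓛.QF X → 𝓛.QF X
  neg : {X : 𝓛.S → Type} → 𝓛.QF X → 𝓛.QF X
  tru : {X : 𝓛.S → Type} → 𝓛.QF X

/-- The structure respects the operations on formulas. -/
structure Nice {𝓛 : Lg} (o : Ops 𝓛) (M : Str 𝓛) : Prop where
  ren : ∀ {X Y : 𝓛.S → Type} (ρ : ∀ s, X s → Y s) (φ : 𝓛.QF X) (y : ∀ s, Y s → M.C s),
    M.sat (o.ren ρ φ) y ↔ M.sat φ (fun s i => y s (ρ s i))
  and : ∀ {X : 𝓛.S → Type} (φ ψ : 𝓛.QF X) (x : ∀ s, X s → M.C s),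
    M.sat (o.and φ ψ) x ↔ M.sat φ x ∧ M.sat ψ x
  neg : ∀ {X : 𝓛.S → Type} (φ : 𝓛.QF X) (x : ∀ s, X s → M.C s), M.sat (o.neg φ) x ↔ ¬ M.sat φ x
  tru : ∀ {X : 𝓛.S → Type} (x : ∀ s, X s → M.C s), M.sat (o.tru : 𝓛.QF X) x
  ne : ∀ s, Nonempty (M.C s)

section

variable {𝓛 : Lg} (o : Ops 𝓛)

def bren : (n : ℕ) → {X Y : 𝓛.S → Type} → (∀ s, X s → Y s) → Blk 𝓛 n X → Blk 𝓛 n Y
  | 0, _, _, ρ, φ => o.ren ρ φ
  | n + 1, _, _, ρ, ⟨a, φ⟩ => ⟨a, bren n (fun s => Sum.map (ρ s) id) φ⟩

def bneg : (n : ℕ) → {X : 𝓛.S → Type} → Blk 𝓛 n X → Blk 𝓛 n X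
  | 0, _, φ => o.neg φ
  | n + 1, _, ⟨a, φ⟩ => ⟨a, bneg n φ⟩

def band : (n : ℕ) → {X : 𝓛.S → Type} → Blk 𝓛 n X → Blk 𝓛 n X → Blk 𝓛 n X
  | 0, _, φ, ψ => o.and φ ψ
  | n + 1, _, ⟨a, φ⟩, ⟨a', ψ⟩ => ⟨fun s => a s + a' s,
      band n (bren o n (fun s => Sum.map id (Fin.castAdd (a' s))) φ)
        (bren o n (fun s => Sum.map id (Fin.natAdd (a s))) ψ)⟩

/-- a quantifier-free formula, with empty blocks -/
def blift : (n : ℕ) → {X : 𝓛.S → Type} → 𝓛.QF X → Blk 𝓛 n X
  | 0, _, φ => φ
  | n + 1, _, φ => ⟨fun _ => 0, blift n (o.ren (fun _ => Sum.inl) φ)⟩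

variable {o} {M : Str 𝓛} (hM : Nice o M)

include hM

theorem tr_ren (n : ℕ) : ∀ (b : Bool) {X Y : 𝓛.S → Type} (ρ : ∀ s, X s → Y s) (φ : Blk 𝓛 n X)
    (y : ∀ s, Y s → M.C s), Tr M b n (bren o n ρ φ) y ↔ Tr M b n φ (fun s i => y s (ρ s i)) := by
  induction n with
  | zero =>
    intro b X Y ρ φ y
    rcases b with _ | _
    · exact hM.ren ρ φ y
    · exact hM.ren ρ φ y
  | succ n ih =>
    intro b X Y ρ ⟨a, φ⟩ y
    have key : ∀ z : ∀ s, Fin (a s) → M.C s, (fun s i => Sum.elim (y s) (z s)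
        (Sum.map (ρ s) id i) : ∀ s, X s ⊕ Fin (a s) → M.C s) =
        fun s => Sum.elim (fun i => y s (ρ s i)) (z s) := by
      intro z
      funext s i
      rcases i with i | i <;> rfl
    rcases b with _ | _
    · refine forall_congr' fun z => ?_
      refine (ih true _ φ _).trans ?_
      rw [key z]
    · refine exists_congr fun z => ?_
      refine (ih false _ φ _).trans ?_
      rw [key z]

theorem tr_neg (n : ℕ) : ∀ (b : Bool) {X : 𝓛.S → Type} (φ : Blk 𝓛 n X)
    (x : ∀ s, X s → M.C s), Tr M (!b) n (bneg o n φ) x ↔ ¬ Tr M b n φ x := by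
  induction n with
  | zero =>
    intro b X φ x
    rcases b with _ | _
    · exact hM.neg φ x
    · exact hM.neg φ x
  | succ n ih =>
    intro b X ⟨a, φ⟩ x
    rcases b with _ | _
    · refine Iff.trans (exists_congr fun z => ih true φ _) ?_
      exact not_forall.symm
    · refine Iff.trans (forall_congr' fun z => ih false φ _) ?_
      exact not_exists.symm

theorem tr_and (n : ℕ) : ∀ (b : Bool) {X : 𝓛.S → Type} (φ ψ : Blk 𝓛 n X)
    (x : ∀ s, X s → M.C s), Tr M b n (band o n φ ψ) x ↔ Tr M b n φ x ∧ Tr M b n ψ x := by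
  induction n with
  | zero =>
    intro b X φ ψ x
    rcases b with _ | _
    · exact hM.and φ ψ x
    · exact hM.and φ ψ x
  | succ n ih =>
    intro b X ⟨a, φ⟩ ⟨a', ψ⟩ x
    have e1 : ∀ z : ∀ s, Fin (a s + a' s) → M.C s, (fun s i => Sum.elim (x s) (z s)
        (Sum.map id (Fin.castAdd (a' s)) i) : ∀ s, X s ⊕ Fin (a s) → M.C s) =
        fun s => Sum.elim (x s) (fun i => z s (Fin.castAdd (a' s) i)) := by
      intro z
      funext s i
      rcases i with i | i <;> rfl
    have e2 : ∀ z : ∀ s, Fin (a s + a' s) → M.C s, (fun s i => Sum.elim (x s) (z s)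
        (Sum.map id (Fin.natAdd (a s)) i) : ∀ s, X s ⊕ Fin (a' s) → M.C s) =
        fun s => Sum.elim (x s) (fun i => z s (Fin.natAdd (a s) i)) := by
      intro z
      funext s i
      rcases i with i | i <;> rfl
    have e3 : ∀ (b : Bool) (z : ∀ s, Fin (a s + a' s) → M.C s),
        Tr M b n (band o n (bren o n (fun s => Sum.map id (Fin.castAdd (a' s))) φ)
          (bren o n (fun s => Sum.map id (Fin.natAdd (a s))) ψ)) (fun s => Sum.elim (x s) (z s)) ↔
        Tr M b n φ (fun s => Sum.elim (x s) (fun i => z s (Fin.castAdd (a' s) i))) ∧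
        Tr M b n ψ (fun s => Sum.elim (x s) (fun i => z s (Fin.natAdd (a s) i))) := by
      intro b z
      rw [ih, tr_ren hM, tr_ren hM, e1, e2]
    rcases b with _ | _
    · constructor
      · intro h
        constructor
        · intro z
          have h1 := (e3 true (fun s => Fin.append (z s)
            (fun _ => Classical.choice (hM.ne s)))).1 (h _)
          simpa [Fin.append_left] using h1.1
        · intro z
          have h1 := (e3 true (fun s => Fin.append
            (fun _ => Classical.choice (hM.ne s)) (z s))).1 (h _)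
          simpa [Fin.append_right] using h1.2
      · rintro ⟨h1, h2⟩ z
        exact (e3 true z).2 ⟨h1 _, h2 _⟩
    · constructor
      · rintro ⟨z, hz⟩
        have h1 := (e3 false z).1 hz
        exact ⟨⟨_, h1.1⟩, ⟨_, h1.2⟩⟩
      · rintro ⟨⟨z, hz⟩, ⟨z', hz'⟩⟩
        refine ⟨fun s => Fin.append (z s) (z' s), (e3 false _).2 ⟨?_, ?_⟩⟩
        · simpa [Fin.append_left] using hz
        · simpa [Fin.append_right] using hz'

theorem tr_lift (n : ℕ) : ∀ (b : Bool) {X : 𝓛.S → Type} (φ : 𝓛.QF X)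
    (x : ∀ s, X s → M.C s), Tr M b n (blift o n φ) x ↔ M.sat φ x := by
  induction n with
  | zero =>
    intro b X φ x
    rcases b with _ | _ <;> exact Iff.rfl
  | succ n ih =>
    intro b X φ x
    have e : ∀ (b : Bool) (z : ∀ s, Fin 0 → M.C s),
        Tr M b n (blift o n (o.ren (fun _ => Sum.inl) φ)) (fun s => Sum.elim (x s) (z s)) ↔
          M.sat φ x := by
      intro b z
      rw [ih, hM.ren]
      rfl
    rcases b with _ | _
    · constructor
      · intro h
        exact (e true (fun _ i => i.elim0)).1 (h _)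
      · intro h z
        exact (e true z).2 h
    · constructor
      · rintro ⟨z, hz⟩
        exact (e false z).1 hz
      · intro h
        exact ⟨fun _ i => i.elim0, (e false _).2 h⟩

end

end Pool.Agent.H662.A
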