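import Pool.Agent.H662.C1
import Pool.Agent.H662.B1

/-!
# The theorem of Los for formulas with blocks, and maps which preserve universal formulas
-/

set_option autoImplicit false
set_option linter.unusedSectionVars false

namespace Pool.Agent.H662.A

open Filter

section los

variable {𝓛 : Lg} {M N : Str 𝓛} (e : ∀ s, (ℕ → M.C s) → N.C s)

/-- The theorem of Los. -/
theorem los (he : ∀ s, Function.Surjective (e s)) (hne : ∀ s, Nonempty (M.C s))
    (hqf : ∀ {X : 𝓛.S → Type} (φ : 𝓛.QF X) (x : ∀ s, X s → ℕ → M.C s),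
      N.sat φ (fun s i => e s (x s i)) ↔ ∀ᶠ m in (UU : Filter ℕ), M.sat φ (fun s i => x s i m))
    (n : ℕ) : ∀ (b : Bool) {X : 𝓛.S → Type} (φ : Blk 𝓛 n X) (x : ∀ s, X s → ℕ → M.C s),
      Tr N b n φ (fun s i => e s (x s i)) ↔
        ∀ᶠ m in (UU : Filter ℕ), Tr M b n φ (fun s i => x s i m) := by
  induction n with
  | zero =>
    intro b X φ x
    rcases b with _ | _
    · exact hqf φ x
    · exact hqf φ x
  | succ n ih =>
    intro b X ⟨a, φ⟩ x
    choose e' he' using he
    have ex : ∀ (y : ∀ s, Fin (a s) → ℕ → M.C s),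
        (fun s => Sum.elim (fun i => e s (x s i)) (fun i => e s (y s i)) :
          ∀ s, X s ⊕ Fin (a s) → N.C s) =
        fun s i => e s ((Sum.elim (x s) (y s) : X s ⊕ Fin (a s) → ℕ → M.C s) i) := by
      intro y
      funext s i
      rcases i with i | i <;> rfl
    have ex2 : ∀ (y : ∀ s, Fin (a s) → ℕ → M.C s) (m : ℕ),
        (fun s i => (Sum.elim (x s) (y s) : X s ⊕ Fin (a s) → ℕ → M.C s) i m) =
        fun s => Sum.elim (fun i => x s i m) (fun i => y s i m) := by
      intro y m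
      funext s i
      rcases i with i | i <;> rfl
    have key : ∀ (b : Bool) (y : ∀ s, Fin (a s) → N.C s),
        Tr N b n φ (fun s => Sum.elim (fun i => e s (x s i)) (y s)) ↔
        ∀ᶠ m in (UU : Filter ℕ), Tr M b n φ
          (fun s => Sum.elim (fun i => x s i m) (fun i => e' s (y s i) m)) := by
      intro b y
      have h1 := ex (fun s i => e' s (y s i))
      simp only [he'] at h1
      rw [h1, ih]
      simp only [ex2]
    have key2 : ∀ (b : Bool) (y : ∀ s, Fin (a s) → ℕ → M.C s),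
        Tr N b n φ (fun s => Sum.elim (fun i => e s (x s i)) (fun i => e s (y s i))) ↔
        ∀ᶠ m in (UU : Filter ℕ), Tr M b n φ
          (fun s => Sum.elim (fun i => x s i m) (fun i => y s i m)) := by
      intro b y
      rw [ex, ih]
      simp only [ex2]
    have hex : ∀ (b : Bool), (∃ y : ∀ s, Fin (a s) → N.C s,
          Tr N b n φ (fun s => Sum.elim (fun i => e s (x s i)) (y s))) ↔
        ∀ᶠ m in (UU : Filter ℕ), ∃ y : ∀ s, Fin (a s) → M.C s, Tr M b n φ
          (fun s => Sum.elim (fun i => x s i m) (y s)) := by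
      intro b
      constructor
      · rintro ⟨y, hy⟩
        filter_upwards [(key b y).1 hy] with m hm
        exact ⟨_, hm⟩
      · intro h
        rw [Filter.skolem] at h
        obtain ⟨y, hy⟩ := h
        exact ⟨_, (key2 b (fun s i m => y m s i)).2 hy⟩
    have hall : ∀ (b : Bool), (∀ y : ∀ s, Fin (a s) → N.C s,
          Tr N b n φ (fun s => Sum.elim (fun i => e s (x s i)) (y s))) ↔
        ∀ᶠ m in (UU : Filter ℕ), ∀ y : ∀ s, Fin (a s) → M.C s, Tr M b n φ
          (fun s => Sum.elim (fun i => x s i m) (y s)) := by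
      intro b
      constructor
      · intro h
        by_contra hc
        rw [← Ultrafilter.eventually_not] at hc
        simp only [not_forall] at hc
        rw [Filter.skolem] at hc
        obtain ⟨y, hy⟩ := hc
        have h1 := (key2 b (fun s i m => y m s i)).1 (h _)
        rw [Ultrafilter.eventually_not] at hy
        exact hy h1
      · intro h y
        rw [key]
        filter_upwards [h] with m hm
        exact hm _
    rcases b with _ | _
    · exact hall true
    · exact hex false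

end los

section approx

variable {𝓛 : Lg} {o : Ops 𝓛}

/-- finite conjunctions -/
theorem exists_conj (o : Ops 𝓛) (n : ℕ) {X : 𝓛.S → Type} (m : ℕ) (ψ : ℕ → Blk 𝓛 n X) :
    ∃ Ψ : Blk 𝓛 n X, ∀ (M : Str 𝓛), Nice o M → ∀ (b : Bool) (x : ∀ s, X s → M.C s),
      Tr M b n Ψ x ↔ ∀ j < m, Tr M b n (ψ j) x := by
  induction m with
  | zero =>
    refine ⟨blift o n o.tru, fun M hM b x => ?_⟩
    rw [tr_lift hM]
    exact ⟨fun _ j hj => absurd hj (Nat.not_lt_zero j), fun _ => hM.tru x⟩
  | succ m ih =>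
    obtain ⟨Ψ, hΨ⟩ := ih
    refine ⟨band o n Ψ (ψ m), fun M hM b x => ?_⟩
    rw [tr_and hM, hΨ M hM]
    constructor
    · rintro ⟨h1, h2⟩ j hj
      rcases Nat.lt_succ_iff_lt_or_eq.1 hj with h | rfl
      · exact h1 j h
      · exact h2
    · intro h
      exact ⟨fun j hj => h j (Nat.lt_succ_of_lt hj), h m (Nat.lt_succ_self m)⟩

variable {M N : Str 𝓛} (hM : Nice o M) (hN : Nice o N) {P : 𝓛.S → Type}
  (p : ∀ s, P s → N.C s) (q : ∀ s, P s → M.C s) (hpq : ∀ s t t', p s t = p s t' → q s t = q s t')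

include hM hN hpq

theorem approx_one (n : ℕ)
    (H : ∀ (Y : 𝓛.S → Type), (∀ s, Finite (Y s)) → ∀ (φ : Blk 𝓛 (n + 1) Y) (y : ∀ s, Y s → P s),
      Tr N true (n + 1) φ (fun s i => p s (y s i)) → Tr M true (n + 1) φ (fun s i => q s (y s i)))
    {D : 𝓛.S → Type} [∀ s, Finite (D s)] (Ψ : Blk 𝓛 n D) (d : ∀ s, D s → N.C s)
    (hd : Tr N false n Ψ d) : ∃ h : ∀ s, N.C s → M.C s, (∀ s t, h s (p s t) = q s t) ∧
      Tr M false n Ψ (fun s i => h s (d s i)) := by
  classical
  let E : ∀ s, Set (N.C s) := fun s => Set.range (d s)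
  let Q : ∀ s, E s → Prop := fun s z => z.1 ∈ Set.range (p s)
  have hfE : ∀ s, Finite (E s) := fun s => Set.finite_range (d s)
  let Y : 𝓛.S → Type := fun s => {z : E s // Q s z}
  let a : 𝓛.S → ℕ := fun s => Nat.card {z : E s // ¬ Q s z}
  let eq : ∀ s, {z : E s // ¬ Q s z} ≃ Fin (a s) := fun s => Finite.equivFin _
  let toE : ∀ s, D s → E s := fun s i => ⟨d s i, i, rfl⟩
  let ρ' : ∀ s, E s → Y s ⊕ Fin (a s) := fun s z =>
    if hz : Q s z then Sum.inl ⟨z, hz⟩ else Sum.inr (eq s ⟨z, hz⟩)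
  let ρ : ∀ s, D s → Y s ⊕ Fin (a s) := fun s i => ρ' s (toE s i)
  let y : ∀ s, Y s → P s := fun s z => z.2.choose
  have hy : ∀ s (z : Y s), p s (y s z) = z.1.1 := fun s z => z.2.choose_spec
  have hN1 : Tr N true (n + 1) ⟨a, bren o n ρ Ψ⟩ (fun s i => p s (y s i)) := by
    refine ⟨fun s i => ((eq s).symm i).1.1, ?_⟩
    rw [tr_ren hN]
    have e1 : (fun s i => (Sum.elim (fun i => p s (y s i)) (fun i => ((eq s).symm i).1.1)
        (ρ s i) : N.C s)) = d := by
      funext s i
      change Sum.elim _ _ (ρ' s (toE s i)) = _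
      simp only [ρ']
      split_ifs with hz
      · rw [Sum.elim_inl, hy]
      · rw [Sum.elim_inr, Equiv.symm_apply_apply]
    rw [e1]
    exact hd
  obtain ⟨w, hw⟩ := H Y (fun s => inferInstance) _ y hN1
  rw [tr_ren hM] at hw
  let h : ∀ s, N.C s → M.C s := fun s z =>
    if hz : z ∈ Set.range (p s) then q s hz.choose
    else if hz' : z ∈ E s then w s (eq s ⟨⟨z, hz'⟩, hz⟩)
    else Classical.choice (hM.ne s)
  refine ⟨h, fun s t => ?_, ?_⟩
  · have hz : p s t ∈ Set.range (p s) := ⟨t, rfl⟩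
    simp only [h, dif_pos hz]
    exact hpq s _ _ hz.choose_spec
  · have e2 : (fun s i => (Sum.elim (fun i => q s (y s i)) (w s) (ρ s i) : M.C s)) =
        fun s i => h s (d s i) := by
      funext s i
      change Sum.elim _ _ (ρ' s (toE s i)) = _
      simp only [ρ']
      split_ifs with hz
      · rw [Sum.elim_inl]
        have hz' : d s i ∈ Set.range (p s) := hz
        simp only [h, dif_pos hz']
        exact hpq s _ _ ((hy s ⟨toE s i, hz⟩).trans hz'.choose_spec.symm)
      · have hz' : ¬ (d s i ∈ Set.range (p s)) := hz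
        have hz'' : d s i ∈ E s := ⟨i, rfl⟩
        simp only [h, dif_neg hz', dif_pos hz'', Sum.elim_inr, toE]
    rw [e2] at hw
    exact hw

omit hM hN hpq in
theorem countable_blk [Finite 𝓛.S] (hcl : ∀ X : 𝓛.S → Type, (∀ s, Finite (X s)) →
    Countable (𝓛.QF X)) (n : ℕ) : ∀ X : 𝓛.S → Type, (∀ s, Finite (X s)) →
    Countable (Blk 𝓛 n X) := by
  induction n with
  | zero => exact hcl
  | succ n ih =>
    intro X hX
    have h1 : ∀ a : 𝓛.S → ℕ, Countable (Blk 𝓛 n (fun s => X s ⊕ Fin (a s))) := fun a =>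
      ih _ (fun s => inferInstance)
    change Countable (Σ a : 𝓛.S → ℕ, Blk 𝓛 n (fun s => X s ⊕ Fin (a s)))
    infer_instance

/-- Maps which preserve universal formulas. -/
theorem approx [Finite 𝓛.S] (hc : ∀ s, Countable (N.C s))
    (hcl : ∀ X : 𝓛.S → Type, (∀ s, Finite (X s)) → Countable (𝓛.QF X)) (n : ℕ)
    (H : ∀ (Y : 𝓛.S → Type), (∀ s, Finite (Y s)) → ∀ (φ : Blk 𝓛 (n + 1) Y) (y : ∀ s, Y s → P s),
      Tr N true (n + 1) φ (fun s i => p s (y s i)) →
      Tr M true (n + 1) φ (fun s i => q s (y s i))) :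
    ∃ h : ℕ → ∀ s, N.C s → M.C s, (∀ i s t, h i s (p s t) = q s t) ∧
      ∀ (X : 𝓛.S → Type), (∀ s, Finite (X s)) → ∀ (ψ : Blk 𝓛 n X) (c : ∀ s, X s → N.C s),
        Tr N false n ψ c → ∀ᶠ i in atTop, Tr M false n ψ (fun s j => h i s (c s j)) := by
  classical
  let I : Type := Σ k : (𝓛.S → ℕ), {z : Blk 𝓛 n (fun s => Fin (k s)) ×
    (∀ s, Fin (k s) → N.C s) // Tr N false n z.1 z.2}
  have hI : Countable I := by
    have h1 : ∀ k : 𝓛.S → ℕ, Countable (Blk 𝓛 n (fun s => Fin (k s))) := fun k =>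
      countable_blk hcl n _ (fun s => inferInstance)
    infer_instance
  have hIne : Nonempty I := ⟨⟨fun _ => 0, (blift o n o.tru, fun s i => i.elim0), by
    rw [tr_lift hN]; exact hN.tru _⟩⟩
  obtain ⟨en, hen⟩ := exists_surjective_nat I
  let D : ℕ → 𝓛.S → Type := fun i s => Σ j : Fin i, Fin ((en j).1 s)
  let d : ∀ (i : ℕ) (s : 𝓛.S), D i s → N.C s := fun i s t => (en t.1).2.1.2 s t.2
  have hstep : ∀ i : ℕ, ∃ h : ∀ s, N.C s → M.C s, (∀ s t, h s (p s t) = q s t) ∧
      ∀ j < i, Tr M false n (en j).2.1.1 (fun s t => h s ((en j).2.1.2 s t)) := by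
    intro i
    obtain ⟨Ψ, hΨ⟩ := exists_conj (X := D i) o n i (fun j => if hj : j < i then
      bren o n (fun s t => (⟨⟨j, hj⟩, t⟩ : D i s)) (en j).2.1.1 else blift o n o.tru)
    have hΨN : Tr N false n Ψ (d i) := by
      rw [hΨ N hN]
      intro j hj
      rw [dif_pos hj, tr_ren hN]
      exact (en j).2.2
    have hfin : ∀ s, Finite (D i s) := fun s => inferInstance
    obtain ⟨h, h1, h2⟩ := approx_one hM hN p q hpq n H Ψ (d i) hΨN
    refine ⟨h, h1, fun j hj => ?_⟩
    rw [hΨ M hM] at h2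
    have h3 := h2 j hj
    rw [dif_pos hj, tr_ren hM] at h3
    exact h3
  choose h h1 h2 using hstep
  refine ⟨h, h1, fun X hX ψ c hψ => ?_⟩
  let k : 𝓛.S → ℕ := fun s => Nat.card (X s)
  let eX : ∀ s, X s ≃ Fin (k s) := fun s => Finite.equivFin _
  have hz : Tr N false n (bren o n (fun s => eX s) ψ) (fun s j => c s ((eX s).symm j)) := by
    rw [tr_ren hN]
    simpa using hψ
  obtain ⟨j, hj⟩ := hen ⟨k, (bren o n (fun s => eX s) ψ, fun s j => c s ((eX s).symm j)), hz⟩
  filter_upwards [eventually_gt_atTop j] with i hi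
  have h3 := h2 i j hi
  rw [hj] at h3
  dsimp only at h3
  rw [tr_ren hM] at h3
  simpa using h3

end approx

end Pool.Agent.H662.A
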