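import Pool.Agent.H662.C1

/-!
# Countable closures, and elementary substructures
-/

set_option autoImplicit false
set_option linter.unusedSectionVars false

namespace Pool.Agent.H662.A

/-- `P` holds for all sets which are closed under some countable family of finitary functions. -/
def Clo {T : Type} (P : Set T → Prop) : Prop :=
  ∃ (ι : Type) (_ : Countable ι) (X : ι → Type) (_ : ∀ i, Finite (X i)) (f : ∀ i, (X i → T) → T),
    ∀ C : Set T, (∀ i x, (∀ j, x j ∈ C) → f i x ∈ C) → P C

section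

variable {T : Type}

theorem Clo.mono {P Q : Set T → Prop} (h : ∀ C, P C → Q C) (hP : Clo P) : Clo Q := by
  obtain ⟨ι, h1, X, h2, f, h3⟩ := hP
  exact ⟨ι, h1, X, h2, f, fun C hC => h C (h3 C hC)⟩

theorem Clo.one {X : Type} [Finite X] (f : (X → T) → T) :
    Clo (fun C : Set T => ∀ x, (∀ j, x j ∈ C) → f x ∈ C) :=
  ⟨Unit, inferInstance, fun _ => X, fun _ => inferInstance, fun _ => f, fun C hC => hC ()⟩

theorem Clo.all {ι : Type} [Countable ι] {P : ι → Set T → Prop} (h : ∀ i, Clo (P i)) :
    Clo (fun C => ∀ i, P i C) := by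
  choose κ h1 X h2 f h3 using h
  exact ⟨Σ i, κ i, inferInstance, fun z => X z.1 z.2, fun z => inferInstance,
    fun z => f z.1 z.2, fun C hC i => h3 i C fun j x hx => hC ⟨i, j⟩ x hx⟩

theorem Clo.and {P Q : Set T → Prop} (hP : Clo P) (hQ : Clo Q) : Clo (fun C => P C ∧ Q C) := by
  have h : Clo (fun C => ∀ i : Bool, (if i then P else Q) C) := by
    refine Clo.all fun i => ?_
    cases i
    · exact hQ
    · exact hP
  exact h.mono fun C hC => ⟨hC true, hC false⟩

theorem Clo.exists_countable {P : Set T → Prop} (hP : Clo P) {C₀ : Set T} (hC₀ : C₀.Countable) :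
    ∃ C, C₀ ⊆ C ∧ C.Countable ∧ P C := by
  classical
  obtain ⟨ι, hι, X, hX, f, hf⟩ := hP
  have : Countable C₀ := hC₀
  let β : C₀ ⊕ ι → Type := Sum.elim (fun _ => Empty) X
  have hβ : ∀ a, Finite (β a) := by
    rintro (a | a)
    · exact (inferInstance : Finite Empty)
    · exact hX a
  have hW : Countable (WType β) := by
    have h1 : ∀ a, Fintype (β a) := fun a => Fintype.ofFinite _
    have h2 : ∀ a, Encodable (β a) := fun a => Fintype.toEncodable _
    have h3 : Encodable (C₀ ⊕ ι) := Encodable.ofCountable _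
    infer_instance
  let ev : WType β → T := WType.elim T fun z => match z with
    | ⟨Sum.inl a, _⟩ => a.1
    | ⟨Sum.inr i, x⟩ => f i x
  refine ⟨Set.range ev, fun a ha => ⟨WType.mk (Sum.inl ⟨a, ha⟩) (fun z => z.elim), rfl⟩,
    Set.countable_range ev, hf _ fun i x hx => ?_⟩
  choose w hw using hx
  refine ⟨WType.mk (Sum.inr i) w, ?_⟩
  change f i (fun j => ev (w j)) = f i x
  congr 1
  funext j
  exact hw j

end

section tv

variable {𝓛 : Lg} {o : Ops 𝓛} {M : Str 𝓛} {T : Type}

/-- Elementary substructures. -/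
def Elem {𝓛 : Lg} (M₀ M : Str 𝓛) (j : ∀ s, M₀.C s → M.C s) : Prop :=
  ∀ (n : ℕ) (b : Bool) (X : 𝓛.S → Type), (∀ s, Finite (X s)) → ∀ (φ : Blk 𝓛 n X)
    (x : ∀ s, X s → M₀.C s), Tr M₀ b n φ x ↔ Tr M b n φ (fun s i => j s (x s i))

/-- truth of the formula if `b` is false, falsity if `b` is true -/
def Wi {𝓛 : Lg} (M : Str 𝓛) (b : Bool) (n : ℕ) {X : 𝓛.S → Type} (φ : Blk 𝓛 n X)
    (x : ∀ s, X s → M.C s) : Prop := if b then ¬ Tr M true n φ x else Tr M false n φ x

theorem countable_blk' [Finite 𝓛.S] (hcl : ∀ X : 𝓛.S → Type, (∀ s, Finite (X s)) →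
    Countable (𝓛.QF X)) (n : ℕ) : ∀ X : 𝓛.S → Type, (∀ s, Finite (X s)) →
    Countable (Blk 𝓛 n X) := by
  induction n with
  | zero => exact hcl
  | succ n ih =>
    intro X hX
    have h1 : ∀ a : 𝓛.S → ℕ, Countable (Blk 𝓛 n (fun s => X s ⊕ Fin (a s))) := fun a =>
      ih _ (fun s => inferInstance)
    change Countable (Σ a : 𝓛.S → ℕ, Blk 𝓛 n (fun s => X s ⊕ Fin (a s)))
    infer_instance

theorem clo_skolem [Finite 𝓛.S] (hM : Nice o M)
    (hcl : ∀ X : 𝓛.S → Type, (∀ s, Finite (X s)) → Countable (𝓛.QF X))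
    (inc : ∀ s, M.C s → T) (hinc : ∀ s, Function.Injective (inc s)) :
    Clo (fun C : Set T => ∀ (b : Bool) (n : ℕ) (k a : 𝓛.S → ℕ)
      (ψ : Blk 𝓛 n (fun s => Fin (k s) ⊕ Fin (a s))) (x : ∀ s, Fin (k s) → M.C s),
      (∀ s i, inc s (x s i) ∈ C) →
      (∃ y : ∀ s, Fin (a s) → M.C s, Wi M b n ψ (fun s => Sum.elim (x s) (y s))) →
      ∃ y : ∀ s, Fin (a s) → M.C s, (∀ s i, inc s (y s i) ∈ C) ∧
        Wi M b n ψ (fun s => Sum.elim (x s) (y s))) := by
  classical
  have hcount : ∀ (n : ℕ) (k a : 𝓛.S → ℕ),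
      Countable (Blk 𝓛 n (fun s => Fin (k s) ⊕ Fin (a s))) := fun n k a =>
    countable_blk' hcl n _ (fun s => inferInstance)
  refine Clo.all fun b => Clo.all fun n => Clo.all fun k => Clo.all fun a => Clo.all fun ψ => ?_
  let Q : ((Σ s, Fin (k s)) → T) → (∀ s, Fin (a s) → M.C s) → Prop := fun t y =>
    ∃ x : ∀ s, Fin (k s) → M.C s, (∀ z : Σ s, Fin (k s), inc z.1 (x z.1 z.2) = t z) ∧
      Wi M b n ψ (fun s => Sum.elim (x s) (y s))
  have h1 : Clo (fun C : Set T => ∀ (z : Σ s, Fin (a s)) (t : (Σ s, Fin (k s)) → T),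
      (∀ j, t j ∈ C) → (if h : ∃ y, Q t y then inc z.1 (h.choose z.1 z.2) else
        inc z.1 (Classical.choice (hM.ne z.1))) ∈ C) :=
    Clo.all fun z => Clo.one fun t => (if h : ∃ y, Q t y then inc z.1 (h.choose z.1 z.2) else
        inc z.1 (Classical.choice (hM.ne z.1)))
  refine h1.mono fun C hC x hx hy => ?_
  have h2 : ∃ y, Q (fun z => inc z.1 (x z.1 z.2)) y := by
    obtain ⟨y, hy⟩ := hy
    exact ⟨y, x, fun z => rfl, hy⟩
  refine ⟨h2.choose, fun s i => ?_, ?_⟩
  · have h3 := hC ⟨s, i⟩ (fun z => inc z.1 (x z.1 z.2)) (fun z => hx _ _)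
    rw [dif_pos h2] at h3
    exact h3
  · obtain ⟨x', hx', hy'⟩ := h2.choose_spec
    have e : x' = x := by
      funext s i
      exact hinc s (hx' ⟨s, i⟩)
    rw [e] at hy'
    exact hy'

/-- The criterion of Tarski and Vaught. -/
theorem tarski_vaught [Finite 𝓛.S] (hM : Nice o M)
    (hcl : ∀ X : 𝓛.S → Type, (∀ s, Finite (X s)) → Countable (𝓛.QF X))
    (inc : ∀ s, M.C s → T) (hinc : ∀ s, Function.Injective (inc s)) :
    Clo (fun C : Set T => ∀ (M₀ : Str 𝓛) (j : ∀ s, M₀.C s → M.C s),
      (∀ s, Set.range (j s) = {x | inc s x ∈ C}) →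
      (∀ {X : 𝓛.S → Type} (φ : 𝓛.QF X) (x : ∀ s, X s → M₀.C s),
        M₀.sat φ x ↔ M.sat φ (fun s i => j s (x s i))) → Elem M₀ M j) := by
  classical
  refine (clo_skolem hM hcl inc hinc).mono fun C hC M₀ j hj hqf => ?_
  have hjC : ∀ s x, inc s (j s x) ∈ C := fun s x => by
    have : j s x ∈ {x | inc s x ∈ C} := by
      rw [← hj]
      exact ⟨x, rfl⟩
    exact this
  intro n
  induction n with
  | zero =>
    intro b X hX φ x
    rcases b with _ | _
    · exact hqf φ x
    · exact hqf φ x
  | succ n ih =>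
    intro b X hX ⟨a, φ⟩ x
    have ex : ∀ (y : ∀ s, Fin (a s) → M₀.C s),
        (fun s i => j s (Sum.elim (x s) (y s) i) : ∀ s, X s ⊕ Fin (a s) → M.C s) =
          fun s => Sum.elim (fun i => j s (x s i)) (fun i => j s (y s i)) := by
      intro y
      funext s i
      rcases i with i | i <;> rfl
    have key : ∀ b : Bool, (∃ y : ∀ s, Fin (a s) → M₀.C s,
        Wi M₀ b n φ (fun s => Sum.elim (x s) (y s))) ↔
        ∃ y : ∀ s, Fin (a s) → M.C s, Wi M b n φ (fun s => Sum.elim (fun i => j s (x s i)) (y s)) := by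
      intro b
      have key2 : ∀ (y : ∀ s, Fin (a s) → M₀.C s), Wi M₀ b n φ (fun s => Sum.elim (x s) (y s)) ↔
          Wi M b n φ (fun s => Sum.elim (fun i => j s (x s i)) (fun i => j s (y s i))) := by
        intro y
        unfold Wi
        rcases b with _ | _
        · have h1 := ih false (fun s => X s ⊕ Fin (a s)) (fun s => inferInstance) φ
            (fun s => Sum.elim (x s) (y s))
          rw [ex] at h1
          simpa using h1
        · have h1 := ih true (fun s => X s ⊕ Fin (a s)) (fun s => inferInstance) φ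
            (fun s => Sum.elim (x s) (y s))
          rw [ex] at h1
          simpa using not_congr h1
      constructor
      · rintro ⟨y, hy⟩
        exact ⟨_, (key2 y).1 hy⟩
      · rintro ⟨y, hy⟩
        let k : 𝓛.S → ℕ := fun s => Nat.card (X s)
        let eX : ∀ s, X s ≃ Fin (k s) := fun s => Finite.equivFin _
        have hren : ∀ y : ∀ s, Fin (a s) → M.C s,
            Wi M b n (bren o n (fun s => Sum.map (eX s) id) φ)
              (fun s => Sum.elim (fun i => j s (x s ((eX s).symm i))) (y s)) ↔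
            Wi M b n φ (fun s => Sum.elim (fun i => j s (x s i)) (y s)) := by
          intro y
          have e2 : (fun s i => (Sum.elim (fun i => j s (x s ((eX s).symm i))) (y s)
              (Sum.map (eX s) id i) : M.C s)) =
              fun s => Sum.elim (fun i => j s (x s i)) (y s) := by
            funext s i
            rcases i with i | i <;> simp
          unfold Wi
          rw [tr_ren hM, tr_ren hM, e2]
        obtain ⟨y', hy', hy''⟩ := hC b n k a (bren o n (fun s => Sum.map (eX s) id) φ)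
          (fun s i => j s (x s ((eX s).symm i))) (fun s i => hjC _ _) ⟨y, (hren y).2 hy⟩
        rw [hren] at hy''
        have h3 : ∀ s i, ∃ z, j s z = y' s i := by
          intro s i
          have : y' s i ∈ Set.range (j s) := by
            rw [hj]
            exact hy' s i
          exact this
        choose z hz using h3
        refine ⟨z, (key2 z).2 ?_⟩
        simp only [hz]
        exact hy''
    rcases b with _ | _
    · have h1 := not_congr (key true)
      simp only [Wi, if_true, not_exists, not_not] at h1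
      exact h1
    · have h1 := key false
      simp only [Wi, Bool.false_eq_true, if_false] at h1
      exact h1

end tv

end Pool.Agent.H662.A
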