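import Mathlib
import Pool.Agent.H662.C1

/-!
# The languages of rings, of ordered abelian groups, and of valued fields
-/

set_option autoImplicit false
set_option linter.unusedSectionVars false

namespace Pool.Agent.H662.A

/-- Boolean combinations of atomic formulas. -/
inductive Bc (A : Type) : Type
  | atom : A → Bc A
  | not : Bc A → Bc A
  | and : Bc A → Bc A → Bc A
  deriving Countable

/-- Truth of a Boolean combination. -/
def Bc.holds {A : Type} (p : A → Prop) : Bc A → Prop
  | .atom a => p a
  | .not φ => ¬ φ.holds p
  | .and φ ψ => φ.holds p ∧ ψ.holds p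

/-- Terms of the language of rings. -/
inductive RTm (X : Type) : Type
  | var : X → RTm X
  | zero : RTm X
  | one : RTm X
  | add : RTm X → RTm X → RTm X
  | neg : RTm X → RTm X
  | mul : RTm X → RTm X → RTm X
  deriving Countable

/-- The value of a term of the language of rings. -/
def RTm.ev {X K : Type} [Field K] (x : X → K) : RTm X → K
  | .var i => x i
  | .zero => 0
  | .one => 1
  | .add t t' => t.ev x + t'.ev x
  | .neg t => - t.ev x
  | .mul t t' => t.ev x * t'.ev x

/-- Terms of the language of ordered abelian groups. -/
inductive GTm (X : Type) : Type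
  | var : X → GTm X
  | zero : GTm X
  | add : GTm X → GTm X → GTm X
  | neg : GTm X → GTm X
  deriving Countable

/-- The value of a term of the language of ordered abelian groups; the group is written
multiplicatively. -/
def GTm.ev {X G : Type} [DivInvMonoid G] (x : X → G) : GTm X → G
  | .var i => x i
  | .zero => 1
  | .add t t' => t.ev x * t'.ev x
  | .neg t => (t.ev x)⁻¹

/-- Atomic formulas of the language of rings. -/
inductive RAtm (X : Type) : Type
  | eq : RTm X → RTm X → RAtm X
  deriving Countable

def RAtm.holds {X K : Type} [Field K] (x : X → K) : RAtm X → Prop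
  | .eq t t' => t.ev x = t'.ev x

/-- Atomic formulas of the language of ordered abelian groups. -/
inductive GAtm (X : Type) : Type
  | eq : GTm X → GTm X → GAtm X
  | le : GTm X → GTm X → GAtm X
  deriving Countable

/-- Truth of atomic formulas in an ordered abelian group, which is written multiplicatively and with
the reverse order. -/
def GAtm.holds {X G : Type} [DivInvMonoid G] [LE G] (x : X → G) : GAtm X → Prop
  | .eq t t' => t.ev x = t'.ev x
  | .le t t' => t'.ev x ≤ t.ev x

/-- The terms of residue field sort are the ring terms in these. -/
inductive ROf (A B : Type) : Type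
  | var : B → ROf A B
  | res : RTm A → ROf A B
  deriving Countable

def ROf.ev {A B K k : Type} [Field K] (res : K → k) (x : A → K) (y : B → k) : ROf A B → k
  | .var i => y i
  | .res t => res (t.ev x)

/-- The terms of value group sort are the group terms in these. -/
inductive GOf (A C : Type) : Type
  | var : C → GOf A C
  | val : RTm A → GOf A C
  | infty : GOf A C
  deriving Countable

def GOf.ev {A C K Γ : Type} [Field K] [Zero Γ] (v : K → Γ) (x : A → K) (z : C → Γ) : GOf A C → Γ
  | .var i => z i
  | .val t => v (t.ev x)
  | .infty => 0

/-- Atomic formulas of the language of valued fields. -/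
inductive VAtm (A B C : Type) : Type
  | eqF : RTm A → RTm A → VAtm A B C
  | eqR : RTm (ROf A B) → RTm (ROf A B) → VAtm A B C
  | eqG : GTm (GOf A C) → GTm (GOf A C) → VAtm A B C
  | leG : GTm (GOf A C) → GTm (GOf A C) → VAtm A B C
  deriving Countable

def VAtm.holds {A B C K k Γ : Type} [Field K] [Field k] [GroupWithZero Γ] [LE Γ]
    (v : K → Γ) (res : K → k) (x : A → K) (y : B → k) (z : C → Γ) : VAtm A B C → Prop
  | .eqF t t' => t.ev x = t'.ev x
  | .eqR t t' => t.ev (fun i => i.ev res x y) = t'.ev (fun i => i.ev res x y)
  | .eqG t t' => t.ev (fun i => i.ev v x z) = t'.ev (fun i => i.ev v x z)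
  | .leG t t' => t'.ev (fun i => i.ev v x z) ≤ t.ev (fun i => i.ev v x z)

/-- The language of rings. -/
def ringLg : Lg := ⟨Unit, fun X => Bc (RAtm (X ()))⟩

/-- The language of ordered abelian groups. -/
def oagLg : Lg := ⟨Unit, fun X => Bc (GAtm (X ()))⟩

/-- The sorts of the language of valued fields -/
inductive Srt : Type
  | F | R | G
  deriving DecidableEq, Countable

/-- The three-sorted language of valued fields. -/
def valLg : Lg := ⟨Srt, fun X => Bc (VAtm (X .F) (X .R) (X .G))⟩

/-- A field, as a structure for the language of rings -/
def ringStr (K : Type) [Field K] : Str ringLg where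
  C := fun _ => K
  sat := fun φ x => Bc.holds (RAtm.holds (x ())) φ

/-- An ordered abelian group in multiplicative notation, with the reverse order, as a structure. -/
def oagStr (G : Type) [DivInvMonoid G] [LE G] : Str oagLg where
  C := fun _ => G
  sat := fun φ x => Bc.holds (GAtm.holds (x ())) φ

/-- The carriers of a valued field -/
def Car (K k Γ : Type) : Srt → Type
  | .F => K
  | .R => k
  | .G => Γ

/-- The three-sorted structure of a valued field -/
def valStr {K k Γ : Type} [Field K] [Field k] [GroupWithZero Γ] [LE Γ] (v : K → Γ) (res : K → k) :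
    Str valLg where
  C := Car K k Γ
  sat := fun φ x => Bc.holds (VAtm.holds v res (x .F) (x .R) (x .G)) φ

end Pool.Agent.H662.A
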