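import Pool.Agent.H662.D1
import Pool.Agent.H662.B3
import Pool.Agent.H662.C2
import Pool.Agent.H662.C3

/-!
# Renaming, ultrapowers and embeddings for the languages of rings, groups and valued fields
-/

set_option autoImplicit false
set_option linter.unusedSectionVars false
set_option linter.unusedVariables false

namespace Pool.Agent.H662.A

open Filter

/-- the germ of a sequence -/
noncomputable def toG {X : Type} (x : ℕ → X) : GG X := (x : GG X)

theorem toG_surj {X : Type} : Function.Surjective (toG : (ℕ → X) → GG X) := fun x =>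
  Quotient.exists_rep x

/-! ### Renaming -/

def Bc.map {A B : Type} (f : A → B) : Bc A → Bc B
  | .atom a => .atom (f a)
  | .not φ => .not (φ.map f)
  | .and φ ψ => .and (φ.map f) (ψ.map f)

theorem Bc.holds_map {A B : Type} (f : A → B) (p : B → Prop) (q : A → Prop)
    (h : ∀ a, p (f a) ↔ q a) (φ : Bc A) : (φ.map f).holds p ↔ φ.holds q := by
  induction φ with
  | atom a => exact h a
  | not φ ih => exact not_congr ih
  | and φ ψ ih ih' => exact and_congr ih ih'

theorem Bc.holds_congr {A : Type} (p q : A → Prop)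
    (h : ∀ a, p a ↔ q a) (φ : Bc A) : φ.holds p ↔ φ.holds q := by
  induction φ with
  | atom a => exact h a
  | not φ ih => exact not_congr ih
  | and φ ψ ih ih' => exact and_congr ih ih'

theorem Bc.holds_los {A : Type} (p : A → Prop) (q : ℕ → A → Prop)
    (h : ∀ a, p a ↔ ∀ᶠ m in (UU : Filter ℕ), q m a) (φ : Bc A) :
    φ.holds p ↔ ∀ᶠ m in (UU : Filter ℕ), φ.holds (q m) := by
  induction φ with
  | atom a => exact h a
  | not φ ih =>
    refine (not_congr ih).trans ?_
    exact Ultrafilter.eventually_not.symm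
  | and φ ψ ih ih' =>
    refine (and_congr ih ih').trans ?_
    exact Filter.eventually_and.symm

def RTm.map {X Y : Type} (f : X → Y) : RTm X → RTm Y
  | .var i => .var (f i)
  | .zero => .zero
  | .one => .one
  | .add t t' => .add (t.map f) (t'.map f)
  | .neg t => .neg (t.map f)
  | .mul t t' => .mul (t.map f) (t'.map f)

theorem RTm.ev_map {X Y K : Type} [Field K] (f : X → Y) (y : Y → K) (t : RTm X) :
    (t.map f).ev y = t.ev (fun i => y (f i)) := by
  induction t with
  | var i => rfl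
  | zero => rfl
  | one => rfl
  | add t t' ih ih' => simp only [RTm.map, RTm.ev, ih, ih']
  | neg t ih => simp only [RTm.map, RTm.ev, ih]
  | mul t t' ih ih' => simp only [RTm.map, RTm.ev, ih, ih']

theorem RTm.ev_hom {X K L : Type} [Field K] [Field L] (f : K →+* L) (x : X → K) (t : RTm X) :
    t.ev (fun i => f (x i)) = f (t.ev x) := by
  induction t with
  | var i => rfl
  | zero => exact (map_zero f).symm
  | one => exact (map_one f).symm
  | add t t' ih ih' => simp only [RTm.ev, ih, ih', map_add]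
  | neg t ih => simp only [RTm.ev, ih, map_neg]
  | mul t t' ih ih' => simp only [RTm.ev, ih, ih', map_mul]

theorem RTm.ev_germ {X K : Type} [Field K] (x : X → ℕ → K) (t : RTm X) :
    t.ev (fun i => (x i : GG K)) = ((fun m => t.ev (fun i => x i m) : ℕ → K) : GG K) := by
  induction t with
  | var i => rfl
  | zero => rfl
  | one => rfl
  | add t t' ih ih' => simp only [RTm.ev, ih, ih']; rfl
  | neg t ih => simp only [RTm.ev, ih]; rfl
  | mul t t' ih ih' => simp only [RTm.ev, ih, ih']; rfl

def GTm.map {X Y : Type} (f : X → Y) : GTm X → GTm Y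
  | .var i => .var (f i)
  | .zero => .zero
  | .add t t' => .add (t.map f) (t'.map f)
  | .neg t => .neg (t.map f)

theorem GTm.ev_map {X Y K : Type} [DivInvMonoid K] (f : X → Y) (y : Y → K) (t : GTm X) :
    (t.map f).ev y = t.ev (fun i => y (f i)) := by
  induction t with
  | var i => rfl
  | zero => rfl
  | add t t' ih ih' => simp only [GTm.map, GTm.ev, ih, ih']
  | neg t ih => simp only [GTm.map, GTm.ev, ih]

theorem GTm.ev_hom {X K L : Type} [DivInvMonoid K] [DivInvMonoid L] (f : K → L) (h1 : f 1 = 1)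
    (hmul : ∀ a b, f (a * b) = f a * f b) (hinv : ∀ a, f a⁻¹ = (f a)⁻¹) (x : X → K)
    (t : GTm X) : t.ev (fun i => f (x i)) = f (t.ev x) := by
  induction t with
  | var i => rfl
  | zero => exact h1.symm
  | add t t' ih ih' => simp only [GTm.ev, ih, ih', hmul]
  | neg t ih => simp only [GTm.ev, ih, hinv]

theorem GTm.ev_germ {X K : Type} [LinearOrderedCommGroupWithZero K] (x : X → ℕ → K) (t : GTm X) :
    t.ev (fun i => (x i : GG K)) = ((fun m => t.ev (fun i => x i m) : ℕ → K) : GG K) := by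
  induction t with
  | var i => rfl
  | zero => rfl
  | add t t' ih ih' => simp only [GTm.ev, ih, ih']; rfl
  | neg t ih => simp only [GTm.ev, ih]; rfl

/-! ### The language of rings -/

def RAtm.map {X Y : Type} (f : X → Y) : RAtm X → RAtm Y
  | .eq t t' => .eq (t.map f) (t'.map f)

theorem RAtm.holds_map {X Y K : Type} [Field K] (f : X → Y) (y : Y → K) (a : RAtm X) :
    (a.map f).holds y ↔ a.holds (fun i => y (f i)) := by
  rcases a with ⟨t, t'⟩
  simp only [RAtm.map, RAtm.holds, RTm.ev_map]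

theorem RAtm.holds_germ {X K : Type} [Field K] (x : X → ℕ → K) (a : RAtm X) :
    a.holds (fun i => (x i : GG K)) ↔ ∀ᶠ m in (UU : Filter ℕ), a.holds (fun i => x i m) := by
  rcases a with ⟨t, t'⟩
  simp only [RAtm.holds, RTm.ev_germ]
  exact Germ.coe_eq

theorem RAtm.holds_hom {X K L : Type} [Field K] [Field L] (f : K →+* L) (x : X → K)
    (a : RAtm X) : a.holds x ↔ a.holds (fun i => f (x i)) := by
  rcases a with ⟨t, t'⟩
  simp only [RAtm.holds, RTm.ev_hom]
  exact f.injective.eq_iff.symm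

def ringOps : Ops ringLg where
  ren := fun ρ φ => Bc.map (RAtm.map (ρ ())) φ
  and := fun φ ψ => Bc.and φ ψ
  neg := fun φ => Bc.not φ
  tru := Bc.atom (.eq .zero .zero)

theorem ring_nice (K : Type) [Field K] : Nice ringOps (ringStr K) where
  ren := fun ρ φ y => Bc.holds_map _ _ _ (fun a => RAtm.holds_map (K := K) (ρ ()) (y ()) a) φ
  and := fun φ ψ x => Iff.rfl
  neg := fun φ x => Iff.rfl
  tru := fun x => rfl
  ne := fun _ => ⟨(0 : K)⟩

instance : Finite ringLg.S := inferInstanceAs (Finite Unit)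

theorem ring_countable (X : ringLg.S → Type) (hX : ∀ s, Finite (X s)) :
    Countable (ringLg.QF X) := by
  have h : Finite (X ()) := hX ()
  exact inferInstanceAs (Countable (Bc (RAtm (X ()))))

/-- sequences and elements of the ultrapower -/
noncomputable def cr (K : Type) [Field K] (s : ringLg.S) (x : ℕ → (ringStr K).C s) :
    (ringStr (GG K)).C s := toG (X := K) x

theorem cr_surj (K : Type) [Field K] (s : ringLg.S) : Function.Surjective (cr K s) :=
  toG_surj (X := K)

theorem ring_los (K : Type) [Field K] {X : ringLg.S → Type} (φ : ringLg.QF X)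
    (x : ∀ s, X s → ℕ → (ringStr K).C s) :
    (ringStr (GG K)).sat φ (fun s i => cr K s (x s i)) ↔
      ∀ᶠ m in (UU : Filter ℕ), (ringStr K).sat φ (fun s i => x s i m) :=
  Bc.holds_los _ _ (fun a => RAtm.holds_germ (K := K) (x ()) a) φ

/-- a ring homomorphism as a map of structures -/
def rj {K L : Type} [Field K] [Field L] (f : K → L) (s : ringLg.S) (x : (ringStr K).C s) :
    (ringStr L).C s := f x

theorem ring_emb {K L : Type} [Field K] [Field L] (f : K →+* L) {X : ringLg.S → Type}
    (φ : ringLg.QF X) (x : ∀ s, X s → (ringStr K).C s) :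
    (ringStr K).sat φ x ↔ (ringStr L).sat φ (fun s i => rj f s (x s i)) :=
  Bc.holds_congr _ _ (fun a => RAtm.holds_hom f (x ()) a) φ

/-! ### The language of ordered abelian groups -/

def GAtm.map {X Y : Type} (f : X → Y) : GAtm X → GAtm Y
  | .eq t t' => .eq (t.map f) (t'.map f)
  | .le t t' => .le (t.map f) (t'.map f)

theorem GAtm.holds_map {X Y K : Type} [DivInvMonoid K] [LE K] (f : X → Y) (y : Y → K)
    (a : GAtm X) : (a.map f).holds y ↔ a.holds (fun i => y (f i)) := by
  rcases a with ⟨t, t'⟩ | ⟨t, t'⟩ <;> simp only [GAtm.map, GAtm.holds, GTm.ev_map]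

/-- the unit of the ultrapower given by a sequence of units -/
noncomputable def gu {Γ : Type} [LinearOrderedCommGroupWithZero Γ] (u : ℕ → Γˣ) : (GG Γ)ˣ where
  val := ((fun n => (u n : Γ) : ℕ → Γ) : GG Γ)
  inv := ((fun n => ((u n)⁻¹ : Γˣ) : ℕ → Γ) : GG Γ)
  val_inv := by
    rw [← Germ.coe_mul]
    have : (fun n => (u n : Γ) : ℕ → Γ) * (fun n => ((u n)⁻¹ : Γˣ) : ℕ → Γ) = 1 := by
      funext n
      simp
    rw [this]
    rfl
  inv_val := by
    rw [← Germ.coe_mul]
    have : (fun n => ((u n)⁻¹ : Γˣ) : ℕ → Γ) * (fun n => (u n : Γ) : ℕ → Γ) = 1 := by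
      funext n
      simp
    rw [this]
    rfl

theorem gu_surj {Γ : Type} [LinearOrderedCommGroupWithZero Γ] :
    Function.Surjective (gu : (ℕ → Γˣ) → (GG Γ)ˣ) := by
  classical
  intro u
  obtain ⟨x, hx⟩ := Quotient.exists_rep (u : GG Γ)
  have hx' : (u : GG Γ) = ((x : ℕ → Γ) : GG Γ) := hx.symm
  have h0 : ∀ᶠ n in (UU : Filter ℕ), x n ≠ 0 := by
    rw [Ultrafilter.eventually_not]
    intro h
    have : ((x : ℕ → Γ) : GG Γ) = 0 := Germ.coe_eq.2 h
    exact u.ne_zero (hx'.trans this)
  refine ⟨fun n => if h : x n = 0 then 1 else Units.mk0 (x n) h, ?_⟩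
  refine Units.ext ?_
  rw [hx']
  refine Germ.coe_eq.2 ?_
  filter_upwards [h0] with n hn
  rw [dif_neg hn]
  rfl

theorem GTm.ev_gu {X Γ : Type} [LinearOrderedCommGroupWithZero Γ] (x : X → ℕ → Γˣ) (t : GTm X) :
    t.ev (fun i => gu (x i)) = gu (fun m => t.ev (fun i => x i m)) := by
  induction t with
  | var i => rfl
  | zero => exact Units.ext rfl
  | add t t' ih ih' => simp only [GTm.ev, ih, ih']; exact Units.ext rfl
  | neg t ih => simp only [GTm.ev, ih]; exact Units.ext rfl

theorem GAtm.holds_gu {X Γ : Type} [LinearOrderedCommGroupWithZero Γ] (x : X → ℕ → Γˣ)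
    (a : GAtm X) :
    a.holds (fun i => gu (x i)) ↔ ∀ᶠ m in (UU : Filter ℕ), a.holds (fun i => x i m) := by
  rcases a with ⟨t, t'⟩ | ⟨t, t'⟩
  · simp only [GAtm.holds, GTm.ev_gu]
    constructor
    · intro h
      have h1 := congrArg Units.val h
      have h2 := Germ.coe_eq.1 h1
      filter_upwards [h2] with m hm
      exact Units.ext hm
    · intro h
      refine Units.ext (Germ.coe_eq.2 ?_)
      filter_upwards [h] with m hm
      exact congrArg Units.val hm
  · simp only [GAtm.holds, GTm.ev_gu]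
    exact Germ.coe_le

theorem GAtm.holds_hom {X K L : Type} [Group K] [LinearOrder K] [Group L] [LinearOrder L]
    (f : K →* L) (hf : StrictMono f) (x : X → K) (a : GAtm X) :
    a.holds x ↔ a.holds (fun i => f (x i)) := by
  have e := GTm.ev_hom f (map_one f) (map_mul f) (map_inv f) x
  rcases a with ⟨t, t'⟩ | ⟨t, t'⟩
  · simp only [GAtm.holds, e]
    exact hf.injective.eq_iff.symm
  · simp only [GAtm.holds, e]
    exact hf.le_iff_le.symm

def oagOps : Ops oagLg where
  ren := fun ρ φ => Bc.map (GAtm.map (ρ ())) φ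
  and := fun φ ψ => Bc.and φ ψ
  neg := fun φ => Bc.not φ
  tru := Bc.atom (.eq .zero .zero)

theorem oag_nice (K : Type) [DivInvMonoid K] [LE K] : Nice oagOps (oagStr K) where
  ren := fun ρ φ y => Bc.holds_map _ _ _ (fun a => GAtm.holds_map (K := K) (ρ ()) (y ()) a) φ
  and := fun φ ψ x => Iff.rfl
  neg := fun φ x => Iff.rfl
  tru := fun x => rfl
  ne := fun _ => ⟨(1 : K)⟩

instance : Finite oagLg.S := inferInstanceAs (Finite Unit)

theorem oag_countable (X : oagLg.S → Type) (hX : ∀ s, Finite (X s)) :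
    Countable (oagLg.QF X) := by
  have h : Finite (X ()) := hX ()
  exact inferInstanceAs (Countable (Bc (GAtm (X ()))))

/-- sequences and elements of the ultrapower -/
noncomputable def cg (Γ : Type) [LinearOrderedCommGroupWithZero Γ] (s : oagLg.S)
    (x : ℕ → (oagStr Γˣ).C s) : (oagStr (GG Γ)ˣ).C s := gu (x : ℕ → Γˣ)

theorem cg_surj (Γ : Type) [LinearOrderedCommGroupWithZero Γ] (s : oagLg.S) :
    Function.Surjective (cg Γ s) := gu_surj

theorem oag_los (Γ : Type) [LinearOrderedCommGroupWithZero Γ] {X : oagLg.S → Type}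
    (φ : oagLg.QF X) (x : ∀ s, X s → ℕ → (oagStr Γˣ).C s) :
    (oagStr (GG Γ)ˣ).sat φ (fun s i => cg Γ s (x s i)) ↔
      ∀ᶠ m in (UU : Filter ℕ), (oagStr Γˣ).sat φ (fun s i => x s i m) :=
  Bc.holds_los _ _ (fun a => GAtm.holds_gu (x ()) a) φ

/-- a homomorphism as a map of structures -/
def gj {K L : Type} [Group K] [LinearOrder K] [Group L] [LinearOrder L] (f : K → L)
    (s : oagLg.S) (x : (oagStr K).C s) : (oagStr L).C s := f x

theorem oag_emb {K L : Type} [Group K] [LinearOrder K] [Group L] [LinearOrder L] (f : K →* L)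
    (hf : StrictMono f) {X : oagLg.S → Type} (φ : oagLg.QF X) (x : ∀ s, X s → (oagStr K).C s) :
    (oagStr K).sat φ x ↔ (oagStr L).sat φ (fun s i => gj f s (x s i)) :=
  Bc.holds_congr _ _ (fun a => GAtm.holds_hom f hf (x ()) a) φ

/-! ### The language of valued fields -/

def ROf.map {A A' B B' : Type} (f : A → A') (g : B → B') : ROf A B → ROf A' B'
  | .var i => .var (g i)
  | .res t => .res (t.map f)

theorem ROf.ev_map {A A' B B' K k : Type} [Field K] (res : K → k) (f : A → A') (g : B → B')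
    (x : A' → K) (y : B' → k) (i : ROf A B) :
    (i.map f g).ev res x y = i.ev res (fun i => x (f i)) (fun i => y (g i)) := by
  rcases i with i | t
  · rfl
  · simp only [ROf.map, ROf.ev, RTm.ev_map]

def GOf.map {A A' C C' : Type} (f : A → A') (g : C → C') : GOf A C → GOf A' C'
  | .var i => .var (g i)
  | .val t => .val (t.map f)
  | .infty => .infty

theorem GOf.ev_map {A A' C C' K Γ : Type} [Field K] [Zero Γ] (v : K → Γ) (f : A → A')
    (g : C → C') (x : A' → K) (z : C' → Γ) (i : GOf A C) :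
    (i.map f g).ev v x z = i.ev v (fun i => x (f i)) (fun i => z (g i)) := by
  rcases i with i | t | _
  · rfl
  · simp only [GOf.map, GOf.ev, RTm.ev_map]
  · rfl

def VAtm.map {A A' B B' C C' : Type} (f : A → A') (g : B → B') (h : C → C') :
    VAtm A B C → VAtm A' B' C'
  | .eqF t t' => .eqF (t.map f) (t'.map f)
  | .eqR t t' => .eqR (t.map (ROf.map f g)) (t'.map (ROf.map f g))
  | .eqG t t' => .eqG (t.map (GOf.map f h)) (t'.map (GOf.map f h))
  | .leG t t' => .leG (t.map (GOf.map f h)) (t'.map (GOf.map f h))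

theorem VAtm.holds_map {A A' B B' C C' K k Γ : Type} [Field K] [Field k] [GroupWithZero Γ] [LE Γ]
    (v : K → Γ) (res : K → k) (f : A → A') (g : B → B') (h : C → C') (x : A' → K) (y : B' → k)
    (z : C' → Γ) (a : VAtm A B C) : (a.map f g h).holds v res x y z ↔
      a.holds v res (fun i => x (f i)) (fun i => y (g i)) (fun i => z (h i)) := by
  rcases a with ⟨t, t'⟩ | ⟨t, t'⟩ | ⟨t, t'⟩ | ⟨t, t'⟩ <;>
  simp only [VAtm.map, VAtm.holds, RTm.ev_map, GTm.ev_map, ROf.ev_map, GOf.ev_map]

theorem VAtm.holds_germ {A B C : Type} (M : VF) (x : A → ℕ → M.K) (y : B → ℕ → M.k)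
    (z : C → ℕ → M.Γ) (a : VAtm A B C) : a.holds (ultraV M.v) (gmap M.res)
      (fun i => (x i : GG M.K)) (fun i => (y i : GG M.k)) (fun i => (z i : GG M.Γ)) ↔
      ∀ᶠ m in (UU : Filter ℕ), a.holds M.v M.res (fun i => x i m) (fun i => y i m)
        (fun i => z i m) := by
  have h1 : ∀ i : ROf A B, i.ev (gmap M.res) (fun i => (x i : GG M.K)) (fun i => (y i : GG M.k)) =
      ((fun m => i.ev M.res (fun i => x i m) (fun i => y i m) : ℕ → M.k) : GG M.k) := by
    rintro (i | t)
    · rfl
    · simp only [ROf.ev, RTm.ev_germ]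
      rfl
  have h2 : ∀ i : GOf A C, i.ev (ultraV M.v) (fun i => (x i : GG M.K)) (fun i => (z i : GG M.Γ)) =
      ((fun m => i.ev M.v (fun i => x i m) (fun i => z i m) : ℕ → M.Γ) : GG M.Γ) := by
    rintro (i | t | _)
    · rfl
    · simp only [GOf.ev, RTm.ev_germ]
      rfl
    · rfl
  rcases a with ⟨t, t'⟩ | ⟨t, t'⟩ | ⟨t, t'⟩ | ⟨t, t'⟩
  · simp only [VAtm.holds, RTm.ev_germ]
    exact Germ.coe_eq
  · simp only [VAtm.holds, h1, RTm.ev_germ]
    exact Germ.coe_eq
  · simp only [VAtm.holds, h2, GTm.ev_germ]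
    exact Germ.coe_eq
  · simp only [VAtm.holds, h2, GTm.ev_germ]
    exact Germ.coe_le

theorem VAtm.holds_hom {A B C : Type} {L M : VF} (E : Emb L M) (x : A → L.K) (y : B → L.k)
    (z : C → L.Γ) (a : VAtm A B C) : a.holds L.v L.res x y z ↔
      a.holds M.v M.res (fun i => E.f (x i)) (fun i => E.r (y i)) (fun i => E.g (z i)) := by
  have h1 : ∀ i : ROf A B, i.ev M.res (fun i => E.f (x i)) (fun i => E.r (y i)) =
      E.r (i.ev L.res x y) := by
    rintro (i | t)
    · rfl
    · simp only [ROf.ev, RTm.ev_hom, E.res]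
  have h2 : ∀ i : GOf A C, i.ev M.v (fun i => E.f (x i)) (fun i => E.g (z i)) =
      E.g (i.ev L.v x z) := by
    rintro (i | t | _)
    · rfl
    · simp only [GOf.ev, RTm.ev_hom, E.val]
    · exact (map_zero E.g).symm
  have h3 : ∀ {X : Type} (x : X → L.Γ) (t : GTm X), t.ev (fun i => E.g (x i)) = E.g (t.ev x) :=
    fun x t => GTm.ev_hom E.g (map_one _) (map_mul _) (map_inv₀ _) x t
  rcases a with ⟨t, t'⟩ | ⟨t, t'⟩ | ⟨t, t'⟩ | ⟨t, t'⟩
  · simp only [VAtm.holds, RTm.ev_hom]
    exact E.f.injective.eq_iff.symm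
  · simp only [VAtm.holds, h1, RTm.ev_hom]
    exact E.r.injective.eq_iff.symm
  · simp only [VAtm.holds, h2, h3]
    exact E.mono.injective.eq_iff.symm
  · simp only [VAtm.holds, h2, h3]
    exact E.mono.le_iff_le.symm

def valOps : Ops valLg where
  ren := fun ρ φ => Bc.map (VAtm.map (ρ .F) (ρ .R) (ρ .G)) φ
  and := fun φ ψ => Bc.and φ ψ
  neg := fun φ => Bc.not φ
  tru := Bc.atom (.eqF .zero .zero)

theorem val_nice {K k Γ : Type} [Field K] [Field k] [GroupWithZero Γ] [LE Γ] (v : K → Γ)
    (res : K → k) : Nice valOps (valStr v res) where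
  ren := fun ρ φ y => Bc.holds_map _ _ _ (fun a => VAtm.holds_map v res (ρ .F) (ρ .R) (ρ .G)
    (y .F) (y .R) (y .G) a) φ
  and := fun φ ψ x => Iff.rfl
  neg := fun φ x => Iff.rfl
  tru := fun x => rfl
  ne := by
    rintro (_ | _ | _)
    · exact ⟨(0 : K)⟩
    · exact ⟨(0 : k)⟩
    · exact ⟨(0 : Γ)⟩

instance : Finite Srt := by
  refine Finite.of_surjective (fun i : Fin 3 => if i = 0 then Srt.F else if i = 1 then .R else .G) ?_
  rintro (_ | _ | _)
  · exact ⟨0, rfl⟩
  · exact ⟨1, rfl⟩
  · exact ⟨2, rfl⟩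

instance : Finite valLg.S := inferInstanceAs (Finite Srt)

theorem val_countable (X : valLg.S → Type) (hX : ∀ s, Finite (X s)) : Countable (valLg.QF X) := by
  have h1 : Finite (X .F) := hX .F
  have h2 : Finite (X .R) := hX .R
  have h3 : Finite (X .G) := hX .G
  exact inferInstanceAs (Countable (Bc (VAtm (X .F) (X .R) (X .G))))

/-- a valued field as a structure -/
abbrev VF.str (M : VF) : Str valLg := valStr M.v M.res

/-- sequences and elements of the ultrapower -/
noncomputable def ce (M : VF) : ∀ s, (ℕ → M.str.C s) → M.ultra.str.C s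
  | .F, x => toG (X := M.K) x
  | .R, x => toG (X := M.k) x
  | .G, x => toG (X := M.Γ) x

theorem ce_surj (M : VF) : ∀ s, Function.Surjective (ce M s) := by
  rintro (_ | _ | _)
  · exact toG_surj (X := M.K)
  · exact toG_surj (X := M.k)
  · exact toG_surj (X := M.Γ)

theorem val_los (M : VF) {X : valLg.S → Type} (φ : valLg.QF X)
    (x : ∀ s, X s → ℕ → M.str.C s) :
    M.ultra.str.sat φ (fun s i => ce M s (x s i)) ↔
      ∀ᶠ m in (UU : Filter ℕ), M.str.sat φ (fun s i => x s i m) :=
  Bc.holds_los _ _ (fun a => VAtm.holds_germ M (x .F) (x .R) (x .G) a) φ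

/-- the maps of an embedding -/
def Emb.j {L M : VF} (E : Emb L M) : ∀ s, L.str.C s → M.str.C s
  | .F, x => E.f x
  | .R, x => E.r x
  | .G, x => E.g x

theorem val_emb {L M : VF} (E : Emb L M) {X : valLg.S → Type} (φ : valLg.QF X)
    (x : ∀ s, X s → L.str.C s) :
    L.str.sat φ x ↔ M.str.sat φ (fun s i => E.j s (x s i)) :=
  Bc.holds_congr _ _ (fun a => VAtm.holds_hom E (x .F) (x .R) (x .G) a) φ

end Pool.Agent.H662.A
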