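import Pool.Agent.H662.D2

/-!
# Countable elementary substructures of valued fields
-/

set_option autoImplicit false
set_option linter.unusedSectionVars false
set_option linter.unusedVariables false

namespace Pool.Agent.H662.A

section

variable {T A : Type} [Nonempty A] {i : A → T} (hi : Function.Injective i)

include hi

theorem Clo.fin {X : Type} [Finite X] (f : (X → A) → T) :
    Clo (fun C : Set T => ∀ x : X → A, (∀ j, i (x j) ∈ C) → f x ∈ C) := by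
  refine (Clo.one (fun t : X → T => f (fun j => Function.invFun i (t j)))).mono fun C hC x hx => ?_
  have h := hC (fun j => i (x j)) hx
  simpa only [Function.leftInverse_invFun hi _] using h

theorem Clo.un (f : A → T) : Clo (fun C : Set T => ∀ x, i x ∈ C → f x ∈ C) :=
  (Clo.fin hi (fun x : Unit → A => f (x ()))).mono fun C hC x hx => hC (fun _ => x) (fun _ => hx)

theorem Clo.bin (f : A → A → T) :
    Clo (fun C : Set T => ∀ x y, i x ∈ C → i y ∈ C → f x y ∈ C) :=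
  (Clo.fin hi (fun x : Bool → A => f (x true) (x false))).mono fun C hC x y hx hy =>
    hC (fun b => if b then x else y) (by rintro (_ | _) <;> simpa)

end

theorem Clo.const {T : Type} (t : T) : Clo (fun C : Set T => t ∈ C) :=
  (Clo.one (fun _ : Empty → T => t)).mono fun C hC => hC (fun i => i.elim) (fun i => i.elim)

/-- The closure conditions for substructures. -/
structure SubD (M : VF) (C : Set (M.K ⊕ M.k ⊕ M.Γ)) : Prop where
  zeroK : Sum.inl 0 ∈ C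
  oneK : Sum.inl 1 ∈ C
  addK : ∀ x y, Sum.inl x ∈ C → Sum.inl y ∈ C → Sum.inl (x + y) ∈ C
  mulK : ∀ x y, Sum.inl x ∈ C → Sum.inl y ∈ C → Sum.inl (x * y) ∈ C
  negK : ∀ x, Sum.inl x ∈ C → Sum.inl (-x) ∈ C
  invK : ∀ x, Sum.inl x ∈ C → Sum.inl x⁻¹ ∈ C
  zerok : Sum.inr (Sum.inl 0) ∈ C
  onek : Sum.inr (Sum.inl 1) ∈ C
  addk : ∀ x y, Sum.inr (Sum.inl x) ∈ C → Sum.inr (Sum.inl y) ∈ C → Sum.inr (Sum.inl (x + y)) ∈ C
  mulk : ∀ x y, Sum.inr (Sum.inl x) ∈ C → Sum.inr (Sum.inl y) ∈ C → Sum.inr (Sum.inl (x * y)) ∈ C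
  negk : ∀ x, Sum.inr (Sum.inl x) ∈ C → Sum.inr (Sum.inl (-x)) ∈ C
  invk : ∀ x, Sum.inr (Sum.inl x) ∈ C → Sum.inr (Sum.inl x⁻¹) ∈ C
  zeroG : Sum.inr (Sum.inr 0) ∈ C
  oneG : Sum.inr (Sum.inr 1) ∈ C
  mulG : ∀ x y, Sum.inr (Sum.inr x) ∈ C → Sum.inr (Sum.inr y) ∈ C → Sum.inr (Sum.inr (x * y)) ∈ C
  invG : ∀ x, Sum.inr (Sum.inr x) ∈ C → Sum.inr (Sum.inr x⁻¹) ∈ C
  val : ∀ x, Sum.inl x ∈ C → Sum.inr (Sum.inr (M.v x)) ∈ C
  res : ∀ x, Sum.inl x ∈ C → Sum.inr (Sum.inl (M.res x)) ∈ C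
  val' : ∀ γ, Sum.inr (Sum.inr γ) ∈ C → ∃ x, Sum.inl x ∈ C ∧ M.v x = γ
  res' : ∀ a, Sum.inr (Sum.inl a) ∈ C → ∃ x, Sum.inl x ∈ C ∧ M.v x ≤ 1 ∧ M.res x = a
  hens : ∀ (d : ℕ) (c : Fin d → M.K) (a : M.K), (∀ i, Sum.inl (c i) ∈ C) → Sum.inl a ∈ C →
    (∀ i, M.v (c i) ≤ 1) → M.v a ≤ 1 →
    M.v (a ^ d + ∑ i, c i * a ^ (i : ℕ)) < 1 →
    M.v (d * a ^ (d - 1) + ∑ i, c i * ((i : ℕ) * a ^ ((i : ℕ) - 1))) = 1 →
    ∃ b, Sum.inl b ∈ C ∧ b ^ d + ∑ i, c i * b ^ (i : ℕ) = 0 ∧ M.v (b - a) < 1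

theorem clo_subD (M : VF) (hM : Hens M.v) : Clo (SubD M) := by
  classical
  have h1 : Function.Injective (Sum.inl : M.K → M.K ⊕ M.k ⊕ M.Γ) := Sum.inl_injective
  have h2 : Function.Injective (fun a => Sum.inr (Sum.inl a) : M.k → M.K ⊕ M.k ⊕ M.Γ) :=
    fun a b h => Sum.inl_injective (Sum.inr_injective h)
  have h3 : Function.Injective (fun a => Sum.inr (Sum.inr a) : M.Γ → M.K ⊕ M.k ⊕ M.Γ) :=
    fun a b h => Sum.inr_injective (Sum.inr_injective h)
  choose lv hlv using M.v_surj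
  choose lr hlr using M.res_surj
  have hens' := hens_iff.1 hM
  let hf : ∀ d : ℕ, (Option (Fin d) → M.K) → M.K ⊕ M.k ⊕ M.Γ := fun d x =>
    Sum.inl (Classical.epsilon (fun b : M.K => b ^ d + ∑ i : Fin d, x (some i) * b ^ (i : ℕ) = 0 ∧
      M.v (b - x none) < 1))
  have hK := ((((Clo.const (Sum.inl 0 : M.K ⊕ M.k ⊕ M.Γ)).and (Clo.const (Sum.inl 1))).and
    (Clo.bin h1 (fun x y => Sum.inl (x + y)))).and (Clo.bin h1 (fun x y => Sum.inl (x * y)))).and
    ((Clo.un h1 (fun x => Sum.inl (-x))).and (Clo.un h1 (fun x => Sum.inl x⁻¹)))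
  have hk := ((((Clo.const (Sum.inr (Sum.inl 0) : M.K ⊕ M.k ⊕ M.Γ)).and
    (Clo.const (Sum.inr (Sum.inl 1)))).and
    (Clo.bin h2 (fun x y => Sum.inr (Sum.inl (x + y))))).and
    (Clo.bin h2 (fun x y => Sum.inr (Sum.inl (x * y))))).and
    ((Clo.un h2 (fun x => Sum.inr (Sum.inl (-x)))).and (Clo.un h2 (fun x => Sum.inr (Sum.inl x⁻¹))))
  have hG := (((Clo.const (Sum.inr (Sum.inr 0) : M.K ⊕ M.k ⊕ M.Γ)).and
    (Clo.const (Sum.inr (Sum.inr 1)))).and
    (Clo.bin h3 (fun x y => Sum.inr (Sum.inr (x * y))))).and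
    (Clo.un h3 (fun x => Sum.inr (Sum.inr x⁻¹)))
  have hm := (((Clo.un h1 (fun x => Sum.inr (Sum.inr (M.v x)))).and
    (Clo.un h1 (fun x => Sum.inr (Sum.inl (M.res x))))).and
    (Clo.un h3 (fun x => Sum.inl (lv x)))).and (Clo.un h2 (fun x => Sum.inl (lr x)))
  have hh := Clo.all fun d : ℕ => Clo.fin h1 (hf d)
  refine ((((hK.and hk).and hG).and hm).and hh).mono fun C hC => ?_
  obtain ⟨⟨⟨⟨⟨⟨⟨⟨a1, a2⟩, a3⟩, a4⟩, a5, a6⟩, ⟨⟨⟨b1, b2⟩, b3⟩, b4⟩, b5, b6⟩, ⟨⟨c1, c2⟩, c3⟩, c4⟩,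
    ⟨⟨d1, d2⟩, d3⟩, d4⟩, e1⟩ := hC
  refine ⟨a1, a2, a3, a4, a5, a6, b1, b2, b3, b4, b5, b6, c1, c2, c3, c4, d1, d2, ?_, ?_, ?_⟩
  · intro γ hγ
    exact ⟨lv γ, d3 γ hγ, hlv γ⟩
  · intro a ha
    exact ⟨lr a, d4 a ha, (hlr a).1, (hlr a).2⟩
  · intro d c a hc ha hc' ha' h4 h5
    have h6 := Classical.epsilon_spec (p := fun b : M.K => b ^ d + ∑ i : Fin d, c i * b ^ (i : ℕ) = 0 ∧
      M.v (b - a) < 1) (hens' d c a hc' ha' h4 h5)
    refine ⟨_, ?_, h6.1, h6.2⟩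
    have h7 := e1 d (fun j => match j with
      | none => a
      | some i => c i) (by
        rintro (_ | j)
        · exact ha
        · exact hc j)
    exact h7

/-- The substructure given by a closed set -/
def subK {M : VF} {C : Set (M.K ⊕ M.k ⊕ M.Γ)} (h : SubD M C) : Subfield M.K where
  carrier := {x | Sum.inl x ∈ C}
  zero_mem' := h.zeroK
  one_mem' := h.oneK
  add_mem' := h.addK _ _
  mul_mem' := h.mulK _ _
  neg_mem' := h.negK _
  inv_mem' := h.invK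

def subk {M : VF} {C : Set (M.K ⊕ M.k ⊕ M.Γ)} (h : SubD M C) : Subfield M.k where
  carrier := {x | Sum.inr (Sum.inl x) ∈ C}
  zero_mem' := h.zerok
  one_mem' := h.onek
  add_mem' := h.addk _ _
  mul_mem' := h.mulk _ _
  neg_mem' := h.negk _
  inv_mem' := h.invk

def subG {M : VF} {C : Set (M.K ⊕ M.k ⊕ M.Γ)} (h : SubD M C) : Type :=
  {x : M.Γ // Sum.inr (Sum.inr x) ∈ C}

noncomputable instance {M : VF} {C : Set (M.K ⊕ M.k ⊕ M.Γ)} (h : SubD M C) :
    LinearOrderedCommGroupWithZero (subG h) :=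
  { (inferInstanceAs (LinearOrder {x : M.Γ // Sum.inr (Sum.inr x) ∈ C}) :
      LinearOrder (subG h)) with
    mul := fun a b => ⟨a.1 * b.1, h.mulG _ _ a.2 b.2⟩
    one := ⟨1, h.oneG⟩
    zero := ⟨0, h.zeroG⟩
    inv := fun a => ⟨a.1⁻¹, h.invG _ a.2⟩
    mul_assoc := fun a b c => Subtype.ext (mul_assoc _ _ _)
    one_mul := fun a => Subtype.ext (one_mul _)
    mul_one := fun a => Subtype.ext (mul_one _)
    mul_comm := fun a b => Subtype.ext (mul_comm _ _)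
    zero_mul := fun a => Subtype.ext (zero_mul _)
    mul_zero := fun a => Subtype.ext (mul_zero _)
    exists_pair_ne := ⟨⟨0, h.zeroG⟩, ⟨1, h.oneG⟩, fun e => zero_ne_one (congrArg Subtype.val e)⟩
    inv_zero := Subtype.ext inv_zero
    mul_inv_cancel := fun a ha => Subtype.ext (mul_inv_cancel₀ fun e => ha (Subtype.ext e))
    mul_lt_mul_of_pos_left := by
      intro a ha b c hbc
      exact mul_lt_mul_of_pos_left (show b.1 < c.1 from hbc) (show 0 < a.1 from ha)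
    bot := ⟨0, h.zeroG⟩
    bot_le := fun a => (zero_le : (0 : M.Γ) ≤ a.1)
    isBot_zero := fun a => (zero_le : (0 : M.Γ) ≤ a.1) }

/-- The substructure given by a closed set -/
noncomputable def subVF {M : VF} {C : Set (M.K ⊕ M.k ⊕ M.Γ)} (h : SubD M C) : VF where
  K := subK h
  k := subk h
  Γ := subG h
  v :=
    { toFun := fun x => ⟨M.v x.1, h.val _ x.2⟩
      map_zero' := Subtype.ext (map_zero M.v)
      map_one' := Subtype.ext (map_one M.v)
      map_mul' := fun x y => Subtype.ext (map_mul M.v _ _)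
      map_add_le_max' := by
        intro x y
        rcases le_total (M.v x.1) (M.v y.1) with h1 | h1
        · exact le_max_of_le_right ((M.v.map_add x.1 y.1).trans (max_le h1 le_rfl))
        · exact le_max_of_le_left ((M.v.map_add x.1 y.1).trans (max_le le_rfl h1)) }
  res := fun x => ⟨M.res x.1, h.res _ x.2⟩
  v_surj := by
    rintro ⟨γ, hγ⟩
    obtain ⟨x, hx, hx'⟩ := h.val' γ hγ
    exact ⟨⟨x, hx⟩, Subtype.ext hx'⟩
  res_one := Subtype.ext M.res_one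
  res_add := fun x y hx hy => Subtype.ext (M.res_add _ _ hx hy)
  res_mul := fun x y hx hy => Subtype.ext (M.res_mul _ _ hx hy)
  res_surj := by
    rintro ⟨a, ha⟩
    obtain ⟨x, hx, hx', hx''⟩ := h.res' a ha
    exact ⟨⟨x, hx⟩, hx', Subtype.ext hx''⟩
  res_ker := by
    intro x hx
    constructor
    · intro h1
      exact (M.res_ker _ hx).1 (congrArg Subtype.val h1)
    · intro h1
      exact Subtype.ext ((M.res_ker _ hx).2 h1)
  res_out := fun x hx => Subtype.ext (M.res_out _ hx)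

/-- The inclusion -/
noncomputable def subEmb {M : VF} {C : Set (M.K ⊕ M.k ⊕ M.Γ)} (h : SubD M C) : Emb (subVF h) M where
  f := (subK h).subtype
  r := (subk h).subtype
  g :=
    { toFun := fun x => x.1
      map_zero' := rfl
      map_one' := rfl
      map_mul' := fun _ _ => rfl }
  mono := fun _ _ h => h
  val := fun _ => rfl
  res := fun _ => rfl

/-- the residue field as a structure -/
abbrev VF.rstr (M : VF) : Str ringLg := ringStr M.k

/-- the value group as a structure -/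
abbrev VF.gstr (M : VF) : Str oagLg := oagStr M.Γˣ

/-- The homomorphism of the value groups -/
def Emb.u {L M : VF} (E : Emb L M) : L.Γˣ →* M.Γˣ := Units.map (E.g : L.Γ →* M.Γ)

theorem Emb.u_mono {L M : VF} (E : Emb L M) : StrictMono E.u := fun _ _ h => E.mono h

/-- elementary embeddings -/
structure ElemEmb {L M : VF} (E : Emb L M) : Prop where
  val : Elem L.str M.str E.j
  ring : Elem L.rstr M.rstr (rj E.r)
  oag : Elem L.gstr M.gstr (gj E.u)

theorem sub_hens {M : VF} {C : Set (M.K ⊕ M.k ⊕ M.Γ)} (hS : SubD M C) : Hens' (subVF hS).v := by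
  intro d (c : Fin d → subK hS) (a : subK hS) hc ha h1 h2
  have e1 : ∀ z : subK hS, ((z ^ d + ∑ i, c i * z ^ (i : ℕ) : subK hS) : M.K) =
      (z : M.K) ^ d + ∑ i, (c i : M.K) * (z : M.K) ^ (i : ℕ) := by
    intro z
    push_cast
    rfl
  have e2 : ((d * a ^ (d - 1) + ∑ i, c i * ((i : ℕ) * a ^ ((i : ℕ) - 1)) : subK hS) : M.K) =
      d * (a : M.K) ^ (d - 1) + ∑ i, (c i : M.K) * ((i : ℕ) * (a : M.K) ^ ((i : ℕ) - 1)) := by
    push_cast
    rfl
  obtain ⟨b, hb, hb1, hb2⟩ := hS.hens d (fun i => (c i).1) a.1 (fun i => (c i).2) a.2 hc ha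
    (by rw [← e1]; exact h1) (by rw [← e2]; exact congrArg Subtype.val h2)
  refine ⟨(⟨b, hb⟩ : subK hS), ?_, hb2⟩
  refine Subtype.ext ?_
  exact (e1 ⟨b, hb⟩).trans hb1

/-- Löwenheim and Skolem -/
theorem exists_elem (M : VF) (hM : Hens M.v) (C₀ : Set (M.K ⊕ M.k ⊕ M.Γ)) (hC₀ : C₀.Countable) :
    ∃ (L : VF) (E : Emb L M), Countable L.K ∧ Countable L.k ∧ Countable L.Γ ∧ Hens L.v ∧
      ElemEmb E ∧ (∀ x, Sum.inl x ∈ C₀ → ∃ y, E.f y = x) ∧
      (∀ x, Sum.inr (Sum.inl x) ∈ C₀ → ∃ y, E.r y = x) ∧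
      (∀ x, Sum.inr (Sum.inr x) ∈ C₀ → ∃ y, E.g y = x) := by
  have t1 := tarski_vaught (M := M.str) (T := M.K ⊕ M.k ⊕ M.Γ) (val_nice M.v M.res) val_countable
    (fun s => match s with
      | .F => fun x : M.K => Sum.inl x
      | .R => fun x : M.k => Sum.inr (Sum.inl x)
      | .G => fun x : M.Γ => Sum.inr (Sum.inr x)) (by
    rintro (_ | _ | _)
    · exact Sum.inl_injective
    · exact fun a b h => Sum.inl_injective (Sum.inr_injective h)
    · exact fun a b h => Sum.inr_injective (Sum.inr_injective h))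
  have t2 := tarski_vaught (M := M.rstr) (T := M.K ⊕ M.k ⊕ M.Γ) (ring_nice M.k) ring_countable
    (fun s => fun x : M.k => Sum.inr (Sum.inl x))
    (fun s => fun a b h => Sum.inl_injective (Sum.inr_injective h))
  have t3 := tarski_vaught (M := M.gstr) (T := M.K ⊕ M.k ⊕ M.Γ) (oag_nice M.Γˣ) oag_countable
    (fun s => fun x : M.Γˣ => Sum.inr (Sum.inr (x : M.Γ)))
    (fun s => fun a b h => Units.ext (Sum.inr_injective (Sum.inr_injective h)))
  obtain ⟨C, hC₀C, hCc, ⟨hS, hC1⟩, hC2, hC3⟩ :=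
    ((clo_subD M hM).and t1 |>.and (t2.and t3)).exists_countable hC₀
  have hinj1 : Function.Injective (Sum.inl : M.K → M.K ⊕ M.k ⊕ M.Γ) := Sum.inl_injective
  have hinj2 : Function.Injective (fun a => Sum.inr (Sum.inl a) : M.k → M.K ⊕ M.k ⊕ M.Γ) :=
    fun a b h => Sum.inl_injective (Sum.inr_injective h)
  have hinj3 : Function.Injective (fun a => Sum.inr (Sum.inr a) : M.Γ → M.K ⊕ M.k ⊕ M.Γ) :=
    fun a b h => Sum.inr_injective (Sum.inr_injective h)
  have hcK : Set.Countable {x : M.K | Sum.inl x ∈ C} := hCc.preimage_of_injOn hinj1.injOn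
  have hck : Set.Countable {x : M.k | Sum.inr (Sum.inl x) ∈ C} :=
    hCc.preimage_of_injOn hinj2.injOn
  have hcΓ : Set.Countable {x : M.Γ | Sum.inr (Sum.inr x) ∈ C} :=
    hCc.preimage_of_injOn hinj3.injOn
  refine ⟨subVF hS, subEmb hS, hcK.to_subtype, hck.to_subtype, hcΓ.to_subtype, ?_,
    ⟨hC1 _ _ ?_ (fun φ x => val_emb (subEmb hS) φ x), hC2 _ _ ?_ (fun φ x => ring_emb _ φ x),
      hC3 _ _ ?_ (fun φ x => oag_emb _ (Emb.u_mono _) φ x)⟩, ?_, ?_, ?_⟩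
  · rw [hens_iff]
    exact sub_hens hS
  · rintro (_ | _ | _)
    · exact Subtype.range_coe
    · exact Subtype.range_coe
    · exact Subtype.range_coe
  · intro s
    exact Subtype.range_coe
  · intro s
    refine Set.ext fun u => ⟨?_, ?_⟩
    · rintro ⟨w, rfl⟩
      exact w.1.2
    · intro hu
      refine ⟨Units.mk0 (⟨u.1, hu⟩ : subG hS) (fun e => u.ne_zero (congrArg Subtype.val e)), ?_⟩
      exact Units.ext rfl
  · intro x hx
    exact ⟨⟨x, hC₀C hx⟩, rfl⟩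
  · intro x hx
    exact ⟨⟨x, hC₀C hx⟩, rfl⟩
  · intro x hx
    exact ⟨⟨x, hC₀C hx⟩, rfl⟩

end Pool.Agent.H662.A
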