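import Pool.Agent.H662.D3

/-!
# Maps which reflect existential formulas
-/

set_option autoImplicit false
set_option linter.unusedSectionVars false
set_option linter.unusedVariables false

namespace Pool.Agent.H662.A

open Filter

section refl

variable {𝓛 : Lg} {M N P : Str 𝓛}

/-- The map reflects the formulas with `n` blocks, the outermost of which is existential. -/
def Refl (M N : Str 𝓛) (j : ∀ s, M.C s → N.C s) (n : ℕ) : Prop :=
  ∀ (X : 𝓛.S → Type), (∀ s, Finite (X s)) → ∀ (φ : Blk 𝓛 n X) (x : ∀ s, X s → M.C s),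
    Tr N true n φ (fun s i => j s (x s i)) → Tr M true n φ x

/-- The map preserves the formulas with `n` blocks, the outermost of which is universal. -/
def Pres (M N : Str 𝓛) (j : ∀ s, M.C s → N.C s) (n : ℕ) : Prop :=
  ∀ (X : 𝓛.S → Type), (∀ s, Finite (X s)) → ∀ (φ : Blk 𝓛 n X) (x : ∀ s, X s → M.C s),
    Tr M false n φ x → Tr N false n φ (fun s i => j s (x s i))

theorem Refl.pres {o : Ops 𝓛} (hM : Nice o M) (hN : Nice o N) {j : ∀ s, M.C s → N.C s} {n : ℕ}
    (h : Refl M N j n) : Pres M N j n := by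
  intro X hX φ x hx
  by_contra hc
  have h1 := (tr_neg hN n false φ _).2 hc
  have h2 := h X hX _ _ h1
  exact (tr_neg hM n false φ _).1 h2 hx

theorem Pres.refl {o : Ops 𝓛} (hM : Nice o M) (hN : Nice o N) {j : ∀ s, M.C s → N.C s} {n : ℕ}
    (h : Pres M N j n) : Refl M N j n := by
  intro X hX φ x hx
  by_contra hc
  have h1 := (tr_neg hM n true φ _).2 hc
  have h2 := h X hX _ _ h1
  exact (tr_neg hN n true φ _).1 h2 hx

theorem Elem.refl {j : ∀ s, M.C s → N.C s} (h : Elem M N j) (n : ℕ) : Refl M N j n :=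
  fun X hX φ x hx => (h n true X hX φ x).2 hx

theorem Refl.comp {j : ∀ s, M.C s → N.C s} {j' : ∀ s, N.C s → P.C s} {n : ℕ}
    (h : Refl M N j n) (h' : Refl N P j' n) : Refl M P (fun s x => j' s (j s x)) n :=
  fun X hX φ x hx => h X hX φ x (h' X hX φ _ hx)

theorem Pres.comp {j : ∀ s, M.C s → N.C s} {j' : ∀ s, N.C s → P.C s} {n : ℕ}
    (h : Pres M N j n) (h' : Pres N P j' n) : Pres M P (fun s x => j' s (j s x)) n :=
  fun X hX φ x hx => h' X hX φ _ (h X hX φ x hx)

theorem Elem.pres {j : ∀ s, M.C s → N.C s} (h : Elem M N j) (n : ℕ) : Pres M N j n :=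
  fun X hX φ x hx => (h n false X hX φ x).1 hx

theorem Elem.comp {j : ∀ s, M.C s → N.C s} {j' : ∀ s, N.C s → P.C s}
    (h : Elem M N j) (h' : Elem N P j') : Elem M P (fun s x => j' s (j s x)) :=
  fun n b X hX φ x => (h n b X hX φ x).trans (h' n b X hX φ _)

end refl

section los

variable {𝓛 : Lg} {M N U : Str 𝓛} {o : Ops 𝓛}

/-- `U` is the ultrapower of `M`. -/
structure IsUlt (M U : Str 𝓛) (e : ∀ s, (ℕ → M.C s) → U.C s) : Prop where
  surj : ∀ s, Function.Surjective (e s)
  ne : ∀ s, Nonempty (M.C s)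
  qf : ∀ {X : 𝓛.S → Type} (φ : 𝓛.QF X) (x : ∀ s, X s → ℕ → M.C s),
      U.sat φ (fun s i => e s (x s i)) ↔ ∀ᶠ m in (UU : Filter ℕ), M.sat φ (fun s i => x s i m)

theorem IsUlt.elem {e : ∀ s, (ℕ → M.C s) → U.C s} (h : IsUlt M U e) :
    Elem M U (fun s x => e s (fun _ => x)) := by
  intro n b X hX φ x
  rw [los e h.surj h.ne h.qf n b φ (fun s i _ => x s i)]
  exact Filter.eventually_const.symm

theorem IsUlt.approx [Finite 𝓛.S] {e : ∀ s, (ℕ → M.C s) → U.C s} (h : IsUlt M U e)
    (hM : Nice o M) (hN : Nice o N) (hU : Nice o U) (hc : ∀ s, Countable (N.C s))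
    (hcl : ∀ X : 𝓛.S → Type, (∀ s, Finite (X s)) → Countable (𝓛.QF X))
    {P : 𝓛.S → Type} (p : ∀ s, P s → N.C s) (q : ∀ s, P s → M.C s)
    (hpq : ∀ s t t', p s t = p s t' → q s t = q s t') (n : ℕ)
    (H : ∀ (Y : 𝓛.S → Type), (∀ s, Finite (Y s)) → ∀ (φ : Blk 𝓛 (n + 1) Y) (y : ∀ s, Y s → P s),
      Tr N true (n + 1) φ (fun s i => p s (y s i)) →
      Tr M true (n + 1) φ (fun s i => q s (y s i))) :
    ∃ ρ : ∀ s, N.C s → U.C s, (∀ s t, ρ s (p s t) = e s (fun _ => q s t)) ∧ Pres N U ρ n ∧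
      ∀ (X : 𝓛.S → Type), (∀ s, Finite (X s)) → ∀ (φ : 𝓛.QF X) (x : ∀ s, X s → N.C s),
        N.sat φ x → U.sat φ (fun s i => ρ s (x s i)) := by
  obtain ⟨r, hr1, hr2⟩ := A.approx hM hN p q hpq hc hcl n H
  have hle : (UU : Filter ℕ) ≤ atTop := by
    have := hyperfilter_le_cofinite (α := ℕ)
    rwa [Nat.cofinite_eq_atTop] at this
  have hpres : Pres N U (fun s z => e s (fun i => r i s z)) n := by
    intro X hX φ x hx
    rw [los e h.surj h.ne h.qf n false φ (fun s i m => r m s (x s i))]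
    exact hle (hr2 X hX φ x hx)
  refine ⟨fun s z => e s (fun i => r i s z), ?_, hpres, ?_⟩
  · intro s t
    simp only [hr1]
  · intro X hX φ x hx
    have h1 := hpres X hX (blift o n φ) x ((tr_lift hN n false φ x).2 hx)
    exact (tr_lift hU n false φ _).1 h1

end los

theorem ring_isUlt (K : Type) [Field K] : IsUlt (ringStr K) (ringStr (GG K)) (cr K) :=
  ⟨cr_surj K, (ring_nice K).ne, ring_los K⟩

theorem oag_isUlt (Γ : Type) [LinearOrderedCommGroupWithZero Γ] :
    IsUlt (oagStr Γˣ) (oagStr (GG Γ)ˣ) (cg Γ) :=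
  ⟨cg_surj Γ, (oag_nice Γˣ).ne, oag_los Γ⟩

theorem val_isUlt (M : VF) : IsUlt M.str M.ultra.str (ce M) :=
  ⟨ce_surj M, (val_nice M.v M.res).ne, val_los M⟩

/-- Homomorphisms from residue fields to ultrapowers of residue fields -/
theorem ring_approx (k l : Type) [Field k] [Field l] [Countable k] {P : Type} (p : P → k)
    (q : P → l) (hpq : ∀ t t', p t = p t' → q t = q t') (n : ℕ)
    (H : ∀ (Y : ringLg.S → Type), (∀ s, Finite (Y s)) → ∀ (φ : Blk ringLg (n + 1) Y)
      (y : ∀ s, Y s → P), Tr (ringStr k) true (n + 1) φ (fun s i => p (y s i)) →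
      Tr (ringStr l) true (n + 1) φ (fun s i => q (y s i))) :
    ∃ r : k →+* GG l, (∀ t, r (p t) = dg (q t)) ∧
      Pres (ringStr k) (ringStr (GG l)) (rj r) n := by
  obtain ⟨ρ, h1, h2, h3⟩ := (ring_isUlt l).approx (ring_nice l) (ring_nice k) (ring_nice (GG l))
    (fun s => (inferInstance : Countable k)) ring_countable (P := fun _ => P) (fun _ => p)
    (fun _ => q) (fun _ => hpq) n H
  let r : k → GG l := ρ ()
  have hqf : ∀ (m : ℕ) (a : RAtm (Fin m)) (x : Fin m → k), a.holds x →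
      a.holds (fun i => r (x i)) := by
    intro m a x hx
    exact h3 (fun _ => Fin m) (fun _ => inferInstance) (Bc.atom a) (fun _ => x) hx
  let r' : k →+* GG l :=
    { toFun := r
      map_zero' := hqf 1 (.eq (.var 0) .zero) (fun _ => 0) rfl
      map_one' := hqf 1 (.eq (.var 0) .one) (fun _ => 1) rfl
      map_add' := fun a b => hqf 3 (.eq (.var 0) (.add (.var 1) (.var 2))) ![a + b, a, b] rfl
      map_mul' := fun a b => hqf 3 (.eq (.var 0) (.mul (.var 1) (.var 2))) ![a * b, a, b] rfl }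
  exact ⟨r', fun t => h1 () t, h2⟩

/-- Homomorphisms from value groups to ultrapowers of value groups -/
theorem oag_approx (Γ Δ : Type) [LinearOrderedCommGroupWithZero Γ]
    [LinearOrderedCommGroupWithZero Δ] [Countable Γ] {P : Type} (p : P → Γˣ)
    (q : P → Δˣ) (hpq : ∀ t t', p t = p t' → q t = q t') (n : ℕ)
    (H : ∀ (Y : oagLg.S → Type), (∀ s, Finite (Y s)) → ∀ (φ : Blk oagLg (n + 1) Y)
      (y : ∀ s, Y s → P), Tr (oagStr Γˣ) true (n + 1) φ (fun s i => p (y s i)) →
      Tr (oagStr Δˣ) true (n + 1) φ (fun s i => q (y s i))) :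
    ∃ g : Γ →*₀ GG Δ, StrictMono g ∧ (∀ t, g (p t) = dg (q t : Δ)) ∧
      Pres (oagStr Γˣ) (oagStr (GG Δ)ˣ) (gj (Units.map (g : Γ →* GG Δ))) n := by
  classical
  have hcΓ : Countable Γˣ := Units.val_injective.countable
  obtain ⟨ρ, h1, h2, h3⟩ := (oag_isUlt Δ).approx (oag_nice Δˣ) (oag_nice Γˣ) (oag_nice (GG Δ)ˣ)
    (fun s => hcΓ) oag_countable (P := fun _ => P) (fun _ => p)
    (fun _ => q) (fun _ => hpq) n H
  let r : Γˣ → (GG Δ)ˣ := ρ ()
  have hqf : ∀ (m : ℕ) (a : Bc (GAtm (Fin m))) (x : Fin m → Γˣ), a.holds (GAtm.holds x) →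
      a.holds (GAtm.holds (fun i => r (x i))) := by
    intro m a x hx
    exact h3 (fun _ => Fin m) (fun _ => inferInstance) a (fun _ => x) hx
  have hmul : ∀ a b, r (a * b) = r a * r b := fun a b =>
    hqf 3 (.atom (.eq (.var 0) (.add (.var 1) (.var 2)))) ![a * b, a, b] rfl
  have hone : r 1 = 1 := hqf 1 (.atom (.eq (.var 0) .zero)) (fun _ => 1) rfl
  have hlt : ∀ a b, a < b → r a < r b := by
    intro a b hab
    have h4 := hqf 2 (.not (.atom (.le (.var 0) (.var 1)))) ![a, b]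
      (show ¬ (b ≤ a) from not_le.2 hab)
    exact not_le.1 (show ¬ (r b ≤ r a) from h4)
  let g' : Γ → GG Δ := fun γ => if h : γ = 0 then 0 else (r (Units.mk0 γ h) : GG Δ)
  have hg0 : g' 0 = 0 := by simp [g']
  have hgu : ∀ u : Γˣ, g' u = r u := by
    intro u
    have : (u : Γ) ≠ 0 := u.ne_zero
    simp only [g', dif_neg this]
    congr 2
    exact Units.ext rfl
  let g : Γ →*₀ GG Δ :=
    { toFun := g'
      map_zero' := hg0
      map_one' := by
        have := hgu 1
        rw [Units.val_one, hone, Units.val_one] at this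
        exact this
      map_mul' := by
        intro a b
        by_cases ha : a = 0
        · rw [ha, zero_mul, hg0, zero_mul]
        by_cases hb : b = 0
        · rw [hb, mul_zero, hg0, mul_zero]
        have e1 := hgu (Units.mk0 a ha)
        have e2 := hgu (Units.mk0 b hb)
        have e3 := hgu (Units.mk0 a ha * Units.mk0 b hb)
        rw [hmul, Units.val_mul, Units.val_mul, ← e1, ← e2] at e3
        exact e3 }
  have hgu' : ∀ u : Γˣ, g u = r u := hgu
  refine ⟨g, ?_, ?_, ?_⟩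
  · intro a b hab
    have hb : b ≠ 0 := ne_of_gt (lt_of_le_of_lt zero_le hab)
    have e2 := hgu (Units.mk0 b hb)
    by_cases ha : a = 0
    · change g' a < g' b
      rw [ha, hg0]
      have : g' b = r (Units.mk0 b hb) := e2
      rw [this]
      exact zero_lt_iff.2 (Units.ne_zero _)
    · have e1 := hgu (Units.mk0 a ha)
      change g' a < g' b
      rw [show g' a = r (Units.mk0 a ha) from e1, show g' b = r (Units.mk0 b hb) from e2]
      exact hlt (Units.mk0 a ha) (Units.mk0 b hb) hab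
  · intro t
    rw [hgu']
    exact congrArg Units.val (h1 () t)
  · have e : gj (Units.map (g : Γ →* GG Δ)) = ρ := by
      funext s u
      exact Units.ext (hgu u)
    rw [e]
    exact h2

end Pool.Agent.H662.A
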