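import Pool.Agent.H662.D4

/-!
# Relative transfer
-/

set_option autoImplicit false
set_option linter.unusedSectionVars false
set_option linter.unusedVariables false

namespace Pool.Agent.H662.A

open Filter

/-- Restriction of the codomain -/
theorem Emb.lift {L M N : VF} (E : Emb M N) (h : Emb L N) (hf : ∀ x, ∃ y, E.f y = h.f x)
    (hr : ∀ x, ∃ y, E.r y = h.r x) (hg : ∀ x, ∃ y, E.g y = h.g x) :
    ∃ h₀ : Emb L M, (∀ x, E.f (h₀.f x) = h.f x) ∧ (∀ x, E.r (h₀.r x) = h.r x) ∧
      (∀ x, E.g (h₀.g x) = h.g x) := by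
  choose f hf using hf
  choose r hr using hr
  choose g hg using hg
  refine ⟨⟨
    { toFun := f
      map_zero' := E.f.injective (by rw [hf, map_zero, map_zero])
      map_one' := E.f.injective (by rw [hf, map_one, map_one])
      map_add' := fun a b => E.f.injective (by rw [hf, map_add, map_add, hf, hf])
      map_mul' := fun a b => E.f.injective (by rw [hf, map_mul, map_mul, hf, hf]) },
    { toFun := r
      map_zero' := E.r.injective (by rw [hr, map_zero, map_zero])
      map_one' := E.r.injective (by rw [hr, map_one, map_one])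
      map_add' := fun a b => E.r.injective (by rw [hr, map_add, map_add, hr, hr])
      map_mul' := fun a b => E.r.injective (by rw [hr, map_mul, map_mul, hr, hr]) },
    { toFun := g
      map_zero' := E.mono.injective (by rw [hg, map_zero, map_zero])
      map_one' := E.mono.injective (by rw [hg, map_one, map_one])
      map_mul' := fun a b => E.mono.injective (by rw [hg, map_mul, map_mul, hg, hg]) },
    ?_, ?_, ?_⟩, hf, hr, hg⟩
  · intro a b hab
    rw [← E.mono.lt_iff_lt]
    change E.g (g a) < E.g (g b)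
    rw [hg, hg]
    exact h.mono hab
  · intro x
    refine E.mono.injective ?_
    change E.g (M.v (f x)) = E.g (g (L.v x))
    rw [hg, ← E.val, hf, h.val]
  · intro x
    refine E.r.injective ?_
    change E.r (M.res (f x)) = E.r (r (L.res x))
    rw [hr, ← E.res, hf, h.res]

/-- Powers of terms -/
def GTm.pow {X : Type} (t : GTm X) : ℕ → GTm X
  | 0 => .zero
  | m + 1 => .add (t.pow m) t

theorem GTm.ev_pow {X G : Type} [DivInvMonoid G] (x : X → G) (t : GTm X) (m : ℕ) :
    (t.pow m).ev x = (t.ev x) ^ m := by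
  induction m with
  | zero => exact (pow_zero _).symm
  | succ m ih => simp only [GTm.pow, GTm.ev, ih, pow_succ]

/-- divisibility is reflected -/
theorem Refl.root {G H : Type} [Group G] [LinearOrder G] [Group H] [LinearOrder H] {f : G → H}
    {n : ℕ} (h : Refl (oagStr G) (oagStr H) (gj f) (n + 1)) (m : ℕ) (a : G) (b : H)
    (hb : b ^ m = f a) : ∃ c : G, c ^ m = a := by
  let q : oagLg.QF (fun _ => Fin 1 ⊕ Fin 1) :=
    Bc.atom (GAtm.eq (GTm.pow (.var (Sum.inr 0)) m) (.var (Sum.inl 0)))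
  have hq : ∀ (K : Type) [Group K] [LinearOrder K] (x : K) (y : K),
      Tr (oagStr K) false n (blift oagOps n q) (fun _ => Sum.elim (fun _ => x) (fun _ => y)) ↔
        y ^ m = x := by
    intro K _ _ x y
    refine (tr_lift (oag_nice K) n false q _).trans ?_
    have e := GTm.ev_pow (Sum.elim (fun _ => x) (fun _ => y) : Fin 1 ⊕ Fin 1 → K)
      (.var (Sum.inr 0)) m
    exact ⟨fun h => e.symm.trans h, fun h => e.trans h⟩
  obtain ⟨y, hy⟩ := h (fun _ => Fin 1) (fun _ => inferInstance) ⟨fun _ => 1, blift oagOps n q⟩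
    (fun _ _ => a) ⟨fun _ _ => b, (hq H (f a) b).2 hb⟩
  have hy2 : y = fun _ _ => y () 0 := by
    funext s i
    cases s
    have : i = (0 : Fin 1) := Subsingleton.elim _ _
    rw [this]
  rw [hy2] at hy
  exact ⟨y () 0, (hq G a (y () 0)).1 hy⟩

theorem Emb.j_ext {L M : VF} {j j' : ∀ s, L.str.C s → M.str.C s} (h1 : ∀ x, j .F x = j' .F x)
    (h2 : ∀ x, j .R x = j' .R x) (h3 : ∀ x, j .G x = j' .G x) : j = j' := by
  funext s
  rcases s with _ | _ | _
  · exact funext h1
  · exact funext h2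
  · exact funext h3

/-- Existential formulas are reflected if they are reflected in the residue fields and in the
value groups. -/
theorem claim (n : ℕ) : ∀ (M N : VF), Hens M.v → Hens N.v →
    (∀ m : ℕ, m ≠ 0 → N.v (m : N.K) = 1) → ∀ h : Emb M N,
    Refl M.rstr N.rstr (rj h.r) n → Refl M.gstr N.gstr (gj h.u) n → Refl M.str N.str h.j n := by
  induction n with
  | zero =>
    intro M N hM hN hch h hr hg X hX φ x hx
    exact (val_emb h φ x).2 hx
  | succ n ih =>
    intro M N hM hN hch h hr hg X hX φ x hx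
    classical
    -- countable elementary substructures
    obtain ⟨M₀, EM, cM1, cM2, cM3, hM₀, eM, rM1, rM2, rM3⟩ := exists_elem M hM
      ((Set.range fun i : X .F => (Sum.inl (x .F i) : M.K ⊕ M.k ⊕ M.Γ)) ∪
        ((Set.range fun i : X .R => (Sum.inr (Sum.inl (x .R i)) : M.K ⊕ M.k ⊕ M.Γ)) ∪
        (Set.range fun i : X .G => (Sum.inr (Sum.inr (x .G i)) : M.K ⊕ M.k ⊕ M.Γ))))
      (by
        have f1 : Finite (X .F) := hX .F
        have f2 : Finite (X .R) := hX .R
        have f3 : Finite (X .G) := hX .G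
        exact (Set.countable_range _).union ((Set.countable_range _).union
          (Set.countable_range _)))
    have hx0 : ∀ s (i : X s), ∃ z, EM.j s z = x s i := by
      rintro (_ | _ | _) i
      · exact rM1 (x .F i) (Or.inl ⟨i, rfl⟩)
      · exact rM2 (x .R i) (Or.inr (Or.inl ⟨i, rfl⟩))
      · exact rM3 (x .G i) (Or.inr (Or.inr ⟨i, rfl⟩))
    choose x₀ hx₀ using hx0
    obtain ⟨N₀, EN, cN1, cN2, cN3, hN₀, eN, rN1, rN2, rN3⟩ := exists_elem N hN
      ((Set.range fun z : M₀.K => (Sum.inl (h.f (EM.f z)) : N.K ⊕ N.k ⊕ N.Γ)) ∪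
        ((Set.range fun z : M₀.k => (Sum.inr (Sum.inl (h.r (EM.r z))) : N.K ⊕ N.k ⊕ N.Γ)) ∪
        (Set.range fun z : M₀.Γ => (Sum.inr (Sum.inr (h.g (EM.g z))) : N.K ⊕ N.k ⊕ N.Γ))))
      ((Set.countable_range _).union ((Set.countable_range _).union (Set.countable_range _)))
    let hEM : Emb M₀ N := ⟨h.f.comp EM.f, h.r.comp EM.r, h.g.comp EM.g, h.mono.comp EM.mono,
      fun z => (h.val _).trans (congrArg h.g (EM.val z)),
      fun z => (h.res _).trans (congrArg h.r (EM.res z))⟩
    obtain ⟨h₀, k1, k2, k3⟩ := EN.lift hEM (fun z => rN1 _ (Or.inl ⟨z, rfl⟩))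
      (fun z => rN2 _ (Or.inr (Or.inl ⟨z, rfl⟩))) (fun z => rN3 _ (Or.inr (Or.inr ⟨z, rfl⟩)))
    have hr₀ : Refl M₀.rstr N₀.rstr (rj h₀.r) (n + 1) := by
      have e1 := (eM.ring.refl (n + 1)).comp hr
      intro Y hY ψ y hy
      refine e1 Y hY ψ y ?_
      have e2 := (eN.ring (n + 1) true Y hY ψ _).1 hy
      have e3 : (fun s i => rj EN.r s (rj h₀.r s (y s i)) : ∀ s, Y s → N.rstr.C s) =
          fun s i => rj h.r s (rj EM.r s (y s i)) := by
        funext s i
        exact k2 (y s i)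
      rw [e3] at e2
      exact e2
    have hg₀ : Refl M₀.gstr N₀.gstr (gj h₀.u) (n + 1) := by
      have e1 := (eM.oag.refl (n + 1)).comp hg
      intro Y hY ψ y hy
      refine e1 Y hY ψ y ?_
      have e2 := (eN.oag (n + 1) true Y hY ψ _).1 hy
      have e3 : (fun s i => gj EN.u s (gj h₀.u s (y s i)) : ∀ s, Y s → N.gstr.C s) =
          fun s i => gj h.u s (gj EM.u s (y s i)) := by
        funext s i
        exact (fun w : M₀.Γˣ => Units.ext (k3 (w : M₀.Γ)) : ∀ w : M₀.Γˣ, EN.u (h₀.u w) =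
          h.u (EM.u w)) (y s i)
      rw [e3] at e2
      exact e2
    -- maps to the ultrapowers
    obtain ⟨r, r1, r2⟩ := ring_approx N₀.k M₀.k (fun a : M₀.k => h₀.r a) (fun a => a)
      (fun a b hab => h₀.r.injective hab) n
      (fun Y hY ψ y hy => hr₀ Y hY ψ y hy)
    obtain ⟨g, g0, g1, g2⟩ := oag_approx N₀.Γ M₀.Γ (fun a : M₀.Γˣ => h₀.u a) (fun a => a)
      (fun a b hab => h₀.u_mono.injective hab) n
      (fun Y hY ψ y hy => hg₀ Y hY ψ y hy)
    have g1' : ∀ γ : M₀.Γ, g (h₀.g γ) = dg γ := by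
      intro γ
      by_cases hγ : γ = 0
      · rw [hγ, map_zero, map_zero]
        rfl
      · exact g1 (Units.mk0 γ hγ)
    have hch₀ : ∀ m : ℕ, m ≠ 0 → N₀.v (m : N₀.K) = 1 := by
      intro m hm
      refine EN.mono.injective ?_
      rw [← EN.val, map_natCast, hch m hm, map_one]
    let G₀ : Subring (N₀.K × M₀.ultra.K) := (h₀.f.prod (dgK : M₀.K →+* GG M₀.K)).range
    obtain ⟨E, E1, E2, E3⟩ := exists_emb N₀ M₀.ultra hN₀ (hens_ultraV hM₀) hch₀ g g0 r G₀
      (by
        rintro _ ⟨z, rfl⟩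
        refine ⟨z⁻¹, ?_⟩
        exact Prod.ext (map_inv₀ h₀.f z) (map_inv₀ (dgK : M₀.K →+* GG M₀.K) z))
      (by
        rintro _ ⟨z, rfl⟩
        change dg (M₀.v z) = g (N₀.v (h₀.f z))
        rw [h₀.val, g1'])
      (by
        rintro _ ⟨z, rfl⟩ _
        change dg (M₀.res z) = r (N₀.res (h₀.f z))
        rw [h₀.res, r1])
      (by
        rintro w hw m hm _ ⟨z, rfl⟩ hz
        change N₀.v w ^ m = N₀.v (h₀.f z) at hz
        rw [h₀.val] at hz
        have hw0 : N₀.v w ≠ 0 := (Valuation.ne_zero_iff _).2 hw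
        have hz0 : M₀.v z ≠ 0 := by
          intro h0
          rw [h0, map_zero] at hz
          exact hw0 (pow_eq_zero_iff hm |>.1 hz)
        obtain ⟨c, hc⟩ := Refl.root hg₀ m (Units.mk0 _ hz0) (Units.mk0 _ hw0) (Units.ext hz)
        obtain ⟨q, hq⟩ := M₀.v_surj (c : M₀.Γ)
        refine ⟨_, ⟨q, rfl⟩, ?_⟩
        change N₀.v w = N₀.v (h₀.f q)
        rw [h₀.val, hq]
        have hc' : (c : M₀.Γ) ^ m = M₀.v z := congrArg Units.val hc
        have h5 : N₀.v w ^ m = (h₀.g (c : M₀.Γ)) ^ m := by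
          have h6 := map_pow h₀.g (c : M₀.Γ) m
          rw [hc'] at h6
          rw [← h6, hz]
        exact (pow_left_inj₀ zero_le zero_le hm).1 h5)
    have E3' : ∀ z : M₀.K, E.f (h₀.f z) = dg (dg z) := fun z => E3 _ ⟨z, rfl⟩
    -- the induction hypothesis
    have hch₁ : ∀ m : ℕ, m ≠ 0 → M₀.ultra.ultra.v (m : M₀.ultra.ultra.K) = 1 := by
      intro m hm
      have e1 := E.val (m : N₀.K)
      rw [hch₀ m hm, map_one, map_natCast] at e1
      exact e1
    have P1 : Pres N₀.rstr M₀.ultra.ultra.rstr (rj E.r) n := by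
      have e1 := r2.comp ((ring_isUlt (GG M₀.k)).elem.pres n)
      have e2 : rj E.r = (fun s z => cr (GG M₀.k) s (fun _ => rj r s z) :
          ∀ s, N₀.rstr.C s → M₀.ultra.ultra.rstr.C s) := by
        funext s z
        exact E1 z
      rw [e2]
      exact e1
    have P2 : Pres N₀.gstr M₀.ultra.ultra.gstr (gj E.u) n := by
      have e1 := g2.comp ((oag_isUlt (GG M₀.Γ)).elem.pres n)
      have e2 : gj E.u = (fun s z => cg (GG M₀.Γ) s (fun _ => gj (Units.map (g : N₀.Γ →* GG M₀.Γ)) s z) :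
          ∀ s, N₀.gstr.C s → M₀.ultra.ultra.gstr.C s) := by
        funext s z
        exact (fun w : N₀.Γˣ => Units.ext (E2 (w : N₀.Γ)) : ∀ w : N₀.Γˣ, E.u w =
          cg (GG M₀.Γ) () (fun _ => Units.map (g : N₀.Γ →* GG M₀.Γ) w)) z
      rw [e2]
      exact e1
    have hI : Refl N₀.str M₀.ultra.ultra.str E.j n :=
      ih N₀ M₀.ultra.ultra hN₀ (hens_ultraV (hens_ultraV hM₀)) hch₁ E
        (P1.refl (ring_nice _) (ring_nice _)) (P2.refl (oag_nice _) (oag_nice _))
    have hP : Pres N₀.str M₀.ultra.ultra.str E.j n :=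
      hI.pres (val_nice _ _) (val_nice _ _)
    -- conclusion
    have f1 : Tr N₀.str true (n + 1) φ (fun s i => h₀.j s (x₀ s i)) := by
      rw [eN.val (n + 1) true X hX φ]
      have e3 : (fun s i => EN.j s (h₀.j s (x₀ s i)) : ∀ s, X s → N.str.C s) =
          fun s i => h.j s (x s i) := by
        funext s i
        rw [← hx₀]
        rcases s with _ | _ | _
        · exact k1 _
        · exact k2 _
        · exact k3 _
      rw [e3]
      exact hx
    have f2 : Tr M₀.ultra.ultra.str true (n + 1) φ (fun s i => E.j s (h₀.j s (x₀ s i))) := by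
      obtain ⟨a, ψ⟩ := φ
      obtain ⟨y, hy⟩ := f1
      have f3 := hP (fun s => X s ⊕ Fin (a s)) (fun s => by have := hX s; infer_instance) ψ _ hy
      refine ⟨fun s i => E.j s (y s i), ?_⟩
      have e4 : (fun s => Sum.elim (fun i => E.j s (h₀.j s (x₀ s i))) (fun i => E.j s (y s i)) :
          ∀ s, X s ⊕ Fin (a s) → M₀.ultra.ultra.str.C s) =
          fun s i => E.j s (Sum.elim (fun i => h₀.j s (x₀ s i)) (y s) i) := by
        funext s i
        rcases i with i | i <;> rfl
      rw [e4]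
      exact f3
    have hee := (val_isUlt M₀).elem.comp (val_isUlt M₀.ultra).elem
    have f4 : Tr M₀.str true (n + 1) φ x₀ := by
      rw [hee (n + 1) true X hX φ]
      have e5 : (fun s i => ce M₀.ultra s (fun _ => ce M₀ s (fun _ => x₀ s i)) :
          ∀ s, X s → M₀.ultra.ultra.str.C s) = fun s i => E.j s (h₀.j s (x₀ s i)) := by
        funext s i
        rcases s with _ | _ | _
        · exact (E3' _).symm
        · refine Eq.symm ((E1 _).trans ?_)
          exact congrArg dg (r1 _)
        · refine Eq.symm ((E2 _).trans ?_)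
          exact congrArg dg (g1' _)
      rw [e5]
      exact f2
    rw [eM.val (n + 1) true X hX φ] at f4
    simpa only [hx₀] using f4

end Pool.Agent.H662.A
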