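import Pool.Agent.H662.D5

/-!
# Transfer of sentences
-/

set_option autoImplicit false
set_option linter.unusedSectionVars false
set_option linter.unusedVariables false

namespace Pool.Agent.H662.A

open Filter

theorem v_rat {K Γ : Type} [Field K] [CharZero K] [LinearOrderedCommGroupWithZero Γ]
    (v : Valuation K Γ) (hch : ∀ m : ℕ, m ≠ 0 → v (m : K) = 1) (q : ℚ) (hq : q ≠ 0) :
    v (q : K) = 1 := by
  have h1 : v (q.num : K) = 1 := by
    rcases Int.natAbs_eq q.num with h | h
    · rw [h, Int.cast_natCast]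
      exact hch _ (Int.natAbs_ne_zero.2 (Rat.num_ne_zero.2 hq))
    · rw [h, Int.cast_neg, Int.cast_natCast, Valuation.map_neg]
      exact hch _ (Int.natAbs_ne_zero.2 (Rat.num_ne_zero.2 hq))
  rw [Rat.cast_def, map_div₀, h1, hch _ q.den_nz, div_one]

theorem VF.res_nat (M : VF) (m : ℕ) : M.res (m : M.K) = m := by
  induction m with
  | zero => rw [Nat.cast_zero, Nat.cast_zero, M.res_zero]
  | succ m ih =>
    rw [Nat.cast_succ, Nat.cast_succ, M.res_add _ _ (v_natCast_le _ _) (by rw [map_one]), ih,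
      M.res_one]

theorem VF.charZero_k (M : VF) (hch : ∀ m : ℕ, m ≠ 0 → M.v (m : M.K) = 1) : CharZero M.k := by
  refine charZero_of_inj_zero fun m hm => ?_
  by_contra h
  rw [← M.res_nat] at hm
  have h1 := (M.res_ker _ (v_natCast_le _ _)).1 hm
  rw [hch m h] at h1
  exact lt_irrefl _ h1

theorem VF.charZero_K (M : VF) (hch : ∀ m : ℕ, m ≠ 0 → M.v (m : M.K) = 1) : CharZero M.K := by
  refine charZero_of_inj_zero fun m hm => ?_
  by_contra h
  have h1 := hch m h
  rw [hm, map_zero] at h1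
  exact zero_ne_one h1

theorem VF.res_rat (M : VF) (hch : ∀ m : ℕ, m ≠ 0 → M.v (m : M.K) = 1) [CharZero M.K]
    [CharZero M.k] (q : ℚ) : M.res (q : M.K) = q := by
  have h1 : M.res (q.num : M.K) = q.num := by
    rcases Int.natAbs_eq q.num with h | h
    · rw [h, Int.cast_natCast, Int.cast_natCast, M.res_nat]
    · rw [h, Int.cast_neg, Int.cast_neg, Int.cast_natCast, Int.cast_natCast,
        M.res_neg _ (v_natCast_le _ _), M.res_nat]
  have h2 : M.v (q.num : M.K) ≤ 1 := by
    rcases Int.natAbs_eq q.num with h | h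
    · rw [h, Int.cast_natCast]
      exact v_natCast_le _ _
    · rw [h, Int.cast_neg, Int.cast_natCast, Valuation.map_neg]
      exact v_natCast_le _ _
  rw [Rat.cast_def, Rat.cast_def, M.res_div h2 (hch _ q.den_nz), h1, M.res_nat]

/-- Transfer of sentences, the outermost block of which is existential. -/
theorem transfer (n : ℕ) (K L : VF) (hK : Hens K.v) (hL : Hens L.v)
    (hchK : ∀ m : ℕ, m ≠ 0 → K.v (m : K.K) = 1) (hchL : ∀ m : ℕ, m ≠ 0 → L.v (m : L.K) = 1)
    (hr : ∀ φ : Blk ringLg (n + 1) (fun _ => Empty),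
      Tr K.rstr true (n + 1) φ (fun _ i => i.elim) → Tr L.rstr true (n + 1) φ (fun _ i => i.elim))
    (hg : ∀ φ : Blk oagLg (n + 1) (fun _ => Empty),
      Tr K.gstr true (n + 1) φ (fun _ i => i.elim) → Tr L.gstr true (n + 1) φ (fun _ i => i.elim))
    (φ : Blk valLg (n + 1) (fun _ => Empty))
    (hφ : Tr K.str true (n + 1) φ (fun _ i => i.elim)) :
    Tr L.str true (n + 1) φ (fun _ i => i.elim) := by
  classical
  obtain ⟨K₀, EK, cK1, cK2, cK3, hK₀, eK, -, -, -⟩ := exists_elem K hK ∅ Set.countable_empty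
  have hch₀ : ∀ m : ℕ, m ≠ 0 → K₀.v (m : K₀.K) = 1 := by
    intro m hm
    refine EK.mono.injective ?_
    rw [← EK.val, map_natCast, hchK m hm, map_one]
  obtain ⟨r, -, r2⟩ := ring_approx K₀.k L.k (P := Empty) (fun a => a.elim) (fun a => a.elim)
    (fun a => a.elim) n (by
      intro Y hY ψ y hy
      have h1 : Tr (ringStr K₀.k) true (n + 1) (bren ringOps (n + 1) (Y := fun _ => Empty) y ψ)
          (fun _ i => i.elim) := (tr_ren (ring_nice K₀.k) (n + 1) true _ ψ _).2 hy
      have h2 := (eK.ring (n + 1) true (fun _ => Empty) (fun _ => inferInstance) _ _).1 h1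
      have h3 : (fun s i => rj EK.r s (i.elim) : ∀ s : ringLg.S, Empty → K.rstr.C s) =
          fun _ i => i.elim := by
        funext s i
        exact i.elim
      rw [h3] at h2
      have h4 := hr _ h2
      exact (tr_ren (ring_nice L.k) (n + 1) true _ ψ _).1 h4)
  obtain ⟨g, g0, -, g2⟩ := oag_approx K₀.Γ L.Γ (P := Empty) (fun a => a.elim) (fun a => a.elim)
    (fun a => a.elim) n (by
      intro Y hY ψ y hy
      have h1 : Tr (oagStr K₀.Γˣ) true (n + 1) (bren oagOps (n + 1) (Y := fun _ => Empty) y ψ)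
          (fun _ i => i.elim) := (tr_ren (oag_nice K₀.Γˣ) (n + 1) true _ ψ _).2 hy
      have h2 := (eK.oag (n + 1) true (fun _ => Empty) (fun _ => inferInstance) _ _).1 h1
      have h3 : (fun s i => gj EK.u s (i.elim) : ∀ s : oagLg.S, Empty → K.gstr.C s) =
          fun _ i => i.elim := by
        funext s i
        exact i.elim
      rw [h3] at h2
      have h4 := hg _ h2
      exact (tr_ren (oag_nice L.Γˣ) (n + 1) true _ ψ _).1 h4)
  have hchU : ∀ m : ℕ, m ≠ 0 → L.ultra.v (m : L.ultra.K) = 1 := by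
    intro m hm
    have h1 : (m : L.ultra.K) = (dgK (m : L.K) : GG L.K) := (map_natCast dgK m).symm
    rw [h1]
    change dg (L.v (m : L.K)) = 1
    rw [hchL m hm]
    rfl
  have c1 : CharZero K₀.K := K₀.charZero_K hch₀
  have c2 : CharZero K₀.k := K₀.charZero_k hch₀
  have c3 : CharZero L.ultra.K := L.ultra.charZero_K hchU
  have c4 : CharZero L.ultra.k := L.ultra.charZero_k hchU
  let G₀ : Subring (K₀.K × L.ultra.K) := ((Rat.castHom K₀.K).prod (Rat.castHom L.ultra.K)).range
  obtain ⟨E, E1, E2, -⟩ := exists_emb K₀ L.ultra hK₀ (hens_ultraV hL) hch₀ g g0 r G₀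
    (by
      rintro _ ⟨z, rfl⟩
      refine ⟨z⁻¹, ?_⟩
      exact Prod.ext (map_inv₀ (Rat.castHom K₀.K) z) (map_inv₀ (Rat.castHom L.ultra.K) z))
    (by
      rintro _ ⟨z, rfl⟩
      change L.ultra.v (z : L.ultra.K) = g (K₀.v (z : K₀.K))
      by_cases hz : z = 0
      · rw [hz, Rat.cast_zero, Rat.cast_zero, map_zero, map_zero, map_zero]
        rfl
      · rw [v_rat _ hchU z hz, v_rat _ hch₀ z hz, map_one]
        rfl)
    (by
      rintro _ ⟨z, rfl⟩ _
      change L.ultra.res (z : L.ultra.K) = r (K₀.res (z : K₀.K))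
      rw [VF.res_rat _ hchU, VF.res_rat _ hch₀]
      exact (map_ratCast r z).symm)
    (by
      rintro w hw m hm _ ⟨z, rfl⟩ hz
      change K₀.v w ^ m = K₀.v (z : K₀.K) at hz
      have hw0 : K₀.v w ≠ 0 := (Valuation.ne_zero_iff _).2 hw
      have hz0 : z ≠ 0 := by
        rintro rfl
        rw [Rat.cast_zero, map_zero] at hz
        exact hw0 (pow_eq_zero_iff hm |>.1 hz)
      rw [v_rat _ hch₀ z hz0] at hz
      refine ⟨_, ⟨1, rfl⟩, ?_⟩
      change K₀.v w = K₀.v ((1 : ℚ) : K₀.K)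
      rw [Rat.cast_one, map_one]
      exact (pow_left_inj₀ zero_le zero_le hm).1 (hz.trans (one_pow m).symm))
  have hch₁ : ∀ m : ℕ, m ≠ 0 → L.ultra.ultra.v (m : L.ultra.ultra.K) = 1 := by
    intro m hm
    have e1 := E.val (m : K₀.K)
    rw [hch₀ m hm, map_one, map_natCast] at e1
    exact e1
  have P1 : Pres K₀.rstr L.ultra.ultra.rstr (rj E.r) n := by
    have e1 := r2.comp ((ring_isUlt (GG L.k)).elem.pres n)
    have e2 : rj E.r = (fun s z => cr (GG L.k) s (fun _ => rj r s z) :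
        ∀ s, K₀.rstr.C s → L.ultra.ultra.rstr.C s) := by
      funext s z
      exact E1 z
    rw [e2]
    exact e1
  have P2 : Pres K₀.gstr L.ultra.ultra.gstr (gj E.u) n := by
    have e1 := g2.comp ((oag_isUlt (GG L.Γ)).elem.pres n)
    have e2 : gj E.u = (fun s z => cg (GG L.Γ) s
        (fun _ => gj (Units.map (g : K₀.Γ →* GG L.Γ)) s z) :
        ∀ s, K₀.gstr.C s → L.ultra.ultra.gstr.C s) := by
      funext s z
      exact (fun w : K₀.Γˣ => Units.ext (E2 (w : K₀.Γ)) : ∀ w : K₀.Γˣ, E.u w =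
          cg (GG L.Γ) () (fun _ => Units.map (g : K₀.Γ →* GG L.Γ) w)) z
    rw [e2]
    exact e1
  have hI : Refl K₀.str L.ultra.ultra.str E.j n :=
    claim n K₀ L.ultra.ultra hK₀ (hens_ultraV (hens_ultraV hL)) hch₁ E
      (P1.refl (ring_nice _) (ring_nice _)) (P2.refl (oag_nice _) (oag_nice _))
  have hP : Pres K₀.str L.ultra.ultra.str E.j n :=
    hI.pres (val_nice _ _) (val_nice _ _)
  have f1 : Tr K₀.str true (n + 1) φ (fun _ i => i.elim) := by
    rw [eK.val (n + 1) true (fun _ => Empty) (fun _ => inferInstance) φ]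
    have e3 : (fun s i => EK.j s (i.elim) : ∀ s : valLg.S, Empty → K.str.C s) =
        fun s i => i.elim := by
      funext s i
      exact i.elim
    rw [e3]
    exact hφ
  have hee := (val_isUlt L).elem.comp (val_isUlt L.ultra).elem
  rw [hee (n + 1) true (fun _ => Empty) (fun _ => inferInstance) φ]
  obtain ⟨a, ψ⟩ := φ
  obtain ⟨y, hy⟩ := f1
  have f3 := hP (fun s => Empty ⊕ Fin (a s)) (fun s => inferInstance) ψ _ hy
  refine ⟨fun s i => E.j s (y s i), ?_⟩
  have e4 : (fun s => Sum.elim (fun i => ce L.ultra s (fun _ => ce L s (fun _ => i.elim)))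
      (fun i => E.j s (y s i)) :
      ∀ s, Empty ⊕ Fin (a s) → L.ultra.ultra.str.C s) =
      fun s i => E.j s (Sum.elim (fun i => i.elim) (y s) i) := by
    funext s i
    rcases i with i | i
    · exact i.elim
    · rfl
  rw [e4]
  exact f3

/-- Transfer of sentences, the outermost block of which is universal. -/
theorem transfer' (n : ℕ) (K L : VF) (hK : Hens K.v) (hL : Hens L.v)
    (hchK : ∀ m : ℕ, m ≠ 0 → K.v (m : K.K) = 1) (hchL : ∀ m : ℕ, m ≠ 0 → L.v (m : L.K) = 1)
    (hr : ∀ φ : Blk ringLg (n + 1) (fun _ => Empty),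
      Tr K.rstr false (n + 1) φ (fun _ i => i.elim) → Tr L.rstr false (n + 1) φ (fun _ i => i.elim))
    (hg : ∀ φ : Blk oagLg (n + 1) (fun _ => Empty),
      Tr K.gstr false (n + 1) φ (fun _ i => i.elim) → Tr L.gstr false (n + 1) φ (fun _ i => i.elim))
    (φ : Blk valLg (n + 1) (fun _ => Empty))
    (hφ : Tr K.str false (n + 1) φ (fun _ i => i.elim)) :
    Tr L.str false (n + 1) φ (fun _ i => i.elim) := by
  by_contra hc
  have h1 := (tr_neg (val_nice L.v L.res) (n + 1) false φ _).2 hc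
  have h2 := transfer n L K hL hK hchL hchK (by
      intro ψ hψ
      by_contra hc'
      have h3 := (tr_neg (ring_nice K.k) (n + 1) true ψ _).2 hc'
      have h4 := hr _ h3
      exact (tr_neg (ring_nice L.k) (n + 1) true ψ _).1 h4 hψ) (by
      intro ψ hψ
      by_contra hc'
      have h3 := (tr_neg (oag_nice K.Γˣ) (n + 1) true ψ _).2 hc'
      have h4 := hg _ h3
      exact (tr_neg (oag_nice L.Γˣ) (n + 1) true ψ _).1 h4 hψ) _ h1
  exact (tr_neg (val_nice K.v K.res) (n + 1) false φ _).1 h2 hφ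

end Pool.Agent.H662.A
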