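import Pool.Agent.H662.D6

/-!
# Valuation rings
-/

set_option autoImplicit false
set_option linter.unusedSectionVars false
set_option linter.unusedVariables false

namespace Pool.Agent.H662.A

open Polynomial IsLocalRing

/-- The residue map of a valuation ring `O` of a field `K`, extended by zero to the whole of `K`. -/
noncomputable def resMap {K : Type} [Field K] (O : ValuationSubring K) (x : K) :
    ResidueField O := by
  classical
  exact if h : x ∈ O then residue O ⟨x, h⟩ else 0

theorem resMap_of_mem {K : Type} [Field K] (O : ValuationSubring K) {x : K} (h : x ∈ O) :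
    resMap O x = residue O ⟨x, h⟩ := dif_pos h

theorem resMap_of_not_mem {K : Type} [Field K] (O : ValuationSubring K) {x : K} (h : x ∉ O) :
    resMap O x = 0 := dif_neg h

/-- The sentences with `n` blocks of quantifiers. -/
abbrev Sentence (𝓛 : Lg) (n : ℕ) : Type := Blk 𝓛 n (fun _ => Empty)

/-- Truth of a sentence with `n` alternating blocks of quantifiers, the last of which is
existential. So the first one is existential if and only if `n` is odd. -/
def Models {𝓛 : Lg} (M : Str 𝓛) (n : ℕ) (φ : Sentence 𝓛 n) : Prop :=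
  Tr M (decide (Odd n)) n φ (fun _ i => i.elim)

/-- The valued field given by a valuation ring -/
noncomputable def VF.of {K : Type} [Field K] (O : ValuationSubring K) : VF where
  K := K
  k := ResidueField O
  Γ := O.ValueGroup
  v := O.valuation
  res := resMap O
  v_surj := O.valuation_surjective
  res_one := by
    rw [resMap_of_mem O O.one_mem]
    exact map_one _
  res_add := by
    intro x y hx hy
    rw [O.valuation_le_one_iff] at hx hy
    rw [resMap_of_mem O hx, resMap_of_mem O hy, resMap_of_mem O (O.add_mem _ _ hx hy), ← map_add]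
    rfl
  res_mul := by
    intro x y hx hy
    rw [O.valuation_le_one_iff] at hx hy
    rw [resMap_of_mem O hx, resMap_of_mem O hy, resMap_of_mem O (O.mul_mem _ _ hx hy), ← map_mul]
    rfl
  res_surj := by
    intro a
    obtain ⟨x, rfl⟩ := residue_surjective a
    exact ⟨x, O.valuation_le_one x, resMap_of_mem O x.2⟩
  res_ker := by
    intro x hx
    rw [O.valuation_le_one_iff] at hx
    rw [resMap_of_mem O hx, residue_eq_zero_iff, O.valuation_lt_one_iff]
  res_out := by
    intro x hx
    refine resMap_of_not_mem O fun h => ?_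
    exact absurd ((O.valuation_le_one_iff x).2 h) (not_le.2 hx)

theorem hens_of {K : Type} [Field K] (O : ValuationSubring K) [HenselianLocalRing O] :
    Hens O.valuation := by
  rw [hens_iff]
  intro d c a hc ha h1 h2
  let c' : Fin d → O := fun i => ⟨c i, (O.valuation_le_one_iff _).1 (hc i)⟩
  let a' : O := ⟨a, (O.valuation_le_one_iff _).1 ha⟩
  have hq : (∑ i, C (c' i) * X ^ (i : ℕ) : O[X]).degree < d := by
    refine lt_of_le_of_lt (degree_sum_le _ _) ((Finset.sup_lt_iff (WithBot.bot_lt_coe d)).2 ?_)
    intro i _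
    refine lt_of_le_of_lt (degree_C_mul_X_pow_le _ _) ?_
    exact Nat.cast_lt.2 i.2
  have e1 : ∀ b : O, (((X ^ d + ∑ i, C (c' i) * X ^ (i : ℕ) : O[X]).eval b : O) : K) =
      (b : K) ^ d + ∑ i, c i * (b : K) ^ (i : ℕ) := by
    intro b
    simp [eval_finsetSum, c']
  have e2 : ((((derivative (X ^ d + ∑ i, C (c' i) * X ^ (i : ℕ) : O[X])).eval a') : O) : K) =
      d * a ^ (d - 1) + ∑ i, c i * ((i : ℕ) * a ^ ((i : ℕ) - 1)) := by
    simp [eval_finsetSum, derivative_X_pow, c', a']
  obtain ⟨b, hb, hb'⟩ := HenselianLocalRing.is_henselian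
    (X ^ d + ∑ i, C (c' i) * X ^ (i : ℕ) : O[X]) (monic_X_pow_add hq) a'
    (by
      rw [O.valuation_lt_one_iff, e1]
      exact h1)
    (by
      rw [O.valuation_eq_one_iff, e2]
      exact h2)
  refine ⟨b, ?_, ?_⟩
  · rw [← e1]
    exact congrArg Subtype.val hb
  · rw [O.valuation_lt_one_iff] at hb'
    exact hb'

theorem hch_of {K : Type} [Field K] (O : ValuationSubring K) [CharZero (ResidueField O)] (m : ℕ)
    (hm : m ≠ 0) : O.valuation (m : K) = 1 := by
  have h1 : ((m : O) : K) = m := by simp
  rw [← h1, ← O.valuation_eq_one_iff]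
  by_contra h
  have h2 : (m : O) ∈ maximalIdeal O := (mem_maximalIdeal _).2 h
  rw [← residue_eq_zero_iff, map_natCast] at h2
  exact hm (Nat.cast_eq_zero.1 h2)

/-- The transfer theorem -/
theorem transfer_all (n : ℕ) (hn : 1 ≤ n) (K L : Type) [Field K] [Field L]
    (O : ValuationSubring K) (P : ValuationSubring L) [HenselianLocalRing O]
    [HenselianLocalRing P] [CharZero (ResidueField O)] [CharZero (ResidueField P)]
    (hres : ∀ φ : Sentence ringLg n,
      Models (ringStr (ResidueField O)) n φ → Models (ringStr (ResidueField P)) n φ)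
    (hval : ∀ φ : Sentence oagLg n,
      Models (oagStr (O.ValueGroup)ˣ) n φ → Models (oagStr (P.ValueGroup)ˣ) n φ) :
    ∀ φ : Sentence valLg n, Models (valStr O.valuation (resMap O)) n φ →
      Models (valStr P.valuation (resMap P)) n φ := by
  obtain ⟨m, rfl⟩ : ∃ m, n = m + 1 := ⟨n - 1, by omega⟩
  intro φ hφ
  unfold Models at hres hval hφ ⊢
  by_cases hodd : Odd (m + 1)
  · rw [decide_eq_true hodd] at hres hval hφ ⊢
    exact transfer m (VF.of O) (VF.of P) (hens_of O) (hens_of P) (hch_of O) (hch_of P) hres hval
      φ hφ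
  · rw [decide_eq_false hodd] at hres hval hφ ⊢
    exact transfer' m (VF.of O) (VF.of P) (hens_of O) (hens_of P) (hch_of O) (hch_of P) hres hval
      φ hφ

end Pool.Agent.H662.A
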