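import Pool.Agent.H979.GW.StmB

/-!
# S_GREEN: the expected number of returns to the root of the critically biased walk (project GW)
-/

set_option autoImplicit false
set_option linter.unusedSectionVars false
set_option linter.unusedVariables false

namespace Pool.Agent.H662.GWG

open Finset
open Pool.Agent.H979.GW (Lev InT Pop S_GREEN mem_Lev sum_Lev_zero sum_Lev_succ Pop_nil Pop_cons
  Pop_nonneg Pop_iter_nonneg)

variable {Λ : Type} [DecidableEq Λ]

/-- the vertices of generation less than `N` -/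
def Tr (ch : List Λ → Finset Λ) (N : ℕ) : Finset (List Λ) := (range N).biUnion (Lev ch)

theorem mem_Tr {ch : List Λ → Finset Λ} {N : ℕ} {v : List Λ} :
    v ∈ Tr ch N ↔ v.length < N ∧ InT ch v := by
  unfold Tr
  rw [mem_biUnion]
  constructor
  · rintro ⟨k, hk, hv⟩
    obtain ⟨h1, h2⟩ := mem_Lev.1 hv
    rw [mem_range] at hk
    exact ⟨by omega, h2⟩
  · rintro ⟨h1, h2⟩
    exact ⟨v.length, mem_range.2 h1, mem_Lev.2 ⟨rfl, h2⟩⟩

theorem sum_Tr (ch : List Λ → Finset Λ) (N : ℕ) (F : List Λ → ℝ) :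
    ∑ v ∈ Tr ch N, F v = ∑ k ∈ range N, ∑ v ∈ Lev ch k, F v := by
  unfold Tr
  rw [sum_biUnion]
  intro i _ j _ hij
  simp only [Function.onFun]
  rw [Finset.disjoint_left]
  intro x hx hy
  exact hij ((mem_Lev.1 hx).1.symm.trans (mem_Lev.1 hy).1)

theorem sum_Tr_succ (ch : List Λ → Finset Λ) (N : ℕ) (F : List Λ → ℝ) :
    ∑ v ∈ Tr ch (N + 1), F v = F [] + ∑ v ∈ Tr ch N, ∑ c ∈ ch v, F (c :: v) := by
  rw [sum_Tr, sum_Tr, sum_range_succ', sum_Lev_zero, add_comm]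
  congr 1
  exact sum_congr rfl fun k _ => sum_Lev_succ ch k F

theorem sum_Tr_top (ch : List Λ → Finset Λ) (N : ℕ) (F : List Λ → ℝ) :
    ∑ v ∈ Tr ch (N + 1), F v = ∑ v ∈ Tr ch N, F v + ∑ v ∈ Lev ch N, F v := by
  rw [sum_Tr, sum_Tr, sum_range_succ]

theorem sum_Tr_top0 {ch : List Λ → Finset Λ} {N : ℕ} {F : List Λ → ℝ}
    (h : ∀ v, v.length = N → F v = 0) :
    ∑ v ∈ Tr ch (N + 1), F v = ∑ v ∈ Tr ch N, F v := by
  rw [sum_Tr_top]
  rw [sum_eq_zero (s := Lev ch N) fun v hv => h v (mem_Lev.1 hv).1, add_zero]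

/-- the exact reversible measure -/
noncomputable def pi0 (ρ : ℝ) (ch : List Λ → Finset Λ) : List Λ → ℝ
  | [] => ((ch []).card : ℝ)
  | a :: v => (ρ⁻¹) ^ v.length + (ρ⁻¹) ^ (v.length + 1) * ((ch (a :: v)).card : ℝ)

/-- the inner product -/
noncomputable def IP (ρ : ℝ) (ch : List Λ → Finset Λ) (N : ℕ) (f g : List Λ → ℝ) : ℝ :=
  ∑ v ∈ Tr ch N, pi0 ρ ch v * f v * g v

/-- the parent term -/
noncomputable def PT (ρ : ℝ) (f g : List Λ → ℝ) : List Λ → ℝ
  | [] => 0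
  | a :: u => (ρ⁻¹) ^ u.length * f (a :: u) * g u

theorem pi_Pop {ρ : ℝ} (hρ : 0 < ρ) (ch : List Λ → Finset Λ) (f g : List Λ → ℝ) (v : List Λ) :
    pi0 ρ ch v * f v * Pop ρ ch g v =
      PT ρ f g v + (ρ⁻¹) ^ v.length * (f v * ∑ c ∈ ch v, g (c :: v)) := by
  cases v with
  | nil =>
    rw [Pop_nil]
    simp only [pi0, PT, List.length_nil, pow_zero, one_mul, zero_add]
    by_cases h : (ch []).card = 0
    · rw [Finset.card_eq_zero] at h
      simp [h]
    · have h' : ((ch []).card : ℝ) ≠ 0 := by exact_mod_cast h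
      field_simp
  | cons a u =>
    rw [Pop_cons]
    simp only [pi0, PT, List.length_cons]
    have h0 : 0 < ρ + ((ch (a :: u)).card : ℝ) := by positivity
    have h1 : (ρ⁻¹) ^ u.length + (ρ⁻¹) ^ (u.length + 1) * ((ch (a :: u)).card : ℝ) =
        (ρ⁻¹) ^ (u.length + 1) * (ρ + ((ch (a :: u)).card : ℝ)) := by
      rw [mul_add, pow_succ, mul_assoc (ρ⁻¹ ^ u.length) ρ⁻¹ ρ, inv_mul_cancel₀ hρ.ne', mul_one]
    rw [h1]
    have h2 : (ρ⁻¹) ^ (u.length + 1) * (ρ + ((ch (a :: u)).card : ℝ)) * f (a :: u) *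
        ((ρ * g u + ∑ b ∈ ch (a :: u), g (b :: a :: u)) / (ρ + ((ch (a :: u)).card : ℝ))) =
        (ρ⁻¹) ^ (u.length + 1) * f (a :: u) *
          (ρ * g u + ∑ b ∈ ch (a :: u), g (b :: a :: u)) := by
      field_simp
    rw [h2, mul_add]
    have h3 : (ρ⁻¹) ^ (u.length + 1) * f (a :: u) * (ρ * g u) =
        (ρ⁻¹) ^ u.length * f (a :: u) * g u := by
      rw [pow_succ]
      have : ρ⁻¹ * ρ = 1 := inv_mul_cancel₀ hρ.ne'
      calc ρ⁻¹ ^ u.length * ρ⁻¹ * f (a :: u) * (ρ * g u) =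
          ρ⁻¹ ^ u.length * (ρ⁻¹ * ρ) * f (a :: u) * g u := by ring
        _ = _ := by rw [this, mul_one]
    rw [h3]
    ring

theorem IP_Pop {ρ : ℝ} (hρ : 0 < ρ) (ch : List Λ → Finset Λ) (N : ℕ) (f g : List Λ → ℝ)
    (hg : ∀ v, N < v.length → g v = 0) :
    IP ρ ch (N + 1) f (Pop ρ ch g) =
      ∑ v ∈ Tr ch N, ∑ c ∈ ch v, (ρ⁻¹) ^ v.length * (f (c :: v) * g v + f v * g (c :: v)) := by
  unfold IP
  rw [sum_congr rfl fun v _ => pi_Pop hρ ch f g v, sum_add_distrib, sum_Tr_succ ch N (PT ρ f g)]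
  have h1 : ∑ v ∈ Tr ch (N + 1), (ρ⁻¹) ^ v.length * (f v * ∑ c ∈ ch v, g (c :: v)) =
      ∑ v ∈ Tr ch N, (ρ⁻¹) ^ v.length * (f v * ∑ c ∈ ch v, g (c :: v)) := by
    apply sum_Tr_top0
    intro v hv
    rw [sum_eq_zero fun c _ => hg (c :: v) (by simp [hv]), mul_zero, mul_zero]
  rw [h1]
  simp only [PT, zero_add]
  rw [← sum_add_distrib]
  apply sum_congr rfl
  intro v _
  rw [mul_sum, mul_sum, ← sum_add_distrib]
  apply sum_congr rfl
  intro c _
  ring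

theorem IP_comm (ρ : ℝ) (ch : List Λ → Finset Λ) (N : ℕ) (f g : List Λ → ℝ) :
    IP ρ ch N f g = IP ρ ch N g f := by
  unfold IP
  exact sum_congr rfl fun v _ => by ring

theorem selfadj {ρ : ℝ} (hρ : 0 < ρ) (ch : List Λ → Finset Λ) (N : ℕ) (f g : List Λ → ℝ)
    (hf : ∀ v, N < v.length → f v = 0) (hg : ∀ v, N < v.length → g v = 0) :
    IP ρ ch (N + 1) (Pop ρ ch f) g = IP ρ ch (N + 1) f (Pop ρ ch g) := by
  rw [IP_comm, IP_Pop hρ ch N g f hf, IP_Pop hρ ch N f g hg]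
  apply sum_congr rfl
  intro v _
  apply sum_congr rfl
  intro c _
  ring

/-- the indicator of the root -/
noncomputable def del : List Λ → ℝ := fun v => if v = [] then (1 : ℝ) else 0

/-- the transition probabilities to the root -/
noncomputable def pp (ρ : ℝ) (ch : List Λ → Finset Λ) (t : ℕ) : List Λ → ℝ := (Pop ρ ch)^[t] del

theorem pp_succ (ρ : ℝ) (ch : List Λ → Finset Λ) (t : ℕ) :
    pp ρ ch (t + 1) = Pop ρ ch (pp ρ ch t) := by
  unfold pp
  rw [Function.iterate_succ_apply']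

theorem pp_supp (ρ : ℝ) (ch : List Λ → Finset Λ) (t : ℕ) :
    ∀ v : List Λ, t < v.length → pp ρ ch t v = 0 := by
  induction t with
  | zero =>
    intro v hv
    have : v ≠ [] := by rintro rfl; simp at hv
    simp [pp, del, this]
  | succ t ih =>
    intro v hv
    rw [pp_succ]
    cases v with
    | nil => simp at hv
    | cons a u =>
      rw [List.length_cons] at hv
      rw [Pop_cons, ih u (by omega), sum_eq_zero fun b _ => ih _ (by simp; omega)]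
      simp

theorem del_nonneg (v : List Λ) : 0 ≤ del v := by
  unfold del; split_ifs <;> norm_num

theorem pp_nonneg {ρ : ℝ} (hρ : 0 < ρ) (ch : List Λ → Finset Λ) (t : ℕ) (v : List Λ) :
    0 ≤ pp ρ ch t v := Pop_iter_nonneg hρ ch del_nonneg t v

theorem pi0_nonneg {ρ : ℝ} (hρ : 0 < ρ) (ch : List Λ → Finset Λ) (v : List Λ) :
    0 ≤ pi0 ρ ch v := by
  cases v with
  | nil => simp [pi0]
  | cons a u => simp only [pi0]; positivity

theorem IP_del (ρ : ℝ) (ch : List Λ → Finset Λ) (N : ℕ) (g : List Λ → ℝ) :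
    IP ρ ch (N + 1) g del = pi0 ρ ch [] * g [] := by
  unfold IP
  rw [sum_eq_single ([] : List Λ)]
  · simp [del]
  · intro v _ hv
    simp [del, hv]
  · intro h
    exact absurd ((mem_Tr (ch := ch) (v := [])).2 ⟨Nat.succ_pos _, trivial⟩) h

theorem IP_pp {ρ : ℝ} (hρ : 0 < ρ) (ch : List Λ → Finset Λ) (N : ℕ) :
    ∀ s t : ℕ, s + t ≤ N →
      IP ρ ch (N + 1) (pp ρ ch s) (pp ρ ch t) = pi0 ρ ch [] * pp ρ ch (s + t) [] := by
  intro s
  induction s with
  | zero =>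
    intro t _
    have : pp ρ ch 0 = del := rfl
    rw [this, IP_comm, IP_del, zero_add]
  | succ s ih =>
    intro t h
    rw [pp_succ, selfadj hρ ch N _ _ (fun v hv => pp_supp ρ ch s v (by omega))
      (fun v hv => pp_supp ρ ch t v (by omega)), ← pp_succ, ih (t + 1) (by omega)]
    congr 2
    omega

/-- the Green function -/
noncomputable def uu (ρ : ℝ) (ch : List Λ → Finset Λ) (n : ℕ) (v : List Λ) : ℝ :=
  ∑ t ∈ range n, pp ρ ch t v

theorem uu_nonneg {ρ : ℝ} (hρ : 0 < ρ) (ch : List Λ → Finset Λ) (n : ℕ) (v : List Λ) :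
    0 ≤ uu ρ ch n v := sum_nonneg fun t _ => pp_nonneg hρ ch t v

theorem uu_supp (ρ : ℝ) (ch : List Λ → Finset Λ) (n : ℕ) (v : List Λ) (hv : n ≤ v.length) :
    uu ρ ch n v = 0 :=
  sum_eq_zero fun t ht => pp_supp ρ ch t v (lt_of_lt_of_le (mem_range.1 ht) hv)

theorem Pop_sum (ρ : ℝ) (ch : List Λ → Finset Λ) {ι : Type} (s : Finset ι)
    (f : ι → List Λ → ℝ) (v : List Λ) :
    Pop ρ ch (fun v => ∑ t ∈ s, f t v) v = ∑ t ∈ s, Pop ρ ch (f t) v := by
  cases v with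
  | nil =>
    simp only [Pop_nil]
    rw [← sum_div, sum_comm]
  | cons a u =>
    simp only [Pop_cons]
    rw [← sum_div, sum_add_distrib, mul_sum, sum_comm]

theorem uu_succ (ρ : ℝ) (ch : List Λ → Finset Λ) (n : ℕ) (v : List Λ) :
    uu ρ ch (n + 1) v = del v + Pop ρ ch (uu ρ ch n) v := by
  unfold uu
  rw [sum_range_succ', Pop_sum ρ ch (range n) (fun t => pp ρ ch t) v, add_comm]
  congr 1
  exact sum_congr rfl fun t _ => by rw [pp_succ]

theorem uu_succ' (ρ : ℝ) (ch : List Λ → Finset Λ) (n : ℕ) (v : List Λ) :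
    uu ρ ch (n + 1) v = uu ρ ch n v + pp ρ ch n v := by
  unfold uu
  rw [sum_range_succ]

theorem InT_tail {ch : List Λ → Finset Λ} {a : Λ} {u : List Λ} (h : InT ch (a :: u)) :
    InT ch u := h.1

theorem InT_child {ch : List Λ → Finset Λ} {b : Λ} {v : List Λ} (h : InT ch v) (hb : b ∈ ch v) :
    InT ch (b :: v) := ⟨h, hb⟩

/-- maximum principle -/
theorem Pop_le {ρ : ℝ} (hρ : 0 < ρ) (ch : List Λ → Finset Λ) {f : List Λ → ℝ} {M : ℝ}
    (hM : 0 ≤ M) (hf : ∀ v, InT ch v → f v ≤ M) : ∀ v, InT ch v → Pop ρ ch f v ≤ M := by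
  intro v hv
  cases v with
  | nil =>
    rw [Pop_nil]
    by_cases h : (ch []).card = 0
    · rw [h]; simpa using hM
    · have h' : 0 < ((ch []).card : ℝ) := by exact_mod_cast Nat.pos_of_ne_zero h
      rw [div_le_iff₀ h']
      calc ∑ c ∈ ch [], f [c] ≤ ∑ c ∈ ch [], M :=
            sum_le_sum fun c hc => hf _ (InT_child hv hc)
        _ = M * ((ch []).card : ℝ) := by rw [sum_const, nsmul_eq_mul, mul_comm]
  | cons a u =>
    rw [Pop_cons]
    have h0 : 0 < ρ + ((ch (a :: u)).card : ℝ) := by positivity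
    rw [div_le_iff₀ h0]
    have h1 : ρ * f u ≤ ρ * M := mul_le_mul_of_nonneg_left (hf u (InT_tail hv)) hρ.le
    have h2 : ∑ b ∈ ch (a :: u), f (b :: a :: u) ≤ ∑ b ∈ ch (a :: u), M :=
      sum_le_sum fun c hc => hf _ (InT_child hv hc)
    rw [sum_const, nsmul_eq_mul] at h2
    linarith

theorem uu_mono {ρ : ℝ} (hρ : 0 < ρ) (ch : List Λ → Finset Λ) (n : ℕ) (v : List Λ) :
    uu ρ ch n v ≤ uu ρ ch (n + 1) v := by
  rw [uu_succ']
  have := pp_nonneg hρ ch n v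
  linarith

theorem uu_le {ρ : ℝ} (hρ : 0 < ρ) (ch : List Λ → Finset Λ) (n : ℕ) :
    ∀ v, InT ch v → uu ρ ch n v ≤ uu ρ ch n [] := by
  induction n with
  | zero => intro v _; simp [uu]
  | succ n ih =>
    intro v hv
    by_cases h : v = []
    · rw [h]
    · rw [uu_succ ρ ch n v]
      have h1 : del v = 0 := by simp [del, h]
      rw [h1, zero_add]
      exact (Pop_le hρ ch (uu_nonneg hρ ch n []) ih v hv).trans (uu_mono hρ ch n [])

theorem iter_uu {ρ : ℝ} (hρ : 0 < ρ) (ch : List Λ → Finset Λ) (n m : ℕ) :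
    ∀ v, InT ch v → ∑ t ∈ range n, pp ρ ch (m + t) v ≤ uu ρ ch n [] := by
  induction m with
  | zero =>
    intro v hv
    simp only [zero_add]
    exact uu_le hρ ch n v hv
  | succ m ih =>
    intro v hv
    have h1 : ∑ t ∈ range n, pp ρ ch (m + 1 + t) v =
        Pop ρ ch (fun v => ∑ t ∈ range n, pp ρ ch (m + t) v) v := by
      rw [Pop_sum ρ ch (range n) (fun t => pp ρ ch (m + t)) v]
      refine sum_congr rfl fun t _ => ?_
      rw [← pp_succ]
      congr 1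
      omega
    rw [h1]
    exact Pop_le hρ ch (uu_nonneg hρ ch n []) ih v hv

theorem IP_uu {ρ : ℝ} (hρ : 0 < ρ) (ch : List Λ → Finset Λ) (n N : ℕ) (hN : 2 * n ≤ N) :
    IP ρ ch (N + 1) (uu ρ ch n) (uu ρ ch n) ≤ pi0 ρ ch [] * (n * uu ρ ch n []) := by
  have h1 : IP ρ ch (N + 1) (uu ρ ch n) (uu ρ ch n) =
      ∑ s ∈ range n, ∑ t ∈ range n, IP ρ ch (N + 1) (pp ρ ch s) (pp ρ ch t) := by
    unfold IP
    have e1 : ∀ v ∈ Tr ch (N + 1), pi0 ρ ch v * uu ρ ch n v * uu ρ ch n v =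
        ∑ s ∈ range n, ∑ t ∈ range n, pi0 ρ ch v * pp ρ ch s v * pp ρ ch t v := by
      intro v _
      unfold uu
      rw [mul_assoc, sum_mul_sum, mul_sum]
      refine sum_congr rfl fun s _ => ?_
      rw [mul_sum]
      exact sum_congr rfl fun t _ => by ring
    rw [sum_congr rfl e1, sum_comm]
    refine sum_congr rfl fun s _ => ?_
    rw [sum_comm]
  rw [h1]
  have h2 : ∀ s ∈ range n, ∑ t ∈ range n, IP ρ ch (N + 1) (pp ρ ch s) (pp ρ ch t) ≤
      pi0 ρ ch [] * uu ρ ch n [] := by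
    intro s hs
    rw [mem_range] at hs
    have e2 : ∑ t ∈ range n, IP ρ ch (N + 1) (pp ρ ch s) (pp ρ ch t) =
        pi0 ρ ch [] * ∑ t ∈ range n, pp ρ ch (s + t) [] := by
      rw [mul_sum]
      refine sum_congr rfl fun t ht => ?_
      rw [mem_range] at ht
      exact IP_pp hρ ch N s t (by omega)
    rw [e2]
    exact mul_le_mul_of_nonneg_left (iter_uu hρ ch n s [] trivial) (pi0_nonneg hρ ch [])
  refine (sum_le_sum h2).trans (le_of_eq ?_)
  rw [sum_const, card_range, nsmul_eq_mul]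
  ring

/-- the energy -/
noncomputable def En (ρ : ℝ) (ch : List Λ → Finset Λ) (N : ℕ) (u : List Λ → ℝ) : ℝ :=
  ∑ v ∈ Tr ch N, ∑ c ∈ ch v, (ρ⁻¹) ^ v.length * (u (c :: v) - u v) ^ 2

theorem En_eq {ρ : ℝ} (hρ : 0 < ρ) (ch : List Λ → Finset Λ) (N : ℕ) (u : List Λ → ℝ)
    (hu : ∀ v, N ≤ v.length → u v = 0) :
    En ρ ch N u = IP ρ ch (N + 1) u u - IP ρ ch (N + 1) u (Pop ρ ch u) := by
  rw [IP_Pop hρ ch N u u fun v hv => hu v hv.le]
  have h1 : IP ρ ch (N + 1) u u =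
      ∑ v ∈ Tr ch N, ∑ c ∈ ch v, (ρ⁻¹) ^ v.length * (u (c :: v) ^ 2 + u v ^ 2) := by
    unfold IP
    have e1 : ∀ v ∈ Tr ch (N + 1), pi0 ρ ch v * u v * u v =
        PT ρ u (fun w => 1) v * u v + (ρ⁻¹) ^ v.length * ((ch v).card : ℝ) * u v ^ 2 := by
      intro v _
      cases v with
      | nil => simp only [pi0, PT, List.length_nil, pow_zero]; ring
      | cons a w => simp only [pi0, PT, List.length_cons]; ring
    rw [sum_congr rfl e1, sum_add_distrib,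
      sum_Tr_succ ch N (fun v => PT ρ u (fun w => 1) v * u v),
      sum_Tr_top0 (F := fun v => (ρ⁻¹) ^ v.length * ((ch v).card : ℝ) * u v ^ 2)]
    · simp only [PT, zero_mul, zero_add]
      rw [← sum_add_distrib]
      refine sum_congr rfl fun v _ => ?_
      have e2 : (ρ⁻¹) ^ v.length * ((ch v).card : ℝ) * u v ^ 2 =
          ∑ c ∈ ch v, (ρ⁻¹) ^ v.length * u v ^ 2 := by
        rw [sum_const, nsmul_eq_mul]; ring
      rw [e2, ← sum_add_distrib]
      exact sum_congr rfl fun c _ => by ring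
    · intro v hv
      rw [hu v hv.ge]
      simp
  rw [h1, ← sum_sub_distrib]
  unfold En
  refine sum_congr rfl fun v _ => ?_
  rw [← sum_sub_distrib]
  exact sum_congr rfl fun c _ => by ring

theorem En_uu {ρ : ℝ} (hρ : 0 < ρ) (ch : List Λ → Finset Λ) (n N : ℕ) (hN : n ≤ N) :
    En ρ ch N (uu ρ ch n) ≤ pi0 ρ ch [] * uu ρ ch n [] := by
  rw [En_eq hρ ch N _ fun v hv => uu_supp ρ ch n v (by omega)]
  have h1 : IP ρ ch (N + 1) (uu ρ ch n) (uu ρ ch n) -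
      IP ρ ch (N + 1) (uu ρ ch n) (Pop ρ ch (uu ρ ch n)) =
      IP ρ ch (N + 1) (uu ρ ch n) del - IP ρ ch (N + 1) (uu ρ ch n) (pp ρ ch n) := by
    unfold IP
    rw [← sum_sub_distrib, ← sum_sub_distrib]
    refine sum_congr rfl fun v _ => ?_
    have e1 := uu_succ ρ ch n v
    rw [uu_succ'] at e1
    have e2 : Pop ρ ch (uu ρ ch n) v = uu ρ ch n v + pp ρ ch n v - del v := by linarith
    rw [e2]
    ring
  rw [h1, IP_del]
  have h2 : 0 ≤ IP ρ ch (N + 1) (uu ρ ch n) (pp ρ ch n) :=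
    sum_nonneg fun v _ => mul_nonneg (mul_nonneg (pi0_nonneg hρ ch v) (uu_nonneg hρ ch n v))
      (pp_nonneg hρ ch n v)
  linarith

/-- the flow identity -/
theorem flow {ρ : ℝ} (hρ : 0 < ρ) (ch : List Λ → Finset Λ) {W : List Λ → ℝ}
    (hW : ∀ v, InT ch v → ρ * W v = ∑ c ∈ ch v, W (c :: v)) (u : List Λ → ℝ) (h : ℕ) :
    W [] * u [] = ∑ v ∈ Lev ch h, (ρ⁻¹) ^ h * (W v * u v) +
      ∑ v ∈ Tr ch h, ∑ c ∈ ch v, (ρ⁻¹) ^ (v.length + 1) * (W (c :: v) * (u v - u (c :: v))) := by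
  induction h with
  | zero =>
    rw [sum_Lev_zero]
    simp [Tr]
  | succ h ih =>
    rw [ih, sum_Tr_top, sum_Lev_succ]
    have h1 : ∑ v ∈ Lev ch h, (ρ⁻¹) ^ h * (W v * u v) =
        ∑ v ∈ Lev ch h, ∑ c ∈ ch v, (ρ⁻¹) ^ (h + 1) * (W (c :: v) * u (c :: v)) +
        ∑ v ∈ Lev ch h, ∑ c ∈ ch v,
          (ρ⁻¹) ^ (v.length + 1) * (W (c :: v) * (u v - u (c :: v))) := by
      rw [← sum_add_distrib]
      refine sum_congr rfl fun v hv => ?_
      obtain ⟨hl, hT⟩ := mem_Lev.1 hv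
      rw [hl, ← sum_add_distrib]
      have e1 : ∀ c ∈ ch v, (ρ⁻¹) ^ (h + 1) * (W (c :: v) * u (c :: v)) +
          (ρ⁻¹) ^ (h + 1) * (W (c :: v) * (u v - u (c :: v))) =
          ((ρ⁻¹) ^ (h + 1) * u v) * W (c :: v) := fun c _ => by ring
      rw [sum_congr rfl e1, ← mul_sum, ← hW v hT, pow_succ]
      have : ρ⁻¹ * ρ = 1 := inv_mul_cancel₀ hρ.ne'
      calc (ρ⁻¹) ^ h * (W v * u v) = (ρ⁻¹) ^ h * (ρ⁻¹ * ρ) * (u v * W v) := by rw [this]; ring
        _ = _ := by ring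
    rw [h1]
    ring

theorem cs {ι : Type} (s : Finset ι) (w f g : ι → ℝ) (hw : ∀ i ∈ s, 0 ≤ w i) :
    (∑ i ∈ s, w i * (f i * g i)) ^ 2 ≤ (∑ i ∈ s, w i * f i ^ 2) * ∑ i ∈ s, w i * g i ^ 2 :=
  Finset.sum_sq_le_sum_mul_sum_of_sq_eq_mul s (fun i hi => mul_nonneg (hw i hi) (sq_nonneg _))
    (fun i hi => mul_nonneg (hw i hi) (sq_nonneg _)) (fun i _ => by ring)

/-- the main inequality for a given height `H` -/
theorem main_ineq {ρ : ℝ} (hρ1 : 1 < ρ) (ch : List Λ → Finset Λ) {W : List Λ → ℝ}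
    (hW0 : ∀ v, InT ch v → 0 ≤ W v)
    (hW : ∀ v, InT ch v → ρ * W v = ∑ c ∈ ch v, W (c :: v)) {C : ℝ}
    (hC : ∀ k, ∑ v ∈ Lev ch k, (ρ⁻¹) ^ k * W v ^ 2 ≤ C) (n H : ℕ) (hH : 1 ≤ H) :
    (W [] * uu ρ ch n []) ^ 2 ≤
      2 * (C * (pi0 ρ ch [] * uu ρ ch n [])) * (n / H + H) := by
  have hρ : 0 < ρ := zero_lt_one.trans hρ1
  have hq0 : 0 < ρ⁻¹ := inv_pos.2 hρ
  have hq1 : ρ⁻¹ ≤ 1 := inv_le_one_of_one_le₀ hρ1.le
  set u := uu ρ ch n with hu
  have hu0 : ∀ v, 0 ≤ u v := fun v => uu_nonneg hρ ch n v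
  have hH0 : (0 : ℝ) < H := by exact_mod_cast hH
  have hC0 : 0 ≤ C := le_trans (sum_nonneg fun v _ => by positivity) (hC 0)
  set c0 := pi0 ρ ch [] with hc0
  have hc00 : 0 ≤ c0 := pi0_nonneg hρ ch []
  set N := 2 * n + H with hN
  -- the vertices without the root up to generation `H`
  set T1 := (Tr ch (H + 1)).erase [] with hT1
  -- first term
  set X := ∑ v ∈ T1, (ρ⁻¹) ^ v.length * (W v * u v) with hX
  have hX1 : ∑ h ∈ range H, ∑ v ∈ Lev ch (h + 1), (ρ⁻¹) ^ (h + 1) * (W v * u v) = X := by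
    have e1 : ∑ v ∈ Tr ch (H + 1), (ρ⁻¹) ^ v.length * (W v * u v) =
        ∑ h ∈ range (H + 1), ∑ v ∈ Lev ch h, (ρ⁻¹) ^ h * (W v * u v) := by
      rw [sum_Tr]
      refine sum_congr rfl fun k _ => sum_congr rfl fun v hv => ?_
      rw [(mem_Lev.1 hv).1]
    rw [sum_range_succ', sum_Lev_zero] at e1
    have e2 : [] ∈ Tr ch (H + 1) := mem_Tr.2 ⟨by simp, trivial⟩
    have e3 := Finset.add_sum_erase (Tr ch (H + 1)) (fun v => (ρ⁻¹) ^ v.length * (W v * u v)) e2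
    simp only [List.length_nil] at e3
    rw [← hT1, ← hX] at e3
    linarith
  have hWs : ∑ v ∈ T1, (ρ⁻¹) ^ v.length * W v ^ 2 ≤ H * C := by
    have e1 : ∑ v ∈ Tr ch (H + 1), (ρ⁻¹) ^ v.length * W v ^ 2 =
        ∑ h ∈ range (H + 1), ∑ v ∈ Lev ch h, (ρ⁻¹) ^ h * W v ^ 2 := by
      rw [sum_Tr]
      refine sum_congr rfl fun k _ => sum_congr rfl fun v hv => ?_
      rw [(mem_Lev.1 hv).1]
    rw [sum_range_succ', sum_Lev_zero] at e1
    have e2 : [] ∈ Tr ch (H + 1) := mem_Tr.2 ⟨by simp, trivial⟩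
    have e3 := Finset.add_sum_erase (Tr ch (H + 1)) (fun v => (ρ⁻¹) ^ v.length * W v ^ 2) e2
    simp only [List.length_nil] at e3
    rw [← hT1] at e3
    have e4 : ∑ h ∈ range H, ∑ v ∈ Lev ch (h + 1), (ρ⁻¹) ^ (h + 1) * W v ^ 2 ≤ H * C := by
      calc _ ≤ ∑ h ∈ range H, C := sum_le_sum fun h _ => hC (h + 1)
        _ = H * C := by rw [sum_const, card_range, nsmul_eq_mul]
    linarith
  have hus : ∑ v ∈ T1, (ρ⁻¹) ^ v.length * u v ^ 2 ≤ c0 * (n * u []) := by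
    refine le_trans ?_ (IP_uu hρ ch n N (by omega))
    unfold IP
    rw [← hu]
    have hsub : T1 ⊆ Tr ch (N + 1) := by
      intro v hv
      have h1 := mem_Tr.1 (mem_of_mem_erase hv)
      exact mem_Tr.2 ⟨by omega, h1.2⟩
    refine le_trans (sum_le_sum fun v hv => ?_) (sum_le_sum_of_subset_of_nonneg hsub
      fun v _ _ => mul_nonneg (mul_nonneg (pi0_nonneg hρ ch v) (hu0 v)) (hu0 v))
    have hne : v ≠ [] := ne_of_mem_erase hv
    cases v with
    | nil => exact absurd rfl hne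
    | cons a w =>
      simp only [pi0, List.length_cons]
      have e1 : (ρ⁻¹) ^ (w.length + 1) ≤ (ρ⁻¹) ^ w.length :=
        pow_le_pow_of_le_one hq0.le hq1 (by omega)
      have e2 : 0 ≤ (ρ⁻¹) ^ (w.length + 1) * ((ch (a :: w)).card : ℝ) := by positivity
      have e3 : 0 ≤ u (a :: w) * u (a :: w) := mul_nonneg (hu0 _) (hu0 _)
      calc (ρ⁻¹) ^ (w.length + 1) * u (a :: w) ^ 2 =
          (ρ⁻¹) ^ (w.length + 1) * (u (a :: w) * u (a :: w)) := by ring
        _ ≤ ((ρ⁻¹) ^ w.length + (ρ⁻¹) ^ (w.length + 1) * ((ch (a :: w)).card : ℝ)) *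
            (u (a :: w) * u (a :: w)) := by
          apply mul_le_mul_of_nonneg_right _ e3
          linarith
        _ = _ := by ring
  have hX2 : X ^ 2 ≤ (H * C) * (c0 * (n * u [])) := by
    refine (cs T1 (fun v => (ρ⁻¹) ^ v.length) W u fun v _ => by positivity).trans ?_
    apply mul_le_mul hWs hus (sum_nonneg fun v _ => by positivity) (by positivity)
  -- second term
  set S2 : Finset ((_ : List Λ) × Λ) := (Tr ch H).sigma fun v => ch v with hS2
  set β := ∑ x ∈ S2, (ρ⁻¹) ^ (x.1.length + 1) * (W (x.2 :: x.1) * |u x.1 - u (x.2 :: x.1)|) with hβ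
  have hβ0 : 0 ≤ β := by
    refine sum_nonneg fun x hx => ?_
    obtain ⟨h1, h2⟩ := mem_sigma.1 hx
    have := hW0 (x.2 :: x.1) (InT_child (mem_Tr.1 h1).2 h2)
    positivity
  have hWs2 : ∑ x ∈ S2, (ρ⁻¹) ^ (x.1.length + 1) * W (x.2 :: x.1) ^ 2 ≤ H * C := by
    rw [hS2, sum_sigma, sum_Tr]
    calc _ ≤ ∑ k ∈ range H, C := by
          refine sum_le_sum fun k _ => ?_
          refine le_trans (le_of_eq ?_) (hC (k + 1))
          rw [sum_Lev_succ]
          refine sum_congr rfl fun v hv => ?_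
          have hlen := (mem_Lev.1 hv).1
          refine sum_congr rfl fun c _ => ?_
          show (ρ⁻¹) ^ (v.length + 1) * W (c :: v) ^ 2 = (ρ⁻¹) ^ (k + 1) * W (c :: v) ^ 2
          rw [hlen]
      _ = H * C := by rw [sum_const, card_range, nsmul_eq_mul]
  have hEs2 : ∑ x ∈ S2, (ρ⁻¹) ^ (x.1.length + 1) * |u x.1 - u (x.2 :: x.1)| ^ 2 ≤ c0 * u [] := by
    refine le_trans ?_ (En_uu hρ ch n N (by omega))
    unfold En
    rw [hS2, sum_sigma, ← hu]
    have hsub : Tr ch H ⊆ Tr ch N := by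
      intro v hv
      have h1 := mem_Tr.1 hv
      exact mem_Tr.2 ⟨by omega, h1.2⟩
    refine le_trans (sum_le_sum fun v _ => sum_le_sum fun c _ => ?_)
      (sum_le_sum_of_subset_of_nonneg hsub fun v _ _ => sum_nonneg fun c _ => by positivity)
    rw [sq_abs]
    have e1 : (ρ⁻¹) ^ (v.length + 1) ≤ (ρ⁻¹) ^ v.length :=
      pow_le_pow_of_le_one hq0.le hq1 (by omega)
    have e2 : (u v - u (c :: v)) ^ 2 = (u (c :: v) - u v) ^ 2 := by ring
    rw [e2]
    exact mul_le_mul_of_nonneg_right e1 (sq_nonneg _)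
  have hβ2 : β ^ 2 ≤ (H * C) * (c0 * u []) := by
    refine (cs S2 (fun x => (ρ⁻¹) ^ (x.1.length + 1)) (fun x => W (x.2 :: x.1))
      (fun x => |u x.1 - u (x.2 :: x.1)|) fun x _ => by positivity).trans ?_
    apply mul_le_mul hWs2 hEs2 (sum_nonneg fun x _ => by positivity) (by positivity)
  -- the average
  have hfl : ∀ h ∈ range H, W [] * u [] ≤
      ∑ v ∈ Lev ch (h + 1), (ρ⁻¹) ^ (h + 1) * (W v * u v) + β := by
    intro h hh
    rw [mem_range] at hh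
    rw [flow hρ ch hW u (h + 1)]
    refine add_le_add le_rfl ?_
    rw [hβ, hS2, sum_sigma]
    have hsub : Tr ch (h + 1) ⊆ Tr ch H := by
      intro v hv
      have h1 := mem_Tr.1 hv
      exact mem_Tr.2 ⟨by omega, h1.2⟩
    refine le_trans (sum_le_sum fun v hv => sum_le_sum fun c hc => ?_)
      (sum_le_sum_of_subset_of_nonneg hsub fun v hv _ => sum_nonneg fun c hc => ?_)
    · have e1 := hW0 (c :: v) (InT_child (mem_Tr.1 hv).2 hc)
      apply mul_le_mul_of_nonneg_left _ (by positivity)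
      exact mul_le_mul_of_nonneg_left (le_abs_self _) e1
    · have e1 := hW0 (c :: v) (InT_child (mem_Tr.1 hv).2 hc)
      positivity
  have hsum : H * (W [] * u []) ≤ X + H * β := by
    have e1 := sum_le_sum hfl
    rw [sum_const, card_range, nsmul_eq_mul, sum_add_distrib, hX1, sum_const, card_range,
      nsmul_eq_mul] at e1
    exact e1
  have hfin : W [] * u [] ≤ X / H + β := by
    rw [← sub_le_iff_le_add, le_div_iff₀ hH0]
    linarith
  have hWu : 0 ≤ W [] * u [] := mul_nonneg (hW0 [] trivial) (hu0 [])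
  calc (W [] * u []) ^ 2 ≤ (X / H + β) ^ 2 := pow_le_pow_left₀ hWu hfin 2
    _ ≤ 2 * ((X / H) ^ 2 + β ^ 2) := by nlinarith [sq_nonneg (X / H - β)]
    _ ≤ 2 * ((C * (c0 * u [])) * (n / H) + (C * (c0 * u [])) * H) := by
      have e1 : (X / H) ^ 2 ≤ (C * (c0 * u [])) * (n / H) := by
        rw [div_pow, div_le_iff₀ (by positivity)]
        refine hX2.trans (le_of_eq ?_)
        field_simp
      have e2 : β ^ 2 ≤ (C * (c0 * u [])) * H := hβ2.trans (le_of_eq (by ring))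
      linarith
    _ = _ := by ring

end Pool.Agent.H662.GWG

namespace Pool.Agent.H662

open Pool.Agent.H979.GW

theorem gw_green : S_GREEN := by
  intro Λ _ ρ ch W hρ1 hW0 hW hW1 ⟨C, hC⟩
  have hρ : 0 < ρ := zero_lt_one.trans hρ1
  have hC0 : 0 ≤ C := le_trans (Finset.sum_nonneg fun v _ => by
    have := inv_pos.2 hρ
    positivity) (hC 0)
  set c0 := GWG.pi0 ρ ch [] with hc0
  have hc00 : 0 ≤ c0 := GWG.pi0_nonneg hρ ch []
  refine ⟨8 * C * c0 / W [] ^ 2, by positivity, fun n hn => ?_⟩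
  have hn1 : (1 : ℝ) ≤ n := by exact_mod_cast hn
  have hs1 : 1 ≤ √(n : ℝ) := Real.one_le_sqrt.2 hn1
  have hsq : √(n : ℝ) * √(n : ℝ) = n := Real.mul_self_sqrt (by linarith)
  set H : ℕ := ⌈√(n : ℝ)⌉₊ with hH
  have hH1 : √(n : ℝ) ≤ H := Nat.le_ceil _
  have hH2 : (H : ℝ) < √(n : ℝ) + 1 := Nat.ceil_lt_add_one (by linarith)
  have hH0 : 1 ≤ H := by
    have : (1 : ℝ) ≤ H := hs1.trans hH1
    exact_mod_cast this
  have hHp : (0 : ℝ) < H := by exact_mod_cast hH0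
  have key := GWG.main_ineq hρ1 ch hW0 hW hC n H hH0
  rw [← hc0] at key
  set U := GWG.uu ρ ch n [] with hU
  have hU0 : 0 ≤ U := GWG.uu_nonneg hρ ch n []
  have h1 : (n : ℝ) / H ≤ √(n : ℝ) := by
    rw [div_le_iff₀ hHp]
    calc (n : ℝ) = √(n : ℝ) * √(n : ℝ) := hsq.symm
      _ ≤ _ := mul_le_mul_of_nonneg_left hH1 (by linarith)
  have h2 : (n : ℝ) / H + H ≤ 3 * √(n : ℝ) := by linarith
  have h3 : (W [] * U) ^ 2 ≤ 2 * (C * (c0 * U)) * (3 * √(n : ℝ)) :=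
    key.trans (mul_le_mul_of_nonneg_left h2 (by positivity))
  have hgoal : ∑ t ∈ Finset.range n, (Pop ρ ch)^[t] (fun v => if v = [] then (1 : ℝ) else 0) [] =
      U := rfl
  rw [hgoal]
  rw [div_mul_eq_mul_div, le_div_iff₀ (by positivity)]
  rcases hU0.eq_or_lt with h0 | h0
  · rw [← h0, zero_mul]
    positivity
  · have h4 : U * (U * W [] ^ 2) ≤ U * (8 * C * c0 * √(n : ℝ)) := by
      have h5 : 0 ≤ C * c0 * U * √(n : ℝ) := by positivity
      nlinarith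
    exact le_of_mul_le_mul_left h4 h0

end Pool.Agent.H662
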