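import Pool.Graph.R_seed8.R611.CO.A9

/-!
# Slopes in a saturated 0-h-minimal field: one slope for each scale, finitely many slopes
-/

set_option autoImplicit false
set_option linter.unusedSectionVars false

namespace Pool.Agent.H662.Z

open FirstOrder Language Structure Set Pool.Agent.R611.HM

universe u w

variable {L : FirstOrder.Language.{u, u}} {K : Type u} [L.Structure K] [Field K]
variable {Γ : Type w} [LinearOrderedCommGroupWithZero Γ] {v : Valuation K Γ}

/-- `z` is not a linear function of `y` over the algebraic closure of `a`. -/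
def NL (L : FirstOrder.Language.{u, u}) {K : Type u} [L.Structure K] [Field K] {ι : Type}
    (a : ι → K) (y z : K) : Prop :=
  ¬ ∃ e ∈ acl L a, ∃ g ∈ acl L a, z = g + e * y

theorem NL.notMem (hV : VF L v) {ι : Type} [Finite ι] {a : ι → K} {y z : K} (h : NL L a y z) :
    z ∉ acl L a := fun hz => h ⟨0, zero_mem_acl hV a, z, hz, by ring⟩

theorem NL.swap (hV : VF L v) {ι : Type} [Finite ι] {a : ι → K} {y z : K} (hy : y ∉ acl L a)
    (h : NL L a y z) : NL L a z y := by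
  rintro ⟨e, he, g, hg, rfl⟩
  by_cases he0 : e = 0
  · subst he0
    rw [zero_mul, add_zero] at hy
    exact hy hg
  · refine h ⟨1 / e, div_mem_acl hV ?_ he he0, (0 - g) / e,
      div_mem_acl hV (sub_mem_acl hV (zero_mem_acl hV a) hg) he he0, ?_⟩
    · have h1 : e / e ∈ acl L a := div_mem_acl hV he he he0
      rwa [div_self he0] at h1
    · field_simp
      ring

theorem EP.swap {ι : Type} {a : ι → K} {y z y1 z1 : K} (h : EP L v a y z y1 z1) :
    EP L v a z y z1 y1 :=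
  RE.sub (h : RE L v (oc z (oc y a)) (oc z1 (oc y1 a)))
    (fun o => o.elim (some none) (fun o' => o'.elim none (fun i => some (some i))))
    (by rintro (_ | _ | i) <;> rfl) (by rintro (_ | _ | i) <;> rfl)

theorem EP.refl {ι : Type} (a : ι → K) (y z : K) : EP L v a y z y z := RE.refl _

theorem EP.symm (hV : VF L v) {ι : Type} [Finite ι] {a : ι → K} {y z y1 z1 : K}
    (h : EP L v a y z y1 z1) : EP L v a y1 z1 y z := RE.symm hV h

theorem EP.trans {ι : Type} {a : ι → K} {y z y1 z1 y2 z2 : K}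
    (h : EP L v a y z y1 z1) (h' : EP L v a y1 z1 y2 z2) : EP L v a y z y2 z2 := RE.trans h h'

section

variable (hK : Satur L K) (hV : VF L v) (h0 : H0R L v) (hnt : ∃ t : K, t ≠ 0 ∧ v t < 1)

include hK hV h0 hnt

theorem EP.inj {ι : Type} [Finite ι] {a : ι → K} {y z y1 : K} (hz : z ∈ acl L (oc y a))
    (hza : z ∉ acl L a) (h : EP L v a y z y1 z) : y1 = y :=
  (RE.uniq hK hV (EP.swap h) (exch0 hK hV h0 hnt hza hz)).symm

theorem EP.snd_ne {ι : Type} [Finite ι] {a : ι → K} {y z y1 z1 : K} (hz : z ∈ acl L (oc y a))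
    (hza : z ∉ acl L a) (h : EP L v a y z y1 z1) (hy : y1 ≠ y) : z1 ≠ z := by
  rintro rfl
  exact hy (EP.inj hK hV h0 hnt hz hza h)

theorem mono_iff {ι : Type} [Finite ι] {a : ι → K} {y z : K} (hy : y ∉ acl L a)
    (hz : z ∈ acl L (oc y a)) (hnl : NL L a y z)
    {y1 z1 y2 z2 : K} (hE1 : EP L v a y z y1 z1) (hE2 : EP L v a y z y2 z2) :
    v (y2 - y) ≤ v (y1 - y) ↔ v (z2 - z) ≤ v (z1 - z) := by
  have hza := hnl.notMem hV
  constructor
  · exact mono_pairs hK hV h0 hnt hy hz hnl hE1 hE2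
  · exact mono_pairs hK hV h0 hnt hza (exch0 hK hV h0 hnt hza hz) (hnl.swap hV hy) (EP.swap hE1)
      (EP.swap hE2)

/-- one slope for each scale -/
theorem same_scale {ι : Type} [Finite ι] {a : ι → K} {y z : K} (hy : y ∉ acl L a)
    (hz : z ∈ acl L (oc y a)) (hnl : NL L a y z)
    {y1 z1 y2 z2 : K} (hE1 : EP L v a y z y1 z1) (hE2 : EP L v a y z y2 z2)
    (hne : y1 ≠ y) (he : v (y2 - y) = v (y1 - y)) :
    RVeq v ((z1 - z) / (y1 - y)) ((z2 - z) / (y2 - y)) := by
  have hza := hnl.notMem hV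
  have hz1 : z1 ≠ z := EP.snd_ne hK hV h0 hnt hz hza hE1 hne
  have hα : 0 < v (y1 - y) := (Valuation.pos_iff v).2 (sub_ne_zero.2 hne)
  have hκ : 0 < v (z1 - z) := (Valuation.pos_iff v).2 (sub_ne_zero.2 hz1)
  have hy2 : y2 ≠ y := by
    rintro rfl
    rw [sub_self, map_zero] at he
    exact hα.ne he
  have hmono := fun {y1 z1 y2 z2 : K} (h1 : EP L v a y z y1 z1) (h2 : EP L v a y z y2 z2) =>
    mono_iff hK hV h0 hnt hy hz hnl h1 h2
  have hek : v (z2 - z) = v (z1 - z) :=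
    le_antisymm ((hmono hE1 hE2).1 he.le) ((hmono hE2 hE1).1 he.ge)
  let T : Type u := {q : K × K // EP L v a y z q.1 q.2}
  have hstep : ∀ q : T, ∃ r : T, RVeq v (y1 - y) (r.1.1 - q.1.1) ∧
      RVeq v (z1 - z) (r.1.2 - q.1.2) := by
    intro q
    obtain ⟨y3, z3, h1, h2, h3⟩ := hE1.copy hK hV h0 q.2
    exact ⟨⟨(y3, z3), h1⟩, h2, h3⟩
  choose st hst1 hst2 using hstep
  let sq : ℕ → T := fun n => Nat.rec ⟨(y2, z2), hE2⟩ (fun _ q => st q) n
  have hs0 : sq 0 = ⟨(y2, z2), hE2⟩ := rfl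
  have hs1 : ∀ n, sq (n + 1) = st (sq n) := fun n => rfl
  have hRV : ∀ {x x' : K}, x ≠ 0 → RVeq v x x' → v (x - x') < v x := by
    intro x x' hx h
    rcases h with ⟨h, _⟩ | h
    · exact absurd h hx
    · exact h
  have hC1 : ∀ n k : ℕ, v ((sq (n + k)).1.1 - (sq n).1.1 - k * (y1 - y)) < v (y1 - y) := by
    intro n k
    induction k with
    | zero =>
      rw [add_zero, sub_self, Nat.cast_zero, zero_mul, sub_self, map_zero]
      exact hα
    | succ k ih =>
      have h1 : v (y1 - y - ((sq (n + k + 1)).1.1 - (sq (n + k)).1.1)) < v (y1 - y) := by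
        rw [hs1]
        exact hRV (sub_ne_zero.2 hne) (hst1 (sq (n + k)))
      have e : (sq (n + (k + 1))).1.1 - (sq n).1.1 - ((k + 1 : ℕ) : K) * (y1 - y) =
          ((sq (n + k)).1.1 - (sq n).1.1 - k * (y1 - y)) -
          (y1 - y - ((sq (n + k + 1)).1.1 - (sq (n + k)).1.1)) := by
        rw [show n + (k + 1) = n + k + 1 from rfl]
        push_cast
        ring
      rw [e]
      exact v_sub_lt ih h1
  have hC2 : ∀ n k : ℕ, v ((sq (n + k)).1.2 - (sq n).1.2 - k * (z1 - z)) < v (z1 - z) := by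
    intro n k
    induction k with
    | zero =>
      rw [add_zero, sub_self, Nat.cast_zero, zero_mul, sub_self, map_zero]
      exact hκ
    | succ k ih =>
      have h1 : v (z1 - z - ((sq (n + k + 1)).1.2 - (sq (n + k)).1.2)) < v (z1 - z) := by
        rw [hs1]
        exact hRV (sub_ne_zero.2 hz1) (hst2 (sq (n + k)))
      have e : (sq (n + (k + 1))).1.2 - (sq n).1.2 - ((k + 1 : ℕ) : K) * (z1 - z) =
          ((sq (n + k)).1.2 - (sq n).1.2 - k * (z1 - z)) -
          (z1 - z - ((sq (n + k + 1)).1.2 - (sq (n + k)).1.2)) := by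
        rw [show n + (k + 1) = n + k + 1 from rfl]
        push_cast
        ring
      rw [e]
      exact v_sub_lt ih h1
  have hD : ∀ n m : ℕ, n < m → v ((sq m).1.1 - (sq n).1.1) = v (y1 - y) := by
    intro n m hnm
    obtain ⟨k, rfl⟩ := Nat.exists_eq_add_of_lt hnm
    have h1 := hC1 n (k + 1)
    have h2 : v (((k + 1 : ℕ) : K) * (y1 - y)) = v (y1 - y) := by
      rw [map_mul, hV.nat _ (Nat.succ_ne_zero k), one_mul]
    rw [v_sub_comm, ← h2] at h1
    have h3 := v_eq_of_sub_lt h1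
    rw [h2] at h3
    exact h3
  have hle1 : ∀ n, v ((sq n).1.1 - y) ≤ v (y1 - y) := by
    intro n
    refine v_tri (y := y2) ?_ he.le
    rcases Nat.eq_zero_or_pos n with h | h
    · rw [h, hs0]; simp
    · exact (hD 0 _ h).le
  have hge1 : ∀ n m, n < m → v ((sq n).1.1 - y) < v (y1 - y) → v (y1 - y) ≤ v ((sq m).1.1 - y) := by
    intro n m hnm h
    by_contra hc
    rw [not_le] at hc
    have h1 := v_sub_lt hc h
    have e : (sq m).1.1 - y - ((sq n).1.1 - y) = (sq m).1.1 - (sq n).1.1 := by ring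
    rw [e, hD n m hnm] at h1
    exact lt_irrefl _ h1
  obtain ⟨N, hN⟩ : ∃ N, ∀ n, N ≤ n → v ((sq n).1.1 - y) = v (y1 - y) := by
    by_cases hb : ∃ n, v ((sq n).1.1 - y) < v (y1 - y)
    · obtain ⟨n0, hn0⟩ := hb
      exact ⟨n0 + 1, fun n hn => le_antisymm (hle1 n) (hge1 n0 n hn hn0)⟩
    · push Not at hb
      exact ⟨0, fun n _ => le_antisymm (hle1 n) (hb n)⟩
  have hN2 : ∀ n, N ≤ n → v ((sq n).1.2 - z) = v (z1 - z) := fun n hn =>
    le_antisymm ((hmono hE1 (sq n).2).1 (hN n hn).le) ((hmono (sq n).2 hE1).1 (hN n hn).ge)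
  have hNy : ∀ n, (sq (N + n)).1.1 ≠ y := by
    intro n h
    have h1 := hN (N + n) (Nat.le_add_right _ _)
    rw [h, sub_self, map_zero] at h1
    exact hα.ne h1
  obtain ⟨n, m, hnm, f, h1, h2⟩ := no_inf hK hV h0 hnt hy hz hnl
    (fun n => (sq (N + n)).1.1) (fun n => (sq (N + n)).1.2) hNy (fun n => (sq (N + n)).2)
  -- the common factor
  have hn1 := hN (N + n) (Nat.le_add_right _ _)
  have hn2 := hN2 (N + n) (Nat.le_add_right _ _)
  have hm1 := hN (N + m) (Nat.le_add_right _ _)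
  have hm2 := hN2 (N + m) (Nat.le_add_right _ _)
  have hf : v f * v (y1 - y) = v (z1 - z) := by
    have := h1.v_eq
    rw [map_mul, hn1, hn2] at this
    exact this.symm
  have hf0 : v f ≠ 0 := by
    intro h
    rw [h, zero_mul] at hf
    exact hκ.ne hf
  have g1 : v (f * ((sq (N + n)).1.1 - y) - ((sq (N + n)).1.2 - z)) < v (z1 - z) := by
    rcases h1 with ⟨h, _⟩ | h
    · have h3 : v (f * ((sq (N + n)).1.1 - y)) = v (z1 - z) := by
        rw [map_mul, hn1, hf]
      rw [h, map_zero] at h3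
      exact absurd h3 hκ.ne
    · rwa [map_mul, hn1, hf] at h
  have g2 : v (f * ((sq (N + m)).1.1 - y) - ((sq (N + m)).1.2 - z)) < v (z1 - z) := by
    rcases h2 with ⟨h, _⟩ | h
    · have h3 : v (f * ((sq (N + m)).1.1 - y)) = v (z1 - z) := by
        rw [map_mul, hm1, hf]
      rw [h, map_zero] at h3
      exact absurd h3 hκ.ne
    · rwa [map_mul, hm1, hf] at h
  obtain ⟨k, hk⟩ := Nat.exists_eq_add_of_lt hnm
  have hk' : N + m = (N + n) + (k + 1) := by omega
  have g3 := hC1 (N + n) (k + 1)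
  have g4 := hC2 (N + n) (k + 1)
  rw [← hk'] at g3 g4
  have g3' : v (f * ((sq (N + m)).1.1 - (sq (N + n)).1.1 - ((k + 1 : ℕ) : K) * (y1 - y))) <
      v (z1 - z) := by
    rw [map_mul, ← hf]
    exact mul_lt_mul_of_pos_left g3 (zero_lt_iff.2 hf0)
  have g5 : v (((k + 1 : ℕ) : K) * (f * (y1 - y) - (z1 - z))) < v (z1 - z) := by
    have e : ((k + 1 : ℕ) : K) * (f * (y1 - y) - (z1 - z)) =
        ((f * ((sq (N + m)).1.1 - y) - ((sq (N + m)).1.2 - z)) -
        (f * ((sq (N + n)).1.1 - y) - ((sq (N + n)).1.2 - z))) -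
        ((f * ((sq (N + m)).1.1 - (sq (N + n)).1.1 - ((k + 1 : ℕ) : K) * (y1 - y))) -
        ((sq (N + m)).1.2 - (sq (N + n)).1.2 - ((k + 1 : ℕ) : K) * (z1 - z))) := by ring
    rw [e]
    exact v_sub_lt (v_sub_lt g2 g1) (v_sub_lt g3' g4)
  have g6 : v (f * (y1 - y) - (z1 - z)) < v (z1 - z) := by
    rwa [map_mul, hV.nat _ (Nat.succ_ne_zero k), one_mul] at g5
  have g7 := hC1 0 (N + n)
  have g8 := hC2 0 (N + n)
  rw [zero_add, hs0] at g7 g8
  have g7' : v (f * ((sq (N + n)).1.1 - y2 - ((N + n : ℕ) : K) * (y1 - y))) < v (z1 - z) := by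
    rw [map_mul, ← hf]
    exact mul_lt_mul_of_pos_left g7 (zero_lt_iff.2 hf0)
  have g9 : v (f * (y2 - y) - (z2 - z)) < v (z1 - z) := by
    have e : f * (y2 - y) - (z2 - z) =
        (f * ((sq (N + n)).1.1 - y) - ((sq (N + n)).1.2 - z)) -
        ((f * ((sq (N + n)).1.1 - y2 - ((N + n : ℕ) : K) * (y1 - y))) -
        ((sq (N + n)).1.2 - z2 - ((N + n : ℕ) : K) * (z1 - z))) -
        ((N + n : ℕ) : K) * (f * (y1 - y) - (z1 - z)) := by ring
    rw [e]
    refine v_sub_lt (v_sub_lt g1 (v_sub_lt g7' g8)) ?_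
    rw [map_mul]
    exact (mul_le_of_le_one_left' (hV.nat_le _)).trans_lt g6
  have hy1' : y1 - y ≠ 0 := sub_ne_zero.2 hne
  have hy2' : y2 - y ≠ 0 := sub_ne_zero.2 hy2
  right
  have e : (z1 - z) / (y1 - y) - (z2 - z) / (y2 - y) =
      (f * (y2 - y) - (z2 - z)) / (y2 - y) - (f * (y1 - y) - (z1 - z)) / (y1 - y) := by
    field_simp
    ring
  rw [e]
  refine v_sub_lt ?_ ?_
  · rw [map_div₀, map_div₀, he]
    exact div_lt_div_of_pos_right g9 hα
  · rw [map_div₀, map_div₀]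
    exact div_lt_div_of_pos_right g6 hα

/-- finitely many slopes -/
theorem fin_slopes {ι : Type} [Finite ι] {a : ι → K} {y z : K} (hy : y ∉ acl L a)
    (hz : z ∈ acl L (oc y a)) (hnl : NL L a y z) :
    {g : Γ | ∃ y1 z1, EP L v a y z y1 z1 ∧ y1 ≠ y ∧ v (z1 - z) = g * v (y1 - y)}.Finite := by
  by_contra hinf
  have hinf : {g : Γ | ∃ y1 z1, EP L v a y z y1 z1 ∧ y1 ≠ y ∧
    v (z1 - z) = g * v (y1 - y)}.Infinite := hinf
  let s := hinf.natEmbedding
  have h1 : ∀ n : ℕ, ∃ y1 z1, EP L v a y z y1 z1 ∧ y1 ≠ y ∧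
    v (z1 - z) = (s n : Γ) * v (y1 - y) := fun n => (s n).2
  choose ys zs hE hne hs using h1
  obtain ⟨n, m, hnm, f, h2, h3⟩ := no_inf hK hV h0 hnt hy hz hnl ys zs hne hE
  have h4 : ∀ n, v (ys n - y) ≠ 0 := fun n =>
    (Valuation.ne_zero_iff v).2 (sub_ne_zero.2 (hne n))
  have h5 := h2.v_eq
  have h6 := h3.v_eq
  rw [map_mul, hs] at h5 h6
  have h7 : (s n : Γ) = v f := mul_right_cancel₀ (h4 n) h5
  have h8 : (s m : Γ) = v f := mul_right_cancel₀ (h4 m) h6
  have h9 : s n = s m := Subtype.ext (h7.trans h8.symm)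
  exact hnm.ne (s.injective h9)

end

end Pool.Agent.H662.Z
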