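import Pool.Agent.H662.Z1

/-!
# Constant slopes imply 1-h-minimality at the level of types; the graph of an algebraic function
-/

set_option autoImplicit false
set_option linter.unusedSectionVars false

namespace Pool.Agent.H662.Z

open FirstOrder Language Structure Set Pool.Agent.R611.HM

universe u w

variable {L : FirstOrder.Language.{u, u}} {K : Type u} [L.Structure K] [Field K]
variable {Γ : Type w} [LinearOrderedCommGroupWithZero Γ] {v : Valuation K Γ}

/-- All algebraic functions have constant (absolute value of the) slope. -/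
def CS (L : FirstOrder.Language.{u, u}) {K : Type u} [L.Structure K] [Field K]
    {Γ : Type w} [LinearOrderedCommGroupWithZero Γ] (v : Valuation K Γ) : Prop :=
  ∀ (ι : Type) [Finite ι] (a : ι → K) (y z y1 z1 y2 z2 : K), y ∉ acl L a →
    z ∈ acl L (oc y a) → NL L a y z → EP L v a y z y1 z1 → EP L v a y z y2 z2 →
    v (z1 - z) * v (y2 - y) = v (z2 - z) * v (y1 - y)

section

variable (hK : Satur L K) (hV : VF L v) (h0 : H0R L v) (hnt : ∃ t : K, t ≠ 0 ∧ v t < 1)

include hK hV h0

/-- images of linear expressions -/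
theorem EP.lin {ι : Type} [Finite ι] {a : ι → K} {y z y1 z1 e g : K}
    (hE : EP L v a y z y1 z1) (he : e ∈ acl L a) (hg : g ∈ acl L a) (hz : z = g + e * y) :
    z1 = g + e * y1 := by
  obtain ⟨e', h1⟩ := RE.ext hK hV h0 hE e
  obtain ⟨g', h2⟩ := RE.ext hK hV h0 h1 g
  have h3 : e = e' := RE.uniq (b := a) hK hV (h1.sub
    (fun o => o.elim none (fun i => some (some (some i))))
    (by rintro (_ | i) <;> rfl) (by rintro (_ | i) <;> rfl)) he
  have h4 : g = g' := RE.uniq (b := a) hK hV (h2.sub
    (fun o => o.elim none (fun i => some (some (some (some i)))))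
    (by rintro (_ | i) <;> rfl) (by rintro (_ | i) <;> rfl)) hg
  subst h3 h4
  have hD : Df L (fun w : Option (Option (Option (Option ι))) → K =>
      w (some (some none)) - w (some none) * w (some (some (some none))) = w none) :=
    Df.eq (hV.fsub (dvar _) (hV.fmul (dvar _) (dvar _))) (dvar _)
  have h5 := h2.df hD (by change z - e * y = g; rw [hz]; ring)
  change z1 - e * y1 = g at h5
  rw [← h5]; ring

include hnt

theorem TH1_of_CS (hC : CS L v) : TH L v 1 := by
  intro ι _ a Z hZ x l y y' hl hl1 hn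
  have hn1 : nr1 L v a y y' := nr.to1 hn hl1
  suffices h : ∃ x', RE L v (oc (x 0) (oc y a)) (oc x' (oc y' a)) ∧ RVl v l (x 0) x' by
    obtain ⟨x', h1, h2⟩ := h
    obtain ⟨S, hS, hm⟩ := h1.exists_mv hK hV hZ
    refine ⟨S, ⟨hS.el, hS.fin, fun i => hm (some (some i)), hS.rig⟩, hm (some none), fun j => ?_⟩
    have : j = 0 := Subsingleton.elim _ _
    subst this
    exact ⟨x', hm none, h2⟩
  set x0 := x 0 with hx0
  by_cases hA : nr1 L v (oc x0 a) y y'
  · refine ⟨x0, (h0 _ _ y y' hA).sub (fun o => o.elim (some none)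
      (fun o' => o'.elim none (fun i => some (some i)))) (by rintro (_ | _ | i) <;> rfl)
      (by rintro (_ | _ | i) <;> rfl), RVl.refl hl _⟩
  · unfold nr1 at hA
    push Not at hA
    obtain ⟨c, hc, hcy⟩ := hA
    have hnc : nr1 L v a y c := hn1.of_le (by rw [v_sub_comm]; exact hcy)
    have hca : c ∉ acl L a := hnc.notMem'
    have hxc : x0 ∈ acl L (oc c a) := exch0 hK hV h0 hnt hca hc
    obtain ⟨c', h1⟩ := (h0 _ _ y y' hn1).ext hK hV h0 c
    obtain ⟨x', h2⟩ := h1.ext hK hV h0 x0
    have hRE : RE L v (oc x0 (oc y a)) (oc x' (oc y' a)) := h2.sub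
      (fun o => o.elim none (fun o' => some (some o'))) (by rintro (_ | i) <;> rfl)
      (by rintro (_ | i) <;> rfl)
    have hE : EP L v a c x0 c' x' := h2.sub
      (fun o => o.elim none (fun o' => o'.elim (some none) (fun i => some (some (some i)))))
      (by rintro (_ | _ | i) <;> rfl) (by rintro (_ | _ | i) <;> rfl)
    refine ⟨x', hRE, ?_⟩
    have hcc : v (c' - c) ≤ v (y' - y) := by
      have h3 : RVeq v (c - y) (c' - y') := h1.rvsub hV none (some none)
      have h4 : v (c - y - (c' - y')) ≤ v (y' - y) := by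
        rcases h3 with ⟨h3, h4⟩ | h3
        · rw [h3, h4, sub_self, map_zero]
          exact zero_le
        · exact h3.le.trans (by rw [v_sub_comm]; exact hcy)
      have e : c' - c = (y' - y) - (c - y - (c' - y')) := by ring
      rw [e]
      exact v_sub_le le_rfl h4
    by_cases hcc0 : c' = c
    · subst hcc0
      have : x0 = x' := RE.uniq hK hV (b := oc c' a) hE hxc
      rw [← this]
      exact RVl.refl hl _
    by_cases hxa : x0 ∈ acl L a
    · have : x0 = x' := RE.uniq hK hV hE.snd hxa
      rw [← this]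
      exact RVl.refl hl _
    by_cases hlin : ∃ e ∈ acl L a, ∃ g ∈ acl L a, x0 = g + e * c
    · obtain ⟨e, he, g, hg, hxe⟩ := hlin
      have hx' := EP.lin hK hV h0 hE he hg hxe
      have he0 : e ≠ 0 := by
        rintro rfl
        rw [zero_mul, add_zero] at hxe
        exact hxa (hxe ▸ hg)
      have hg' : (0 - g) / e ∈ acl L a :=
        div_mem_acl hV (sub_mem_acl hV (zero_mem_acl hV a) hg) he he0
      have h5 := hn _ hg'
      have h6 := hnc.dist hg'
      right
      have e1 : x0 - x' = -(e * (c' - c)) := by rw [hx', hxe]; ring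
      have e2 : x0 = e * (c - (0 - g) / e) := by
        rw [hxe]; field_simp; ring
      rw [e1, Valuation.map_neg, map_mul]
      conv_rhs => rw [e2, map_mul, h6]
      have he1 : 0 < v e := (Valuation.pos_iff v).2 he0
      calc v e * v (c' - c) ≤ v e * v (y' - y) := mul_le_mul_right hcc _
        _ < v e * (v l * v (y - (0 - g) / e)) := mul_lt_mul_of_pos_left h5 he1
        _ = v l * (v e * v (y - (0 - g) / e)) := by rw [mul_left_comm]
    have hnl : NL L a c x0 := hlin
    have hlv : v l ≠ 0 := (Valuation.ne_zero_iff v).2 hl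
    set s := (y' - y) / l with hs
    have hsl : y' - y = s * l := by rw [hs, div_mul_cancel₀ _ hl]
    have hns : nr1 L v a c (c + s) := by
      intro b hb
      rw [hnc.dist hb, add_sub_cancel_left, hs, map_div₀, div_lt_iff₀ (zero_lt_iff.2 hlv), mul_comm]
      exact hn b hb
    obtain ⟨x2, h3⟩ := (h0 _ _ c (c + s) hns).ext hK hV h0 x0
    have hE2 : EP L v a c x0 (c + s) x2 := h3
    have h4 := hC ι a c x0 c' x' (c + s) x2 hca hxc hnl hE hE2
    rw [add_sub_cancel_left] at h4
    have hs0 : v s ≠ 0 := by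
      intro h
      rw [hsl, map_mul, h, zero_mul] at hcc
      exact hcc0 (sub_eq_zero.1 ((Valuation.zero_iff v).1 (le_zero_iff.1 hcc)))
    have h5 : v (x2 - x0) < v x0 := by
      have := RE.nr hK hV h0 hE2.snd hxa 0 (zero_mem_acl hV a)
      rwa [sub_zero] at this
    right
    have h6 : v (x' - x0) * v s ≤ v l * v (x2 - x0) * v s := by
      rw [h4]
      calc v (x2 - x0) * v (c' - c) ≤ v (x2 - x0) * v (y' - y) := mul_le_mul_right hcc _
        _ = v l * v (x2 - x0) * v s := by rw [hsl, map_mul]; ac_rfl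
    have h7 : v (x' - x0) ≤ v l * v (x2 - x0) := le_of_mul_le_mul_right h6 (zero_lt_iff.2 hs0)
    rw [v_sub_comm]
    exact h7.trans_lt (mul_lt_mul_of_pos_left h5 (zero_lt_iff.2 hlv))

omit hnt in
/-- a definable predicate which gives the images of `z` -/
theorem exists_graph {ι : Type} [Finite ι] {a : ι → K} {y z : K} (hz : z ∈ acl L (oc y a)) :
    ∃ G : K → K → (Option (Option ι) → K) → Prop,
      (∀ {β : Type} [Finite β] (Y Z : β) (A : Option (Option ι) → β),
        Df L (fun w : β → K => G (w Y) (w Z) (fun i => w (A i)))) ∧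
      ∀ y1 z1, EP L v a y z y1 z1 → ∀ z', G y1 z' (oc z (oc y a)) ↔ z' = z1 := by
  obtain ⟨P, hP, hPf, hPz⟩ := acl_orbit hz
  let k : ℕ := hPf.toFinset.card
  have hP' : ∀ {β : Type} [Finite β] (E X : β) (A : ι → β),
      Df L (fun w : β → K => P (oc (w E) (fun i => w (A i))) (w X)) := fun E X A => df_oc hP E X A
  refine ⟨fun y' z' p => P (oc y' (fun i => p (some (some i)))) z' ∧
    MP v P k (fun o => p (some o)) (oc y' (fun i => p (some (some i)))) (p none) z',
    fun {β} _ Y Z A => ?_, fun y1 z1 hE z' => ?_⟩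
  · refine (hP' Y Z (fun i => A (some (some i)))).and ?_
    refine (MP_df hV hP k (fun o => A (some o))
      (fun o => o.elim Y (fun i => A (some (some i)))) (A none) Z).congr fun w => ?_
    apply iff_of_eq
    congr 1
    funext o
    rcases o with _ | i <;> rfl
  · have hMP : ∀ y' z', EP L v a y z y' z' → MP v P k (oc y a) (oc y' a) z z' := by
      intro y' z' h
      obtain ⟨S, hS, hSm⟩ := RE.exists_mv hK hV h
        (Z := dif ({x | P (oc y a) x} ∪ {z}))
        (dif_finite (hPf.union (Set.finite_singleton z)))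
      refine MP_of_mv hV hP hPf hS (fun i => hSm (some i)) ?_ (hSm none) ?_
      · rintro x (hx | ⟨⟨p, q⟩, ⟨hp, hq⟩, rfl⟩)
        · exact mem_dif (Or.inl hx)
        · exact sub_mem_dif (Or.inl hp) (Or.inl hq)
      · intro c hc
        exact sub_mem_dif (Or.inr rfl) (Or.inl hc)
    have h8 : P (oc y1 a) z1 := RE.df (P := fun w : Option (Option ι) → K =>
      P (fun i => w (some i)) (w none)) hE hP hPz
    have h9 := hMP _ _ hE
    change (P (oc y1 a) z' ∧ MP v P k (oc y a) (oc y1 a) z z') ↔ z' = z1
    constructor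
    · rintro ⟨_, h10⟩
      have h11 := MP_rv hK hV hP hPf hE.base h10 h9 h8
      rcases h11 with ⟨h11, _⟩ | h11
      · exact sub_eq_zero.1 h11
      · rw [sub_self, sub_zero] at h11
        exact absurd h11 (lt_irrefl _)
    · rintro rfl
      exact ⟨h8, h9⟩

end

end Pool.Agent.H662.Z
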