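import Pool.Agent.H662.Z2

/-!
# Comparison of slopes at different base points; far points; adjacent scales
-/

set_option autoImplicit false
set_option linter.unusedSectionVars false

namespace Pool.Agent.H662.Z

open FirstOrder Language Structure Set Pool.Agent.R611.HM

universe u w

variable {L : FirstOrder.Language.{u, u}} {K : Type u} [L.Structure K] [Field K]
variable {Γ : Type w} [LinearOrderedCommGroupWithZero Γ] {v : Valuation K Γ}

theorem RVeq.div {x x' y y' : K} (h : RVeq v x x') (h' : RVeq v y y') (hy : y ≠ 0) :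
    RVeq v (x / y) (x' / y') := by
  have hvy : 0 < v y := (Valuation.pos_iff v).2 hy
  have ey := h'.v_eq
  have hy' : y' ≠ 0 := by
    rintro rfl
    rw [map_zero] at ey
    exact hvy.ne ey
  rcases h' with ⟨h1, _⟩ | h'
  · exact absurd h1 hy
  have ex := h.v_eq
  rcases h with ⟨rfl, rfl⟩ | h
  · left; simp
  · right
    have e : x / y - x' / y' = (x - x') / y - x' * (y - y') / (y * y') := by
      field_simp
      ring
    have hx : 0 < v x := zero_le.trans_lt h
    rw [e]
    refine v_sub_lt ?_ ?_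
    · rw [map_div₀, map_div₀]
      exact div_lt_div_of_pos_right h hvy
    · rw [map_div₀, map_div₀, map_mul, map_mul, ex, ey]
      rw [div_lt_div_iff₀ (mul_pos hvy hvy) hvy]
      calc v x * v (y - y') * v y < v x * v y * v y :=
            mul_lt_mul_of_pos_right (mul_lt_mul_of_pos_left h' hx) hvy
        _ = v x * (v y * v y) := mul_assoc _ _ _

/-- a small difference of slopes -/
theorem RVeq.slope {q h k : K} (hh : h ≠ 0) (hq : q ≠ 0) (H : RVeq v q (k / h)) :
    v (k - q * h) < v (q * h) := by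
  rcases H with ⟨h1, _⟩ | H
  · exact absurd h1 hq
  · have e : k - q * h = -((q - k / h) * h) := by field_simp; ring
    rw [e, Valuation.map_neg, map_mul, map_mul]
    exact mul_lt_mul_of_pos_right H ((Valuation.pos_iff v).2 hh)

theorem slope_RVeq {q h k : K} (hh : h ≠ 0) (H : v (k - q * h) < v (q * h)) :
    RVeq v q (k / h) := by
  right
  have e : q - k / h = -((k - q * h) / h) := by field_simp; ring
  have hvh : 0 < v h := (Valuation.pos_iff v).2 hh
  rw [e, Valuation.map_neg, map_div₀, div_lt_iff₀ hvh]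
  rwa [map_mul] at H

section

variable (hK : Satur L K) (hV : VF L v)

include hK hV

/-- points at distance at least `v t` from all algebraic points -/
theorem far {ι : Type} [Finite ι] (b : ι → K) (y t : K) :
    ∃ y', v (y' - y) ≤ v t ∧ ∀ c ∈ acl L b, v t ≤ v (y' - c) := by
  classical
  by_cases ht : t = 0
  · exact ⟨y, by simp, fun c _ => by rw [ht, map_zero]; exact zero_le⟩
  obtain ⟨u', h1, h2⟩ := sat_acl' (L := L) hK (α := Unit) (β := Bool)
    (fun b => if b then t else y) b
    (fun u' p' => v (u' () - p' false) ≤ v (p' true))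
    (hV.vle (hV.fsub (dvar _) (dvar _)) (dvar _))
    (fun c u' p' => v (p' true) ≤ v (u' () - c))
    (hV.vle (dvar _) (hV.fsub (dvar _) (dvar _)))
    (by
      intro C' hC' _
      simp only [if_true, Bool.false_eq_true, if_false]
      by_contra hcon
      push Not at hcon
      have h3 : ∀ n : ℕ, ∃ c ∈ C', v (y + n * t - c) < v t := by
        intro n
        refine hcon (fun _ => y + n * t) ?_
        rw [add_sub_cancel_left, map_mul]
        exact mul_le_of_le_one_left' (hV.nat_le n)
      choose c hcC hc using h3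
      have : Finite C' := hC'
      obtain ⟨n, m, hnm, he⟩ := Finite.exists_ne_map_eq_of_infinite
        (fun n : ℕ => (⟨c n, hcC n⟩ : C'))
      have he' : c n = c m := congrArg Subtype.val he
      have key : ∀ n m : ℕ, n < m → c n = c m → False := by
        intro n m hlt he'
        have h4 := v_sub_lt (hc m) (hc n)
        have e : y + m * t - c m - (y + n * t - c n) = ((m - n : ℕ) : K) * t := by
          rw [he', Nat.cast_sub hlt.le]; ring
        rw [e, map_mul, hV.nat (m - n) (by omega), one_mul] at h4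
        exact lt_irrefl _ h4
      rcases lt_or_gt_of_ne hnm with h | h
      · exact key n m h he'
      · exact key m n h he'.symm)
  simp only [if_true, Bool.false_eq_true, if_false] at h1 h2
  exact ⟨u' (), h1, h2⟩

variable (h0 : H0R L v)

include h0

/-- subtracting a linear function -/
theorem lin_pair {ι : Type} [Finite ι] {a : ι → K} {q y z y' : K} (h : nr1 L v (oc q a) y y') :
    ∃ z', EP L v a y z y' z' ∧ EP L v (oc q a) y (z - q * y) y' (z' - q * y') := by
  obtain ⟨z', h1⟩ := (h0 _ _ y y' h).ext hK hV h0 z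
  have hff : DfF L (fun w : Option (Option (Option ι)) → K =>
      w none - w (some (some none)) * w (some none)) :=
    hV.fsub (dvar _) (hV.fmul (dvar _) (dvar _))
  have h2 := h1.addfn hff
  refine ⟨z', h1.sub (fun o => o.elim none (fun o' => o'.elim (some none)
    (fun i => some (some (some i))))) (by rintro (_ | _ | i) <;> rfl)
    (by rintro (_ | _ | i) <;> rfl), ?_⟩
  exact h2.sub (fun o => o.elim none (fun o' => o'.elim (some (some none))
    (fun o'' => some (some (some o''))))) (by rintro (_ | _ | i) <;> rfl)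
    (by rintro (_ | _ | i) <;> rfl)

/-- transport of nonlinearity -/
theorem EP.nl {ι : Type} [Finite ι] {a : ι → K} {y z y1 z1 : K}
    (hE : EP L v a y z y1 z1) (hnl : NL L a y z) : NL L a y1 z1 := by
  rintro ⟨e, he, g, hg, h⟩
  exact hnl ⟨e, he, g, hg, EP.lin hK hV h0 (EP.symm hV hE) he hg h⟩

variable (hnt : ∃ t : K, t ≠ 0 ∧ v t < 1)

include hnt

/-- slopes at the same scale agree at different base points -/
theorem slope_transfer {ι : Type} [Finite ι] {a : ι → K} {y z : K} (hy : y ∉ acl L a)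
    (hz : z ∈ acl L (oc y a)) (hnl : NL L a y z) {y1 z1 ys zs y' z' : K}
    (h1 : EP L v a y z y1 z1) (hne : y1 ≠ y) (hs : EP L v a y z ys zs)
    (h' : EP L v a ys zs y' z') (he : v (y' - ys) = v (y1 - y)) :
    RVeq v ((z1 - z) / (y1 - y)) ((z' - zs) / (y' - ys)) := by
  obtain ⟨y3, z3, h3, h4, h5⟩ := EP.copy hK hV h0 h1 hs
  have h6 : EP L v a ys zs y3 z3 := (EP.symm hV hs).trans h3
  have hys : ys ∉ acl L a := fun h =>
    (RE.nr hK hV h0 hs.base hy).notMem' h
  have hzs : zs ∈ acl L (oc ys a) := RE.alg hs hz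
  have hnls : NL L a ys zs := EP.nl hK hV h0 hs hnl
  have hne3 : y3 ≠ ys := by
    rintro rfl
    have := h4.v_eq
    rw [sub_self, map_zero] at this
    exact hne (sub_eq_zero.1 ((Valuation.zero_iff v).1 this.symm))
  have h7 := same_scale hK hV h0 hnt hys hzs hnls h6 h' hne3 (he.trans h4.v_eq.symm)
  exact (RVeq.div h5 h4 (sub_ne_zero.2 hne)).trans h7

/-- adjacent scales -/
theorem adjacent {ι : Type} [Finite ι] {a : ι → K} {y z : K} (hy : y ∉ acl L a)
    (hz : z ∈ acl L (oc y a)) (hnl : NL L a y z) {g : K}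
    (hadj : ∀ t : K, v t < v g → v t ≤ 1) {y1 z1 y2 z2 : K}
    (h1 : EP L v a y z y1 z1) (h2 : EP L v a y z y2 z2) (hne : y2 ≠ y) (hg : 1 < v g)
    (he : v (y1 - y) = v g * v (y2 - y)) :
    RVeq v ((z1 - z) / (y1 - y)) ((z2 - z) / (y2 - y)) := by
  have hza := hnl.notMem hV
  have hg0 : v g ≠ 0 := (zero_lt_one.trans hg).ne'
  have hα : 0 < v (y2 - y) := (Valuation.pos_iff v).2 (sub_ne_zero.2 hne)
  have hγ : 0 < v (y1 - y) := by rw [he]; exact mul_pos (zero_lt_iff.2 hg0) hα
  have hne1 : y1 ≠ y := by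
    rintro rfl
    rw [sub_self, map_zero] at hγ
    exact lt_irrefl _ hγ
  have hz1 : z1 ≠ z := EP.snd_ne hK hV h0 hnt hz hza h1 hne1
  have hz2 : z2 ≠ z := EP.snd_ne hK hV h0 hnt hz hza h2 hne
  have hαγ : v (y2 - y) < v (y1 - y) := by
    rw [he]
    exact lt_mul_of_one_lt_left hα hg
  have hκ : v (z2 - z) < v (z1 - z) := by
    by_contra h
    exact absurd ((mono_iff hK hV h0 hnt hy hz hnl h2 h1).2 (not_lt.1 h)) (not_le.2 hαγ)
  have hk1 : 0 < v (z1 - z) := (Valuation.pos_iff v).2 (sub_ne_zero.2 hz1)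
  have hk2 : 0 < v (z2 - z) := (Valuation.pos_iff v).2 (sub_ne_zero.2 hz2)
  -- strict inequalities give a factor `g`
  have hstep : ∀ x x' : K, x' ≠ 0 → v x < v x' → v g * v x ≤ v x' := by
    intro x x' hx' hlt
    have hvx' : 0 < v x' := (Valuation.pos_iff v).2 hx'
    have h3 : v (g * x / x') ≤ 1 := by
      refine hadj _ ?_
      rw [map_div₀, map_mul, div_lt_iff₀ hvx']
      exact mul_lt_mul_of_pos_left hlt (zero_lt_iff.2 hg0)
    rwa [map_div₀, map_mul, div_le_one₀ hvx'] at h3
  set q := (z1 - z) / (y1 - y) with hq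
  have hq0 : q ≠ 0 := div_ne_zero (sub_ne_zero.2 hz1) (sub_ne_zero.2 hne1)
  have hvq : v q * v (y1 - y) = v (z1 - z) := by
    rw [hq, ← map_mul, div_mul_cancel₀ _ (sub_ne_zero.2 hne1)]
  by_contra hcon
  -- the size of `z2 - z - q * (y2 - y)`
  have hA : v (z2 - z - q * (y2 - y)) = v q * v (y2 - y) := by
    refine le_antisymm ?_ ?_
    · refine v_sub_le ?_ (by rw [map_mul])
      have h3 := hstep _ _ (sub_ne_zero.2 hz1) hκ
      rw [← hvq, he, mul_left_comm] at h3
      exact le_of_mul_le_mul_left h3 (zero_lt_iff.2 hg0)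
    · by_contra h3
      rw [not_le] at h3
      exact hcon (slope_RVeq (sub_ne_zero.2 hne) (by rwa [map_mul]))
  -- base points
  obtain ⟨ys, hys1, hys2⟩ := far hK hV (oc q a) y (y1 - y)
  have hn1 : nr1 L v a y y1 := RE.nr hK hV h0 h1.base hy
  have hns : nr1 L v a y ys := hn1.of_le hys1
  obtain ⟨zs, hs⟩ := (h0 _ a y ys hns).ext hK hV h0 z
  have hs : EP L v a y z ys zs := hs
  have hysa : ys ∉ acl L a := hns.notMem'
  have hzsa : zs ∈ acl L (oc ys a) := RE.alg hs hz
  obtain ⟨yt, hyt1, hyt2⟩ := far hK hV (oc ys (oc q a)) y (y1 - y)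
  have hntt : nr1 L v a y yt := hn1.of_le hyt1
  obtain ⟨zt, ht⟩ := (h0 _ a y yt hntt).ext hK hV h0 z
  have ht : EP L v a y z yt zt := ht
  have hst : EP L v a ys zs yt zt := (EP.symm hV hs).trans ht
  have hdist : v (yt - ys) = v (y1 - y) := by
    refine le_antisymm ?_ (hyt2 ys (mem_acl_oc _ _))
    exact v_tri hyt1 (by rw [v_sub_comm]; exact hys1)
  have hb_le : acl L (oc q a) ⊆ acl L (oc ys (oc q a)) := acl_le_oc _ _
  -- the slope between the base points
  have hsl := slope_transfer hK hV h0 hnt hy hz hnl h1 hne1 hs hst hdist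
  have hyts : yt - ys ≠ 0 := by
    intro h
    rw [h, map_zero] at hdist
    exact hγ.ne hdist
  have hwst : v ((zt - q * yt) - (zs - q * ys)) ≤ v q * v (y2 - y) := by
    have h3 := RVeq.slope hyts hq0 hsl
    have e : zt - q * yt - (zs - q * ys) = zt - zs - q * (yt - ys) := by ring
    rw [e]
    have h4 := hstep _ _ (mul_ne_zero hq0 hyts) h3
    rw [map_mul, hdist, he, mul_left_comm] at h4
    exact le_of_mul_le_mul_left h4 (zero_lt_iff.2 hg0)
  -- a point at distance `v (y2 - y)` from `yt`
  have hyta : yt ∉ acl L (oc q a) := fun h => by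
    have := hyt2 yt (hb_le h)
    rw [sub_self, map_zero] at this
    exact absurd hγ (not_lt.2 this)
  set y' := yt + (y2 - y) with hy'
  have hy'd : y' - yt = y2 - y := by rw [hy']; ring
  have hn' : nr1 L v (oc q a) yt y' := fun c hc => by
    rw [hy'd]
    exact hαγ.trans_le (hyt2 c (hb_le hc))
  obtain ⟨z', h3, h4⟩ := lin_pair hK hV h0 (z := zt) hn'
  have hsl2 := slope_transfer hK hV h0 hnt hy hz hnl h2 hne ht h3 (by rw [hy'd])
  have hw' : v ((z' - q * y') - (zt - q * yt)) = v q * v (y2 - y) := by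
    have e : z' - q * y' - (zt - q * yt) = z' - zt - q * (y' - yt) := by ring
    rw [e]
    have h5 : y2 - y ≠ 0 := sub_ne_zero.2 hne
    rw [hy'd] at hsl2 ⊢
    refine le_antisymm (v_sub_le ?_ (by rw [map_mul])) ?_
    · have h6 := hsl2.v_eq
      rw [map_div₀, map_div₀, div_left_inj' hα.ne'] at h6
      rw [h6]
      have h7 := hstep _ _ (sub_ne_zero.2 hz1) hκ
      rw [← hvq, he, mul_left_comm] at h7
      exact le_of_mul_le_mul_left h7 (zero_lt_iff.2 hg0)
    · by_contra h6
      rw [not_le] at h6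
      exact hcon ((slope_RVeq h5 (by rwa [map_mul])).trans hsl2.symm)
  have hwne : z' - q * y' ≠ zt - q * yt := by
    intro h
    rw [h, sub_self, map_zero] at hw'
    rcases mul_eq_zero.1 hw'.symm with h | h
    · exact hq0 ((Valuation.zero_iff v).1 h)
    · exact hα.ne' h
  -- the algebraic point
  obtain ⟨y3, hy3, hy3d⟩ : ∃ y3 ∈ acl L (oc (zs - q * ys) (oc q a)),
      v (y3 - yt) ≤ v (y2 - y) := by
    by_cases hlin : ∃ e ∈ acl L (oc q a), ∃ g ∈ acl L (oc q a), zt - q * yt = g + e * yt
    · obtain ⟨e, he', d, hd, hlin⟩ := hlin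
      have h5 := EP.lin hK hV h0 h4 he' hd hlin
      have h6 : z' - q * y' - (zt - q * yt) = e * (y2 - y) := by
        rw [h5, hlin, ← hy'd]; ring
      have h7 : v e = v q := by
        rw [h6, map_mul] at hw'
        exact mul_right_cancel₀ hα.ne' hw'
      have he0 : e ≠ 0 := by
        rintro rfl
        rw [map_zero] at h7
        exact hq0 ((Valuation.zero_iff v).1 h7.symm)
      have hle : acl L (oc q a) ⊆ acl L (oc (zs - q * ys) (oc q a)) := acl_le_oc _ _
      refine ⟨(zs - q * ys - d) / e, div_mem_acl hV (sub_mem_acl hV (mem_acl_oc _ _) (hle hd))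
        (hle he') he0, ?_⟩
      have e1 : (zs - q * ys - d) / e - yt = -((zt - q * yt - (zs - q * ys)) / e) := by
        rw [hlin]; field_simp; ring
      rw [e1, Valuation.map_neg, map_div₀, h7, div_le_iff₀ ((Valuation.pos_iff v).2 hq0)]
      exact hwst.trans (mul_comm _ _).le
    · have hnl' : NL L (oc q a) yt (zt - q * yt) := hlin
      have hzt : zt ∈ acl L (oc yt a) := RE.alg ht hz
      have hbt : ∀ o, oc q a o ∈ acl L (oc yt (oc q a)) := fun o =>
        acl_le_oc _ _ (mem_acl_self _ o)
      have hwt : zt - q * yt ∈ acl L (oc yt (oc q a)) := by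
        have h5 : zt ∈ acl L (oc yt (oc q a)) :=
          acl_oc_le (fun i => hbt (some i)) (mem_acl_oc _ _) hzt
        refine sub_mem_acl hV h5 ?_
        have h6 := fn_mem_acl (a := oc yt (oc q a)) (hV.fmul (DfF.var true) (DfF.var false))
          (c := fun b => if b then q else yt) (by
            rintro (_ | _)
            · exact mem_acl_oc _ _
            · exact hbt none)
        simpa using h6
      have hwta := hnl'.notMem hV
      have h5 : nr1 L v (oc q a) (zt - q * yt) (z' - q * y') := RE.nr hK hV h0 h4.snd hwta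
      have h6 : nr1 L v (oc q a) (zt - q * yt) (zs - q * ys) :=
        h5.of_le (by rw [v_sub_comm, hw']; exact hwst)
      obtain ⟨y3, h7⟩ := (h0 _ _ _ _ h6).ext hK hV h0 yt
      have h7 : EP L v (oc q a) (zt - q * yt) yt (zs - q * ys) y3 := h7
      have h8 : yt ∈ acl L (oc (zt - q * yt) (oc q a)) := exch0 hK hV h0 hnt hwta hwt
      refine ⟨y3, RE.alg h7 h8, ?_⟩
      have h9 := (mono_iff hK hV h0 hnt hyta hwt hnl' h4 (EP.swap h7)).2
        (by rw [v_sub_comm, hw']; exact hwst)
      rwa [hy'd] at h9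
  have hy3' : y3 ∈ acl L (oc ys (oc q a)) := by
    refine acl_oc_le (fun o => acl_le_oc _ _ (mem_acl_self _ o)) ?_ hy3
    have hbt : ∀ o, oc q a o ∈ acl L (oc ys (oc q a)) := fun o =>
      acl_le_oc _ _ (mem_acl_self _ o)
    have h5 : zs ∈ acl L (oc ys (oc q a)) :=
      acl_oc_le (fun i => hbt (some i)) (mem_acl_oc _ _) hzsa
    refine sub_mem_acl hV h5 ?_
    have h6 := fn_mem_acl (a := oc ys (oc q a)) (hV.fmul (DfF.var true) (DfF.var false))
      (c := fun b => if b then q else ys) (by
        rintro (_ | _)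
        · exact mem_acl_oc _ _
        · exact hbt none)
    simpa using h6
  have h5 : v (y1 - y) ≤ v (y3 - yt) := (hyt2 y3 hy3').trans_eq (v_sub_comm _ _)
  exact absurd (h5.trans hy3d) (not_le.2 hαγ)

end

end Pool.Agent.H662.Z
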