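import Pool.Agent.H662.Z3

/-!
# A change of the slope defines a coarsening
-/

set_option autoImplicit false
set_option linter.unusedSectionVars false

namespace Pool.Agent.H662.Z

open FirstOrder Language Structure Set Pool.Agent.R611.HM

universe u w

variable {L : FirstOrder.Language.{u, u}} {K : Type u} [L.Structure K] [Field K]
variable {Γ : Type w} [LinearOrderedCommGroupWithZero Γ] {v : Valuation K Γ}

/-- A definable fractional ideal, containing `l * b` but not `b` for some `b`, stable under the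
multiplication by some `g` with `v g > 1`. -/
def CW (L : FirstOrder.Language.{u, u}) {K : Type u} [L.Structure K] [Field K]
    {Γ : Type w} [LinearOrderedCommGroupWithZero Γ] (v : Valuation K Γ) (l : K) : Prop :=
  ∃ (β : Type) (_ : Finite β) (Q : K → (β → K) → Prop) (p : β → K),
    Df L (fun w : Option β → K => Q (w none) (fun i => w (some i))) ∧
    (∀ s t, Q s p → v t ≤ v s → Q t p) ∧ (∃ b, Q (l * b) p ∧ ¬ Q b p) ∧
    ∃ g, 1 < v g ∧ ∀ s, Q s p → Q (g * s) p

/-- the slope `q` is wrong at some scale between `v s` and `v d` -/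
def Bad (L : FirstOrder.Language.{u, u}) {K : Type u} [L.Structure K] [Field K]
    {Γ : Type w} [LinearOrderedCommGroupWithZero Γ] (v : Valuation K Γ) {ι : Type} (a : ι → K)
    (y z q d s : K) : Prop :=
  ∃ y' z', EP L v a y z y' z' ∧ v s ≤ v (y' - y) ∧ v (y' - y) ≤ v d ∧
    v (q * (y' - y)) ≤ v (z' - z - q * (y' - y))

section

variable (hK : Satur L K) (hV : VF L v) (h0 : H0R L v)

include hK hV h0

theorem CW_of_bad {ι : Type} [Finite ι] {a : ι → K} {y z : K} (hz : z ∈ acl L (oc y a)) {q d : K}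
    (hd : ∀ y', v (y' - y) ≤ v d → nr1 L v a y y') {b b' g l : K} (hl : v b = v l * v b')
    (hb : Bad L v a y z q d b) (hb' : ¬ Bad L v a y z q d b') (hg : 1 < v g)
    (hgs : ∀ s, s ≠ 0 → Bad L v a y z q d s → Bad L v a y z q d (g * s)) : CW L v l := by
  obtain ⟨G, hG, hGE⟩ := exists_graph hK hV h0 hz
  let Q : K → (Bool ⊕ Option (Option ι) → K) → Prop := fun s p => ∃ y' z',
    G y' z' (fun i => p (Sum.inr i)) ∧ v s ≤ v (y' - p (Sum.inr (some none))) ∧
      v (y' - p (Sum.inr (some none))) ≤ v (p (Sum.inl false)) ∧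
      v (p (Sum.inl true) * (y' - p (Sum.inr (some none)))) ≤
        v (z' - p (Sum.inr none) - p (Sum.inl true) * (y' - p (Sum.inr (some none))))
  let p : Bool ⊕ Option (Option ι) → K := Sum.elim (fun b => if b then q else d) (oc z (oc y a))
  have hQ : Df L (fun w : Option (Bool ⊕ Option (Option ι)) → K =>
      Q (w none) (fun i => w (some i))) := by
    refine Df.ex1 (Q := fun y' (w : Option (Bool ⊕ Option (Option ι)) → K) => ∃ z',
      G y' z' (fun i => w (some (Sum.inr i))) ∧ v (w none) ≤ v (y' - w (some (Sum.inr (some none)))) ∧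
      v (y' - w (some (Sum.inr (some none)))) ≤ v (w (some (Sum.inl false))) ∧
      v (w (some (Sum.inl true)) * (y' - w (some (Sum.inr (some none))))) ≤
        v (z' - w (some (Sum.inr none)) - w (some (Sum.inl true)) *
          (y' - w (some (Sum.inr (some none)))))) ?_
    refine Df.ex1 (Q := fun z' (w : Option (Option (Bool ⊕ Option (Option ι))) → K) =>
      G (w none) z' (fun i => w (some (some (Sum.inr i)))) ∧
      v (w (some none)) ≤ v (w none - w (some (some (Sum.inr (some none))))) ∧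
      v (w none - w (some (some (Sum.inr (some none))))) ≤ v (w (some (some (Sum.inl false)))) ∧
      v (w (some (some (Sum.inl true))) * (w none - w (some (some (Sum.inr (some none)))))) ≤
        v (z' - w (some (some (Sum.inr none))) - w (some (some (Sum.inl true))) *
          (w none - w (some (some (Sum.inr (some none))))))) ?_
    refine Df.and (hG (some none) none (fun i => some (some (some (Sum.inr i))))) ?_
    refine Df.and (hV.vle (dvar _) (hV.fsub (dvar _) (dvar _))) ?_
    refine Df.and (hV.vle (hV.fsub (dvar _) (dvar _)) (dvar _)) ?_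
    exact hV.vle (hV.fmul (dvar _) (hV.fsub (dvar _) (dvar _)))
      (hV.fsub (hV.fsub (dvar _) (dvar _)) (hV.fmul (dvar _) (hV.fsub (dvar _) (dvar _))))
  have key : ∀ s, Q s p ↔ Bad L v a y z q d s := by
    intro s
    constructor
    · rintro ⟨y', z', h1, h2, h3, h4⟩
      have h3 : v (y' - y) ≤ v d := h3
      obtain ⟨z1, h5⟩ := (h0 _ a y y' (hd y' h3)).ext hK hV h0 z
      have h6 : z' = z1 := (hGE y' z1 h5 z').1 h1
      subst h6
      exact ⟨y', z', h5, h2, h3, h4⟩
    · rintro ⟨y', z', h1, h2, h3, h4⟩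
      exact ⟨y', z', (hGE y' z' h1 z').2 rfl, h2, h3, h4⟩
  have hdown : ∀ s t, Q s p → v t ≤ v s → Q t p := by
    intro s t hs hts
    rw [key] at hs ⊢
    obtain ⟨y', z', h1, h2, h3, h4⟩ := hs
    exact ⟨y', z', h1, hts.trans h2, h3, h4⟩
  refine ⟨_, inferInstance, Q, p, hQ, hdown, ⟨b', hdown b _ ((key b).2 hb) ?_,
    fun h => hb' ((key b').1 h)⟩, g, hg, fun s hs => ?_⟩
  · rw [map_mul, hl]
  · by_cases hs0 : s = 0
    · subst hs0
      rwa [mul_zero]
    · rw [key] at hs ⊢
      exact hgs s hs0 hs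

variable (hnt : ∃ t : K, t ≠ 0 ∧ v t < 1)

include hnt

theorem disc_case {ι : Type} [Finite ι] {a : ι → K} {y z : K} (hy : y ∉ acl L a)
    (hz : z ∈ acl L (oc y a)) (hnl : NL L a y z) {g : K}
    (hadj : ∀ t : K, v t < v g → v t ≤ 1) (hg : 1 < v g) {y1 z1 y2 z2 : K}
    (h1 : EP L v a y z y1 z1) (h2 : EP L v a y z y2 z2) (hne : y2 ≠ y)
    (hlt : v (y2 - y) < v (y1 - y)) {l : K} (hl : v (y2 - y) = v l * v (y1 - y))
    (hs : ¬ RVeq v ((z1 - z) / (y1 - y)) ((z2 - z) / (y2 - y))) : CW L v l := by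
  have hg0 : v g ≠ 0 := (zero_lt_one.trans hg).ne'
  have hza := hnl.notMem hV
  have hγ : 0 < v (y1 - y) := zero_le.trans_lt hlt
  have hne1 : y1 ≠ y := by
    rintro rfl
    rw [sub_self, map_zero] at hγ
    exact lt_irrefl _ hγ
  have hz1 : z1 ≠ z := EP.snd_ne hK hV h0 hnt hz hza h1 hne1
  have hn1 : nr1 L v a y y1 := RE.nr hK hV h0 h1.base hy
  set q := (z1 - z) / (y1 - y) with hq
  have hq0 : q ≠ 0 := div_ne_zero (sub_ne_zero.2 hz1) (sub_ne_zero.2 hne1)
  have hgood : ∀ y' z', EP L v a y z y' z' → v (y' - y) = v (y1 - y) →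
      v (z' - z - q * (y' - y)) < v (q * (y' - y)) := by
    intro y' z' h he
    have h3 := same_scale hK hV h0 hnt hy hz hnl h1 h hne1 he
    refine RVeq.slope ?_ hq0 h3
    intro h4
    rw [h4, map_zero] at he
    exact hγ.ne he
  refine CW_of_bad hK hV h0 hz (q := q) (d := y1 - y) (b := y2 - y) (b' := y1 - y) (g := g)
    (fun y' h => hn1.of_le h) hl ?_ ?_ hg ?_
  · refine ⟨y2, z2, h2, le_rfl, hlt.le, ?_⟩
    by_contra h3
    exact hs (slope_RVeq (sub_ne_zero.2 hne) (not_le.1 h3))
  · rintro ⟨y', z', h3, h4, h5, h6⟩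
    exact absurd (hgood y' z' h3 (le_antisymm h5 h4)) (not_lt.2 h6)
  · rintro s hs0 ⟨y', z', h3, h4, h5, h6⟩
    by_contra hcon
    have hsv : 0 < v s := (Valuation.pos_iff v).2 hs0
    have hstep : ∀ x x' : K, x' ≠ 0 → v x < v x' → v g * v x ≤ v x' := by
      intro x x' hx' hlt
      have hvx' : 0 < v x' := (Valuation.pos_iff v).2 hx'
      have h3 : v (g * x / x') ≤ 1 := by
        refine hadj _ ?_
        rw [map_div₀, map_mul, div_lt_iff₀ hvx']
        exact mul_lt_mul_of_pos_left hlt (zero_lt_iff.2 hg0)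
      rwa [map_div₀, map_mul, div_le_one₀ hvx'] at h3
    have hy'0 : y' - y ≠ 0 := by
      intro h
      rw [h, map_zero] at h4
      exact absurd hsv (not_lt.2 h4)
    have h7 : v s = v (y' - y) := by
      refine le_antisymm h4 ?_
      by_contra h8
      refine hcon ⟨y', z', h3, ?_, h5, h6⟩
      rw [map_mul]
      exact hstep _ _ hy'0 (not_le.1 h8)
    have h8 : v (y' - y) < v (y1 - y) := by
      refine lt_of_le_of_ne h5 fun h => ?_
      exact absurd (hgood y' z' h3 h) (not_lt.2 h6)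
    have h9 := hstep _ _ (sub_ne_zero.2 hne1) h8
    have h10 : v (y + g * (y' - y) - y) = v g * v (y' - y) := by
      rw [add_sub_cancel_left, map_mul]
    obtain ⟨z'', h11⟩ := (h0 _ a y (y + g * (y' - y)) (hn1.of_le (h10.trans_le h9))).ext hK hV h0 z
    have h12 := adjacent hK hV h0 hnt hy hz hnl hadj h11 h3
      (sub_ne_zero.1 hy'0) hg h10
    have hy'' : y + g * (y' - y) - y ≠ 0 := by
      rw [add_sub_cancel_left]
      exact mul_ne_zero ((Valuation.ne_zero_iff v).1 hg0) hy'0
    have h13 : v (z'' - z - q * (y + g * (y' - y) - y)) < v (q * (y + g * (y' - y) - y)) := by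
      by_contra h14
      exact hcon ⟨_, z'', h11, by rw [h10, map_mul, h7], h10.trans_le h9, not_lt.1 h14⟩
    have h14 := (slope_RVeq hy'' h13).trans h12
    exact absurd (RVeq.slope hy'0 hq0 h14) (not_lt.2 h6)

omit hnt h0 in
theorem exists_room (hd : ∀ x y : K, v x < v y → ∃ t : K, v x < v t ∧ v t < v y)
    {ι : Type} [Finite ι] {a : ι → K} {y y1 : K} (hn : nr1 L v a y y1) :
    ∃ t, v (y1 - y) < v t ∧ ∀ c ∈ acl L a, v t < v (y - c) := by
  obtain ⟨u', h1, h2⟩ := sat_acl' (L := L) hK (α := Unit) (β := Bool)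
    (fun b => if b then y1 else y) a
    (fun u' p' => v (p' true - p' false) < v (u' ()))
    (hV.vlt (hV.fsub (dvar _) (dvar _)) (dvar _))
    (fun c u' p' => v (u' ()) < v (p' false - c))
    (hV.vlt (dvar _) (hV.fsub (dvar _) (dvar _)))
    (by
      intro C hC hCa
      obtain ⟨c0, hc0, hmin⟩ := exists_min_dist (v := v) (hC.insert 0) (Set.insert_nonempty _ _) y
      have hc0a : c0 ∈ acl L a := by
        rcases hc0 with h | h
        · rw [h]; exact zero_mem_acl hV a
        · exact hCa h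
      obtain ⟨t, h1, h2⟩ := hd _ _ (hn c0 hc0a)
      exact ⟨fun _ => t, by simpa using h1, fun c hc => h2.trans_le (by
        simpa using hmin c (Or.inr hc))⟩)
  exact ⟨u' (), by simpa using h1, by simpa using h2⟩

theorem dense_case (hd : ∀ x y : K, v x < v y → ∃ t : K, v x < v t ∧ v t < v y)
    {ι : Type} [Finite ι] {a : ι → K} {y z : K} (hy : y ∉ acl L a)
    (hz : z ∈ acl L (oc y a)) (hnl : NL L a y z) {y1 z1 y2 z2 : K}
    (h1 : EP L v a y z y1 z1) (h2 : EP L v a y z y2 z2) (hne : y2 ≠ y)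
    (hlt : v (y2 - y) < v (y1 - y)) {l : K} (hl : v (y2 - y) = v l * v (y1 - y))
    (hs : ¬ RVeq v ((z1 - z) / (y1 - y)) ((z2 - z) / (y2 - y))) : CW L v l := by
  have hza := hnl.notMem hV
  have hγ : 0 < v (y1 - y) := zero_le.trans_lt hlt
  have hne1 : y1 ≠ y := by
    rintro rfl
    rw [sub_self, map_zero] at hγ
    exact lt_irrefl _ hγ
  have hz1 : z1 ≠ z := EP.snd_ne hK hV h0 hnt hz hza h1 hne1
  have hn1 : nr1 L v a y y1 := RE.nr hK hV h0 h1.base hy
  set q := (z1 - z) / (y1 - y) with hq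
  have hq0 : q ≠ 0 := div_ne_zero (sub_ne_zero.2 hz1) (sub_ne_zero.2 hne1)
  -- room, and a base point far from the points algebraic over `q` and `a`
  obtain ⟨t, ht1, ht2⟩ := exists_room hK hV hd hn1
  obtain ⟨ys, hys1, hys2⟩ := far hK hV (oc q a) y t
  have hns : nr1 L v a y ys := fun c hc => hys1.trans_lt (ht2 c hc)
  obtain ⟨zs, hss⟩ := (h0 _ a y ys hns).ext hK hV h0 z
  have hss : EP L v a y z ys zs := hss
  have hysa : ys ∉ acl L a := hns.notMem'
  have hzsa : zs ∈ acl L (oc ys a) := RE.alg hss hz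
  have hysb : ys ∉ acl L (oc q a) := fun h => by
    have := hys2 ys h
    rw [sub_self, map_zero] at this
    exact absurd (zero_le.trans_lt ht1) (not_lt.2 this)
  have hnb : ∀ y', v (y' - ys) < v t → nr1 L v (oc q a) ys y' := fun y' h c hc =>
    h.trans_le (hys2 c hc)
  have hbt : ∀ o, oc q a o ∈ acl L (oc ys (oc q a)) := fun o =>
    acl_le_oc _ _ (mem_acl_self _ o)
  have hwb : zs - q * ys ∈ acl L (oc ys (oc q a)) := by
    have h5 : zs ∈ acl L (oc ys (oc q a)) :=
      acl_oc_le (fun i => hbt (some i)) (mem_acl_oc _ _) hzsa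
    refine sub_mem_acl hV h5 ?_
    have h6 := fn_mem_acl (a := oc ys (oc q a)) (hV.fmul (DfF.var true) (DfF.var false))
      (c := fun b => if b then q else ys) (by
        rintro (_ | _)
        · exact mem_acl_oc _ _
        · exact hbt none)
    simpa using h6
  -- images of nearby points
  have hpair : ∀ y', v (y' - ys) ≤ v (y1 - y) → ∃ z', EP L v a ys zs y' z' ∧
      EP L v (oc q a) ys (zs - q * ys) y' (z' - q * y') := fun y' h =>
    lin_pair hK hV h0 (hnb y' (h.trans_lt ht1))
  have huniq : ∀ y' z' z'', EP L v a ys zs y' z' → EP L v a ys zs y' z'' → z' = z'' := by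
    intro y' z' z'' h3 h4
    have h5 : RE L v (oc z' (oc y' a)) (oc z'' (oc y' a)) := RE.trans (EP.symm hV h3) h4
    exact RE.uniq hK hV h5 (RE.alg h3 hzsa)
  have hpair' : ∀ y' z', v (y' - ys) ≤ v (y1 - y) → EP L v a ys zs y' z' →
      EP L v (oc q a) ys (zs - q * ys) y' (z' - q * y') := by
    intro y' z' h h3
    obtain ⟨z'', h4, h5⟩ := hpair y' h
    rw [huniq y' z' z'' h3 h4]
    exact h5
  have hwe : ∀ y' z', z' - q * y' - (zs - q * ys) = z' - zs - q * (y' - ys) := fun y' z' => by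
    ring
  -- the slope at the scale of `y1 - y` is `q`
  have hgood : ∀ y' z', EP L v a ys zs y' z' → v (y' - ys) = v (y1 - y) →
      v (z' - zs - q * (y' - ys)) < v (q * (y' - ys)) := by
    intro y' z' h he
    have h3 := slope_transfer hK hV h0 hnt hy hz hnl h1 hne1 hss h he
    refine RVeq.slope ?_ hq0 h3
    intro h4
    rw [h4, map_zero] at he
    exact hγ.ne he
  -- the slope at the scale of `y2 - y` is not `q`
  obtain ⟨z4, h4a, h4b⟩ := hpair (ys + (y2 - y)) (by rw [add_sub_cancel_left]; exact hlt.le)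
  have h4c : v (q * (y2 - y)) ≤ v (z4 - zs - q * (y2 - y)) := by
    by_contra h3
    have h5 := slope_transfer hK hV h0 hnt hy hz hnl h2 hne hss h4a
      (by rw [add_sub_cancel_left])
    rw [add_sub_cancel_left] at h5
    exact hs ((slope_RVeq (sub_ne_zero.2 hne) (not_le.1 h3)).trans h5.symm)
  obtain ⟨z3, h3a, h3b⟩ := hpair (ys + (y1 - y)) (by rw [add_sub_cancel_left])
  have h3c : v (z3 - zs - q * (y1 - y)) < v (q * (y1 - y)) := by
    have := hgood _ _ h3a (by rw [add_sub_cancel_left])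
    rwa [add_sub_cancel_left] at this
  have hnlb : NL L (oc q a) ys (zs - q * ys) := by
    rintro ⟨e, he, d, hdd, hl⟩
    have h5 := EP.lin hK hV h0 h4b he hdd hl
    have h6 := EP.lin hK hV h0 h3b he hdd hl
    have h7 : z4 - zs - q * (y2 - y) = e * (y2 - y) := by
      have := hwe (ys + (y2 - y)) z4
      rw [add_sub_cancel_left] at this
      rw [← this, h5, hl]
      ring
    have h8 : z3 - zs - q * (y1 - y) = e * (y1 - y) := by
      have := hwe (ys + (y1 - y)) z3
      rw [add_sub_cancel_left] at this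
      rw [← this, h6, hl]
      ring
    rw [h7, map_mul, map_mul] at h4c
    rw [h8, map_mul, map_mul] at h3c
    have h9 : v e < v q := lt_of_mul_lt_mul_right h3c hγ.le
    have h10 : v q ≤ v e := le_of_mul_le_mul_right h4c
      ((Valuation.pos_iff v).2 (sub_ne_zero.2 hne))
    exact absurd h9 (not_lt.2 h10)
  have hwa := hnlb.notMem hV
  -- the finite set of the sizes of slopes
  set V := {g : Γ | ∃ y1 z1, EP L v (oc q a) ys (zs - q * ys) y1 z1 ∧ y1 ≠ ys ∧
    v (z1 - (zs - q * ys)) = g * v (y1 - ys)} with hVdef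
  have hVfin : V.Finite := fin_slopes hK hV h0 hnt hysb hwb hnlb
  have hslopeV : ∀ y' w', EP L v (oc q a) ys (zs - q * ys) y' w' → y' ≠ ys →
      v (w' - (zs - q * ys)) / v (y' - ys) ∈ V := by
    intro y' w' h hne'
    refine ⟨y', w', h, hne', ?_⟩
    rw [div_mul_cancel₀ _ ((Valuation.ne_zero_iff v).2 (sub_ne_zero.2 hne'))]
  have hne3 : ys + (y1 - y) ≠ ys := by
    intro h
    exact sub_ne_zero.2 hne1 (by simpa using h)
  have hκne : (V ∩ {g | g < v q}).Nonempty := by
    refine ⟨_, hslopeV _ _ h3b hne3, ?_⟩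
    change v (z3 - q * (ys + (y1 - y)) - (zs - q * ys)) / v (ys + (y1 - y) - ys) < v q
    rw [hwe, add_sub_cancel_left, div_lt_iff₀ hγ, ← map_mul]
    exact h3c
  obtain ⟨κ, ⟨hκV, hκq⟩, hκmax⟩ := Set.exists_max_image (V ∩ {g | g < v q}) id
    (hVfin.subset Set.inter_subset_left) hκne
  have hκq : κ < v q := hκq
  have hκmax : ∀ g ∈ V, g < v q → g ≤ κ := fun g h h' => hκmax g ⟨h, h'⟩
  obtain ⟨yk, wk, hkE, hkne, hkv⟩ := hκV
  have hk1 : 0 < v (yk - ys) := (Valuation.pos_iff v).2 (sub_ne_zero.2 hkne)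
  have hk2 : wk ≠ zs - q * ys := EP.snd_ne hK hV h0 hnt hwb hwa hkE hkne
  have hk3 : 0 < v (wk - (zs - q * ys)) := (Valuation.pos_iff v).2 (sub_ne_zero.2 hk2)
  have hκ0 : 0 < κ := by
    rw [hkv] at hk3
    exact pos_of_mul_pos_left hk3 hk1.le
  set g := q * (yk - ys) / (wk - (zs - q * ys)) with hgdef
  have hvg : v g * κ = v q := by
    rw [hgdef, map_div₀, map_mul, hkv]
    field_simp
  have hg1 : 1 < v g := by
    by_contra h
    rw [not_lt] at h
    have h5 : v q ≤ κ := by
      rw [← hvg]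
      exact mul_le_of_le_one_left' h
    exact absurd hκq (not_lt.2 h5)
  have hgpos : 0 < v g := zero_lt_one.trans hg1
  -- the main inequality
  have hI : ∀ y' z' y'' z'', EP L v a ys zs y' z' → v (q * (y' - ys)) ≤ v (z' - zs - q * (y' - ys)) →
      EP L v a ys zs y'' z'' → v (z'' - zs - q * (y'' - ys)) < v (q * (y'' - ys)) →
      v (y' - ys) ≤ v (y'' - ys) → v (y'' - ys) ≤ v (y1 - y) →
      v g * v (y' - ys) ≤ v (y'' - ys) ∧
        v (z'' - zs - q * (y'' - ys)) ≤ κ * v (y'' - ys) := by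
    intro y' z' y'' z'' h5 h6 h7 h8 h9 h10
    have hne'' : y'' ≠ ys := by
      rintro rfl
      rw [sub_self, mul_zero, map_zero] at h8
      exact absurd h8 not_lt_zero
    have hpos : 0 < v (y'' - ys) := (Valuation.pos_iff v).2 (sub_ne_zero.2 hne'')
    have h11 := hpair' _ _ h10 h7
    have h12 := hpair' _ _ (h9.trans h10) h5
    have h13 := hκmax _ (hslopeV _ _ h11 hne'') (by
      rw [hwe, div_lt_iff₀ hpos, ← map_mul]
      exact h8)
    rw [hwe, div_le_iff₀ hpos] at h13
    have h14 := (mono_iff hK hV h0 hnt hysb hwb hnlb h11 h12).1 h9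
    rw [hwe, hwe] at h14
    refine ⟨?_, h13⟩
    have h15 : v q * v (y' - ys) ≤ κ * v (y'' - ys) := by
      rw [← map_mul]
      exact (h6.trans h14).trans h13
    rw [← hvg, mul_comm (v g) κ, mul_assoc] at h15
    exact le_of_mul_le_mul_left h15 hκ0
  refine CW_of_bad hK hV h0 hzsa (q := q) (d := y1 - y) (b := y2 - y) (b' := y1 - y) (g := g)
    (fun y' h c hc => h.trans_lt (ht1.trans (by rw [hns.dist hc]; exact ht2 c hc)))
    hl ?_ ?_ hg1 ?_
  · refine ⟨ys + (y2 - y), z4, h4a, ?_, ?_, ?_⟩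
    · rw [add_sub_cancel_left]
    · rw [add_sub_cancel_left]; exact hlt.le
    · rw [add_sub_cancel_left]; exact h4c
  · rintro ⟨y', z', h5, h6, h7, h8⟩
    exact absurd (hgood y' z' h5 (le_antisymm h7 h6)) (not_lt.2 h8)
  · rintro s hs0 ⟨y', z', h5, h6, h7, h8⟩
    by_contra hcon
    have hsv : 0 < v s := (Valuation.pos_iff v).2 hs0
    -- good scales
    have hN : ∀ y'' z'', EP L v a ys zs y'' z'' → v (g * s) ≤ v (y'' - ys) →
        v (y'' - ys) ≤ v (y1 - y) → v (z'' - zs - q * (y'' - ys)) < v (q * (y'' - ys)) := by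
      intro y'' z'' h9 h10 h11
      by_contra h12
      exact hcon ⟨y'', z'', h9, h10, h11, not_lt.1 h12⟩
    have hgs : v (g * s) ≤ v (y1 - y) := by
      have h9 := (hI _ _ _ _ h5 h8 h3a (by rw [add_sub_cancel_left]; exact h3c)
        (by rw [add_sub_cancel_left]; exact h7) (by rw [add_sub_cancel_left])).1
      rw [add_sub_cancel_left] at h9
      rw [map_mul]
      exact (mul_le_mul_right h6 _).trans h9
    have h9 : v (y' - ys) ≤ v (g * s) := by
      by_contra h10
      exact absurd (hN y' z' h5 (not_le.1 h10).le h7) (not_lt.2 h8)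
    obtain ⟨z5, h10, -⟩ := hpair (ys + g * s) (by rw [add_sub_cancel_left]; exact hgs)
    have h11 := hN _ _ h10 (by rw [add_sub_cancel_left]) (by rw [add_sub_cancel_left]; exact hgs)
    obtain ⟨h12, h13⟩ := hI _ _ _ _ h5 h8 h10 h11 (by rw [add_sub_cancel_left]; exact h9)
      (by rw [add_sub_cancel_left]; exact hgs)
    rw [add_sub_cancel_left] at h12 h13
    have h14 : v (y' - ys) ≤ v s := by
      rw [map_mul] at h12
      exact le_of_mul_le_mul_left h12 hgpos
    have h15 : v s < v (g * s) := by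
      rw [map_mul]
      exact lt_mul_of_one_lt_left hsv hg1
    obtain ⟨t', ht1', ht2'⟩ := hd _ _ h15
    obtain ⟨z6, h16, h17⟩ := hpair (ys + t') (by
      rw [add_sub_cancel_left]; exact ht2'.le.trans hgs)
    obtain ⟨-, -⟩ := (⟨trivial, trivial⟩ : True ∧ True)
    have h18 := (mono_iff hK hV h0 hnt hysb hwb hnlb (hpair' _ _ (by
      rw [add_sub_cancel_left]; exact hgs) h10) h17).1 (by
      rw [add_sub_cancel_left, add_sub_cancel_left]; exact ht2'.le)
    rw [hwe, hwe, add_sub_cancel_left, add_sub_cancel_left] at h18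
    have h19 : v (z6 - zs - q * t') < v (q * t') := by
      refine h18.trans_lt (h13.trans_lt ?_)
      rw [map_mul, map_mul, ← hvg]
      calc κ * (v g * v s) < κ * (v g * v t') :=
            mul_lt_mul_of_pos_left (mul_lt_mul_of_pos_left ht1' hgpos) hκ0
        _ = v g * κ * v t' := by ac_rfl
    have h20 := (hI _ _ _ _ h5 h8 h16 (by rw [add_sub_cancel_left]; exact h19)
      (by rw [add_sub_cancel_left]; exact h14.trans ht1'.le)
      (by rw [add_sub_cancel_left]; exact ht2'.le.trans hgs)).1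
    rw [add_sub_cancel_left] at h20
    have h21 : v (g * s) ≤ v t' := by
      rw [map_mul]
      exact (mul_le_mul_right h6 _).trans h20
    exact absurd ht2' (not_lt.2 h21)

/-- If no definable ideal as in `CW` exists for `l`, then slopes agree at scales with ratio
`v l`. -/
theorem slopes_of_not_CW {l : K} (hcw : ¬ CW L v l) {ι : Type} [Finite ι] {a : ι → K} {y z : K}
    (hy : y ∉ acl L a) (hz : z ∈ acl L (oc y a)) (hnl : NL L a y z) {y1 z1 y2 z2 : K}
    (h1 : EP L v a y z y1 z1) (h2 : EP L v a y z y2 z2) (hne2 : y2 ≠ y) (hl1 : v l ≤ 1)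
    (hl : v (y2 - y) = v l * v (y1 - y)) :
    RVeq v ((z1 - z) / (y1 - y)) ((z2 - z) / (y2 - y)) := by
  have hle : v (y2 - y) ≤ v (y1 - y) := by
    rw [hl]
    exact mul_le_of_le_one_left' hl1
  rcases hle.lt_or_eq with hlt | heq
  · by_contra hcon
    refine hcw ?_
    by_cases hd : ∀ x y : K, v x < v y → ∃ t : K, v x < v t ∧ v t < v y
    · exact dense_case hK hV h0 hnt hd hy hz hnl h1 h2 hne2 hlt hl hcon
    · push Not at hd
      obtain ⟨x0, x1, h3, h4⟩ := hd
      have hx1 : 0 < v x1 := zero_le.trans_lt h3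
      have hx0 : x0 ≠ 0 := by
        rintro rfl
        obtain ⟨t, ht0, ht1⟩ := hnt
        have h5 := h4 (t * x1) (by
          rw [map_zero, map_mul]
          exact mul_pos ((Valuation.pos_iff v).2 ht0) hx1)
        rw [map_mul] at h5
        exact absurd (mul_lt_of_lt_one_left hx1 ht1) (not_lt.2 h5)
      have hvx0 : 0 < v x0 := (Valuation.pos_iff v).2 hx0
      refine disc_case hK hV h0 hnt hy hz hnl (g := x1 / x0) ?_ ?_ h1 h2 hne2 hlt hl hcon
      · intro t ht
        by_contra h5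
        rw [not_le] at h5
        have h6 := h4 (t * x0) (by
          rw [map_mul]
          exact lt_mul_of_one_lt_left hvx0 h5)
        rw [map_div₀, lt_div_iff₀ hvx0, ← map_mul] at ht
        exact absurd ht (not_lt.2 h6)
      · rw [map_div₀, one_lt_div₀ hvx0]
        exact h3
  · have hne1 : y1 ≠ y := by
      rintro rfl
      rw [sub_self, map_zero, Valuation.zero_iff] at heq
      exact hne2 (sub_eq_zero.1 heq)
    exact same_scale hK hV h0 hnt hy hz hnl h1 h2 hne1 heq

end

end Pool.Agent.H662.Z
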