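import Pool.Agent.H662.Z4

/-!
# 0-h-minimality without definable coarsenings
-/

set_option autoImplicit false
set_option linter.unusedSectionVars false

namespace Pool.Agent.H662.Z

open FirstOrder Language Structure Set Pool.Agent.R611.HM Pool.Agent.R611.CO

universe u w

/-- No valuation ring strictly between `O` and `K` is definable with parameters. -/
def NoCoarse (L : FirstOrder.Language.{u, u}) {K : Type u} [L.Structure K] [Field K]
    (O : ValuationSubring K) : Prop :=
  ∀ O' : ValuationSubring K, O ≤ O' → (Set.univ : Set K).Definable₁ L (O' : Set K) →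
    O' = O ∨ O' = ⊤

section

variable {L : FirstOrder.Language.{u, u}} {K : Type u} [L.Structure K] [Field K]
  {O : ValuationSubring K}

/-- the multiplier ring of a fractional ideal -/
theorem exists_mulRing {B : Set K} (h0 : (0 : K) ∈ B)
    (hB : ∀ s ∈ B, ∀ t, O.valuation t ≤ O.valuation s → t ∈ B) :
    ∃ O' : ValuationSubring K, O ≤ O' ∧ ∀ x, x ∈ O' ↔ ∀ s ∈ B, x * s ∈ B := by
  have hle : ∀ x ∈ O, ∀ s ∈ B, x * s ∈ B := by
    intro x hx s hs
    refine hB s hs _ ?_
    rw [map_mul]
    exact mul_le_of_le_one_left' ((O.valuation_le_one_iff x).2 hx)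
  let S : Subring K :=
    { carrier := {x | ∀ s ∈ B, x * s ∈ B}
      mul_mem' := fun {x y} hx hy s hs => by
        rw [mul_assoc]
        exact hx _ (hy s hs)
      one_mem' := fun s hs => by rwa [one_mul]
      add_mem' := fun {x y} hx hy s hs => by
        rw [add_mul]
        rcases le_total (O.valuation (x * s)) (O.valuation (y * s)) with h | h
        · exact hB _ (hy s hs) _ (v_add_le h le_rfl)
        · exact hB _ (hx s hs) _ (v_add_le le_rfl h)
      zero_mem' := fun s _ => by rwa [zero_mul]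
      neg_mem' := fun {x} hx s hs => by
        refine hB _ (hx s hs) _ ?_
        rw [neg_mul, Valuation.map_neg] }
  exact ⟨ValuationSubring.ofLE O S (fun x hx => hle x hx), fun x hx => hle x hx, fun x => Iff.rfl⟩

/-- The predicate defining the multiplier ring is definable. -/
theorem not_CW {l : K} (hV : VF L O.valuation)
    (hl : ∀ O' : ValuationSubring K, O ≤ O' → (Set.univ : Set K).Definable₁ L (O' : Set K) →
      O' = O ∨ l⁻¹ ∈ O') (hl0 : l ≠ 0) : ¬ CW L O.valuation l := by
  rintro ⟨β, _, Q, p, hQ, hdown, ⟨b, hb, hb'⟩, g, hg, hgs⟩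
  have hQ0 : Q 0 p := hdown _ 0 hb (by rw [map_zero]; exact zero_le)
  obtain ⟨O', hO, hO'⟩ := exists_mulRing (O := O) (B := {s | Q s p}) hQ0
    (fun s hs t ht => hdown s t hs ht)
  have hdef : (Set.univ : Set K).Definable₁ L (O' : Set K) := by
    have h1 : Df L (fun w : Fin 1 ⊕ β → K => ∀ s, Q s (fun i => w (Sum.inr i)) →
        Q (w (Sum.inl 0) * s) (fun i => w (Sum.inr i))) := by
      refine Df.all1 (Q := fun s (w : Fin 1 ⊕ β → K) => Q s (fun i => w (Sum.inr i)) →
        Q (w (Sum.inl 0) * s) (fun i => w (Sum.inr i))) ?_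
      refine Df.imp ?_ ?_
      · exact hQ.relabel (β := Option (Fin 1 ⊕ β))
          (fun o : Option β => o.elim none (fun i => some (Sum.inr i)))
      · exact hQ.comp (α := Option (Fin 1 ⊕ β))
          (f := fun (o : Option β) (w : Option (Fin 1 ⊕ β) → K) =>
            o.elim (w (some (Sum.inl 0)) * w none) (fun i => w (some (Sum.inr i))))
          (by
            rintro (_ | i)
            · exact hV.fmul (dvar _) (dvar _)
            · exact dvar _)
    have h2 := h1.params (A := (Set.univ : Set K)) p (fun _ => Set.mem_univ _)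
    unfold Set.Definable₁
    convert h2 using 1
    ext x
    exact hO' (x 0)
  rcases hl O' hO hdef with h | h
  · have h1 : g ∈ O' := (hO' g).2 hgs
    rw [h, ← O.valuation_le_one_iff] at h1
    exact absurd hg (not_lt.2 h1)
  · have h2 := (hO' _).1 h _ hb
    rw [inv_mul_cancel_left₀ hl0] at h2
    exact hb' h2

theorem not_CW_of_noCoarse (hNC : NoCoarse L O) (hV : VF L O.valuation) {l : K} (hl0 : l ≠ 0) :
    ¬ CW L O.valuation l := by
  refine not_CW hV (fun O' h1 h2 => ?_) hl0
  rcases hNC O' h1 h2 with h | h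
  · exact Or.inl h
  · right
    rw [h]
    exact ValuationSubring.mem_top _

/-- the slopes at scales with ratio `v l` have the same size -/
def CSl (L : FirstOrder.Language.{u, u}) {K : Type u} [L.Structure K] [Field K]
    {Γ : Type w} [LinearOrderedCommGroupWithZero Γ] (v : Valuation K Γ) (l : K) : Prop :=
  ∀ (ι : Type) [Finite ι] (a : ι → K) (y z y1 z1 y2 z2 : K), y ∉ acl L a →
    z ∈ acl L (oc y a) → NL L a y z → EP L v a y z y1 z1 → EP L v a y z y2 z2 →
    v (y2 - y) = v l * v (y1 - y) → v (z2 - z) = v l * v (z1 - z)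

theorem CSl_of_not_CW {Γ : Type w} [LinearOrderedCommGroupWithZero Γ] {v : Valuation K Γ}
    (hK : Satur L K) (hV : VF L v) (h0 : H0R L v)
    (hnt : ∃ t : K, t ≠ 0 ∧ v t < 1) {l : K} (hl0 : l ≠ 0) (hl1 : v l ≤ 1)
    (hcw : ¬ CW L v l) : CSl L v l := by
  intro ι _ a y z y1 z1 y2 z2 hy hz hnl h1 h2 hl
  have hvl : v l ≠ 0 := (Valuation.ne_zero_iff v).2 hl0
  by_cases hne2 : y2 = y
  · have hne1 : y1 = y := by
      rw [hne2, sub_self, map_zero] at hl
      have := (mul_eq_zero.1 hl.symm).resolve_left hvl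
      exact sub_eq_zero.1 ((Valuation.zero_iff v).1 this)
    subst hne1
    have e1 : z = z1 := RE.uniq (b := oc y1 a) hK hV h1 hz
    rw [hne2] at h2
    have e2 : z = z2 := RE.uniq (b := oc y1 a) hK hV h2 hz
    rw [← e1, ← e2, sub_self, map_zero, mul_zero]
  have hne1 : y1 ≠ y := by
    rintro rfl
    rw [sub_self, map_zero, mul_zero, Valuation.zero_iff] at hl
    exact hne2 (sub_eq_zero.1 hl)
  have h3 := (slopes_of_not_CW hK hV h0 hnt hcw hy hz hnl h1 h2 hne2 hl1 hl).v_eq
  have hv1 : v (y1 - y) ≠ 0 := (Valuation.ne_zero_iff _).2 (sub_ne_zero.2 hne1)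
  have hv2 : v (y2 - y) ≠ 0 := (Valuation.ne_zero_iff _).2 (sub_ne_zero.2 hne2)
  rw [map_div₀, map_div₀, div_eq_div_iff hv2 hv1, hl] at h3
  refine mul_right_cancel₀ hv1 (Eq.trans ?_ (Eq.trans h3 ?_))
  all_goals first | rfl | (rw [mul_left_comm, mul_assoc])

theorem CS_of_CSl {Γ : Type w} [LinearOrderedCommGroupWithZero Γ] {v : Valuation K Γ}
    (hK : Satur L K) (hV : VF L v) (h : ∀ l : K, l ≠ 0 → v l ≤ 1 → CSl L v l) : CS L v := by
  intro ι _ a y z y1 z1 y2 z2 hy hz hnl h1 h2
  by_cases hne1 : y1 = y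
  · subst hne1
    have : z = z1 := RE.uniq (b := oc y1 a) hK hV h1 hz
    rw [← this, sub_self, sub_self, map_zero, zero_mul, mul_zero]
  by_cases hne2 : y2 = y
  · subst hne2
    have : z = z2 := RE.uniq (b := oc y2 a) hK hV h2 hz
    rw [← this, sub_self, sub_self, map_zero, zero_mul, mul_zero]
  have hs1 := sub_ne_zero.2 hne1
  have hs2 := sub_ne_zero.2 hne2
  have hv1 : v (y1 - y) ≠ 0 := (Valuation.ne_zero_iff _).2 hs1
  have hv2 : v (y2 - y) ≠ 0 := (Valuation.ne_zero_iff _).2 hs2
  rcases le_total (v (y2 - y)) (v (y1 - y)) with h3 | h3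
  · have e : v (y2 - y) = v ((y2 - y) / (y1 - y)) * v (y1 - y) := by
      rw [← map_mul, div_mul_cancel₀ _ hs1]
    have h4 := h _ (div_ne_zero hs2 hs1) (by
      rw [map_div₀]; exact (div_le_one₀ (zero_lt_iff.2 hv1)).2 h3) ι a y z y1 z1 y2 z2 hy hz hnl
      h1 h2 e
    rw [h4, map_div₀]
    field_simp
  · have e : v (y1 - y) = v ((y1 - y) / (y2 - y)) * v (y2 - y) := by
      rw [← map_mul, div_mul_cancel₀ _ hs2]
    have h4 := h _ (div_ne_zero hs1 hs2) (by
      rw [map_div₀]; exact (div_le_one₀ (zero_lt_iff.2 hv2)).2 h3) ι a y z y2 z2 y1 z1 hy hz hnl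
      h2 h1 e
    rw [h4, map_div₀]
    field_simp

/-- In the trivially valued case all levels hold. -/
theorem hMinAt_top' {sy : ValSymbols L} (hO : IsValued sy (⊤ : ValuationSubring K)) (s : ℕ∞) :
    HMinAt (⊤ : ValuationSubring K) L s := by
  intro lam h0 h1 A A' _ _ X _
  obtain ⟨l, rfl⟩ := (⊤ : ValuationSubring K).valuation_surjective lam
  have hl0 : l ≠ 0 := (Valuation.ne_zero_iff _).1 h0
  refine ⟨{0}, Set.finite_singleton 0, ?_, ?_⟩
  · have h2 : Df L (fun w : Fin 1 → K => w 0 = 0) := Df.eq (DfF.var 0) (hO.vf.fzero)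
    exact Set.Definable.mono h2 (Set.empty_subset A)
  · intro x x' hx
    have h2 := hx 0 rfl
    rw [sub_zero, sub_zero, rv_eq_iff hl0 h1] at h2
    have hxx : x = x' := by
      rcases h2 with ⟨h3, h4⟩ | h2
      · rw [h3, h4]
      · by_contra hne
        have h3 : (⊤ : ValuationSubring K).valuation ((x - x')⁻¹) ≤ 1 :=
          ((⊤ : ValuationSubring K).valuation_le_one_iff _).2 (ValuationSubring.mem_top _)
        have h4 : (⊤ : ValuationSubring K).valuation x ≤ 1 :=
          ((⊤ : ValuationSubring K).valuation_le_one_iff _).2 (ValuationSubring.mem_top _)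
        have h5 : (⊤ : ValuationSubring K).valuation (x - x') < 1 :=
          h2.trans_le (mul_le_one' h1 h4)
        have h6 : x - x' ≠ 0 := sub_ne_zero.2 hne
        have h7 : (⊤ : ValuationSubring K).valuation ((x - x')⁻¹ * (x - x')) < 1 := by
          rw [map_mul]
          exact (mul_le_of_le_one_left' h3).trans_lt h5
        rw [inv_mul_cancel₀ h6, map_one] at h7
        exact lt_irrefl _ h7
    rw [hxx]

end

section transfer

variable {L : FirstOrder.Language.{u, u}} {K N : Type u} [L.Structure K] [L.Structure N]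
  [Field K] [Field N] {O : ValuationSubring K} {O' : ValuationSubring N} {sy : ValSymbols L}

/-- existential statements with definable matrix descend to elementary substructures -/
theorem ex_transfer (j : K ↪ₑ[L] N) {α γ : Type} [Finite γ] {P : (α ⊕ γ → N) → Prop}
    (hP : Df L P) (w : α → K) (h : ∃ y : γ → N, P (Sum.elim (j ∘ w) y)) :
    ∃ y : γ → K, P (j ∘ Sum.elim w y) := by
  by_contra hcon
  push Not at hcon
  obtain ⟨y, hy⟩ := h
  exact all_transfer j hP.not w hcon y hy

/-- The formula version of `CW`. -/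
def CWf {M : Type u} [L.Structure M] [Field M] (R : ValuationSubring M) {β : Type}
    (φ : L.Formula (Option β)) (l : M) (p : β → M) : Prop :=
  (∀ s, ∀ t, φ.Realize (oc s p) → R.valuation t ≤ R.valuation s → φ.Realize (oc t p)) ∧
    (∃ b, φ.Realize (oc (l * b) p) ∧ ¬ φ.Realize (oc b p)) ∧
    ∃ g, R.valuation g < R.valuation (g * g) ∧ ∀ s, φ.Realize (oc s p) → φ.Realize (oc (g * s) p)

theorem one_lt_iff' {M : Type u} [Field M] {R : ValuationSubring M} (g : M) :
    1 < R.valuation g ↔ R.valuation g < R.valuation (g * g) := by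
  rw [map_mul]
  constructor
  · intro h
    exact lt_mul_of_one_lt_left (zero_lt_one.trans h) h
  · intro h
    by_contra h1
    exact absurd h (not_lt.2 (mul_le_of_le_one_left' (not_lt.1 h1)))

theorem CWf.cw {M : Type u} [L.Structure M] [Field M] {R : ValuationSubring M} {β : Type}
    [Finite β] {φ : L.Formula (Option β)} {l : M} {p : β → M} (h : CWf R φ l p) :
    CW L R.valuation l := by
  obtain ⟨h1, h2, g, hg, h3⟩ := h
  refine ⟨β, inferInstance, fun s p => φ.Realize (oc s p), p, df_iff.2 ⟨φ, fun w => ?_⟩, h1, h2, g,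
    (one_lt_iff' g).2 hg, h3⟩
  apply iff_of_eq
  refine congrArg (Formula.Realize _) ?_
  funext o
  rcases o with _ | i <;> rfl

theorem CW.exists_CWf {M : Type u} [L.Structure M] [Field M] {R : ValuationSubring M} {l : M}
    (h : CW L R.valuation l) : ∃ (β : Type) (_ : Finite β) (φ : L.Formula (Option β)) (p : β → M),
      CWf R φ l p := by
  obtain ⟨β, hβ, Q, p, hQ, hdown, ⟨b, hb, hb'⟩, g, hg, hgs⟩ := h
  obtain ⟨φ, hφ⟩ := df_iff.1 hQ
  have hFQ : ∀ s p, Q s p ↔ φ.Realize (oc s p) := fun s p => hφ (oc s p)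
  exact ⟨β, hβ, φ, p, fun s t hs hts => (hFQ _ _).1 (hdown s t ((hFQ _ _).2 hs) hts),
    ⟨b, (hFQ _ _).1 hb, fun h => hb' ((hFQ _ _).2 h)⟩, g, (one_lt_iff' g).1 hg,
    fun s hs => (hFQ _ _).1 (hgs s ((hFQ _ _).2 hs))⟩

theorem df_form {β : Type} [Finite β] (φ : L.Formula (Option β)) {δ : Type} [Finite δ]
    {f : (δ → N) → N} (hf : DfF L f) (B : β → δ) :
    Df L (fun w : δ → N => φ.Realize (oc (f w) (fun i => w (B i)))) := by
  have h1 : Df L (fun w : Option β → N => φ.Realize w) := df_iff.2 ⟨φ, fun w => Iff.rfl⟩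
  refine (h1.comp (α := δ) (f := fun (o : Option β) (w : δ → N) =>
    o.elim (f w) (fun i => w (B i))) ?_).congr fun w => ?_
  · rintro (_ | i)
    · exact hf
    · exact dvar _
  · apply iff_of_eq
    refine congrArg (Formula.Realize _) ?_
    funext o
    rcases o with _ | i <;> rfl

theorem CWf.df (hV : VF L O'.valuation) {β : Type} [Finite β] (φ : L.Formula (Option β)) :
    Df L (fun w : Option β → N => CWf O' φ (w none) (fun i => w (some i))) := by
  refine Df.and ?_ (Df.and ?_ ?_)
  · refine Df.all1 (Q := fun s (p : Option β → N) => ∀ t, φ.Realize (oc s (fun i => p (some i))) →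
      O'.valuation t ≤ O'.valuation s → φ.Realize (oc t (fun i => p (some i)))) ?_
    refine Df.all1 (Q := fun t (w : Option (Option β) → N) =>
      φ.Realize (oc (w none) (fun i => w (some (some i)))) →
      O'.valuation t ≤ O'.valuation (w none) →
      φ.Realize (oc t (fun i => w (some (some i))))) ?_
    exact Df.imp (df_form φ (dvar _) _) (Df.imp (hV.vle (dvar _) (dvar _)) (df_form φ (dvar _) _))
  · refine Df.ex1 (Q := fun b (p : Option β → N) =>
      φ.Realize (oc (p none * b) (fun i => p (some i))) ∧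
      ¬ φ.Realize (oc b (fun i => p (some i)))) ?_
    exact Df.and (df_form φ (hV.fmul (dvar _) (dvar _)) _) (df_form φ (dvar _) _).not
  · refine Df.ex1 (Q := fun g (p : Option β → N) => O'.valuation g < O'.valuation (g * g) ∧
      ∀ s, φ.Realize (oc s (fun i => p (some i))) →
        φ.Realize (oc (g * s) (fun i => p (some i)))) ?_
    refine Df.and (hV.vlt (dvar _) (hV.fmul (dvar _) (dvar _))) ?_
    refine Df.all1 (Q := fun s (w : Option (Option β) → N) =>
      φ.Realize (oc s (fun i => w (some (some i)))) →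
      φ.Realize (oc (w none * s) (fun i => w (some (some i))))) ?_
    exact Df.imp (df_form φ (dvar _) _) (df_form φ (hV.fmul (dvar _) (dvar _)) _)

theorem CWf.down (j : K ↪ₑ[L] N) (hO : IsValued sy O) (hO' : IsValued sy O') {β : Type} [Finite β]
    {φ : L.Formula (Option β)} {l : K} {p : β → K} (h : CWf O' φ (j l) (j ∘ p)) :
    CWf O φ l p := by
  have hV := hO'.vf
  have hFj : ∀ (s : K) (p : β → K), φ.Realize (oc (j s) (j ∘ p)) ↔ φ.Realize (oc s p) := by
    intro s p
    rw [← j.map_formula]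
    apply iff_of_eq
    refine congrArg (Formula.Realize _) ?_
    funext o
    rcases o with _ | i <;> rfl
  obtain ⟨h1, ⟨b, hb, hb'⟩, g, hg, hgs⟩ := h
  refine ⟨fun s t hs hts => ?_, ?_, ?_⟩
  · rw [← hFj] at hs ⊢
    exact h1 _ _ hs ((j_le j hO hO' _ _).2 hts)
  · have h5 : Df L (fun w : Option β ⊕ Unit → N =>
        φ.Realize (oc (w (Sum.inl none) * w (Sum.inr ())) (fun i => w (Sum.inl (some i)))) ∧
        ¬ φ.Realize (oc (w (Sum.inr ())) (fun i => w (Sum.inl (some i))))) :=
      Df.and (df_form φ (hV.fmul (dvar _) (dvar _)) _) (df_form φ (dvar _) _).not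
    obtain ⟨y, hy0, hy⟩ := ex_transfer j h5 (oc l p) ⟨fun _ => b, hb, hb'⟩
    refine ⟨y (), ?_, fun h => hy ((hFj _ _).2 h)⟩
    rw [← hFj]
    have h6 : φ.Realize (oc (j l * j (y ())) (j ∘ p)) := hy0
    rwa [← j_mul j hO hO'] at h6
  · have h5 : Df L (fun w : Option β ⊕ Unit → N =>
        O'.valuation (w (Sum.inr ())) < O'.valuation (w (Sum.inr ()) * w (Sum.inr ())) ∧
        ∀ s, φ.Realize (oc s (fun i => w (Sum.inl (some i)))) →
          φ.Realize (oc (w (Sum.inr ()) * s) (fun i => w (Sum.inl (some i))))) := by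
      refine Df.and (hV.vlt (dvar _) (hV.fmul (dvar _) (dvar _))) ?_
      refine Df.all1 (Q := fun s (w : Option β ⊕ Unit → N) =>
        φ.Realize (oc s (fun i => w (Sum.inl (some i)))) →
          φ.Realize (oc (w (Sum.inr ()) * s) (fun i => w (Sum.inl (some i))))) ?_
      exact Df.imp (df_form φ (dvar _) _) (df_form φ (hV.fmul (dvar _) (dvar _)) _)
    obtain ⟨y, hy1, hy2⟩ := ex_transfer j h5 (oc l p) ⟨fun _ => g, hg, hgs⟩
    refine ⟨y (), ?_, fun s hs => ?_⟩
    · have h6 : O'.valuation (j (y ())) < O'.valuation (j (y ()) * j (y ())) := hy1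
      rw [← j_mul j hO hO', ← not_le, j_le j hO hO', not_le] at h6
      exact h6
    · rw [← hFj] at hs ⊢
      have h6 : φ.Realize (oc (j (y ()) * j s) (j ∘ p)) := hy2 (j s) hs
      rwa [← j_mul j hO hO'] at h6

theorem cw_transfer (j : K ↪ₑ[L] N) (hO : IsValued sy O) (hO' : IsValued sy O') {l : K}
    (h : CW L O'.valuation (j l)) : CW L O.valuation l := by
  have hV := hO'.vf
  obtain ⟨β, hβ, φ, p, hφ⟩ := h.exists_CWf
  have h1 : Df L (fun w : Unit ⊕ β → N => CWf O' φ (w (Sum.inl ())) (fun i => w (Sum.inr i))) :=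
    (CWf.df hV φ).relabel (fun o : Option β => o.elim (Sum.inl ()) Sum.inr)
  obtain ⟨y, hy⟩ := ex_transfer j h1 (fun _ => l) ⟨p, hφ⟩
  exact (CWf.down j hO hO' (p := y) hy).cw

theorem cw_transfer' (j : K ↪ₑ[L] N) (hO : IsValued sy O) (hO' : IsValued sy O') {l : N}
    (hl : l ≠ 0) (h : CW L O'.valuation l) : ∃ l' : K, l' ≠ 0 ∧ CW L O.valuation l' := by
  have hV := hO'.vf
  obtain ⟨β, hβ, φ, p, hφ⟩ := h.exists_CWf
  have h1 : Df L (fun w : Empty ⊕ Option β → N => ¬ w (Sum.inr none) = 0 ∧
      CWf O' φ (w (Sum.inr none)) (fun i => w (Sum.inr (some i)))) :=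
    (Df.eq (dvar _) hV.fzero).not.and ((CWf.df hV φ).relabel Sum.inr)
  obtain ⟨y, hy0, hy⟩ := ex_transfer j h1 Empty.elim ⟨oc l p, hl, hφ⟩
  refine ⟨y none, fun h => hy0 ?_, (CWf.down j hO hO' (p := fun i => y (some i)) hy).cw⟩
  change j (y none) = 0
  rw [h]
  exact j_zero j hO hO'

/-- **Main theorem.** -/
theorem main_th (hO : IsValued sy O) (h : HMinTh sy K 0) (hNC : NoCoarse L O) (s : ℕ∞) :
    HMinTh sy K s := by
  intro M _ _ OM hKM hOM
  obtain ⟨N, iN, j, j', hN⟩ := exists_joint_satur hKM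
  obtain ⟨fN, ON, hON⟩ := exists_valued j hO
  have hV := hON.vf
  by_cases htop : ON = ⊤
  · subst htop
    have hMt : OM = ⊤ := by
      refine eq_top_iff.2 fun x _ => ?_
      rw [← j_mem j' hOM hON]
      exact ValuationSubring.mem_top _
    subst hMt
    exact hMinNe_of' hOM (hMinAt_top' hOM s)
  · have h1 : HMinAt ON L 0 := hMinAt_of' (h N ON j.elementarilyEquivalent hON)
    have h0 : H0R L ON.valuation := fun ι _ a y y' hy => RE_of_nr1 hON h1 a y y' hy
    have hnt := exists_small_of_ne_top htop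
    have hCS : CS L ON.valuation := CS_of_CSl hN hV fun l hl0 hl1 =>
      CSl_of_not_CW hN hV h0 hnt hl0 hl1 fun h => by
        obtain ⟨l', hl', h3⟩ := cw_transfer' j hO hON hl0 h
        exact not_CW_of_noCoarse hNC hO.vf hl' h3
    have h2 : TH L ON.valuation 1 := TH1_of_CS hN hV h0 hnt hCS
    exact hMinNe_of' hOM (hminAt_of_TH j' hOM hON hN (TH_all hN hV h2) s)

end transfer

end Pool.Agent.H662.Z
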