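import Pool.Agent.H662.Z5

/-!
# The condition of 1-h-minimality for a single `lam`
-/

set_option autoImplicit false
set_option linter.unusedSectionVars false

namespace Pool.Agent.H662.Z

open FirstOrder Language Structure Set Pool.Agent.R611.HM Pool.Agent.R611.CO

universe u w

/-- The condition of `s`-h-minimality for a single `lam`. -/
def HMinLam {K : Type u} [Field K] (O : ValuationSubring K) (L : FirstOrder.Language.{u, u})
    [L.Structure K] (s : ℕ∞) (lam : O.ValueGroup) : Prop :=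
  ∀ (A : Set K) (A' : Set (RV O lam)), A'.Finite → A'.encard ≤ s →
    ∀ X : Set K, DefinableOver O L lam A A' X →
      ∃ C : Set K, C.Finite ∧ C.Nonempty ∧ A.Definable₁ L C ∧ Prepared O lam C X

section

variable {L : FirstOrder.Language.{u, u}} {K : Type u} [L.Structure K] [Field K]
variable {Γ : Type w} [LinearOrderedCommGroupWithZero Γ] {v : Valuation K Γ}

/-- The type-level form of 1-h-minimality for a single `l`. -/
def THl (L : FirstOrder.Language.{u, u}) {K : Type u} [L.Structure K] [Field K]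
    {Γ : Type w} [LinearOrderedCommGroupWithZero Γ] (v : Valuation K Γ) (l : K) : Prop :=
  ∀ (ι : Type) [Finite ι] (a : ι → K) (Z : Set K), Z.Finite → ∀ (x y y' : K),
    nr L v l a y y' → ∃ S, Mv L v a Z S ∧ (y, y') ∈ S ∧ ∃ x', (x, x') ∈ S ∧ RVl v l x x'

theorem THl_of_CSl (hK : Satur L K) (hV : VF L v) (h0 : H0R L v)
    (hnt : ∃ t : K, t ≠ 0 ∧ v t < 1) {l : K} (hl : l ≠ 0) (hl1 : v l ≤ 1) (hC : CSl L v l) :
    THl L v l := by
  intro ι _ a Z hZ x0 y y' hn
  have hn1 : nr1 L v a y y' := nr.to1 hn hl1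
  suffices h : ∃ x', RE L v (oc x0 (oc y a)) (oc x' (oc y' a)) ∧ RVl v l x0 x' by
    obtain ⟨x', h1, h2⟩ := h
    obtain ⟨S, hS, hm⟩ := h1.exists_mv hK hV hZ
    exact ⟨S, ⟨hS.el, hS.fin, fun i => hm (some (some i)), hS.rig⟩, hm (some none), x', hm none,
      h2⟩
  by_cases hA : nr1 L v (oc x0 a) y y'
  · refine ⟨x0, (h0 _ _ y y' hA).sub (fun o => o.elim (some none)
      (fun o' => o'.elim none (fun i => some (some i)))) (by rintro (_ | _ | i) <;> rfl)
      (by rintro (_ | _ | i) <;> rfl), RVl.refl hl _⟩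
  · unfold nr1 at hA
    push Not at hA
    obtain ⟨c, hc, hcy⟩ := hA
    have hnc : nr1 L v a y c := hn1.of_le (by rw [v_sub_comm]; exact hcy)
    have hca : c ∉ acl L a := hnc.notMem'
    have hxc : x0 ∈ acl L (oc c a) := exch0 hK hV h0 hnt hca hc
    obtain ⟨c', h1⟩ := (h0 _ _ y y' hn1).ext hK hV h0 c
    obtain ⟨x', h2⟩ := h1.ext hK hV h0 x0
    have hRE : RE L v (oc x0 (oc y a)) (oc x' (oc y' a)) := h2.sub
      (fun o => o.elim none (fun o' => some (some o'))) (by rintro (_ | i) <;> rfl)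
      (by rintro (_ | i) <;> rfl)
    have hE : EP L v a c x0 c' x' := h2.sub
      (fun o => o.elim none (fun o' => o'.elim (some none) (fun i => some (some (some i)))))
      (by rintro (_ | _ | i) <;> rfl) (by rintro (_ | _ | i) <;> rfl)
    refine ⟨x', hRE, ?_⟩
    have hcc : v (c' - c) ≤ v (y' - y) := by
      have h3 : RVeq v (c - y) (c' - y') := h1.rvsub hV none (some none)
      have h4 : v (c - y - (c' - y')) ≤ v (y' - y) := by
        rcases h3 with ⟨h3, h4⟩ | h3
        · rw [h3, h4, sub_self, map_zero]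
          exact zero_le
        · exact h3.le.trans (by rw [v_sub_comm]; exact hcy)
      have e : c' - c = (y' - y) - (c - y - (c' - y')) := by ring
      rw [e]
      exact v_sub_le le_rfl h4
    by_cases hcc0 : c' = c
    · subst hcc0
      have : x0 = x' := RE.uniq hK hV (b := oc c' a) hE hxc
      rw [← this]
      exact RVl.refl hl _
    by_cases hxa : x0 ∈ acl L a
    · have : x0 = x' := RE.uniq hK hV hE.snd hxa
      rw [← this]
      exact RVl.refl hl _
    by_cases hlin : ∃ e ∈ acl L a, ∃ g ∈ acl L a, x0 = g + e * c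
    · obtain ⟨e, he, g, hg, hxe⟩ := hlin
      have hx' := EP.lin hK hV h0 hE he hg hxe
      have he0 : e ≠ 0 := by
        rintro rfl
        rw [zero_mul, add_zero] at hxe
        exact hxa (hxe ▸ hg)
      have hg' : (0 - g) / e ∈ acl L a :=
        div_mem_acl hV (sub_mem_acl hV (zero_mem_acl hV a) hg) he he0
      have h5 := hn _ hg'
      have h6 := hnc.dist hg'
      right
      have e1 : x0 - x' = -(e * (c' - c)) := by rw [hx', hxe]; ring
      have e2 : x0 = e * (c - (0 - g) / e) := by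
        rw [hxe]; field_simp; ring
      rw [e1, Valuation.map_neg, map_mul]
      conv_rhs => rw [e2, map_mul, h6]
      have he1 : 0 < v e := (Valuation.pos_iff v).2 he0
      calc v e * v (c' - c) ≤ v e * v (y' - y) := mul_le_mul_right hcc _
        _ < v e * (v l * v (y - (0 - g) / e)) := mul_lt_mul_of_pos_left h5 he1
        _ = v l * (v e * v (y - (0 - g) / e)) := by rw [mul_left_comm]
    have hnl : NL L a c x0 := hlin
    have hlv : v l ≠ 0 := (Valuation.ne_zero_iff v).2 hl
    set s := (y' - y) / l with hs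
    have hsl : y' - y = l * s := by rw [hs, mul_div_cancel₀ _ hl]
    have hns : nr1 L v a c (c + s) := by
      intro b hb
      rw [hnc.dist hb, add_sub_cancel_left, hs, map_div₀, div_lt_iff₀ (zero_lt_iff.2 hlv), mul_comm]
      exact hn b hb
    have hns' : nr1 L v a c (c + (y' - y)) := by
      intro b hb
      rw [hnc.dist hb, add_sub_cancel_left]
      exact hn1 b hb
    obtain ⟨x2, h3⟩ := (h0 _ _ c (c + s) hns).ext hK hV h0 x0
    have hE2 : EP L v a c x0 (c + s) x2 := h3
    obtain ⟨x3, h3'⟩ := (h0 _ _ c (c + (y' - y)) hns').ext hK hV h0 x0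
    have hE3 : EP L v a c x0 (c + (y' - y)) x3 := h3'
    have h4 := hC ι a c x0 (c + s) x2 (c + (y' - y)) x3 hca hxc hnl hE2 hE3
      (by rw [add_sub_cancel_left, add_sub_cancel_left, hsl, map_mul])
    have h4' : v (x' - x0) ≤ v (x3 - x0) := (mono_iff hK hV h0 hnt hca hxc hnl hE3 hE).1
      (by rw [add_sub_cancel_left]; exact hcc)
    have h5 : v (x2 - x0) < v x0 := by
      have := RE.nr hK hV h0 hE2.snd hxa 0 (zero_mem_acl hV a)
      rwa [sub_zero] at this
    right
    rw [v_sub_comm]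
    refine h4'.trans_lt ?_
    rw [h4]
    exact mul_lt_mul_of_pos_left h5 (zero_lt_iff.2 hlv)

end

section

variable {L : FirstOrder.Language.{u, u}} {K N : Type u} [L.Structure K] [L.Structure N]
  [Field K] [Field N] {O : ValuationSubring K} {O' : ValuationSubring N}
  {sy : ValSymbols L} (j : K ↪ₑ[L] N) (hO : IsValued sy O) (hO' : IsValued sy O')

include j hO hO'

/-- The type-level form of h-minimality in a saturated elementary extension gives the condition in
the small model. -/
theorem hminLam_of_THl (hN : Satur L N) {l : K} (hl0 : l ≠ 0) (hlam1 : O.valuation l ≤ 1)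
    (hT : THl L O'.valuation (j l)) : HMinLam O L 1 (O.valuation l) := by
  classical
  have hV' := hO'.vf
  suffices hmain : ∀ (A : Set K) (A' : Set (RV O (O.valuation l))), A'.Finite → A'.encard ≤ 1 →
      ∀ X : Set K, DefinableOver O L (O.valuation l) A A' X →
      ∃ C : Set K, C.Finite ∧ A.Definable₁ L C ∧ Prepared O (O.valuation l) C X by
    intro A A' hA' hcard X hX
    obtain ⟨C, hC, hCd, hCp⟩ := hmain A A' hA' hcard X hX
    refine ⟨C ∪ {0}, hC.union (Set.finite_singleton 0), ⟨0, Or.inr rfl⟩, ?_, ?_⟩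
    · have h2 : (∅ : Set K).Definable₁ L ({0} : Set K) := by
        have h3 : Df L (fun w : Fin 1 → K => w 0 = 0) := Df.eq (DfF.var 0) (hO.vf.fzero)
        exact h3
      exact hCd.union (h2.mono (Set.empty_subset A))
    · intro x x' hx
      exact hCp x x' fun c hc => hx c (Or.inl hc)
  intro A A' _ hcard X hXdef
  obtain ⟨k, n, ξ, ζ, Y, hζA, hY, hX⟩ := hXdef
  choose z hz using fun i => Quot.exists_rep (ξ i)
  obtain ⟨w0, hw0⟩ : ∃ w0 : K, ∀ i, rv O (O.valuation l) w0 = ζ i := by
    rcases n with _ | n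
    · exact ⟨0, fun i => i.elim0⟩
    · obtain ⟨w0, hw0⟩ := Quot.exists_rep (ζ 0)
      refine ⟨w0, fun i => hw0.trans ?_⟩
      exact Set.encard_le_one_iff.1 hcard _ _ (hζA 0) (hζA i)
  let w : Fin n → K := fun _ => w0
  have hw : ∀ i, rv O (O.valuation l) (w i) = ζ i := hw0
  obtain ⟨p, a, φ, ha, hφ⟩ := df_of_definable hY
  have hXm : ∀ (z1 : Fin k → K) (w1 : Fin n → K), (∀ i, RVeq O.valuation (z i) (z1 i)) →
      (∀ i, RVl O.valuation l (w i) (w1 i)) → ∀ x, x ∈ X ↔
        φ.Realize (Sum.elim a (fun o : Option (Fin k ⊕ Fin n) => o.elim x (Sum.elim z1 w1))) := by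
    intro z1 w1 hz1 hw1 x
    rw [← hφ, hX z1 w1 (fun i => ?_) (fun i => ?_)]
    · rfl
    · rw [← hz i]
      exact ((rv_one_iff _ _).2 (hz1 i)).symm
    · rw [← hw i]
      exact ((rv_eq_iff hl0 hlam1 _ _).2 (hw1 i)).symm
  by_contra hcon
  push Not at hcon
  let q0 : Fin p ⊕ (Unit ⊕ (Fin k ⊕ Fin n)) → K :=
    Sum.elim a (Sum.elim (fun _ => l) (Sum.elim z w))
  -- evaluation of the formula in `N`
  let F : N → (Fin p → N) → (Fin k ⊕ Fin n → N) → Prop := fun y a zw =>
    φ.Realize (Sum.elim a (fun o : Option (Fin k ⊕ Fin n) => o.elim y zw))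
  have hF : ∀ {β : Type} [Finite β] (i0 : β) (ia : Fin p → β) (iz : Fin k ⊕ Fin n → β),
      Df L (fun q : β → N => F (q i0) (fun i => q (ia i)) (fun i => q (iz i))) := by
    intro β _ i0 ia iz
    rw [df_iff]
    refine ⟨φ.relabel (Sum.elim ia (fun o => o.elim i0 iz)), fun q => ?_⟩
    rw [Formula.realize_relabel]
    apply iff_of_eq
    refine congrArg (Formula.Realize _) ?_
    funext i
    rcases i with i | _ | i <;> rfl
  have hFj : ∀ (y : K) (z1 : Fin k → K) (w1 : Fin n → K), F (j y) (j ∘ a)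
      (Sum.elim (j ∘ z1) (j ∘ w1)) ↔
      φ.Realize (Sum.elim a (fun o : Option (Fin k ⊕ Fin n) => o.elim y (Sum.elim z1 w1))) := by
    intro y z1 w1
    rw [← j.map_formula]
    apply iff_of_eq
    refine congrArg (Formula.Realize _) ?_
    funext i
    rcases i with i | _ | i | i <;> rfl
  let T2 : Set ((Bool ⊕ (Fin p ⊕ (Unit ⊕ (Fin k ⊕ Fin n))) → N) → Prop) :=
    {R | ∃ P ∈ FD L (j ∘ a), R = fun q => ∀ c, P (fun i => q (Sum.inr (Sum.inl i))) c →
      RVl O'.valuation (q (Sum.inr (Sum.inr (Sum.inl ())))) (q (Sum.inl true) - c)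
        (q (Sum.inl false) - c)}
  let R0 : (Bool ⊕ (Fin p ⊕ (Unit ⊕ (Fin k ⊕ Fin n))) → N) → Prop := fun q =>
    F (q (Sum.inl true)) (fun i => q (Sum.inr (Sum.inl i)))
      (fun i => q (Sum.inr (Sum.inr (Sum.inr i)))) ∧
    ¬ F (q (Sum.inl false)) (fun i => q (Sum.inr (Sum.inl i)))
      (fun i => q (Sum.inr (Sum.inr (Sum.inr i))))
  obtain ⟨u', hu'⟩ := hN Bool (Fin p ⊕ (Unit ⊕ (Fin k ⊕ Fin n))) (j ∘ q0) (T2 ∪ {R0}) (by
      rintro R (⟨P, hP, rfl⟩ | hR)
      · refine Df.all1 (Q := fun c (q : Bool ⊕ (Fin p ⊕ (Unit ⊕ (Fin k ⊕ Fin n))) → N) =>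
          P (fun i => q (Sum.inr (Sum.inl i))) c →
          RVl O'.valuation (q (Sum.inr (Sum.inr (Sum.inl ())))) (q (Sum.inl true) - c)
            (q (Sum.inl false) - c)) ?_
        refine Df.imp ?_ (hV'.rvl (dvar _) (hV'.fsub (dvar _) (dvar _))
          (hV'.fsub (dvar _) (dvar _)))
        exact hP.1.relabel (β := Option (Bool ⊕ (Fin p ⊕ (Unit ⊕ (Fin k ⊕ Fin n)))))
          (fun o : Option (Fin p) => (o.elim none (fun i => some (Sum.inr (Sum.inl i))) :
            Option (Bool ⊕ (Fin p ⊕ (Unit ⊕ (Fin k ⊕ Fin n))))))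
      · rw [Set.mem_singleton_iff] at hR
        rw [hR]
        exact (hF _ _ _).and (hF _ _ _).not) (by
    intro Rs hRs hfin
    have hch : ∀ R : Rs, ∃ P : (Fin p → N) → N → Prop, P ∈ FD L (j ∘ a) ∧ (R.1 ∈ T2 →
        R.1 = fun q => ∀ c, P (fun i => q (Sum.inr (Sum.inl i))) c →
          RVl O'.valuation (q (Sum.inr (Sum.inr (Sum.inl ())))) (q (Sum.inl true) - c)
            (q (Sum.inl false) - c)) := by
      intro R
      by_cases hR : R.1 ∈ T2
      · obtain ⟨P, hP, he⟩ := hR
        exact ⟨P, hP, fun _ => he⟩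
      · refine ⟨fun _ _ => False, ⟨Df.const _, ?_⟩, fun h' => absurd h' hR⟩
        convert Set.finite_empty using 1
        ext x
        simp
    choose P hP hPe using hch
    have := hfin.to_subtype
    let C : Set K := ⋃ R : Rs, {x | P R (j ∘ a) (j x)}
    have hCf : C.Finite := Set.finite_iUnion fun R =>
      (hP R).2.preimage j.injective.injOn
    choose ψ hψ using fun R : Rs => df_iff.1 (hP R).1
    have hCm : ∀ x, x ∈ C ↔ ∃ R : Rs, (ψ R).Realize (fun o : Option (Fin p) => o.elim x a) := by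
      intro x
      simp only [C, Set.mem_iUnion, Set.mem_ofPred_eq]
      refine exists_congr fun R => ?_
      rw [← j.map_formula, ← hψ R]
      rfl
    have hCd : A.Definable₁ L C := by
      have hD : Df L (fun q : Fin 1 ⊕ Fin p → K => ∃ R : Rs, (ψ R).Realize
          (fun o : Option (Fin p) => o.elim (q (Sum.inl 0)) (fun i => q (Sum.inr i)))) := by
        refine Df.ex_fin fun R => ?_
        rw [df_iff]
        refine ⟨(ψ R).relabel (fun o => o.elim (Sum.inl 0) Sum.inr), fun q => ?_⟩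
        rw [Formula.realize_relabel]
        apply iff_of_eq
        refine congrArg (Formula.Realize _) ?_
        funext i
        rcases i with _ | i <;> rfl
      have h2 := hD.params a ha
      unfold Set.Definable₁
      convert h2 using 1
      ext x
      exact hCm (x 0)
    have hnp := hcon C hCf hCd
    unfold Prepared at hnp
    push Not at hnp
    obtain ⟨y, y', hyy, hyX, hy'X⟩ : ∃ y y' : K, (∀ c ∈ C, RVl O.valuation l (y - c) (y' - c)) ∧
        y ∈ X ∧ y' ∉ X := by
      obtain ⟨x, x', h2, h3⟩ := hnp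
      have h2' : ∀ c ∈ C, RVl O.valuation l (x - c) (x' - c) := fun c hc =>
        (rv_eq_iff hl0 hlam1 _ _).1 (h2 c hc)
      by_cases hx : x ∈ X
      · by_cases hx' : x' ∈ X
        · rcases h3 with h3 | h3
          · exact absurd hx' h3.2
          · exact absurd hx h3.1
        · exact ⟨x, x', h2', hx, hx'⟩
      · by_cases hx' : x' ∈ X
        · exact ⟨x', x, fun c hc => (h2' c hc).symm' hlam1, hx', hx⟩
        · rcases h3 with h3 | h3
          · exact absurd h3.1 hx
          · exact absurd h3.2 hx'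
    refine ⟨fun b => if b then j y else j y', fun R hR => ?_⟩
    by_cases hRT : R ∈ T2
    · have e := hPe ⟨R, hR⟩ hRT
      change R _
      rw [show R = (⟨R, hR⟩ : Rs).1 from rfl, e]
      -- transfer
      let G : ((Fin p ⊕ (Unit ⊕ Bool)) ⊕ Unit → N) → Prop := fun q =>
        P ⟨R, hR⟩ (fun i => q (Sum.inl (Sum.inl i))) (q (Sum.inr ())) →
          RVl O'.valuation (q (Sum.inl (Sum.inr (Sum.inl ()))))
            (q (Sum.inl (Sum.inr (Sum.inr true))) - q (Sum.inr ()))
            (q (Sum.inl (Sum.inr (Sum.inr false))) - q (Sum.inr ()))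
      have hG : Df L G := by
        refine Df.imp ?_ (hV'.rvl (dvar _) (hV'.fsub (dvar _) (dvar _))
          (hV'.fsub (dvar _) (dvar _)))
        exact (hP ⟨R, hR⟩).1.relabel (β := (Fin p ⊕ (Unit ⊕ Bool)) ⊕ Unit)
          (fun o : Option (Fin p) => (o.elim (Sum.inr ()) (fun i => Sum.inl (Sum.inl i)) :
            (Fin p ⊕ (Unit ⊕ Bool)) ⊕ Unit))
      have h4 := all_transfer j hG (Sum.elim a (Sum.elim (fun _ => l)
        (fun b : Bool => if b then y else y'))) (fun c => by
          intro hc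
          have hcC : c () ∈ C := Set.mem_iUnion.2 ⟨⟨R, hR⟩, hc⟩
          have := hyy _ hcC
          rw [← j_rvl j hO hO', j_sub j hO hO', j_sub j hO hO'] at this
          exact this)
      intro c hc
      exact h4 (fun _ => c) hc
    · rcases hRs hR with h | h
      · exact absurd h hRT
      · rw [Set.mem_singleton_iff] at h
        rw [h]
        refine ⟨?_, ?_⟩
        · have := (hFj y z w).2 ((hXm z w (fun i => RVeq.refl _) (fun i => RVl.refl hl0 _) y).1
            hyX)
          refine (iff_of_eq ?_).1 this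
          refine congrArg (F (j y) (j ∘ a)) ?_
          funext i
          rcases i with i | i <;> rfl
        · intro hc
          refine hy'X ((hXm z w (fun i => RVeq.refl _) (fun i => RVl.refl hl0 _) y').2
            ((hFj y' z w).1 ?_))
          refine (iff_of_eq ?_).1 hc
          refine congrArg (F (j y') (j ∘ a)) ?_
          funext i
          rcases i with i | i <;> rfl)
  -- the two points
  set y := u' true with hy
  set y' := u' false with hy'
  obtain ⟨hFy, hFy'⟩ := hu' R0 (Or.inr rfl)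
  change F y (j ∘ a) (fun i => (j ∘ q0) (Sum.inr (Sum.inr i))) at hFy
  change ¬ F y' (j ∘ a) (fun i => (j ∘ q0) (Sum.inr (Sum.inr i))) at hFy'
  have ezw : (fun i : Fin k ⊕ Fin n => (j ∘ q0) (Sum.inr (Sum.inr i))) =
      Sum.elim (j ∘ z) (j ∘ w) := by
    funext i
    rcases i with i | i <;> rfl
  rw [ezw] at hFy hFy'
  have hacl : ∀ c ∈ acl L (j ∘ a), RVl O'.valuation (j l) (y - c) (y' - c) := by
    rintro c ⟨P, hP, hPc⟩
    exact hu' _ (Or.inl ⟨P, hP, rfl⟩) c hPc
  have hne : y ≠ y' := fun h => hFy' (h ▸ hFy)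
  have hnr : nr L O'.valuation (j l) (j ∘ a) y y' := by
    intro c hc
    rcases hacl c hc with ⟨h1, h2⟩ | h1
    · exact absurd ((sub_eq_zero.1 h1).trans (sub_eq_zero.1 h2).symm) hne
    · have e : y - c - (y' - c) = -(y' - y) := by ring
      rwa [e, Valuation.map_neg] at h1
  have hjl0 : j l ≠ 0 := fun h => hl0 (j.injective (h.trans (j_zero j hO hO').symm))
  have hjl1 : O'.valuation (j l) ≤ 1 := by
    rw [O'.valuation_le_one_iff, j_mem j hO hO', ← O.valuation_le_one_iff]
    exact hlam1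
  obtain ⟨S, hS, hyS, w20, hw20, hw20r⟩ := hT (Fin p) (j ∘ a) (Set.range (j ∘ z))
    (Set.finite_range _) (j w0) y y' hnr
  choose z2 hz2 hz2r using fun i => hS.rig (j (z i)) ⟨i, rfl⟩
  let w2 : Fin n → N := fun _ => w20
  have hw2 : ∀ i, (j (w i), w2 i) ∈ S := fun _ => hw20
  have hw2r : ∀ i, RVl O'.valuation (j l) (j (w i)) (w2 i) := fun _ => hw20r
  have hE := hS.el (Option (Fin p ⊕ (Fin k ⊕ Fin n))) (fun o => o.elim (y, y')
    (Sum.elim (fun i => (j (a i), j (a i))) (Sum.elim (fun i => (j (z i), z2 i))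
      (fun i => (j (w i), w2 i)))))
    (by
      rintro (_ | i | i | i)
      · exact hyS
      · exact hS.fix i
      · exact hz2 i
      · exact hw2 i) _ (hF none (fun i => some (Sum.inl i)) (fun i => some (Sum.inr i)))
  have hF2 : F y' (j ∘ a) (Sum.elim z2 w2) := by
    have h5 : F y (j ∘ a) (Sum.elim (j ∘ z) (j ∘ w)) ↔ F y' (j ∘ a) (Sum.elim z2 w2) := by
      refine Iff.trans (iff_of_eq ?_) (hE.trans (iff_of_eq ?_))
      · refine congrArg (F y (j ∘ a)) ?_
        funext i
        rcases i with i | i <;> rfl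
      · refine congrArg (F y' (j ∘ a)) ?_
        funext i
        rcases i with i | i <;> rfl
    exact h5.1 hFy
  -- invariance in `N`
  let I : ((Fin p ⊕ (Unit ⊕ (Fin k ⊕ Fin n))) ⊕ (Unit ⊕ (Fin k ⊕ Fin n)) → N) → Prop := fun q =>
    (∀ i : Fin k, RVeq O'.valuation (q (Sum.inl (Sum.inr (Sum.inr (Sum.inl i)))))
      (q (Sum.inr (Sum.inr (Sum.inl i))))) →
    (∀ i : Fin n, RVl O'.valuation (q (Sum.inl (Sum.inr (Sum.inl ()))))
      (q (Sum.inl (Sum.inr (Sum.inr (Sum.inr i))))) (q (Sum.inr (Sum.inr (Sum.inr i))))) →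
    (F (q (Sum.inr (Sum.inl ()))) (fun i => q (Sum.inl (Sum.inl i)))
      (fun i => q (Sum.inr (Sum.inr i))) ↔
     F (q (Sum.inr (Sum.inl ()))) (fun i => q (Sum.inl (Sum.inl i)))
      (fun i => q (Sum.inl (Sum.inr (Sum.inr i)))))
  have hI : Df L I := Df.imp (Df.all_fin fun i => hV'.rveq (dvar _) (dvar _))
    (Df.imp (Df.all_fin fun i => hV'.rvl (dvar _) (dvar _) (dvar _))
      (Df.iff (hF _ _ _) (hF _ _ _)))
  have h6 := all_transfer j hI q0 (fun s => by
    intro h7 h8
    have h7' : ∀ i, RVeq O.valuation (z i) (s (Sum.inr (Sum.inl i))) := fun i =>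
      (j_rveq j hO hO' _ _).1 (h7 i)
    have h8' : ∀ i, RVl O.valuation l (w i) (s (Sum.inr (Sum.inr i))) := fun i =>
      (j_rvl j hO hO' _ _ _).1 (h8 i)
    have h9 := hXm _ _ h7' h8' (s (Sum.inl ()))
    have h10 := hXm z w (fun i => RVeq.refl _) (fun i => RVl.refl hl0 _) (s (Sum.inl ()))
    rw [← hFj] at h9 h10
    refine Iff.trans (iff_of_eq ?_) (h9.symm.trans (h10.trans (iff_of_eq ?_)))
    · refine congrArg (F _ _) ?_
      funext i
      rcases i with i | i <;> rfl
    · refine congrArg (F _ _) ?_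
      funext i
      rcases i with i | i <;> rfl)
    (Sum.elim (fun _ => y') (Sum.elim z2 w2)) hz2r hw2r
  refine hFy' ?_
  have h11 : F y' (j ∘ a) (Sum.elim z2 w2) ↔ F y' (j ∘ a) (Sum.elim (j ∘ z) (j ∘ w)) := by
    refine Iff.trans (iff_of_eq ?_) (h6.trans (iff_of_eq ?_))
    · refine congrArg (F y' (j ∘ a)) ?_
      funext i
      rcases i with i | i <;> rfl
    · refine congrArg (F y' (j ∘ a)) ?_
      funext i
      rcases i with i | i <;> rfl
  exact h11.1 hF2


end

end Pool.Agent.H662.Z
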