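import Pool.Agent.H662.Z6

/-!
# The main theorem: 0-h-minimality and definable coarsenings
-/

set_option autoImplicit false
set_option linter.unusedSectionVars false

namespace Pool.Agent.H662.Z

open FirstOrder Language Structure Set Pool.Agent.R611.HM Pool.Agent.R611.CO

universe u w

variable {L : FirstOrder.Language.{u, u}} {K : Type u} [L.Structure K] [Field K]
  {O : ValuationSubring K} {sy : ValSymbols L}

/-- The condition of 1-h-minimality for a single `lam` which is a unit of all the definable
coarsenings. -/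
theorem main_lam (hO : IsValued sy O) (h : HMinTh sy K 0) {l : K} (hl0 : l ≠ 0)
    (hl1 : O.valuation l ≤ 1)
    (hR : ∀ R : ValuationSubring K, O ≤ R → (Set.univ : Set K).Definable₁ L (R : Set K) →
      R = O ∨ l⁻¹ ∈ R) : HMinLam O L 1 (O.valuation l) := by
  by_cases htop : O = ⊤
  · subst htop
    have h1 : HMinNe (⊤ : ValuationSubring K) L 1 := hMinNe_of' hO (hMinAt_top' hO 1)
    exact h1 _ ((Valuation.ne_zero_iff _).2 hl0) hl1
  obtain ⟨N, iN, j, hN⟩ := exists_satur_extension (L := L) K
  obtain ⟨fN, ON, hON⟩ := exists_valued j hO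
  have hV := hON.vf
  have hNtop : ON ≠ ⊤ := by
    rintro rfl
    refine htop (eq_top_iff.2 fun x _ => ?_)
    rw [← j_mem j hO hON]
    exact ValuationSubring.mem_top _
  have h1 : HMinAt ON L 0 := hMinAt_of' (h N ON j.elementarilyEquivalent hON)
  have h0 : H0R L ON.valuation := fun ι _ a y y' hy => RE_of_nr1 hON h1 a y y' hy
  have hnt := exists_small_of_ne_top hNtop
  have hjl0 : j l ≠ 0 := fun h => hl0 (j.injective (h.trans (j_zero j hO hON).symm))
  have hjl1 : ON.valuation (j l) ≤ 1 := by
    rw [ON.valuation_le_one_iff, j_mem j hO hON, ← O.valuation_le_one_iff]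
    exact hl1
  have hcw : ¬ CW L ON.valuation (j l) := fun h =>
    not_CW hO.vf hR hl0 (cw_transfer j hO hON h)
  exact hminLam_of_THl j hO hON hN hl0 hl1
    (THl_of_CSl hN hV h0 hnt hjl0 hjl1 (CSl_of_not_CW hN hV h0 hnt hjl0 hjl1 hcw))

/-- the 0-h-minimality of the expansion by a coarsening -/
theorem coarse_zero (hO : IsValued sy O) (h : HMinTh sy K 0) {Oc : ValuationSubring K}
    (hle : O ≤ Oc) (hnt : Oc ≠ ⊤) :
    letI : CoLang.{u}.Structure K := coStr Oc
    IsValued (coSym sy) Oc ∧ HMinTh (coSym sy) K 0 := by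
  let _ : CoLang.{u}.Structure K := coStr Oc
  have hc : CharZero (IsLocalRing.ResidueField Oc) :=
    charZero_of_nat _ (nat_of_le hle hO.vf.nat)
  have hT : HMin sy (L.completeTheory K) 0 := by
    intro K' _ _ O' hK' hO'
    refine hMinAt_of' (h K' O' ?_ hO')
    rw [elementarilyEquivalent_iff]
    intro φ
    constructor
    · intro hφ
      exact Theory.realize_sentence_of_mem (L.completeTheory K) (mem_completeTheory.2 hφ)
    · intro hφ
      by_contra hcon
      have h1 : K ⊨ φ.not := (Sentence.realize_not K).2 hcon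
      have h2 : K' ⊨ φ.not := Theory.realize_sentence_of_mem
        (L.completeTheory K) (mem_completeTheory.2 h1)
      exact (Sentence.realize_not K').1 h2 hφ
  refine ⟨isValued_co hO hc, ?_⟩
  intro K' _ _ O' hK' hO'
  refine hMinNe_of' hO' (coars_of_hMin hT K O inferInstance hO Oc hle hnt hc K' O' ?_ hO')
  rw [Theory.model_iff]
  intro φ hφ
  exact (elementarilyEquivalent_iff.1 hK' φ).1 (mem_completeTheory.1 hφ)

end Pool.Agent.H662.Z
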